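import Pool.Agent.CTW.Bas

/-!
# CTW module CLO: `Z` is closed under the operations

PROOFS. `xp_mem`: `(p', x') ↦ xp p' x'` is continuous and `jj p' x' ≠ 0` near `(p, x)`; `(p, x)` is in the closure of
`S ×ˢ {rational}` (`closure_prod_eq`, `dense_isRat`); for `p' ∈ S`, `x'` rational with `jj ≠ 0`: `F (xp) = F p' (jj)³`
(`F_xp`), `mem_S_of`. `mem_of_c4`: `xp p z = (-(3 F p c3)) • z` (`xp_of_c4`), and `jj p z = - 3 c3 L ≠ 0` since
`L ^ 3 = F p ^ 2 F z ≠ 0`; `xp_mem` and `mem_Z_of_smul`. `mg_mem`: the same for `mg`, `F_mg`, `G_of_S`.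
-/

set_option autoImplicit false

open Set Topology Filter MvPolynomial
open Pool.Agent.MZ Pool.Agent.QS

namespace Pool.Agent.CTW

namespace Cb

variable {m : ℕ} {C : Cb m}

private theorem clo_jj : Continuous fun z : V m × V m => C.jj z.1 z.2 := by
  have hF : Continuous fun z : V m × V m => C.F z.1 :=
    continuous_comp continuous_fst continuous_fst continuous_fst
  have hFx : Continuous fun z : V m × V m => C.F z.2 :=
    continuous_comp continuous_snd continuous_snd continuous_snd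
  have hL : Continuous fun z : V m × V m => C.T z.1 z.1 z.2 :=
    continuous_comp continuous_fst continuous_fst continuous_snd
  have hQ : Continuous fun z : V m × V m => C.T z.1 z.2 z.2 :=
    continuous_comp continuous_fst continuous_snd continuous_snd
  have h3 : Continuous fun z : V m × V m => C.c3 z.1 z.2 := (hF.mul hQ).sub (hL.pow 2)
  have h4 : Continuous fun z : V m × V m => C.c4 z.1 z.2 :=
    ((hF.pow 2).mul hFx).sub (hL.pow 3)
  exact h4.sub ((continuous_const.mul h3).mul hL)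

theorem xp_mem {p : V m} (hpZ : p ∈ C.Z) {x : V m} (hj : C.jj p x ≠ 0) : C.xp p x ∈ C.Z := by
  have hz : ((p, x) : V m × V m) ∈ closure (C.S ×ˢ {x : V m | IsRat x}) := by
    rw [closure_prod_eq]
    exact ⟨hpZ, dense_isRat x⟩
  have hev : ∀ᶠ z : V m × V m in 𝓝 (p, x), C.jj z.1 z.2 ≠ 0 :=
    (clo_jj (C := C)).continuousAt.eventually_ne hj
  have hfr := (mem_closure_iff_frequently.1 hz).and_eventually hev
  have hf : Tendsto (fun z : V m × V m => C.xp z.1 z.2) (𝓝 (p, x)) (𝓝 (C.xp p x)) :=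
    (continuous_xp (C := C)).tendsto (p, x)
  have hfr2 : ∃ᶠ z : V m × V m in 𝓝 (p, x), C.xp z.1 z.2 ∈ C.S := by
    refine hfr.mono ?_
    rintro z ⟨⟨h1, h2⟩, h3⟩
    exact mem_S_of (isRat_xp h1.1 h2) h1 (isQ_jj h1.1 h2) h3 (F_xp z.1 z.2)
  exact mem_closure_iff_frequently.2 (hf.frequently hfr2)

theorem mem_of_c4 {p : V m} (hp : C.F p ≠ 0) (hpZ : p ∈ C.Z) {z : V m} (h4 : C.c4 p z = 0)
    (h3 : C.c3 p z ≠ 0) (hF : C.F z ≠ 0) : z ∈ C.Z := by
  have h5 := xp_of_c4 h4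
  have h6 : -(3 * C.F p * C.c3 p z) ≠ 0 :=
    neg_ne_zero.2 (mul_ne_zero (mul_ne_zero (by norm_num) hp) h3)
  have hL : C.T p p z ≠ 0 := by
    intro h7
    have h8 : (C.F p) ^ 2 * C.F z = 0 := by
      have h9 := h4
      unfold c4 at h9
      rw [h7] at h9
      linarith
    exact mul_ne_zero (pow_ne_zero 2 hp) hF h8
  have hj : C.jj p z ≠ 0 := by
    unfold jj
    rw [h4, zero_sub]
    exact neg_ne_zero.2 (mul_ne_zero (mul_ne_zero (by norm_num) h3) hL)
  have h10 := xp_mem hpZ hj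
  rw [h5] at h10
  exact mem_Z_of_smul h6 h10

theorem mg_mem {x y : V m} (hx : x ∈ C.Z) (hy : y ∈ C.Z) (h : C.G (C.mg x y) ≠ 0) :
    C.mg x y ∈ C.Z := by
  have hz : ((x, y) : V m × V m) ∈ closure (C.S ×ˢ C.S) := by
    rw [closure_prod_eq]
    exact ⟨hx, hy⟩
  have hev : ∀ᶠ z : V m × V m in 𝓝 (x, y), C.G (C.mg z.1 z.2) ≠ 0 :=
    ((continuous_G (C := C)).comp (continuous_mg (C := C))).continuousAt.eventually_ne h
  have hfr := (mem_closure_iff_frequently.1 hz).and_eventually hev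
  have hf : Tendsto (fun z : V m × V m => C.mg z.1 z.2) (𝓝 (x, y)) (𝓝 (C.mg x y)) :=
    (continuous_mg (C := C)).tendsto (x, y)
  suffices hfr2 : ∃ᶠ z : V m × V m in 𝓝 (x, y), C.mg z.1 z.2 ∈ C.S from
    mem_closure_iff_frequently.2 (hf.frequently hfr2)
  refine hfr.mono ?_
  rintro ⟨x', y'⟩ ⟨⟨h1, h2⟩, h3⟩
  have hA : IsQ (C.nA x' y') :=
    (C.rat _ _ _ h1.1 h2.1 h2.1).sub ((G_of_S h1).mul ((G_of_S h2).pow 2))
  have hB : IsQ (C.nB x' y') :=
    (C.rat _ _ _ h1.1 h1.1 h2.1).sub (((G_of_S h1).pow 2).mul (G_of_S h2))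
  refine ⟨(IsRat.smul hA h1.1).sub (IsRat.smul hB h2.1),
    C.nA x' y' * C.G x' - C.nB x' y' * C.G y', (hA.mul (G_of_S h1)).sub (hB.mul (G_of_S h2)),
    ?_, F_mg x' y'⟩
  rw [← G_mg]
  exact h3

end Cb

end Pool.Agent.CTW
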