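import Pool.Agent.CTW.Bad
import Pool.Agent.CTW.Clo

/-!
# CTW module PCB: consequences for bad points

PROOF of `pieces_of_bad`. As `Pool.Agent.QS.Qrt.pieces_of_bad` (QS/Tth.lean): `exists_sec` for `P = S`, `span_of_pieces` with `G = F`; `sec_mem`:
for `a, b ∈ B` (in `S`), `F_expand` with `c3 a b = c4 a b = 0`: `F(a)² F(u a + v b) = (u F a + v T a a b)³`, so the value is `F a` times the cube
of the rational number `(u F a + v T a a b) / F a` (`mem_S_of`). For `x ∈ span (B j) = zc (B j)`: `c4 a x = 0`, so `F x = F a (T a a x / F a)³`.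

PROOF of `bad_classes`. `exists_sec` for `P = {p | IsRat p, F p ≠ 0, ¬ Good p}`; for each `i` choose `b i ∈ B i` (`Irr` sets are nonempty) and let `E`
contain the rational number `F (b i)`. If `p ∈ B i`: `c4 (b i) p = 0`: `F p = F (b i) (T b b p / F b)³`. So if `(C.tw a).S` contains `p` with `¬ Good p`
(note `(C.tw a).Good p ↔ C.Good p`: `c3` and `c4` are multiplied by `a⁻²` and `a⁻³`), `F p = a r³`, so `a = e s³` with `e = F (b i)`.
As QTW/Tb.lean.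
-/

set_option autoImplicit false

open Set Topology Filter MvPolynomial
open Pool.Agent.MZ Pool.Agent.QS

namespace Pool.Agent.CTW

namespace Cb

variable {m : ℕ} {C : Cb m}

theorem tw_F (a : ℚ) (x : V m) : (C.tw a).F x = (a : ℝ)⁻¹ * C.F x := rfl

private theorem tw_T (a : ℚ) (x y z : V m) : (C.tw a).T x y z = (a : ℝ)⁻¹ * C.T x y z := rfl

theorem mem_S_tw {a : ℚ} (ha : a ≠ 0) {x : V m} :
    x ∈ (C.tw a).S ↔ IsRat x ∧ ∃ r : ℝ, IsQ r ∧ r ≠ 0 ∧ C.F x = a * r ^ 3 := by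
  have haR : (a : ℝ) ≠ 0 := by exact_mod_cast ha
  have key : ∀ r : ℝ, (C.tw a).F x = r ^ 3 ↔ C.F x = a * r ^ 3 := by
    intro r
    rw [tw_F]
    constructor
    · intro h
      rw [← h, mul_inv_cancel_left₀ haR]
    · intro h
      rw [h, inv_mul_cancel_left₀ haR]
  constructor
  · rintro ⟨hx, r, hr, hr0, h⟩
    exact ⟨hx, r, hr, hr0, (key r).1 h⟩
  · rintro ⟨hx, r, hr, hr0, h⟩
    exact ⟨hx, r, hr, hr0, (key r).2 h⟩

private theorem tw_c3 (a : ℚ) (p x : V m) : (C.tw a).c3 p x = ((a : ℝ)⁻¹) ^ 2 * C.c3 p x := by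
  unfold c3
  rw [tw_F, tw_T, tw_T]
  ring

private theorem tw_c4 (a : ℚ) (p x : V m) : (C.tw a).c4 p x = ((a : ℝ)⁻¹) ^ 3 * C.c4 p x := by
  unfold c4
  rw [tw_F, tw_F, tw_T]
  ring

private theorem tw_jj (a : ℚ) (p x : V m) : (C.tw a).jj p x = ((a : ℝ)⁻¹) ^ 3 * C.jj p x := by
  unfold jj
  rw [tw_c3, tw_c4, tw_T]
  ring

theorem good_tw {a : ℚ} (ha : a ≠ 0) {p : V m} : (C.tw a).Good p ↔ C.Good p := by
  have haR : (a : ℝ)⁻¹ ≠ 0 := inv_ne_zero (by exact_mod_cast ha)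
  unfold Good
  simp only [tw_c3, tw_jj, ne_eq, mul_eq_zero, pow_eq_zero_iff, haR, false_or, OfNat.ofNat_ne_zero,
    not_false_eq_true]

theorem bin_tw {a : ℚ} (ha : a ≠ 0) : (C.tw a).Bin ↔ C.Bin := by
  have haR : (a : ℝ)⁻¹ ≠ 0 := inv_ne_zero (by exact_mod_cast ha)
  unfold Bin
  simp only [tw_F, mul_right_inj' haR]

theorem cube_tw {a : ℚ} (ha : a ≠ 0) : (C.tw a).Cube ↔ C.Cube := by
  have haR : (a : ℝ) ≠ 0 := by exact_mod_cast ha
  constructor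
  · rintro ⟨l, hl⟩
    refine ⟨cr (a : ℝ) • l, fun x => ?_⟩
    have h := hl x
    rw [tw_F] at h
    rw [LinearMap.smul_apply, smul_eq_mul, mul_pow, cr_pow, ← h, mul_inv_cancel_left₀ haR]
  · rintro ⟨l, hl⟩
    refine ⟨cr ((a : ℝ)⁻¹) • l, fun x => ?_⟩
    rw [tw_F, LinearMap.smul_apply, smul_eq_mul, mul_pow, cr_pow, hl x]

theorem S_tw_cube {a r : ℚ} (ha : a ≠ 0) (hr : r ≠ 0) : (C.tw (a * r ^ 3)).S = (C.tw a).S := by
  have hrR : (r : ℝ) ≠ 0 := by exact_mod_cast hr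
  ext x
  rw [mem_S_tw (mul_ne_zero ha (pow_ne_zero 3 hr)), mem_S_tw ha]
  constructor
  · rintro ⟨hx, t, ht, ht0, h⟩
    refine ⟨hx, r * t, (IsQ.cast r).mul ht, mul_ne_zero hrR ht0, ?_⟩
    rw [h]
    push_cast
    ring
  · rintro ⟨hx, t, ht, ht0, h⟩
    refine ⟨hx, t / r, ht.div (IsQ.cast r), div_ne_zero ht0 hrR, ?_⟩
    rw [h]
    push_cast
    field_simp

/-- the value at a point with `c4 = 0` -/
private theorem F_of_c4 {a x : V m} (ha : C.F a ≠ 0) (h : C.c4 a x = 0) :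
    C.F x = C.F a * (C.T a a x / C.F a) ^ 3 := by
  unfold c4 at h
  have h2 := sub_eq_zero.1 h
  have h3 : C.F x = (C.F a) ^ 2 * C.F x / (C.F a) ^ 2 := by field_simp
  rw [h3, h2]
  field_simp

private theorem sec_mem {B : Set (V m)} (hB : C.Sec B) (hBS : B ⊆ C.S) {a b : V m} (ha : a ∈ B)
    (hb : b ∈ B) (u v : ℚ) :
    ((u : ℝ) • a + (v : ℝ) • b) ∈ C.S ∨ C.F ((u : ℝ) • a + (v : ℝ) • b) = 0 := by
  have haF : C.F a ≠ 0 := hB.1 a ha
  have hra : IsRat a := (hBS ha).1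
  have hrb : IsRat b := (hBS hb).1
  obtain ⟨h3, h4⟩ := hB.2 a ha b hb
  have hF := F_expand (C := C) a b (u : ℝ) (v : ℝ)
  rw [h3, h4, mul_zero, mul_zero, add_zero, mul_zero, add_zero] at hF
  have hrat : IsRat ((u : ℝ) • a + (v : ℝ) • b) :=
    (IsRat.smul ⟨u, rfl⟩ hra).add (IsRat.smul ⟨v, rfl⟩ hrb)
  by_cases h0 : C.F ((u : ℝ) • a + (v : ℝ) • b) = 0
  · exact Or.inr h0
  · left
    have hval : C.F ((u : ℝ) • a + (v : ℝ) • b) =
        C.F a * (((u : ℝ) * C.F a + (v : ℝ) * C.T a a b) / C.F a) ^ 3 := by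
      have e1 : C.F ((u : ℝ) • a + (v : ℝ) • b) =
          (C.F a) ^ 2 * C.F ((u : ℝ) • a + (v : ℝ) • b) / (C.F a) ^ 2 := by field_simp
      rw [e1, hF]
      field_simp
    have hQ : IsQ (((u : ℝ) * C.F a + (v : ℝ) * C.T a a b) / C.F a) :=
      (((IsQ.cast u).mul (C.isQ_F hra)).add ((IsQ.cast v).mul (C.rat _ _ _ hra hra hrb))).div
        (C.isQ_F hra)
    refine mem_S_of hrat (hBS ha) hQ ?_ hval
    intro h5
    rw [h5] at hval
    apply h0
    rw [hval]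
    norm_num

theorem pieces_of_bad (hbad : ∀ z ∈ C.S, ¬ C.Good z) : C.Pieces := by
  obtain ⟨k, B, hI, hS, hU⟩ := exists_sec (P := C.S) (fun p hp => F_ne_of_S hp) hbad
  have hBS : ∀ i, B i ⊆ C.S := by
    intro i x hx
    rw [hU]
    exact mem_iUnion.2 ⟨i, hx⟩
  have hne : ∀ i, ∀ x ∈ B i, C.F x ≠ 0 := fun i x hx => (hS i).1 x hx
  have hsp := span_of_pieces hI C.polyR_F hne (fun i a ha b hb u v => by
    have h1 := sec_mem (hS i) (hBS i) ha hb u v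
    rwa [hU] at h1)
  refine ⟨k, fun j => {x | x ∈ B j ∧ zc (B j) = (Submodule.span ℝ (B j) : Set (V m))},
    fun i x hx => (hBS i hx.1).1, ?_⟩
  ext x
  constructor
  · intro hx
    have hx' : x ∈ ⋃ i, B i := by rwa [← hU]
    obtain ⟨i, hi⟩ := mem_iUnion.1 hx'
    obtain ⟨j, hij, hj⟩ := hsp i
    refine ⟨hx.1, hne i x hi, j, ?_⟩
    have e : {x | x ∈ B j ∧ zc (B j) = (Submodule.span ℝ (B j) : Set (V m))} = B j := by
      ext z
      exact ⟨fun h => h.1, fun h => ⟨h, hj⟩⟩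
    have h1 : x ∈ zc (B i) := fun f _ h => h x hi
    have h2 : x ∈ (Submodule.span ℝ (B j) : Set (V m)) := by
      rw [← hj]
      exact hij h1
    show x ∈ Submodule.span ℝ {x | x ∈ B j ∧ zc (B j) = (Submodule.span ℝ (B j) : Set (V m))}
    rw [e]
    exact h2
  · rintro ⟨hrx, hFx, j, hj⟩
    by_cases hz : zc (B j) = (Submodule.span ℝ (B j) : Set (V m))
    · have e : {x | x ∈ B j ∧ zc (B j) = (Submodule.span ℝ (B j) : Set (V m))} = B j := by
        ext z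
        exact ⟨fun h => h.1, fun h => ⟨h, hz⟩⟩
      have h1 : x ∈ Submodule.span ℝ
          {x | x ∈ B j ∧ zc (B j) = (Submodule.span ℝ (B j) : Set (V m))} := hj
      rw [e] at h1
      have h2 : x ∈ zc (B j) := by
        rw [hz]
        exact h1
      obtain ⟨a, ha⟩ := (hI j).1
      have h3 : C.c4 a x = 0 :=
        h2 (fun b => C.c4 a b) (C.polyR_c4 a) (fun b hb => ((hS j).2 a ha b hb).2)
      have haF := hne j a ha
      have hra := (hBS j ha).1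
      have h4 := F_of_c4 haF h3
      refine mem_S_of hrx (hBS j ha) ((C.rat _ _ _ hra hra hrx).div (C.isQ_F hra)) ?_ h4
      intro h5
      rw [h5] at h4
      apply hFx
      rw [h4]
      norm_num
    · exfalso
      have e : {x | x ∈ B j ∧ zc (B j) = (Submodule.span ℝ (B j) : Set (V m))} = ∅ := by
        ext z
        exact ⟨fun h => absurd h.2 hz, fun h => absurd h (Set.notMem_empty z)⟩
      have h1 : x ∈ Submodule.span ℝ
          {x | x ∈ B j ∧ zc (B j) = (Submodule.span ℝ (B j) : Set (V m))} := hj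
      rw [e, Submodule.span_empty, Submodule.mem_bot] at h1
      apply hFx
      rw [h1]
      unfold F
      rw [map_zero]

theorem bad_classes (C : Cb m) : ∃ E : Finset ℚ, (∀ e ∈ E, e ≠ 0) ∧ ∀ a : ℚ, a ≠ 0 →
    (∃ e ∈ E, ∃ r : ℚ, r ≠ 0 ∧ a = e * r ^ 3) ∨ ∀ p ∈ (C.tw a).S, (C.tw a).Good p := by
  classical
  obtain ⟨k, B, hI, hB, hU⟩ := exists_sec (C := C)
    (P := {p | IsRat p ∧ C.F p ≠ 0 ∧ ¬ C.Good p}) (fun p hp => hp.2.1) (fun p hp => hp.2.2)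
  have hBs : ∀ i, ∀ p ∈ B i, IsRat p ∧ C.F p ≠ 0 := by
    intro i p hp
    have h1 : p ∈ {p | IsRat p ∧ C.F p ≠ 0 ∧ ¬ C.Good p} := by
      rw [hU]
      exact mem_iUnion.2 ⟨i, hp⟩
    exact ⟨h1.1, h1.2.1⟩
  choose b hb using fun i => (hI i).1
  have he : ∀ i, ∃ e : ℚ, e ≠ 0 ∧ C.F (b i) = e := by
    intro i
    obtain ⟨e, he⟩ := isQ_F (C := C) (hBs i _ (hb i)).1
    refine ⟨e, ?_, he⟩
    rintro rfl
    have h1 := (hBs i _ (hb i)).2
    rw [he] at h1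
    norm_num at h1
  choose e he0 he using he
  refine ⟨Finset.univ.image e, ?_, ?_⟩
  · intro x hx
    obtain ⟨i, -, rfl⟩ := Finset.mem_image.1 hx
    exact he0 i
  intro a ha
  by_cases hall : ∀ p ∈ (C.tw a).S, (C.tw a).Good p
  · exact Or.inr hall
  left
  push Not at hall
  obtain ⟨p, hp, hg⟩ := hall
  rw [good_tw ha] at hg
  obtain ⟨hrp, r, ⟨r', rfl⟩, hr0, hFp⟩ := (mem_S_tw ha).1 hp
  have haR : (a : ℝ) ≠ 0 := by exact_mod_cast ha
  have hFp0 : C.F p ≠ 0 := by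
    rw [hFp]
    exact mul_ne_zero haR (pow_ne_zero 3 hr0)
  have hpU : p ∈ {p | IsRat p ∧ C.F p ≠ 0 ∧ ¬ C.Good p} := ⟨hrp, hFp0, hg⟩
  rw [hU, mem_iUnion] at hpU
  obtain ⟨i, hi⟩ := hpU
  refine ⟨e i, Finset.mem_image.2 ⟨i, Finset.mem_univ i, rfl⟩, ?_⟩
  have h4 := F_of_c4 (hBs i _ (hb i)).2 ((hB i).2 _ (hb i) _ hi).2
  have hbr := (hBs i _ (hb i)).1
  obtain ⟨t, ht⟩ := C.rat _ _ _ hbr hbr hrp
  rw [ht, he i, hFp] at h4
  have h5 : a * r' ^ 3 = e i * (t / e i) ^ 3 := by exact_mod_cast h4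
  have hr0' : r' ≠ 0 := by
    rintro rfl
    simp at hr0
  have ht0 : t / e i ≠ 0 := by
    intro h6
    rw [h6] at h5
    have : a * r' ^ 3 ≠ 0 := mul_ne_zero ha (pow_ne_zero 3 hr0')
    exact this (by rw [h5]; norm_num)
  refine ⟨t / e i / r', div_ne_zero ht0 hr0', ?_⟩
  rw [div_pow, ← mul_div_assoc, ← h5]
  field_simp

end Cb

end Pool.Agent.CTW
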