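import Pool.Agent.CTW.Bas
import Pool.Agent.CTW.Pcb
import Pool.Agent.QS.Pc
import Pool.Agent.QS.Aff
import Pool.Agent.MZ.Rep

/-!
# CTW module AFF: cubic polynomials on `ℝ^n`

`exists_cb`: from `exists_cub` (MZ/Rep.lean) and a map from `MZ.Cub` to `Cb` (same `T`). `Z_of_pieces`: as QS/Pc.lean. `mem_closure_SQ`, `opn_affine`: as
QS/Aff.lean (`S_smul` for cubes).
-/

set_option autoImplicit false

open Set Topology Filter MvPolynomial
open Pool.Agent.MZ Pool.Agent.QS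

namespace Pool.Agent.CTW

variable {n : ℕ}

/-- the rational points at which `f` is a nonzero rational cube -/
def SQ (f : MvPolynomial (Fin n) ℚ) : Set (V n) :=
  {x | ∃ (r : ℚ) (q : Fin n → ℚ), r ≠ 0 ∧ r ^ 3 = eval q f ∧ x = rv q}

namespace Cb

theorem exists_cb {f : MvPolynomial (Fin n) ℚ} (hf : f.totalDegree ≤ 3) :
    ∃ C : Cb (n + 1), ∀ x : Fin n → ℝ, (aeval x f : ℝ) = C.F (hx 1 x) := by
  obtain ⟨C, hC, -, -⟩ := exists_cub hf
  exact ⟨{ T := C.T, s₁ := C.sym₁, s₂ := C.sym₂, rat := C.rat }, hC⟩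

theorem Z_of_pieces {m : ℕ} {C : Cb m} {k : ℕ} {Y : Fin k → Set (V m)}
    (hY : ∀ i, ∀ x ∈ Y i, IsRat x)
    (hS : C.S = {x | IsRat x ∧ C.F x ≠ 0 ∧ ∃ i, x ∈ Submodule.span ℝ (Y i)}) {x : V m}
    (hF : C.F x ≠ 0) : x ∈ C.Z ↔ ∃ i, x ∈ Submodule.span ℝ (Y i) := by
  constructor
  · intro hx
    have hcl : IsClosed (⋃ i, (Submodule.span ℝ (Y i) : Set (V m))) :=
      isClosed_iUnion_of_finite fun i => Submodule.closed_of_finiteDimensional _
    have h1 : x ∈ ⋃ i, (Submodule.span ℝ (Y i) : Set (V m)) := by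
      refine closure_minimal ?_ hcl hx
      intro z hz
      rw [hS] at hz
      obtain ⟨i, hi⟩ := hz.2.2
      exact Set.mem_iUnion.2 ⟨i, hi⟩
    obtain ⟨i, hi⟩ := Set.mem_iUnion.1 h1
    exact ⟨i, hi⟩
  · rintro ⟨i, hi⟩
    have h1 := rat_span (hY i) hi
    show x ∈ closure C.S
    rw [mem_closure_iff_nhds] at h1 ⊢
    intro W hW
    have h2 : {z : V m | C.F z ≠ 0} ∈ 𝓝 x :=
      (isOpen_ne_fun C.continuous_F continuous_const).mem_nhds hF
    obtain ⟨z, ⟨hzW, hzF⟩, hz1, hz2⟩ := h1 _ (Filter.inter_mem hW h2)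
    refine ⟨z, hzW, ?_⟩
    rw [hS]
    exact ⟨hz1, hzF, i, hz2⟩

variable {C : Cb (n + 1)} {f : MvPolynomial (Fin n) ℚ}

private theorem mem_SQ (hC : ∀ x : Fin n → ℝ, (aeval x f : ℝ) = C.F (hx 1 x)) {x : Fin n → ℝ} :
    x ∈ SQ f ↔ hx 1 x ∈ C.S := by
  constructor
  · rintro ⟨r, q, hr, h1, rfl⟩
    refine ⟨isRat_hx.2 ⟨⟨1, by rw [Rat.cast_one]⟩, ⟨q, rfl⟩⟩, (r : ℝ), ⟨r, rfl⟩,
      Rat.cast_ne_zero.2 hr, ?_⟩
    rw [← hC, aeval_rv, ← h1, Rat.cast_pow]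
  · rintro ⟨h1, r, ⟨r', rfl⟩, hr, h2⟩
    obtain ⟨q, rfl⟩ := (isRat_hx.1 h1).2
    refine ⟨r', q, Rat.cast_ne_zero.1 hr, ?_, rfl⟩
    rw [← hC, aeval_rv, ← Rat.cast_pow] at h2
    exact (Rat.cast_injective h2).symm

theorem mem_closure_SQ (hC : ∀ x : Fin n → ℝ, (aeval x f : ℝ) = C.F (hx 1 x)) {x : Fin n → ℝ} :
    x ∈ closure (SQ f) ↔ hx 1 x ∈ C.Z := by
  constructor
  · intro h
    exact map_mem_closure (continuous_hx 1) h fun z hz => (mem_SQ hC).1 hz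
  · intro h
    have h0 : (hx 1 x : V (n + 1)) 0 = 1 := rfl
    have ho : IsOpen {w : V (n + 1) | w 0 ≠ 0} :=
      isOpen_ne_fun (continuous_apply 0) continuous_const
    have h1 : hx 1 x ∈ closure ({w : V (n + 1) | w 0 ≠ 0} ∩ C.S) :=
      ho.inter_closure ⟨by show (hx 1 x : V (n + 1)) 0 ≠ 0; rw [h0]; exact one_ne_zero, h⟩
    have hc : ContinuousAt (fun w : V (n + 1) => fun i : Fin n => w i.succ / w 0) (hx 1 x) := by
      refine continuousAt_pi.2 fun i => ?_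
      refine ContinuousAt.div (continuous_apply i.succ).continuousAt
        (continuous_apply (0 : Fin (n + 1))).continuousAt ?_
      rw [h0]
      exact one_ne_zero
    have h2 := mem_closure_image hc h1
    have h3 : (fun i : Fin n => (hx 1 x : V (n + 1)) i.succ / (hx 1 x : V (n + 1)) 0) = x := by
      funext i
      rw [h0, div_one]
      rfl
    rw [h3] at h2
    refine closure_mono ?_ h2
    rintro _ ⟨w, ⟨hw0, hw⟩, rfl⟩
    have hw0 : w 0 ≠ 0 := hw0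
    rw [mem_SQ hC]
    have h4 : hx 1 (fun i : Fin n => w i.succ / w 0) = (w 0)⁻¹ • w := by
      funext i
      refine Fin.cases ?_ (fun i => ?_) i
      · show (1 : ℝ) = (w 0)⁻¹ * w 0
        rw [inv_mul_cancel₀ hw0]
      · show w i.succ / w 0 = (w 0)⁻¹ * w i.succ
        rw [div_eq_inv_mul]
    show hx 1 (fun i : Fin n => w i.succ / w 0) ∈ C.S
    rw [h4]
    refine S_smul hw ?_ (inv_ne_zero hw0)
    obtain ⟨q, hq⟩ := hw.1
    exact ⟨(q 0)⁻¹, by rw [hq, Rat.cast_inv]; rfl⟩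

theorem opn_affine (hC : ∀ x : Fin n → ℝ, (aeval x f : ℝ) = C.F (hx 1 x)) (h : C.Opn) :
    ∀ x ∈ closure (SQ f), (aeval x f : ℝ) ≠ 0 → closure (SQ f) ∈ 𝓝 x := by
  intro x hx1 hpos
  rw [mem_closure_SQ hC] at hx1
  rw [hC] at hpos
  have h1 := (continuous_hx (n := n) 1).continuousAt.preimage_mem_nhds (h _ hx1 hpos)
  have h2 : (fun x : Fin n → ℝ => hx 1 x) ⁻¹' C.Z = closure (SQ f) := by
    ext z
    exact (mem_closure_SQ hC).symm
  rwa [h2] at h1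

end Cb

end Pool.Agent.CTW
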