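import Pool.Agent.CTW.Cr

/-!
# CTW module ALG: identities

PROOFS: expand `T` at sums and multiples, bring the arguments of `T` into a fixed order with
`C.s₁`, `C.s₂`, `ring`.
-/

set_option autoImplicit false
set_option linter.unusedSimpArgs false

open Set Topology Filter MvPolynomial
open Pool.Agent.MZ Pool.Agent.QS

namespace Pool.Agent.CTW

namespace Cb

variable {m : ℕ} {C : Cb m}

theorem F_smul (t : ℝ) (x : V m) : C.F (t • x) = t ^ 3 * C.F x := by
  simp only [F, c3, c4, jj, xp, cc, nA, nB, mg, map_add, map_smul, map_sub, map_neg,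
    LinearMap.add_apply, LinearMap.smul_apply, LinearMap.sub_apply, LinearMap.neg_apply,
    smul_eq_mul]
  try simp only [C.s₁, C.s₂]
  ring

theorem F_add (x y : V m) (a b : ℝ) : C.F (a • x + b • y) =
    a ^ 3 * C.F x + 3 * a ^ 2 * b * C.T x x y + 3 * a * b ^ 2 * C.T x y y + b ^ 3 * C.F y := by
  simp only [F, c3, c4, jj, xp, cc, nA, nB, mg, map_add, map_smul, map_sub, map_neg,
    LinearMap.add_apply, LinearMap.smul_apply, LinearMap.sub_apply, LinearMap.neg_apply,
    smul_eq_mul]
  try simp only [C.s₁, C.s₂]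
  ring

theorem F_expand (p x : V m) (a b : ℝ) : (C.F p) ^ 2 * C.F (a • p + b • x) =
    (a * C.F p + b * C.T p p x) ^ 3 + b ^ 2 * (3 * a * C.F p * C.c3 p x + b * C.c4 p x) := by
  simp only [F, c3, c4, jj, xp, cc, nA, nB, mg, map_add, map_smul, map_sub, map_neg,
    LinearMap.add_apply, LinearMap.smul_apply, LinearMap.sub_apply, LinearMap.neg_apply,
    smul_eq_mul]
  try simp only [C.s₁, C.s₂]
  ring

theorem c3_add (p x : V m) (s : ℝ) : C.c3 p (x + s • p) = C.c3 p x := by
  simp only [F, c3, c4, jj, xp, cc, nA, nB, mg, map_add, map_smul, map_sub, map_neg,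
    LinearMap.add_apply, LinearMap.smul_apply, LinearMap.sub_apply, LinearMap.neg_apply,
    smul_eq_mul]
  try simp only [C.s₁, C.s₂]
  ring

theorem c4_add (p x : V m) (s : ℝ) :
    C.c4 p (x + s • p) = C.c4 p x + 3 * s * C.F p * C.c3 p x := by
  simp only [F, c3, c4, jj, xp, cc, nA, nB, mg, map_add, map_smul, map_sub, map_neg,
    LinearMap.add_apply, LinearMap.smul_apply, LinearMap.sub_apply, LinearMap.neg_apply,
    smul_eq_mul]
  try simp only [C.s₁, C.s₂]
  ring

theorem c3_smul (p x : V m) (t : ℝ) : C.c3 p (t • x) = t ^ 2 * C.c3 p x := by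
  simp only [F, c3, c4, jj, xp, cc, nA, nB, mg, map_add, map_smul, map_sub, map_neg,
    LinearMap.add_apply, LinearMap.smul_apply, LinearMap.sub_apply, LinearMap.neg_apply,
    smul_eq_mul]
  try simp only [C.s₁, C.s₂]
  ring

theorem c4_smul (p x : V m) (t : ℝ) : C.c4 p (t • x) = t ^ 3 * C.c4 p x := by
  simp only [F, c3, c4, jj, xp, cc, nA, nB, mg, map_add, map_smul, map_sub, map_neg,
    LinearMap.add_apply, LinearMap.smul_apply, LinearMap.sub_apply, LinearMap.neg_apply,
    smul_eq_mul]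
  try simp only [C.s₁, C.s₂]
  ring

theorem jj_smul (p x : V m) (t : ℝ) : C.jj p (t • x) = t ^ 3 * C.jj p x := by
  simp only [F, c3, c4, jj, xp, cc, nA, nB, mg, map_add, map_smul, map_sub, map_neg,
    LinearMap.add_apply, LinearMap.smul_apply, LinearMap.sub_apply, LinearMap.neg_apply,
    smul_eq_mul]
  try simp only [C.s₁, C.s₂]
  ring

theorem c3_self (p : V m) : C.c3 p p = 0 := by
  simp only [F, c3, c4, jj, xp, cc, nA, nB, mg, map_add, map_smul, map_sub, map_neg,
    LinearMap.add_apply, LinearMap.smul_apply, LinearMap.sub_apply, LinearMap.neg_apply,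
    smul_eq_mul]
  try simp only [C.s₁, C.s₂]
  ring

theorem c4_self (p : V m) : C.c4 p p = 0 := by
  simp only [F, c3, c4, jj, xp, cc, nA, nB, mg, map_add, map_smul, map_sub, map_neg,
    LinearMap.add_apply, LinearMap.smul_apply, LinearMap.sub_apply, LinearMap.neg_apply,
    smul_eq_mul]
  try simp only [C.s₁, C.s₂]
  ring

theorem c3_neg (p x : V m) : C.c3 (-p) x = C.c3 p x := by
  simp only [F, c3, c4, jj, xp, cc, nA, nB, mg, map_add, map_smul, map_sub, map_neg,
    LinearMap.add_apply, LinearMap.smul_apply, LinearMap.sub_apply, LinearMap.neg_apply,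
    smul_eq_mul]
  try simp only [C.s₁, C.s₂]
  ring

/-- scaling in the first argument -/
theorem c3_smul_left (p x : V m) (t : ℝ) : C.c3 (t • p) x = t ^ 4 * C.c3 p x := by
  simp only [F, c3, c4, jj, xp, cc, nA, nB, mg, map_add, map_smul, map_sub, map_neg,
    LinearMap.add_apply, LinearMap.smul_apply, LinearMap.sub_apply, LinearMap.neg_apply,
    smul_eq_mul]
  try simp only [C.s₁, C.s₂]
  ring

theorem c4_smul_left (p x : V m) (t : ℝ) : C.c4 (t • p) x = t ^ 6 * C.c4 p x := by
  simp only [F, c3, c4, jj, xp, cc, nA, nB, mg, map_add, map_smul, map_sub, map_neg,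
    LinearMap.add_apply, LinearMap.smul_apply, LinearMap.sub_apply, LinearMap.neg_apply,
    smul_eq_mul]
  try simp only [C.s₁, C.s₂]
  ring

/-- `T p p (xp p x)` -/
theorem L_xp (p x : V m) : C.T p p (C.xp p x) = C.F p * C.jj p x := by
  simp only [F, c3, c4, jj, xp, cc, nA, nB, mg, map_add, map_smul, map_sub, map_neg,
    LinearMap.add_apply, LinearMap.smul_apply, LinearMap.sub_apply, LinearMap.neg_apply,
    smul_eq_mul]
  try simp only [C.s₁, C.s₂]
  ring

theorem F_xp (p x : V m) : C.F (C.xp p x) = C.F p * (C.jj p x) ^ 3 := by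
  simp only [F, c3, c4, jj, xp, cc, nA, nB, mg, map_add, map_smul, map_sub, map_neg,
    LinearMap.add_apply, LinearMap.smul_apply, LinearMap.sub_apply, LinearMap.neg_apply,
    smul_eq_mul]
  try simp only [C.s₁, C.s₂]
  ring

theorem c4_xp (p x : V m) : C.c4 p (C.xp p x) = 0 := by
  simp only [F, c3, c4, jj, xp, cc, nA, nB, mg, map_add, map_smul, map_sub, map_neg,
    LinearMap.add_apply, LinearMap.smul_apply, LinearMap.sub_apply, LinearMap.neg_apply,
    smul_eq_mul]
  try simp only [C.s₁, C.s₂]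
  ring

theorem c3_xp (p x : V m) : C.c3 p (C.xp p x) = 9 * (C.F p) ^ 2 * (C.c3 p x) ^ 3 := by
  simp only [F, c3, c4, jj, xp, cc, nA, nB, mg, map_add, map_smul, map_sub, map_neg,
    LinearMap.add_apply, LinearMap.smul_apply, LinearMap.sub_apply, LinearMap.neg_apply,
    smul_eq_mul]
  try simp only [C.s₁, C.s₂]
  ring

theorem xp_add (p x : V m) (s : ℝ) : C.xp p (x + s • p) = C.xp p x := by
  unfold xp
  rw [c3_add, c4_add]
  module

theorem xp_of_c4 {p x : V m} (h : C.c4 p x = 0) : C.xp p x = (-(3 * C.F p * C.c3 p x)) • x := by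
  unfold xp
  rw [h]
  module

theorem cc_self (z w : V m) : C.cc z z w = 0 := by
  simp only [F, c3, c4, jj, xp, cc, nA, nB, mg, map_add, map_smul, map_sub, map_neg,
    LinearMap.add_apply, LinearMap.smul_apply, LinearMap.sub_apply, LinearMap.neg_apply,
    smul_eq_mul]
  try simp only [C.s₁, C.s₂]
  ring

theorem cc_self' (z v : V m) : C.cc z v z = 0 := by
  simp only [F, c3, c4, jj, xp, cc, nA, nB, mg, map_add, map_smul, map_sub, map_neg,
    LinearMap.add_apply, LinearMap.smul_apply, LinearMap.sub_apply, LinearMap.neg_apply,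
    smul_eq_mul]
  try simp only [C.s₁, C.s₂]
  ring

theorem cc_symm (z v w : V m) : C.cc z v w = C.cc z w v := by
  simp only [F, c3, c4, jj, xp, cc, nA, nB, mg, map_add, map_smul, map_sub, map_neg,
    LinearMap.add_apply, LinearMap.smul_apply, LinearMap.sub_apply, LinearMap.neg_apply,
    smul_eq_mul]
  try simp only [C.s₁, C.s₂]
  ring

theorem cc_c3 (z w : V m) : C.cc z w w = C.c3 z w := by
  simp only [F, c3, c4, jj, xp, cc, nA, nB, mg, map_add, map_smul, map_sub, map_neg,
    LinearMap.add_apply, LinearMap.smul_apply, LinearMap.sub_apply, LinearMap.neg_apply,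
    smul_eq_mul]
  try simp only [C.s₁, C.s₂]
  ring

theorem cc_add_left (z v v' w : V m) : C.cc z (v + v') w = C.cc z v w + C.cc z v' w := by
  simp only [F, c3, c4, jj, xp, cc, nA, nB, mg, map_add, map_smul, map_sub, map_neg,
    LinearMap.add_apply, LinearMap.smul_apply, LinearMap.sub_apply, LinearMap.neg_apply,
    smul_eq_mul]
  try simp only [C.s₁, C.s₂]
  ring

theorem cc_smul_left (z v w : V m) (t : ℝ) : C.cc z (t • v) w = t * C.cc z v w := by
  simp only [F, c3, c4, jj, xp, cc, nA, nB, mg, map_add, map_smul, map_sub, map_neg,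
    LinearMap.add_apply, LinearMap.smul_apply, LinearMap.sub_apply, LinearMap.neg_apply,
    smul_eq_mul]
  try simp only [C.s₁, C.s₂]
  ring

theorem cc_add_right (z v w w' : V m) : C.cc z v (w + w') = C.cc z v w + C.cc z v w' := by
  simp only [F, c3, c4, jj, xp, cc, nA, nB, mg, map_add, map_smul, map_sub, map_neg,
    LinearMap.add_apply, LinearMap.smul_apply, LinearMap.sub_apply, LinearMap.neg_apply,
    smul_eq_mul]
  try simp only [C.s₁, C.s₂]
  ring

theorem cc_smul_right (z v w : V m) (t : ℝ) : C.cc z v (t • w) = t * C.cc z v w := by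
  simp only [F, c3, c4, jj, xp, cc, nA, nB, mg, map_add, map_smul, map_sub, map_neg,
    LinearMap.add_apply, LinearMap.smul_apply, LinearMap.sub_apply, LinearMap.neg_apply,
    smul_eq_mul]
  try simp only [C.s₁, C.s₂]
  ring

theorem G_pow (x : V m) : (C.G x) ^ 3 = C.F x := cr_pow _

/-- `F` of the third point -/
theorem F_mg (x y : V m) : C.F (C.mg x y) = (C.nA x y * C.G x - C.nB x y * C.G y) ^ 3 := by
  have hx := G_pow (C := C) x
  have hy := G_pow (C := C) y
  have e : C.mg x y = C.nA x y • x + (-C.nB x y) • y := by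
    unfold mg
    module
  rw [e, F_add, ← hx, ← hy]
  have e1 : C.T x x y = C.nB x y + (C.G x) ^ 2 * C.G y := by
    unfold nB
    ring
  have e2 : C.T x y y = C.nA x y + C.G x * (C.G y) ^ 2 := by
    unfold nA
    ring
  rw [e1, e2]
  ring

theorem G_smul (t : ℝ) (x : V m) : C.G (t • x) = t * C.G x := by
  unfold G
  rw [F_smul, cr_mul, cr_cube]

theorem G_mg (x y : V m) : C.G (C.mg x y) = C.nA x y * C.G x - C.nB x y * C.G y :=
  cr_eq (F_mg x y).symm

/-- `G` of `F_mg`, `nA (x, mg) = - nB ^ 2 nA`, `nB (x, mg) = - nB ^ 2` -/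
theorem mg_mg (x y : V m) : C.mg x (C.mg x y) = (-(C.nB x y) ^ 3) • y := by
  have hx := G_pow (C := C) x
  have hy := G_pow (C := C) y
  have e1 : C.T x x y = C.nB x y + (C.G x) ^ 2 * C.G y := by
    unfold nB
    ring
  have e2 : C.T x y y = C.nA x y + C.G x * (C.G y) ^ 2 := by
    unfold nA
    ring
  have f1 : C.T x x (C.mg x y) = C.nA x y * C.F x - C.nB x y * C.T x x y := by
    unfold mg F
    simp only [map_sub, map_smul, smul_eq_mul]
  have f2 : C.T x (C.mg x y) (C.mg x y) = (C.nA x y) ^ 2 * C.F x -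
      2 * C.nA x y * C.nB x y * C.T x x y + (C.nB x y) ^ 2 * C.T x y y := by
    unfold mg F
    simp only [map_sub, map_smul, smul_eq_mul, LinearMap.sub_apply, LinearMap.smul_apply]
    simp only [C.s₁, C.s₂]
    ring
  have gA : C.nA x (C.mg x y) = -(C.nB x y) ^ 2 * C.nA x y := by
    have : C.nA x (C.mg x y) =
        C.T x (C.mg x y) (C.mg x y) - C.G x * (C.G (C.mg x y)) ^ 2 := rfl
    rw [this, f2, G_mg, e1, e2, ← hx]
    ring
  have gB : C.nB x (C.mg x y) = -(C.nB x y) ^ 2 := by
    have : C.nB x (C.mg x y) = C.T x x (C.mg x y) - (C.G x) ^ 2 * C.G (C.mg x y) := rfl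
    rw [this, f1, G_mg, e1, ← hx]
    ring
  have : C.mg x (C.mg x y) = C.nA x (C.mg x y) • x - C.nB x (C.mg x y) • C.mg x y := rfl
  rw [this, gA, gB]
  unfold mg
  module

theorem nB_mg (x y : V m) : C.nB (C.mg x y) y = - (C.nA x y) ^ 2 * C.nB x y := by
  have hx := G_pow (C := C) x
  have hy := G_pow (C := C) y
  have e1 : C.T x x y = C.nB x y + (C.G x) ^ 2 * C.G y := by
    unfold nB
    ring
  have e2 : C.T x y y = C.nA x y + C.G x * (C.G y) ^ 2 := by
    unfold nA
    ring
  have f1 : C.T (C.mg x y) (C.mg x y) y = (C.nA x y) ^ 2 * C.T x x y -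
      2 * C.nA x y * C.nB x y * C.T x y y + (C.nB x y) ^ 2 * C.F y := by
    unfold mg F
    simp only [map_sub, map_smul, smul_eq_mul, LinearMap.sub_apply, LinearMap.smul_apply]
    simp only [C.s₁, C.s₂]
    ring
  have : C.nB (C.mg x y) y =
      C.T (C.mg x y) (C.mg x y) y - (C.G (C.mg x y)) ^ 2 * C.G y := rfl
  rw [this, f1, G_mg, e1, e2, ← hy]
  ring

theorem mg_swap (x y : V m) : C.mg y x = - C.mg x y := by
  have hA : C.nA y x = C.nB x y := by
    unfold nA nB
    rw [C.s₁ y x x, C.s₂ x y x]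
    ring
  have hB : C.nB y x = C.nA x y := by
    unfold nA nB
    rw [C.s₂ y y x, C.s₁ y x y]
    ring
  unfold mg
  rw [hA, hB]
  module

private lemma F_neg (x : V m) : C.F (-x) = -C.F x := by
  have := F_smul (C := C) (-1) x
  rw [neg_one_smul] at this
  rw [this]
  ring

private lemma G_neg (x : V m) : C.G (-x) = -C.G x := by
  have := G_smul (C := C) (-1) x
  rw [neg_one_smul] at this
  rw [this]
  ring

theorem mg_neg_right (x y : V m) : C.mg x (-y) = C.mg x y := by
  have hA : C.nA x (-y) = C.nA x y := by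
    unfold nA
    rw [G_neg]
    simp only [map_neg, LinearMap.neg_apply]
    ring
  have hB : C.nB x (-y) = -C.nB x y := by
    unfold nB
    rw [G_neg]
    simp only [map_neg, LinearMap.neg_apply]
    ring
  unfold mg
  rw [hA, hB]
  module

theorem mg_smul_left (t : ℝ) (x y : V m) : C.mg (t • x) y = t ^ 2 • C.mg x y := by
  have hA : C.nA (t • x) y = t * C.nA x y := by
    unfold nA
    rw [G_smul]
    simp only [map_smul, LinearMap.smul_apply, smul_eq_mul]
    ring
  have hB : C.nB (t • x) y = t ^ 2 * C.nB x y := by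
    unfold nB
    rw [G_smul]
    simp only [map_smul, LinearMap.smul_apply, smul_eq_mul]
    ring
  unfold mg
  rw [hA, hB]
  module

theorem mg_smul_right (t : ℝ) (x y : V m) : C.mg x (t • y) = t ^ 2 • C.mg x y := by
  have hA : C.nA x (t • y) = t ^ 2 * C.nA x y := by
    unfold nA
    rw [G_smul]
    simp only [map_smul, LinearMap.smul_apply, smul_eq_mul]
    ring
  have hB : C.nB x (t • y) = t * C.nB x y := by
    unfold nB
    rw [G_smul]
    simp only [map_smul, LinearMap.smul_apply, smul_eq_mul]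
    ring
  unfold mg
  rw [hA, hB]
  module

/-- `F` is a cube if `c4 p` vanishes identically -/
theorem cube_of_c4 {p : V m} (hp : C.F p ≠ 0) (h : ∀ x, C.c4 p x = 0) : C.Cube := by
  refine ⟨(cr ((C.F p) ^ 2))⁻¹ • C.T p p, fun x => ?_⟩
  have h1 := h x
  unfold c4 at h1
  have h2 : (cr ((C.F p) ^ 2)) ^ 3 = (C.F p) ^ 2 := cr_pow _
  have h3 : (C.F p) ^ 2 ≠ 0 := pow_ne_zero _ hp
  simp only [LinearMap.smul_apply, smul_eq_mul]
  rw [mul_pow, inv_pow, h2]
  field_simp
  linarith

end Cb

end Pool.Agent.CTW
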