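import Pool.Agent.CTW.Alg

/-!
# CTW module PAIR: two bad points

PROOF of `pair1`. `A = F p`, `D = F p'`, `X = T p p p'`, `Y = T p p' p'`. `c3 p p' = 0`: `A Y = X²`; `c3 p' p = 0`: `D X = Y²`. So
`A² D X = A² Y² = X⁴`, `X (A² D - X³) = 0` and `A² D - X³ = c4 p p'`.

PROOF of `pair2`. `T p p x = k b x`, `T p' p' x = k' b x`, so `A = k b p`, `D = k' b p'`, `X = k b p' = A t` with `t = b p' / b p`
(`b p ≠ 0` since `A ≠ 0`), `Y = T p' p' p = k' b p = D / t` (`b p' ≠ 0`). `jj p p' = c4 - 3 c3 X = (A² D - A³ t³) - 3 (A D / t - A² t²) A t =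
2 A³ t³ - 2 A² D`, so `D = A t³`; `c4 = A² D - A³ t³ = 0` and `c3 = A D / t - A² t² = 0`.

PROOF of `type2`. `jj p x = 0` for all `x`: `F(p)² F(x) = c4 + L³ = 3 c3 L + L³`; so `F x = 0` if `L x = 0`.
-/

set_option autoImplicit false

open Set Topology Filter MvPolynomial
open Pool.Agent.MZ Pool.Agent.QS

namespace Pool.Agent.CTW

namespace Cb

variable {m : ℕ} {C : Cb m}

theorem pair1 {p p' : V m} (h : C.c3 p p' = 0) (h' : C.c3 p' p = 0) :
    C.T p p p' * C.c4 p p' = 0 := by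
  have e1 : C.T p' p p = C.T p p p' := by rw [C.s₁ p' p p, C.s₂ p p' p]
  have e2 : C.T p' p' p = C.T p p' p' := by rw [C.s₂ p' p' p, C.s₁ p' p p']
  unfold c3 at h h'
  rw [e1, e2] at h'
  unfold c4
  have h1 : C.F p * C.T p p' p' = (C.T p p p') ^ 2 := by linarith
  have h2 : C.F p' * C.T p p p' = (C.T p p' p') ^ 2 := by linarith
  have h3 : (C.F p) ^ 2 * C.F p' * C.T p p p' = (C.T p p p') ^ 4 := by
    calc (C.F p) ^ 2 * C.F p' * C.T p p p' = (C.F p) ^ 2 * (C.F p' * C.T p p p') := by ring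
      _ = (C.F p * C.T p p' p') ^ 2 := by rw [h2]; ring
      _ = (C.T p p p') ^ 4 := by rw [h1]; ring
  linear_combination h3

theorem pair2 {p p' : V m} (hp : C.F p ≠ 0) (hp' : C.F p' ≠ 0) {b : V m →ₗ[ℝ] ℝ} {k k' : ℝ}
    (hb : ∀ x, C.T p p x = k * b x) (hb' : ∀ x, C.T p' p' x = k' * b x) (hj : C.jj p p' = 0) :
    C.c4 p p' = 0 ∧ C.c3 p p' = 0 := by
  have e2 : C.T p p' p' = k' * b p := by
    rw [← hb', C.s₂ p' p' p, C.s₁ p' p p']
  have hA : C.F p = k * b p := hb p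
  have hD : C.F p' = k' * b p' := hb' p'
  have hX : C.T p p p' = k * b p' := hb p'
  have hk : k ≠ 0 := fun h0 => hp (by rw [hA, h0, zero_mul])
  have hbp : b p ≠ 0 := fun h0 => hp (by rw [hA, h0, mul_zero])
  have hk' : k' ≠ 0 := fun h0 => hp' (by rw [hD, h0, zero_mul])
  have hbp' : b p' ≠ 0 := fun h0 => hp' (by rw [hD, h0, mul_zero])
  unfold jj c3 c4 at hj
  unfold c3 c4
  rw [e2, hX, hA, hD] at hj ⊢
  have h1 : k ^ 2 * b p' * (k * (b p') ^ 2 - k' * (b p) ^ 2) = 0 := by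
    linear_combination (1 / 2) * hj
  have h2 : k * (b p') ^ 2 - k' * (b p) ^ 2 = 0 := by
    rcases mul_eq_zero.mp h1 with h | h
    · exact absurd h (mul_ne_zero (pow_ne_zero 2 hk) hbp')
    · exact h
  constructor
  · linear_combination (-(k ^ 2 * b p')) * h2
  · linear_combination (-k) * h2

theorem type2 {p : V m} (hp : C.F p ≠ 0) (hj : ∀ x, C.jj p x = 0) {x : V m} (hx : C.T p p x = 0) :
    C.F x = 0 := by
  have h := hj x
  unfold jj c4 at h
  rw [hx] at h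
  have h1 : (C.F p) ^ 2 * C.F x = 0 := by linear_combination h
  rcases mul_eq_zero.mp h1 with h2 | h2
  · exact absurd h2 (pow_ne_zero 2 hp)
  · exact h2

end Cb

end Pool.Agent.CTW
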