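import Pool.Agent.CTW.Flin
import Pool.Agent.CTW.Pair
import Pool.Agent.QS.Zlin
import Pool.Agent.QS.Tsec

/-!
# CTW module BAD: bad points lie in finitely many irreducible sets with cubic secants

PROOF. `sec_one`: `B` irreducible, `F ≠ 0` on `B`, `c3 a x = 0` for all `a ∈ B`, all `x`: `f a b = c4 a b`, `g a b = T a a b` are polynomial
functions of `a` and of `b`, `f a b * g a b = 0` (`pair1`), `g a a = F a ≠ 0`, so `c4 a b = 0` on `B × B` (`Irr.pair`).
`sec_two`: `b₀` a linear form, for all `a ∈ B`: `F a ≠ 0`, `jj a x = 0` for all `x` and `T a a x = T a a e * b₀ x` for all `x`: `pair2`.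
`exists_sec`: let `P` be a set of points with `F ≠ 0` none of which is good. If `P = ∅`: `k = 0`. Let `e ∈ P` and `E` the finite set of `finite_lin`.
A point that is not good has `c3 p x = 0` for all `x` or `jj p x = 0` for all `x` (`polyR_mul_eq_zero`). `P` is the union of
`A0 = {p ∈ P | ∀ x, c3 p x = 0}` and, for `b₀ ∈ E`, `A b₀ = {p ∈ P | (∀ x, jj p x = 0) ∧ ∀ x, T p p x = T p p e * b₀ x}`: for `p` of the second
type `T p p e ≠ 0` by `type2`, `b₀ = T p p · / T p p e` is in `E` (`type2`). Take irreducible covers (`exists_irr_cover`) of these finitely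
many sets.
-/

set_option autoImplicit false

open Set Topology Filter MvPolynomial
open Pool.Agent.MZ Pool.Agent.QS

namespace Pool.Agent.CTW

namespace Cb

variable {m : ℕ} {C : Cb m}

private theorem sec_one {B : Set (V m)} (hI : Irr B) (hF : ∀ p ∈ B, C.F p ≠ 0)
    (h : ∀ a ∈ B, ∀ x, C.c3 a x = 0) : C.Sec B := by
  refine ⟨hF, ?_⟩
  have hg1 : ∀ b : V m, PolyR m fun a => C.T a a b := fun b =>
    polyR_T (fun i => PolyR.coord i) (fun i => PolyR.coord i) (fun i => PolyR.const _)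
  have hprod : ∀ a ∈ B, ∀ b ∈ B, C.c4 a b * C.T a a b = 0 := by
    intro a ha b hb
    rw [mul_comm]
    exact pair1 (h a ha b) (h b hb a)
  rcases hI.pair (f := fun a b => C.c4 a b) (g := fun a b => C.T a a b)
      (fun b => polyR_c4' b) (fun a => polyR_c4 a) hg1 (fun a => polyR_L a) hprod with h1 | h1
  · exact fun a ha b hb => ⟨h a ha b, h1 a ha b hb⟩
  · exfalso
    obtain ⟨a, ha⟩ := hI.1
    exact hF a ha (h1 a ha a ha)

private theorem sec_two {B : Set (V m)} (hF : ∀ p ∈ B, C.F p ≠ 0) {b₀ : V m →ₗ[ℝ] ℝ} {e : V m}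
    (hB : ∀ a ∈ B, (∀ x, C.jj a x = 0) ∧ ∀ x, C.T a a x = C.T a a e * b₀ x) : C.Sec B := by
  refine ⟨hF, ?_⟩
  intro a ha b hb
  have h1 := pair2 (hF a ha) (hF b hb) (hB a ha).2 (hB b hb).2 ((hB a ha).1 b)
  exact ⟨h1.2, h1.1⟩

private theorem bad_glue {P : Set (V m)} {ι : Type*} [Finite ι] (A : ι → Set (V m))
    (hA : ∀ i, ∀ B : Set (V m), Irr B → B ⊆ A i → C.Sec B) (hS : P = ⋃ i, A i) :
    ∃ (k : ℕ) (B : Fin k → Set (V m)), (∀ i, Irr (B i)) ∧ (∀ i, C.Sec (B i)) ∧
      P = ⋃ i, B i := by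
  choose k B hB hAB using fun i => exists_irr_cover (A i)
  obtain ⟨n, ⟨e⟩⟩ := Finite.exists_equiv_fin (Σ i : ι, Fin (k i))
  refine ⟨n, fun j => B (e.symm j).1 (e.symm j).2, fun j => hB _ _, fun j => ?_, ?_⟩
  · refine hA (e.symm j).1 _ (hB _ _) ?_
    rw [hAB (e.symm j).1]
    exact subset_iUnion (B (e.symm j).1) (e.symm j).2
  · ext x
    rw [hS, mem_iUnion, mem_iUnion]
    constructor
    · rintro ⟨i, hi⟩
      rw [hAB i, mem_iUnion] at hi
      obtain ⟨j, hj⟩ := hi
      refine ⟨e ⟨i, j⟩, ?_⟩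
      rw [e.symm_apply_apply]
      exact hj
    · rintro ⟨j, hj⟩
      refine ⟨(e.symm j).1, ?_⟩
      rw [hAB (e.symm j).1, mem_iUnion]
      exact ⟨_, hj⟩

theorem exists_sec {P : Set (V m)} (hF : ∀ p ∈ P, C.F p ≠ 0) (hbad : ∀ p ∈ P, ¬ C.Good p) :
    ∃ (k : ℕ) (B : Fin k → Set (V m)), (∀ i, Irr (B i)) ∧ (∀ i, C.Sec (B i)) ∧ P = ⋃ i, B i := by
  rcases P.eq_empty_or_nonempty with hem | ⟨e, he⟩
  · refine ⟨0, fun _ => ∅, fun i => i.elim0, fun i => i.elim0, ?_⟩
    rw [hem, iUnion_of_empty]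
  have heF : C.F e ≠ 0 := hF e he
  have hfin := finite_lin C heF
  have : Finite {b : V m →ₗ[ℝ] ℝ | b e = 1 ∧ ∀ x, b x = 0 → C.F x = 0} := hfin
  refine bad_glue (ι := Option {b : V m →ₗ[ℝ] ℝ | b e = 1 ∧ ∀ x, b x = 0 → C.F x = 0})
    (fun i => Option.elim i {p | p ∈ P ∧ ∀ x, C.c3 p x = 0}
      fun b => {p | p ∈ P ∧ (∀ x, C.jj p x = 0) ∧ ∀ x, C.T p p x = C.T p p e * b.1 x}) ?_ ?_
  · intro i B hI hB
    cases i with
    | none => exact sec_one hI (fun a ha => hF a (hB ha).1) fun a ha => (hB ha).2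
    | some b => exact sec_two (fun a ha => hF a (hB ha).1) (b₀ := b.1) (e := e) fun a ha => (hB ha).2
  · ext p
    rw [mem_iUnion]
    constructor
    · intro hp
      by_cases h3 : ∀ x, C.c3 p x = 0
      · exact ⟨none, hp, h3⟩
      · have hj : ∀ x, C.jj p x = 0 := by
          have h4 := polyR_mul_eq_zero (polyR_c3 (C := C) p) (polyR_jj (C := C) p) (by
            intro x
            by_contra hne
            exact hbad p hp ⟨x, left_ne_zero_of_mul hne, right_ne_zero_of_mul hne⟩)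
          exact h4.resolve_left h3
        have hpe : C.T p p e ≠ 0 := fun h5 => heF (type2 (hF p hp) hj h5)
        refine ⟨some ⟨(C.T p p e)⁻¹ • C.T p p, ?_, ?_⟩, hp, hj, ?_⟩
        · rw [LinearMap.smul_apply, smul_eq_mul, inv_mul_cancel₀ hpe]
        · intro x hx
          rw [LinearMap.smul_apply, smul_eq_mul] at hx
          exact type2 (hF p hp) hj ((mul_eq_zero.1 hx).resolve_left (inv_ne_zero hpe))
        · intro x
          show C.T p p x = C.T p p e * ((C.T p p e)⁻¹ • C.T p p) x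
          rw [LinearMap.smul_apply, smul_eq_mul, ← mul_assoc, mul_inv_cancel₀ hpe, one_mul]
    · rintro ⟨i, hi⟩
      cases i with
      | none => exact hi.1
      | some b => exact hi.1

end Cb

end Pool.Agent.CTW
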