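import Pool.Agent.CTW.Alg
import Pool.Agent.QS.Bas

/-!
# CTW module BAS: continuity, derivatives, polynomial functions, rationality, scaling

PROOFS. As in `Pool.Agent.QS.Bas` (QS/Bas.lean, 4-linear) and `Pool.Agent.MZ.Cub` (MZ/Basic.lean): copy and adapt.
-/

set_option autoImplicit false

open Set Topology Filter MvPolynomial
open Pool.Agent.MZ Pool.Agent.QS

namespace Pool.Agent.CTW

namespace Cb

variable {m : ℕ} {C : Cb m}

private theorem bs_expand {m : ℕ} {W : Type*} [AddCommMonoid W] [Module ℝ W]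
    (f : V m →ₗ[ℝ] W) (x : V m) : f x = ∑ i, x i • f (Pi.single i 1) := by
  have h : x = ∑ i, x i • (Pi.single i 1 : V m) := by
    ext j
    simp [Finset.sum_apply, Pi.single_apply]
  conv_lhs => rw [h]
  rw [map_sum]
  exact Finset.sum_congr rfl fun i _ => by rw [map_smul]

private theorem bs_T1 (x y z : V m) :
    C.T x y z = ∑ i, x i * C.T (Pi.single i 1) y z := by
  rw [bs_expand C.T x, LinearMap.sum_apply, LinearMap.sum_apply]
  exact Finset.sum_congr rfl fun i _ => by
    rw [LinearMap.smul_apply, LinearMap.smul_apply, smul_eq_mul]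

private theorem bs_T2 (u y z : V m) :
    C.T u y z = ∑ i, y i * C.T u (Pi.single i 1) z := by
  rw [bs_expand (C.T u) y, LinearMap.sum_apply]
  exact Finset.sum_congr rfl fun i _ => by
    rw [LinearMap.smul_apply, smul_eq_mul]

private theorem bs_T3 (u v z : V m) :
    C.T u v z = ∑ i, z i * C.T u v (Pi.single i 1) := by
  rw [bs_expand (C.T u v) z]
  exact Finset.sum_congr rfl fun i _ => by
    rw [smul_eq_mul]

theorem continuous_comp {X : Type*} [TopologicalSpace X] {a b c : X → V m}
    (ha : Continuous a) (hb : Continuous b) (hc : Continuous c) :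
    Continuous fun x => C.T (a x) (b x) (c x) := by
  have h1 : ∀ u v : V m, Continuous fun x => C.T u v (c x) := fun u v =>
    (LinearMap.continuous_of_finiteDimensional (C.T u v)).comp hc
  have h2 : ∀ u : V m, Continuous fun x => C.T u (b x) (c x) := by
    intro u
    have e : (fun x => C.T u (b x) (c x)) =
        fun x => ∑ i, b x i * C.T u (Pi.single i 1) (c x) :=
      funext fun x => bs_T2 _ _ _
    rw [e]
    exact continuous_finsetSum _ fun i _ => ((continuous_apply i).comp hb).mul (h1 _ _)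
  have e : (fun x => C.T (a x) (b x) (c x)) =
      fun x => ∑ i, a x i * C.T (Pi.single i 1) (b x) (c x) :=
    funext fun x => bs_T1 _ _ _
  rw [e]
  exact continuous_finsetSum _ fun i _ => ((continuous_apply i).comp ha).mul (h2 _)

theorem continuousAt_comp {X : Type*} [TopologicalSpace X] {a b c : X → V m} {x₀ : X}
    (ha : ContinuousAt a x₀) (hb : ContinuousAt b x₀) (hc : ContinuousAt c x₀) :
    ContinuousAt (fun x => C.T (a x) (b x) (c x)) x₀ := by
  have h : Continuous fun z : V m × V m × V m => C.T z.1 z.2.1 z.2.2 :=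
    continuous_comp continuous_fst (continuous_fst.comp continuous_snd)
      (continuous_snd.comp continuous_snd)
  have h1 : ContinuousAt (fun x => (a x, b x, c x)) x₀ :=
    ha.prodMk (hb.prodMk hc)
  exact ContinuousAt.comp (f := fun x => (a x, b x, c x))
    (g := fun z : V m × V m × V m => C.T z.1 z.2.1 z.2.2) h.continuousAt h1

theorem hasDerivAt_comp {a b c : ℝ → V m} {a' b' c' : V m} {t : ℝ}
    (ha : HasDerivAt a a' t) (hb : HasDerivAt b b' t) (hc : HasDerivAt c c' t) :
    HasDerivAt (fun s => C.T (a s) (b s) (c s))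
      (C.T a' (b t) (c t) + C.T (a t) b' (c t) + C.T (a t) (b t) c') t := by
  have h1 : ∀ u v : V m, HasDerivAt (fun s => C.T u v (c s)) (C.T u v c') t := fun u v =>
    (LinearMap.toContinuousLinearMap (C.T u v)).hasFDerivAt.comp_hasDerivAt t hc
  have h2 : ∀ u : V m, HasDerivAt (fun s => C.T u (b s) (c s))
      (C.T u b' (c t) + C.T u (b t) c') t := by
    intro u
    have e : (fun s => C.T u (b s) (c s)) =
        fun s => ∑ i, b s i * C.T u (Pi.single i 1) (c s) := funext fun x => bs_T2 _ _ _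
    rw [e, bs_T2 u b' (c t), bs_T2 u (b t) c', ← Finset.sum_add_distrib]
    exact HasDerivAt.fun_sum fun i _ => ((hasDerivAt_pi.1 hb) i).mul (h1 _ _)
  have e : (fun s => C.T (a s) (b s) (c s)) =
      fun s => ∑ i, a s i * C.T (Pi.single i 1) (b s) (c s) :=
    funext fun x => bs_T1 _ _ _
  rw [e, bs_T1 a' (b t) (c t), bs_T1 (a t) b' (c t), bs_T1 (a t) (b t) c',
    ← Finset.sum_add_distrib, ← Finset.sum_add_distrib]
  refine HasDerivAt.fun_sum fun i _ => ?_
  have h4 := ((hasDerivAt_pi.1 ha) i).mul (h2 (Pi.single i 1))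
  rw [add_assoc, ← mul_add]
  exact h4

theorem polyR_T {k : ℕ} {a b c : V k → V m} (ha : ∀ i, PolyR k fun x => a x i)
    (hb : ∀ i, PolyR k fun x => b x i) (hc : ∀ i, PolyR k fun x => c x i) :
    PolyR k fun x => C.T (a x) (b x) (c x) := by
  have e : (fun x => C.T (a x) (b x) (c x)) =
      fun x => ∑ i, a x i * ∑ j, b x j * ∑ l, c x l *
        C.T (Pi.single i 1) (Pi.single j 1) (Pi.single l 1) := by
    funext x
    rw [bs_T1]
    refine Finset.sum_congr rfl fun i _ => ?_
    rw [bs_T2]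
    congr 1
    refine Finset.sum_congr rfl fun j _ => ?_
    rw [bs_T3]
  rw [e]
  exact PolyR.sum _ fun i _ => (ha i).mul (PolyR.sum _ fun j _ => (hb j).mul
    (PolyR.sum _ fun l _ => (hc l).mul (PolyR.const _)))

private theorem pc {k : ℕ} (p : V m) (i : Fin m) : PolyR k fun _ => p i := PolyR.const _

private theorem px (i : Fin m) : PolyR m fun x => x i := PolyR.coord i

theorem polyR_F : PolyR m C.F := polyR_T px px px

theorem continuous_F : Continuous C.F := polyR_F.continuous

theorem continuous_G : Continuous C.G := continuous_cr.comp continuous_F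

private theorem sqR {k : ℕ} {f : V k → ℝ} (hf : PolyR k f) : PolyR k fun x => f x ^ 2 := by
  have e : (fun x => f x ^ 2) = fun x => f x * f x := by
    funext x; ring
  rw [e]; exact hf.mul hf

private theorem cubR {k : ℕ} {f : V k → ℝ} (hf : PolyR k f) : PolyR k fun x => f x ^ 3 := by
  have e : (fun x => f x ^ 3) = fun x => f x * f x * f x := by
    funext x; ring
  rw [e]; exact (hf.mul hf).mul hf

private theorem gen_F {k : ℕ} {a : V k → V m} (ha : ∀ i, PolyR k fun x => a x i) :
    PolyR k fun x => C.F (a x) := polyR_T ha ha ha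

private theorem gen_cc {k : ℕ} {a b c : V k → V m} (ha : ∀ i, PolyR k fun x => a x i)
    (hb : ∀ i, PolyR k fun x => b x i) (hc : ∀ i, PolyR k fun x => c x i) :
    PolyR k fun x => C.cc (a x) (b x) (c x) :=
  ((gen_F ha).mul (polyR_T ha hb hc)).sub ((polyR_T ha ha hb).mul (polyR_T ha ha hc))

private theorem gen_c3 {k : ℕ} {a b : V k → V m} (ha : ∀ i, PolyR k fun x => a x i)
    (hb : ∀ i, PolyR k fun x => b x i) : PolyR k fun x => C.c3 (a x) (b x) :=
  ((gen_F ha).mul (polyR_T ha hb hb)).sub (sqR (polyR_T ha ha hb))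

private theorem gen_c4 {k : ℕ} {a b : V k → V m} (ha : ∀ i, PolyR k fun x => a x i)
    (hb : ∀ i, PolyR k fun x => b x i) : PolyR k fun x => C.c4 (a x) (b x) :=
  ((sqR (gen_F ha)).mul (gen_F hb)).sub (cubR (polyR_T ha ha hb))

private theorem gen_jj {k : ℕ} {a b : V k → V m} (ha : ∀ i, PolyR k fun x => a x i)
    (hb : ∀ i, PolyR k fun x => b x i) : PolyR k fun x => C.jj (a x) (b x) :=
  (gen_c4 ha hb).sub (((PolyR.const 3).mul (gen_c3 ha hb)).mul (polyR_T ha ha hb))

private theorem gen_xp {k : ℕ} {a b : V k → V m} (ha : ∀ i, PolyR k fun x => a x i)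
    (hb : ∀ i, PolyR k fun x => b x i) (i : Fin m) : PolyR k fun x => C.xp (a x) (b x) i :=
  ((gen_c4 ha hb).mul (ha i)).sub ((((PolyR.const 3).mul (gen_F ha)).mul (gen_c3 ha hb)).mul (hb i))

theorem polyR_L (p : V m) : PolyR m fun x => C.T p p x := polyR_T (pc p) (pc p) px

theorem polyR_c3 (p : V m) : PolyR m fun x => C.c3 p x := gen_c3 (pc p) px

theorem polyR_c4 (p : V m) : PolyR m fun x => C.c4 p x := gen_c4 (pc p) px

theorem polyR_jj (p : V m) : PolyR m fun x => C.jj p x := gen_jj (pc p) px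

theorem polyR_xp (p : V m) (i : Fin m) : PolyR m fun x => C.xp p x i := gen_xp (pc p) px i

/-- polynomial functions of the first argument, too -/
theorem polyR_c3' (x : V m) : PolyR m fun p => C.c3 p x := gen_c3 px (pc x)

theorem polyR_c4' (x : V m) : PolyR m fun p => C.c4 p x := gen_c4 px (pc x)

theorem polyR_jj' (x : V m) : PolyR m fun p => C.jj p x := gen_jj px (pc x)

theorem polyR_cc' (v w : V m) : PolyR m fun p => C.cc p v w := gen_cc px (pc v) (pc w)

/-- composition of a polynomial function with a polynomial map -/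
theorem polyR_comp {k : ℕ} {f : V m → ℝ} {g : V k → V m} (hf : PolyR m f)
    (hg : ∀ i, PolyR k fun x => g x i) : PolyR k fun x => f (g x) := by
  obtain ⟨P, hP⟩ := hf
  choose Q hQ using hg
  refine ⟨bind₁ Q P, fun x => ?_⟩
  have h : g x = fun i => eval x (Q i) := funext fun i => (hQ i x).symm
  show eval x (bind₁ Q P) = f (g x)
  rw [← hP, h]
  exact eval₂Hom_bind₁ (RingHom.id ℝ) x Q P

theorem continuous_xp : Continuous fun z : V m × V m => C.xp z.1 z.2 := by
  have h1 : Continuous fun z : V m × V m => z.1 := continuous_fst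
  have h2 : Continuous fun z : V m × V m => z.2 := continuous_snd
  have hF : Continuous fun z : V m × V m => C.F z.1 := continuous_F.comp h1
  have hF2 : Continuous fun z : V m × V m => C.F z.2 := continuous_F.comp h2
  have hL : Continuous fun z : V m × V m => C.T z.1 z.1 z.2 := continuous_comp h1 h1 h2
  have hM : Continuous fun z : V m × V m => C.T z.1 z.2 z.2 := continuous_comp h1 h2 h2
  have h3 : Continuous fun z : V m × V m => C.c3 z.1 z.2 := (hF.mul hM).sub (hL.pow 2)
  have h4 : Continuous fun z : V m × V m => C.c4 z.1 z.2 :=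
    ((hF.pow 2).mul hF2).sub (hL.pow 3)
  exact (h4.smul h1).sub (((continuous_const.mul hF).mul h3).smul h2)

theorem continuous_mg : Continuous fun z : V m × V m => C.mg z.1 z.2 := by
  have h1 : Continuous fun z : V m × V m => z.1 := continuous_fst
  have h2 : Continuous fun z : V m × V m => z.2 := continuous_snd
  have hG : Continuous fun z : V m × V m => C.G z.1 := continuous_G.comp h1
  have hG2 : Continuous fun z : V m × V m => C.G z.2 := continuous_G.comp h2
  have hL : Continuous fun z : V m × V m => C.T z.1 z.1 z.2 := continuous_comp h1 h1 h2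
  have hM : Continuous fun z : V m × V m => C.T z.1 z.2 z.2 := continuous_comp h1 h2 h2
  exact ((hM.sub (hG.mul (hG2.pow 2))).smul h1).sub ((hL.sub ((hG.pow 2).mul hG2)).smul h2)

theorem hasDerivAt_xp (p x u : V m) : HasDerivAt (fun s : ℝ => C.xp p (x + s • u)) (C.dxp p x u) 0 := by
  have hx : HasDerivAt (fun s : ℝ => x + s • u) u 0 := by
    have := ((hasDerivAt_id (0 : ℝ)).smul_const u).const_add x
    simpa using this
  have hp : HasDerivAt (fun _ : ℝ => p) (0 : V m) 0 := hasDerivAt_const 0 p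
  have hL : HasDerivAt (fun s : ℝ => C.T p p (x + s • u)) (C.T p p u) 0 := by
    have := hasDerivAt_comp (C := C) hp hp hx
    simpa using this
  have hM : HasDerivAt (fun s : ℝ => C.T p (x + s • u) (x + s • u)) (2 * C.T p x u) 0 := by
    have := hasDerivAt_comp (C := C) hp hx hx
    simp only [map_zero, LinearMap.zero_apply, zero_add, zero_smul, add_zero] at this
    refine HasDerivAt.congr_deriv this ?_
    rw [C.s₂ p u x]; ring
  have hF : HasDerivAt (fun s : ℝ => C.F (x + s • u)) (3 * C.T x x u) 0 := by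
    have := hasDerivAt_comp (C := C) hx hx hx
    simp only [zero_smul, add_zero] at this
    refine HasDerivAt.congr_deriv this ?_
    rw [C.s₁ u x x, C.s₂ x u x]; ring
  have h3 : HasDerivAt (fun s : ℝ => C.c3 p (x + s • u))
      (2 * (C.F p * C.T p x u - C.T p p x * C.T p p u)) 0 := by
    have := (hM.const_mul (C.F p)).sub (hL.pow 2)
    refine HasDerivAt.congr_deriv this ?_
    simp only [zero_smul, add_zero]
    push_cast
    ring
  have h4 : HasDerivAt (fun s : ℝ => C.c4 p (x + s • u))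
      (3 * (C.F p) ^ 2 * C.T x x u - 3 * (C.T p p x) ^ 2 * C.T p p u) 0 := by
    have := (hF.const_mul ((C.F p) ^ 2)).sub (hL.pow 3)
    refine HasDerivAt.congr_deriv this ?_
    simp only [zero_smul, add_zero]
    push_cast
    ring
  have h5 := (h4.smul_const p).sub ((h3.const_mul (3 * C.F p)).smul hx)
  refine HasDerivAt.congr_deriv h5 ?_
  simp only [zero_smul, add_zero, dxp]
  module

theorem isQ_F {x : V m} (hx : IsRat x) : IsQ (C.F x) := C.rat _ _ _ hx hx hx

theorem isQ_c3 {p x : V m} (hp : IsRat p) (hx : IsRat x) : IsQ (C.c3 p x) :=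
  ((isQ_F hp).mul (C.rat _ _ _ hp hx hx)).sub ((C.rat _ _ _ hp hp hx).pow 2)

theorem isQ_c4 {p x : V m} (hp : IsRat p) (hx : IsRat x) : IsQ (C.c4 p x) :=
  (((isQ_F hp).pow 2).mul (isQ_F hx)).sub ((C.rat _ _ _ hp hp hx).pow 3)

theorem isQ_jj {p x : V m} (hp : IsRat p) (hx : IsRat x) : IsQ (C.jj p x) :=
  (isQ_c4 hp hx).sub (((IsQ.natCast 3).mul (isQ_c3 hp hx)).mul (C.rat _ _ _ hp hp hx))

theorem isRat_xp {p x : V m} (hp : IsRat p) (hx : IsRat x) : IsRat (C.xp p x) :=
  (IsRat.smul (isQ_c4 hp hx) hp).sub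
    (IsRat.smul (((IsQ.natCast 3).mul (isQ_F hp)).mul (isQ_c3 hp hx)) hx)

theorem G_of_S {x : V m} (hx : x ∈ C.S) : IsQ (C.G x) := by
  obtain ⟨-, r, h2, -, h4⟩ := hx
  unfold G
  rw [h4, cr_cube]
  exact h2

theorem F_ne_of_S {x : V m} (hx : x ∈ C.S) : C.F x ≠ 0 := by
  obtain ⟨-, r, -, h3, h4⟩ := hx
  rw [h4]
  exact pow_ne_zero 3 h3

theorem S_smul {x : V m} (hx : x ∈ C.S) {t : ℝ} (ht : IsQ t) (h0 : t ≠ 0) : t • x ∈ C.S := by
  obtain ⟨h1, r, h2, h3, h4⟩ := hx
  refine ⟨IsRat.smul ht h1, t * r, ht.mul h2, mul_ne_zero h0 h3, ?_⟩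
  rw [F_smul, h4]
  ring

theorem Z_smul {x : V m} (hx : x ∈ C.Z) {t : ℝ} (h0 : t ≠ 0) : t • x ∈ C.Z := by
  have hd : Dense ({(0 : ℝ)}ᶜ ∩ range ((↑) : ℚ → ℝ)) :=
    (dense_compl_singleton (0 : ℝ)).inter_of_isOpen_left (Rat.denseRange_cast)
      isOpen_compl_singleton
  refine map_mem_closure₂ (f := fun (t : ℝ) (x : V m) => t • x)
    (s := {(0 : ℝ)}ᶜ ∩ range ((↑) : ℚ → ℝ)) (t := C.S) (u := C.S) continuous_smul
    (hd t) hx ?_
  rintro _ ⟨h1, r, rfl⟩ b hb
  exact S_smul hb ⟨r, rfl⟩ h1

theorem mem_Z_of_smul {x : V m} {t : ℝ} (h0 : t ≠ 0) (hx : t • x ∈ C.Z) : x ∈ C.Z := by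
  have h1 := Z_smul hx (inv_ne_zero h0)
  rwa [smul_smul, inv_mul_cancel₀ h0, one_smul] at h1

/-- `x ∈ S` for a rational point whose value is a nonzero rational cube times the value at a point of `S` -/
theorem mem_S_of {x p : V m} (hx : IsRat x) (hp : p ∈ C.S) {r : ℝ} (hr : IsQ r) (h0 : r ≠ 0)
    (h : C.F x = C.F p * r ^ 3) : x ∈ C.S := by
  obtain ⟨-, s, h2, h3, h4⟩ := hp
  refine ⟨hx, s * r, h2.mul hr, mul_ne_zero h3 h0, ?_⟩
  rw [h, h4]
  ring

end Cb

end Pool.Agent.CTW
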