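import Mathlib

/-!
# CTW module BCA: binary cubic forms, algebra and growth

`g : BC R`, the form `b0 s t = g0 s³ + 3 g1 s² t + 3 g2 s t² + g3 t³`; `b1 s t u v` its polar form of type `(2, 1)`. In the basis `p = (s, t)`,
`x = (u, v)` put `A = b0 s t`, `L = b1 s t u v`, `M = b1 u v s t`, `N = b0 u v`, `c4 = A² N - L³`, `c3 = A M - L²`. The new point is
`c4 p - 3 A c3 x`. ADAPT QTW/Bqa.lean, QTW/Bqb.lean, QTW/Bqc.lean (quartic forms) step by step.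

PROOFS. `value`: with `J = c4 - 3 c3 L` the value at the new point is `A J³` (`expand`, `ring`).
`D_basis`: the discriminant `A² N² - 6 A L M N + 4 A M³ + 4 L³ N - 3 L² M²` in the basis is `D (s v - t u)⁶` (`ring`).
`bezout`: `D = A D'' + L² D'`, `D' = 4 L N - 3 M²`, `D'' = A N² - 6 L M N + 4 M³`. `J² + 4 c3³ = A² D`, `J = c4 - 3 L c3`, so
`A² D = c4 (c4 - 6 L c3) + c3² (9 L² + 4 c3)` and `A³ D = (A (c4 - 6 L c3)) c4 + (c3 (9 L² + 4 c3)) (A c3)`. `L³ = A² N - c4`, so `L⁶ D = (A² N - c4)² D`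
is a combination, too. `D⁶ = (A D'' + L² D')⁶ = A³ α + L⁶ β` (the terms with `A^i`, `i ≥ 3`, and `L^(2 (6-i))`, `i ≤ 3`), so `D⁷ = D · D⁶` is a
combination of `c4` and `A c3`. (Use explicit `α`, `β` or `Ideal` membership; the statement is only about existence.)
`dvd_of_dvd`: `g ∣ c4`, `g ∣ 3 A c3` give `g ∣ 3 D⁷`. Here `(s v - t u)⁶ = 1`.
`growth`: `n = s² + t²`, `s v - t u = 1`, `λ = (u s + v t) / n`, `(u, v) = (-t, s) / n + λ (s, t)`. `L` and `K = -3 A c3` in the basis `(p, x + λ p)`: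
`c3` does not change, `c4` changes by `3 λ A c3`, so the new point does not change; for `x = p' / n`, `p' = (-t, s)`: `c4 (p, p') / n³`, `c3 (p, p') / n²`, so
the new point is `(c4(p,p') p - 3 A c3(p,p') p') / n³`, and its square is `(c4(p,p')² + 9 A² c3(p,p')²) / n⁵`. The numerator is a homogeneous polynomial of
degree `18` in `(s, t)`, positive on the circle (`bezout`: `c4 = A c3 = 0` would give `D (s² + t²)⁶ = 0`).
-/

set_option autoImplicit false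

namespace Pool.Agent.CTW

/-- binary cubic forms, binomial coefficients split off -/
structure BC (R : Type*) where
  /-- coefficient of `s³` -/
  g0 : R
  /-- a third of the coefficient of `s² t` -/
  g1 : R
  /-- a third of the coefficient of `s t²` -/
  g2 : R
  /-- coefficient of `t³` -/
  g3 : R

namespace BC

section ring

variable {R : Type*} [CommRing R] (g : BC R) (s t u v : R)

/-- the form -/
def b0 : R := g.g0 * s ^ 3 + 3 * g.g1 * s ^ 2 * t + 3 * g.g2 * s * t ^ 2 + g.g3 * t ^ 3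

/-- polar form of type `(2, 1)` -/
def b1 : R := g.g0 * s ^ 2 * u + g.g1 * (s ^ 2 * v + 2 * s * t * u) +
  g.g2 * (2 * s * t * v + t ^ 2 * u) + g.g3 * t ^ 2 * v

/-- the discriminant -/
def D : R := g.g0 ^ 2 * g.g3 ^ 2 - 6 * g.g0 * g.g1 * g.g2 * g.g3 + 4 * g.g0 * g.g2 ^ 3 +
  4 * g.g1 ^ 3 * g.g3 - 3 * g.g1 ^ 2 * g.g2 ^ 2

/-- `c4` in the basis -/
def L : R := g.b0 s t ^ 2 * g.b0 u v - g.b1 s t u v ^ 3

/-- `-3 A c3` in the basis -/
def K : R := -(3 * g.b0 s t * (g.b0 s t * g.b1 u v s t - g.b1 s t u v ^ 2))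

theorem expand (a b : R) : g.b0 (a * s + b * u) (a * t + b * v) =
    g.b0 s t * a ^ 3 + 3 * g.b1 s t u v * a ^ 2 * b + 3 * g.b1 u v s t * a * b ^ 2 +
      g.b0 u v * b ^ 3 := by
  unfold b0 b1
  ring

theorem b0_scale (r : R) : g.b0 (r * u) (r * v) = r ^ 3 * g.b0 u v := by
  unfold b0
  ring

theorem value : g.b0 (g.L s t u v * s + g.K s t u v * u) (g.L s t u v * t + g.K s t u v * v) =
    g.b0 s t * (g.L s t u v -
      3 * (g.b0 s t * g.b1 u v s t - g.b1 s t u v ^ 2) * g.b1 s t u v) ^ 3 := by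
  rw [g.expand]
  unfold L K
  ring

theorem D_basis : g.b0 s t ^ 2 * g.b0 u v ^ 2 -
    6 * g.b0 s t * g.b1 s t u v * g.b1 u v s t * g.b0 u v + 4 * g.b0 s t * g.b1 u v s t ^ 3 +
    4 * g.b1 s t u v ^ 3 * g.b0 u v - 3 * g.b1 s t u v ^ 2 * g.b1 u v s t ^ 2 =
    g.D * (s * v - t * u) ^ 6 := by
  unfold D b0 b1
  ring

private theorem bez (A l m n : R) : ∃ a b : R,
    (A ^ 2 * n ^ 2 - 6 * A * l * m * n + 4 * A * m ^ 3 + 4 * l ^ 3 * n - 3 * l ^ 2 * m ^ 2) ^ 7 *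
      3 = a * (A ^ 2 * n - l ^ 3) + b * -(3 * A * (A * m - l ^ 2)) := by
  obtain ⟨Δ, hΔ⟩ : ∃ Δ, Δ = A ^ 2 * n ^ 2 - 6 * A * l * m * n + 4 * A * m ^ 3 +
    4 * l ^ 3 * n - 3 * l ^ 2 * m ^ 2 := ⟨_, rfl⟩
  obtain ⟨x, hx⟩ : ∃ x, x = A * n ^ 2 - 6 * l * m * n + 4 * m ^ 3 := ⟨_, rfl⟩
  obtain ⟨y, hy⟩ : ∃ y, y = 4 * l * n - 3 * m ^ 2 := ⟨_, rfl⟩
  obtain ⟨c, hc⟩ : ∃ c, c = A ^ 2 * n - l ^ 3 := ⟨_, rfl⟩
  obtain ⟨h, hh⟩ : ∃ h, h = A * m - l ^ 2 := ⟨_, rfl⟩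
  have h1 : 3 * A ^ 3 * Δ = 3 * A * (c - 6 * l * h) * c +
      -(h * (9 * l ^ 2 + 4 * h)) * -(3 * A * h) := by
    rw [hΔ, hc, hh]
    ring
  have h2 : 3 * l ^ 6 * Δ = A * n ^ 2 * (3 * A ^ 3 * Δ) + 3 * Δ * (c - 2 * A ^ 2 * n) * c := by
    rw [hc]
    ring
  have h3 : Δ = A * x + l ^ 2 * y := by
    rw [hΔ, hx, hy]
    ring
  have h4 : Δ ^ 6 = A ^ 3 * (x ^ 3 * ((A * x) ^ 3 + 6 * (A * x) ^ 2 * (l ^ 2 * y) +
      15 * (A * x) * (l ^ 2 * y) ^ 2 + 20 * (l ^ 2 * y) ^ 3)) +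
      l ^ 6 * (y ^ 3 * (15 * (A * x) ^ 2 * (l ^ 2 * y) + 6 * (A * x) * (l ^ 2 * y) ^ 2 +
        (l ^ 2 * y) ^ 3)) := by
    rw [h3]
    ring
  rw [← hΔ, ← hc, ← hh]
  generalize x ^ 3 * ((A * x) ^ 3 + 6 * (A * x) ^ 2 * (l ^ 2 * y) +
      15 * (A * x) * (l ^ 2 * y) ^ 2 + 20 * (l ^ 2 * y) ^ 3) = α at h4
  generalize y ^ 3 * (15 * (A * x) ^ 2 * (l ^ 2 * y) + 6 * (A * x) * (l ^ 2 * y) ^ 2 +
        (l ^ 2 * y) ^ 3) = β at h4
  refine ⟨(α + β * A * n ^ 2) * (3 * A * (c - 6 * l * h)) + β * (3 * Δ * (c - 2 * A ^ 2 * n)),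
    (α + β * A * n ^ 2) * -(h * (9 * l ^ 2 + 4 * h)), ?_⟩
  linear_combination 3 * Δ * h4 + (α + β * A * n ^ 2) * h1 + β * h2

theorem bezout : ∃ a b : R, (g.D * (s * v - t * u) ^ 6) ^ 7 * 3 =
    a * g.L s t u v + b * g.K s t u v := by
  rw [← g.D_basis]
  exact bez (g.b0 s t) (g.b1 s t u v) (g.b1 u v s t) (g.b0 u v)

theorem b1_shift (l : R) : g.b1 s t (u + l * s) (v + l * t) = g.b1 s t u v + l * g.b0 s t := by
  unfold b0 b1
  ring

theorem b2_shift (l : R) : g.b1 (u + l * s) (v + l * t) s t =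
    g.b1 u v s t + 2 * l * g.b1 s t u v + l ^ 2 * g.b0 s t := by
  unfold b0 b1
  ring

theorem b3_shift (l : R) : g.b0 (u + l * s) (v + l * t) =
    g.b0 u v + 3 * l * g.b1 u v s t + 3 * l ^ 2 * g.b1 s t u v + l ^ 3 * g.b0 s t := by
  unfold b0 b1
  ring

theorem K_shift (l : R) : g.K s t (u + l * s) (v + l * t) = g.K s t u v := by
  unfold K
  rw [g.b1_shift, g.b2_shift]
  ring

theorem L_shift (l : R) : g.L s t (u + l * s) (v + l * t) = g.L s t u v - l * g.K s t u v := by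
  unfold K L
  rw [g.b1_shift, g.b3_shift]
  ring

theorem b1_scale (r : R) : g.b1 s t (r * u) (r * v) = r * g.b1 s t u v := by
  unfold b1
  ring

theorem b2_scale (r : R) : g.b1 (r * u) (r * v) s t = r ^ 2 * g.b1 u v s t := by
  unfold b1
  ring

theorem L_scale (r : R) : g.L s t (r * u) (r * v) = r ^ 3 * g.L s t u v := by
  unfold L
  rw [g.b1_scale, g.b0_scale]
  ring

theorem K_scale (r : R) : g.K s t (r * u) (r * v) = r ^ 2 * g.K s t u v := by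
  unfold K
  rw [g.b1_scale, g.b2_scale]
  ring

theorem b1_hom (r : R) : g.b1 (r * s) (r * t) (r * u) (r * v) = r ^ 3 * g.b1 s t u v := by
  unfold b1
  ring

theorem L_hom (r : R) : g.L (r * s) (r * t) (r * u) (r * v) = r ^ 9 * g.L s t u v := by
  unfold L
  rw [g.b1_hom, g.b0_scale, g.b0_scale]
  ring

theorem K_hom (r : R) : g.K (r * s) (r * t) (r * u) (r * v) = r ^ 9 * g.K s t u v := by
  unfold K
  rw [g.b1_hom, g.b0_scale, g.b1_hom]
  ring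

end ring

/-- the real form of an integral form -/
def re (g : BC ℤ) : BC ℝ := ⟨g.g0, g.g1, g.g2, g.g3⟩

theorem re_L (g : BC ℤ) (s t u v : ℤ) : g.re.L s t u v = (g.L s t u v : ℤ) := by
  unfold L b0 b1 re
  push_cast
  ring

theorem re_K (g : BC ℤ) (s t u v : ℤ) : g.re.K s t u v = (g.K s t u v : ℤ) := by
  unfold K b0 b1 re
  push_cast
  ring

theorem re_D (g : BC ℤ) : g.re.D = (g.D : ℤ) := by
  unfold D re
  push_cast
  ring

theorem dvd_of_dvd {g : BC ℤ} {s t u v d : ℤ} (hw : s * v - t * u = 1) (h1 : d ∣ g.L s t u v)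
    (h2 : d ∣ g.K s t u v) : d ∣ 3 * g.D ^ 7 := by
  obtain ⟨a, b, h⟩ := g.bezout s t u v
  rw [hw, one_pow, mul_one, mul_comm] at h
  rw [h]
  exact dvd_add (h1.mul_left a) (h2.mul_left b)

/-- the homogeneous polynomial of degree `18` -/
def N (g : BC ℝ) (s t : ℝ) : ℝ := g.L s t (-t) s ^ 2 + g.K s t (-t) s ^ 2

theorem N_hom (g : BC ℝ) (r s t : ℝ) : g.N (r * s) (r * t) = r ^ 18 * g.N s t := by
  unfold N
  have e : -(r * t) = r * (-t) := by ring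
  rw [e, g.L_hom, g.K_hom]
  ring

theorem N_pos (g : BC ℝ) (hD : g.D ≠ 0) {s t : ℝ} (h : s ^ 2 + t ^ 2 = 1) : 0 < g.N s t := by
  obtain ⟨a, b, hb⟩ := g.bezout s t (-t) s
  have e : s * s - t * -t = 1 := by linarith
  rw [e, one_pow, mul_one] at hb
  unfold N
  by_contra hcon
  push Not at hcon
  have q1 := sq_nonneg (g.L s t (-t) s)
  have q2 := sq_nonneg (g.K s t (-t) s)
  have h1 : g.L s t (-t) s = 0 := pow_eq_zero_iff two_ne_zero |>.1 (by linarith)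
  have h2 : g.K s t (-t) s = 0 := pow_eq_zero_iff two_ne_zero |>.1 (by linarith)
  rw [h1, h2, mul_zero, mul_zero, add_zero] at hb
  exact mul_ne_zero (pow_ne_zero 7 hD) three_ne_zero hb

theorem N_cont (g : BC ℝ) : Continuous fun θ : ℝ => g.N (Real.cos θ) (Real.sin θ) := by
  unfold N L K b0 b1
  fun_prop

theorem N_low (g : BC ℝ) (hD : g.D ≠ 0) : ∃ c : ℝ, 0 < c ∧ ∀ s t : ℝ,
    c * (s ^ 2 + t ^ 2) ^ 9 ≤ g.N s t := by
  obtain ⟨θ0, -, hθ0⟩ := isCompact_Icc.exists_isMinOn (s := Set.Icc (-Real.pi) Real.pi)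
    ⟨0, by constructor <;> linarith [Real.pi_pos]⟩ g.N_cont.continuousOn
  have hc : 0 < g.N (Real.cos θ0) (Real.sin θ0) := g.N_pos hD (Real.cos_sq_add_sin_sq θ0)
  refine ⟨_, hc, fun s t => ?_⟩
  by_cases h0 : s = 0 ∧ t = 0
  · obtain ⟨rfl, rfl⟩ := h0
    have h1 := g.N_hom 0 0 0
    simp only [mul_zero] at h1
    rw [h1]
    norm_num
  · set z : ℂ := ⟨s, t⟩ with hz
    have hre := Complex.norm_mul_cos_arg z
    have him := Complex.norm_mul_sin_arg z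
    have hre' : s = ‖z‖ * Real.cos z.arg := hre.symm
    have him' : t = ‖z‖ * Real.sin z.arg := him.symm
    have hmem : z.arg ∈ Set.Icc (-Real.pi) Real.pi :=
      ⟨(Complex.neg_pi_lt_arg z).le, Complex.arg_le_pi z⟩
    have h1 : g.N (Real.cos θ0) (Real.sin θ0) ≤ g.N (Real.cos z.arg) (Real.sin z.arg) :=
      hθ0 hmem
    have h2 : s ^ 2 + t ^ 2 = ‖z‖ ^ 2 := by
      rw [hre', him', mul_pow, mul_pow, ← mul_add, Real.cos_sq_add_sin_sq, mul_one]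
    have h3 : g.N s t = ‖z‖ ^ 18 * g.N (Real.cos z.arg) (Real.sin z.arg) := by
      rw [← g.N_hom, ← hre', ← him']
    rw [h3, h2, ← pow_mul, mul_comm]
    exact mul_le_mul_of_nonneg_left h1 (by positivity)

theorem growth (g : BC ℝ) (hD : g.D ≠ 0) : ∃ c : ℝ, 0 < c ∧ ∀ s t u v : ℝ,
    s * v - t * u = 1 → c * (s ^ 2 + t ^ 2) ^ 4 ≤
      (g.L s t u v * s + g.K s t u v * u) ^ 2 + (g.L s t u v * t + g.K s t u v * v) ^ 2 := by
  obtain ⟨c, hc, h⟩ := g.N_low hD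
  refine ⟨c, hc, fun s t u v hw => ?_⟩
  have hn : 0 < s ^ 2 + t ^ 2 := by
    by_contra hcon
    push Not at hcon
    have h1 := sq_nonneg s
    have h2 := sq_nonneg t
    have h3 : s = 0 := pow_eq_zero_iff two_ne_zero |>.1 (by linarith)
    have h4 : t = 0 := pow_eq_zero_iff two_ne_zero |>.1 (by linarith)
    rw [h3, h4] at hw
    norm_num at hw
  obtain ⟨n, hn'⟩ : ∃ n, n = s ^ 2 + t ^ 2 := ⟨_, rfl⟩
  rw [← hn'] at hn
  have hn0 : n ≠ 0 := hn.ne'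
  obtain ⟨l, hl⟩ : ∃ l, l = (u * s + v * t) / n := ⟨_, rfl⟩
  have hu : u = n⁻¹ * (-t) + l * s := by
    rw [hl]
    field_simp
    linear_combination (-t) * hw + u * hn'
  have hv : v = n⁻¹ * s + l * t := by
    rw [hl]
    field_simp
    linear_combination s * hw + v * hn'
  have hL : g.L s t u v = n⁻¹ ^ 3 * g.L s t (-t) s - l * (n⁻¹ ^ 2 * g.K s t (-t) s) := by
    conv_lhs => rw [hu, hv]
    rw [g.L_shift, g.L_scale, g.K_scale]
  have hK : g.K s t u v = n⁻¹ ^ 2 * g.K s t (-t) s := by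
    conv_lhs => rw [hu, hv]
    rw [g.K_shift, g.K_scale]
  have h1 : (g.L s t u v * s + g.K s t u v * u) ^ 2 + (g.L s t u v * t + g.K s t u v * v) ^ 2 =
      g.N s t / n ^ 5 := by
    rw [hL, hK]
    unfold N
    generalize g.L s t (-t) s = L
    generalize g.K s t (-t) s = K
    rw [hu, hv]
    field_simp
    rw [hn']
    ring
  rw [h1, le_div_iff₀ (by positivity)]
  have h2 := h s t
  rw [← hn'] at h2 ⊢
  calc c * n ^ 4 * n ^ 5 = c * n ^ 9 := by ring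
    _ ≤ _ := h2

end BC

end Pool.Agent.CTW
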