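import Pool.Agent.CTW.Bca

/-!
# CTW module BCB: finite classes of primitive points have bounded height

`g.Pa a` is the set of the primitive integral vectors `p` with `g p ∈ a (ℚˣ)³`. `height_bound`: if `g0 ≠ 0` and `D ≠ 0` there is a bound `B` such
that for every `a ≠ 0` with `g.Pa a` finite all its elements have `s² + t² ≤ B` (Northcott). ADAPT QTW/Bqd.lean (quartic forms) step by step.
PROOF. Let `p` be the element of largest norm `n = s² + t²`, `(p, x)` a basis of `ℤ²` (`s v - t u = 1`), `Φ = L p + K x` the new point, `d` the greatest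
common divisor of its coordinates. `d` divides `L` and `K` (Cramer: determinant 1), so it divides `3 D⁷` (`dvd_of_dvd`); `|Φ|² ≥ c n⁴` (`growth`), in
particular `Φ ≠ 0`. `Φ / d` is primitive with norm at least `c n⁴ / (9 D¹⁴)`, which is larger than `n` and than the norms of the primitive zeros of the form
if `n > B`; its value is `A J³ / d³ = A (J / d)³` (`value`, `b0_scale`), in the class of `a`, unless it is zero. Contradiction to the maximality.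
`zero_bound`: a primitive zero `(s, t)`: `t ∣ g0 s³`, so `t ∣ g0`; `s` is bounded by `|s|³ |g0| ≤ ..` as in QTW/Bqd.lean.
-/

set_option autoImplicit false

namespace Pool.Agent.CTW

namespace BC

/-- the primitive vectors in the class of `a` -/
def Pa (g : BC ℤ) (a : ℚ) : Set (ℤ × ℤ) :=
  {p | IsCoprime p.1 p.2 ∧ ∃ r : ℚ, r ≠ 0 ∧ (g.b0 p.1 p.2 : ℚ) = a * r ^ 3}

theorem zero_bound (g : BC ℤ) (h0 : g.g0 ≠ 0) : ∃ B : ℤ, 0 ≤ B ∧ ∀ s t : ℤ, IsCoprime s t →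
    g.b0 s t = 0 → s ^ 2 + t ^ 2 ≤ B := by
  obtain ⟨K, hK⟩ : ∃ K, K = 3 * |g.g1| + 3 * |g.g2| + |g.g3| := ⟨_, rfl⟩
  have a1 := abs_nonneg g.g1
  have a2 := abs_nonneg g.g2
  have a3 := abs_nonneg g.g3
  have hK0 : 0 ≤ K := by rw [hK]; positivity
  refine ⟨(K ^ 2 + 1) * g.g0 ^ 2, by positivity, fun s t hst h => ?_⟩
  have ht : t ∣ g.g0 := by
    have h1 : t ∣ s ^ 3 * g.g0 := by
      refine ⟨-(3 * g.g1 * s ^ 2 + 3 * g.g2 * s * t + g.g3 * t ^ 2), ?_⟩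
      unfold b0 at h
      linear_combination h
    exact (hst.symm.pow_right (n := 3)).dvd_of_dvd_mul_left h1
  have ht' : |t| ≤ |g.g0| := Int.le_of_dvd (abs_pos.2 h0) ((abs_dvd_abs t g.g0).2 ht)
  have hx : |s| ≤ K * |t| := by
    by_contra hcon
    push Not at hcon
    have hx0 : 0 < |s| := lt_of_le_of_lt (mul_nonneg hK0 (abs_nonneg t)) hcon
    have hy0 := abs_nonneg t
    have h1 : |g.g0| * |s| ^ 3 = |3 * g.g1 * s ^ 2 * t + 3 * g.g2 * s * t ^ 2 +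
        g.g3 * t ^ 3| := by
      rw [← abs_pow, ← abs_mul, ← abs_neg (g.g0 * s ^ 3)]
      congr 1
      unfold b0 at h
      linear_combination -h
    have h2 : |3 * g.g1 * s ^ 2 * t + 3 * g.g2 * s * t ^ 2 + g.g3 * t ^ 3| ≤
        3 * |g.g1| * |s| ^ 2 * |t| + 3 * |g.g2| * |s| * |t| ^ 2 + |g.g3| * |t| ^ 3 := by
      refine (abs_add_le _ _).trans (add_le_add ((abs_add_le _ _).trans (add_le_add ?_ ?_)) ?_)
      · rw [abs_mul, abs_mul, abs_mul, abs_pow]; norm_num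
      · rw [abs_mul, abs_mul, abs_mul, abs_pow]; norm_num
      · rw [abs_mul, abs_pow]
    have hg0 : 1 ≤ |g.g0| := Int.one_le_abs h0
    generalize |s| = x at *
    generalize |t| = y at *
    have hxy : K = 0 ∨ y ≤ x := by
      rcases eq_or_lt_of_le hK0 with h3 | h3
      · exact Or.inl h3.symm
      · right
        nlinarith
    have h4 : 3 * |g.g1| * x ^ 2 * y + 3 * |g.g2| * x * y ^ 2 + |g.g3| * y ^ 3 ≤
        K * x ^ 2 * y := by
      rcases hxy with h3 | h3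
      · have b1 : |g.g1| = 0 := by linarith
        have b2 : |g.g2| = 0 := by linarith
        have b3 : |g.g3| = 0 := by linarith
        rw [b1, b2, b3, h3]
        simp
      · have c2 : x * y ^ 2 ≤ x ^ 2 * y := by
          have : 0 ≤ x * y := by positivity
          nlinarith
        have c3 : y ^ 3 ≤ x ^ 2 * y := by
          have h5 : y ^ 3 ≤ x * y ^ 2 := by
            have : 0 ≤ y ^ 2 := by positivity
            nlinarith
          linarith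
        rw [hK]
        nlinarith
    have h5 : x ^ 3 ≤ K * x ^ 2 * y := by
      calc x ^ 3 ≤ |g.g0| * x ^ 3 := by
            have : 0 ≤ x ^ 3 := by positivity
            nlinarith
        _ ≤ _ := by rw [h1]; exact h2.trans h4
    have h6 : 0 < x ^ 2 := by positivity
    nlinarith
  have e1 : s ^ 2 ≤ K ^ 2 * g.g0 ^ 2 := by
    have h3 : |s| ≤ K * |g.g0| := hx.trans (mul_le_mul_of_nonneg_left ht' hK0)
    have h4 : |s| ^ 2 ≤ (K * |g.g0|) ^ 2 := pow_le_pow_left₀ (abs_nonneg s) h3 2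
    rwa [sq_abs, mul_pow, sq_abs] at h4
  have e2 : t ^ 2 ≤ g.g0 ^ 2 := by
    have h4 : |t| ^ 2 ≤ |g.g0| ^ 2 := pow_le_pow_left₀ (abs_nonneg t) ht' 2
    rwa [sq_abs, sq_abs] at h4
  linarith

/-- the new point, divided by the greatest common divisor -/
private theorem next (g : BC ℤ) (hD : g.D ≠ 0) {s t : ℤ} (hst : IsCoprime s t)
    {c : ℝ} (hc : 0 < c)
    (hgr : ∀ s t u v : ℝ, s * v - t * u = 1 → c * (s ^ 2 + t ^ 2) ^ 4 ≤
      (g.re.L s t u v * s + g.re.K s t u v * u) ^ 2 +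
        (g.re.L s t u v * t + g.re.K s t u v * v) ^ 2) :
    ∃ s' t' : ℤ, IsCoprime s' t' ∧
      c * ((s : ℝ) ^ 2 + (t : ℝ) ^ 2) ^ 4 ≤
        ((3 * g.D ^ 7 : ℤ) : ℝ) ^ 2 * ((s' : ℝ) ^ 2 + (t' : ℝ) ^ 2) ∧
      ∃ r : ℚ, (g.b0 s' t' : ℚ) = g.b0 s t * r ^ 3 := by
  obtain ⟨v, u', huv⟩ := hst
  obtain ⟨u, rfl⟩ : ∃ u, u' = -u := ⟨-u', (neg_neg u').symm⟩
  have hw : s * v - t * u = 1 := by linarith
  have hwR : (s : ℝ) * v - t * u = 1 := by exact_mod_cast hw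
  have h1 := hgr s t u v hwR
  rw [g.re_L, g.re_K] at h1
  obtain ⟨Φ1, hΦ1⟩ : ∃ x, x = g.L s t u v * s + g.K s t u v * u := ⟨_, rfl⟩
  obtain ⟨Φ2, hΦ2⟩ : ∃ x, x = g.L s t u v * t + g.K s t u v * v := ⟨_, rfl⟩
  have h2 : c * ((s : ℝ) ^ 2 + (t : ℝ) ^ 2) ^ 4 ≤ (Φ1 : ℝ) ^ 2 + (Φ2 : ℝ) ^ 2 := by
    rw [hΦ1, hΦ2]
    push_cast
    exact h1
  have hst0 : (0 : ℝ) < (s : ℝ) ^ 2 + (t : ℝ) ^ 2 := by
    have h3 : s ≠ 0 ∨ t ≠ 0 := by
      by_contra hcon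
      push Not at hcon
      rw [hcon.1, hcon.2] at hw
      norm_num at hw
    rcases h3 with h3 | h3
    · have h4 : (s : ℝ) ≠ 0 := by exact_mod_cast h3
      positivity
    · have h4 : (t : ℝ) ≠ 0 := by exact_mod_cast h3
      positivity
  have hΦ0 : ¬ (Φ1 = 0 ∧ Φ2 = 0) := by
    rintro ⟨h3, h4⟩
    rw [h3, h4] at h2
    have h5 : 0 < c * ((s : ℝ) ^ 2 + (t : ℝ) ^ 2) ^ 4 := by positivity
    norm_num at h2
    linarith
  have hd0 : (Int.gcd Φ1 Φ2 : ℤ) ≠ 0 := by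
    intro h3
    have h4 : Int.gcd Φ1 Φ2 = 0 := by exact_mod_cast h3
    exact hΦ0 (Int.gcd_eq_zero_iff.1 h4)
  obtain ⟨d, hd⟩ : ∃ d : ℤ, d = (Int.gcd Φ1 Φ2 : ℤ) := ⟨_, rfl⟩
  rw [← hd] at hd0
  have hd1 : d ∣ Φ1 := by rw [hd]; exact Int.gcd_dvd_left _ _
  have hd2 : d ∣ Φ2 := by rw [hd]; exact Int.gcd_dvd_right _ _
  have hdL : d ∣ g.L s t u v := by
    have h3 : g.L s t u v = Φ1 * v - Φ2 * u := by
      rw [hΦ1, hΦ2]
      linear_combination (-g.L s t u v) * hw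
    rw [h3]
    exact dvd_sub (hd1.mul_right v) (hd2.mul_right u)
  have hdK : d ∣ g.K s t u v := by
    have h3 : g.K s t u v = s * Φ2 - t * Φ1 := by
      rw [hΦ1, hΦ2]
      linear_combination (-g.K s t u v) * hw
    rw [h3]
    exact dvd_sub (hd2.mul_left s) (hd1.mul_left t)
  have hdR : d ∣ 3 * g.D ^ 7 := dvd_of_dvd hw hdL hdK
  have hR0 : 3 * g.D ^ 7 ≠ 0 := mul_ne_zero three_ne_zero (pow_ne_zero _ hD)
  have hdR2 : d ^ 2 ≤ (3 * g.D ^ 7) ^ 2 := by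
    have h3 : |d| ≤ |3 * g.D ^ 7| :=
      Int.le_of_dvd (abs_pos.2 hR0) ((abs_dvd_abs _ _).2 hdR)
    have h4 := pow_le_pow_left₀ (abs_nonneg d) h3 2
    rwa [sq_abs, sq_abs] at h4
  obtain ⟨s', hs'⟩ := hd1
  obtain ⟨t', ht'⟩ := hd2
  have hcop : IsCoprime s' t' := by
    rw [Int.isCoprime_iff_gcd_eq_one]
    have h3 : Int.gcd Φ1 Φ2 = d.natAbs * Int.gcd s' t' := by
      rw [hs', ht', Int.gcd_mul_left]
    have h4 : d.natAbs = Int.gcd Φ1 Φ2 := by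
      rw [hd]
      exact Int.natAbs_natCast _
    rw [← h4] at h3
    have h5 : d.natAbs ≠ 0 := Int.natAbs_ne_zero.2 hd0
    have h6 : d.natAbs * 1 = d.natAbs * Int.gcd s' t' := by rw [mul_one]; exact h3
    exact (Nat.eq_of_mul_eq_mul_left (Nat.pos_of_ne_zero h5) h6).symm
  refine ⟨s', t', hcop, ?_, ?_⟩
  · refine h2.trans ?_
    rw [hs', ht']
    have h3 : ((d : ℝ)) ^ 2 ≤ ((3 * g.D ^ 7 : ℤ) : ℝ) ^ 2 := by
      exact_mod_cast hdR2
    have h4 : (((d * s' : ℤ)) : ℝ) ^ 2 + (((d * t' : ℤ)) : ℝ) ^ 2 =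
        (d : ℝ) ^ 2 * ((s' : ℝ) ^ 2 + (t' : ℝ) ^ 2) := by
      push_cast
      ring
    rw [h4]
    exact mul_le_mul_of_nonneg_right h3 (by positivity)
  · have h3 := g.value s t u v
    rw [← hΦ1, ← hΦ2, hs', ht', g.b0_scale] at h3
    obtain ⟨Q, hQ⟩ : ∃ Q, Q = g.L s t u v -
      3 * (g.b0 s t * g.b1 u v s t - g.b1 s t u v ^ 2) * g.b1 s t u v := ⟨_, rfl⟩
    rw [← hQ] at h3
    have h5 : (d : ℚ) ^ 3 * (g.b0 s' t' : ℚ) = (g.b0 s t : ℚ) * (Q : ℚ) ^ 3 := by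
      exact_mod_cast h3
    have hdq : (d : ℚ) ≠ 0 := by exact_mod_cast hd0
    refine ⟨Q / d, ?_⟩
    rw [div_pow, ← mul_div_assoc, ← h5]
    field_simp

theorem height_bound (g : BC ℤ) (h0 : g.g0 ≠ 0) (hD : g.D ≠ 0) : ∃ B : ℤ, ∀ a : ℚ, a ≠ 0 →
    (g.Pa a).Finite → ∀ p ∈ g.Pa a, p.1 ^ 2 + p.2 ^ 2 ≤ B := by
  have hDR : g.re.D ≠ 0 := by
    rw [g.re_D]
    exact_mod_cast hD
  obtain ⟨c, hc, hgr⟩ := g.re.growth hDR
  obtain ⟨B0, hB0, hz⟩ := g.zero_bound h0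
  obtain ⟨R, hR⟩ : ∃ R : ℝ, R = ((3 * g.D ^ 7 : ℤ) : ℝ) ^ 2 := ⟨_, rfl⟩
  obtain ⟨B, hB⟩ := exists_nat_gt (R * (1 + B0) / c)
  refine ⟨(B : ℤ) + 1, fun a ha hfin p hp => ?_⟩
  obtain ⟨q, hq, hmax⟩ := Set.exists_max_image (g.Pa a) (fun p => p.1 ^ 2 + p.2 ^ 2) hfin ⟨p, hp⟩
  refine (hmax p hp).trans ?_
  by_contra hcon
  push Not at hcon
  obtain ⟨hcop, r, hr, hb⟩ := hq
  have hb0 : g.b0 q.1 q.2 ≠ 0 := by
    intro h1
    rw [h1] at hb
    have h2 : a * r ^ 3 ≠ 0 := mul_ne_zero ha (pow_ne_zero 3 hr)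
    exact h2 (by rw [← hb]; norm_num)
  obtain ⟨s', t', hcop', hn, r', hr'⟩ := g.next hD hcop hc hgr
  rw [← hR] at hn
  have hRn : 0 ≤ R := by rw [hR]; positivity
  have hnq : (B : ℝ) + 1 < (q.1 : ℝ) ^ 2 + (q.2 : ℝ) ^ 2 := by exact_mod_cast hcon
  obtain ⟨n, hn'⟩ : ∃ n : ℝ, n = (q.1 : ℝ) ^ 2 + (q.2 : ℝ) ^ 2 := ⟨_, rfl⟩
  rw [← hn'] at hn hnq
  have hBn : (0 : ℝ) ≤ B := Nat.cast_nonneg B
  have hn1 : 1 ≤ n := by linarith
  have h1 : R * (1 + B0) < c * n := by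
    rw [div_lt_iff₀ hc] at hB
    nlinarith
  have hB0R : (0 : ℝ) ≤ B0 := by exact_mod_cast hB0
  have h2 : c * n * n ≤ c * n ^ 4 := by
    have h3 : n ^ 2 ≤ n ^ 4 := pow_le_pow_right₀ hn1 (by norm_num)
    nlinarith
  have hn2 : n < (s' : ℝ) ^ 2 + (t' : ℝ) ^ 2 ∧ (B0 : ℝ) < (s' : ℝ) ^ 2 + (t' : ℝ) ^ 2 := by
    generalize (s' : ℝ) ^ 2 + (t' : ℝ) ^ 2 = n' at *
    have h3 : R * (1 + B0) * n < R * n' := by
      have h4 : R * (1 + B0) * n < c * n * n := by nlinarith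
      linarith
    have hR0 : 0 < R := by
      rcases eq_or_lt_of_le hRn with h4 | h4
      · rw [← h4] at h3
        simp at h3
      · exact h4
    have h4 : (1 + B0) * n < n' := by
      by_contra h5
      push Not at h5
      nlinarith
    constructor
    · nlinarith
    · nlinarith
  have hb' : g.b0 s' t' ≠ 0 := by
    intro h3
    have h4 := hz s' t' hcop' h3
    have h5 : (s' : ℝ) ^ 2 + (t' : ℝ) ^ 2 ≤ B0 := by exact_mod_cast h4
    linarith [hn2.2]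
  have hr0 : r' ≠ 0 := by
    rintro rfl
    apply hb'
    have h3 : (g.b0 s' t' : ℚ) = 0 := by rw [hr']; ring
    exact_mod_cast h3
  have h6 : (s', t') ∈ g.Pa a := by
    refine ⟨hcop', r * r', mul_ne_zero hr hr0, ?_⟩
    show (g.b0 s' t' : ℚ) = a * (r * r') ^ 3
    rw [hr', hb]
    ring
  have h7 : s' ^ 2 + t' ^ 2 ≤ q.1 ^ 2 + q.2 ^ 2 := hmax _ h6
  have h8 : (s' : ℝ) ^ 2 + (t' : ℝ) ^ 2 ≤ n := by
    rw [hn']
    exact_mod_cast h7
  linarith [hn2.1]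

end BC

end Pool.Agent.CTW
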