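import Pool.Agent.CTW.Bcb
import Pool.Agent.QTW.Bqf

/-!
# CTW module BCC: for all but finitely many classes the set of cube values of a binary cubic form is empty or infinite

`Aa g a = {z ∈ ℚ | g (z, 1) ∈ a (ℚˣ)³}`. ADAPT QTW/Bqf.lean (`cop_pm`, `exists_prim` of that file, namespace `Pool.Agent.QS`, can be used).
PROOF of `degenerate`. `A = g0`, `L = g1`, `H = g0 g2 - g1²`, `J = g0² g3 - 3 g0 g1 g2 + 2 g1³`: `J² + 4 H³ = g0² D = 0`. If `H = 0` then `J = 0`, so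
`g0² g3 = g1³`, excluded by `hc`. Let `k = J / (2 H)`: `H = - k²`, `J = - 2 k³` (from `J² = - 4 H³`), `k ≠ 0`. With `w = g0 z + g1`:
`g0² g(z, 1) = w³ + 3 H w + J = (w + k)² (w - 2 k)`. For `y ∈ ℚ`, `y ≠ 0`, `ρ = a g0² y³ ≠ 1` put `τ = 3 k / (1 - ρ)`, `w = τ - k`, `z = (w - g1) / g0`, `r = y τ`:
`(w + k)² (w - 2 k) = τ² (τ - 3 k) = τ³ ρ = a g0² r³`, so `g(z, 1) = a r³`, `r ≠ 0`. The map `y ↦ z` is injective (cubes are injective on `ℚ`) and only one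
`y` has `ρ = 1`: infinitely many `z`.
PROOF of `classes`. `D = 0`: `degenerate`, `E = ∅`. `D ≠ 0`: `E` = the class of the values of an integral multiple. Multiply by a cube `N³` to get an
integral form `G = N³ g`, `N` the product of the denominators; `(σ, τ)` is a multiple of a primitive vector `p ∈ G.Pa a`. If `Aa g a` is finite then so is
`G.Pa a` (at most one pair up to sign with `t = 0`, the others give ratios `s / t` in `Aa g a`; coprime pairs with the same ratio differ by a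
sign), so `|p|² ≤ B` (`height_bound`) and `a` is in the class of the value at `p`: `E` contains the nonzero values of `G` at the integral vectors
with `|p|² ≤ B`.
-/

set_option autoImplicit false

namespace Pool.Agent.CTW

namespace BC

/-- the rational numbers `z` with `g (z, 1)` in the class of `a` -/
def Aa (g : BC ℚ) (a : ℚ) : Set ℚ := {z | ∃ r : ℚ, r ≠ 0 ∧ g.b0 z 1 = a * r ^ 3}

private theorem cube_inj' {a b : ℚ} (h : a ^ 3 = b ^ 3) : a = b :=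
  (Odd.strictMono_pow (by decide : Odd 3)).injective h

theorem degenerate (g : BC ℚ) (h0 : g.g0 ≠ 0) (hD : g.D = 0)
    (hc : ¬ (g.g0 * g.g2 = g.g1 ^ 2 ∧ g.g0 ^ 2 * g.g3 = g.g1 ^ 3)) {a : ℚ} (ha : a ≠ 0) :
    (g.Aa a).Infinite := by
  obtain ⟨H, hH⟩ : ∃ H : ℚ, H = g.g0 * g.g2 - g.g1 ^ 2 := ⟨_, rfl⟩
  obtain ⟨J, hJ⟩ : ∃ J : ℚ, J = g.g0 ^ 2 * g.g3 - 3 * g.g0 * g.g1 * g.g2 + 2 * g.g1 ^ 3 := ⟨_, rfl⟩
  have hHJ : J ^ 2 + 4 * H ^ 3 = 0 := by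
    have : J ^ 2 + 4 * H ^ 3 = g.g0 ^ 2 * g.D := by
      rw [hH, hJ]
      unfold D
      ring
    rw [this, hD, mul_zero]
  have hH0 : H ≠ 0 := by
    intro h
    rw [h] at hHJ
    have hJ0 : J = 0 := by
      have : J ^ 2 = 0 := by linarith
      exact pow_eq_zero_iff (two_ne_zero) |>.1 this
    apply hc
    have h1 : g.g0 * g.g2 = g.g1 ^ 2 := by linarith
    refine ⟨h1, ?_⟩
    rw [hJ0] at hJ
    linear_combination -hJ + 3 * g.g1 * h1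
  have hJ0 : J ≠ 0 := by
    intro h
    rw [h] at hHJ
    have : H ^ 3 = 0 := by linarith
    exact hH0 (pow_eq_zero_iff (three_ne_zero) |>.1 this)
  obtain ⟨k, hk⟩ : ∃ k : ℚ, k = J / (2 * H) := ⟨_, rfl⟩
  have hk0 : k ≠ 0 := by
    rw [hk]
    exact div_ne_zero hJ0 (mul_ne_zero two_ne_zero hH0)
  have hk2 : H = -k ^ 2 := by
    have h1 : k * (2 * H) = J := by
      rw [hk]
      field_simp
    have h2 : (k * (2 * H)) ^ 2 + 4 * H ^ 3 = 0 := by rw [h1]; exact hHJ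
    have h3 : 4 * H ^ 2 * (k ^ 2 + H) = 0 := by linear_combination h2
    have h4 : k ^ 2 + H = 0 := (mul_eq_zero.1 h3).resolve_left (by positivity)
    linarith
  have hk3 : J = -2 * k ^ 3 := by
    have h1 : k * (2 * H) = J := by
      rw [hk]
      field_simp
    rw [← h1, hk2]
    ring
  have key : ∀ y : ℚ, y ≠ 0 → a * g.g0 ^ 2 * y ^ 3 ≠ 1 →
      (3 * k / (1 - a * g.g0 ^ 2 * y ^ 3) - k - g.g1) / g.g0 ∈ g.Aa a := by
    intro y hy hρ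
    obtain ⟨ρ, hρd⟩ : ∃ ρ : ℚ, ρ = a * g.g0 ^ 2 * y ^ 3 := ⟨_, rfl⟩
    rw [← hρd] at hρ ⊢
    have h1 : 1 - ρ ≠ 0 := sub_ne_zero.2 (Ne.symm hρ)
    obtain ⟨τ, hτ⟩ : ∃ τ : ℚ, τ = 3 * k / (1 - ρ) := ⟨_, rfl⟩
    have hτ1 : τ * (1 - ρ) = 3 * k := by
      rw [hτ]
      field_simp
    have hτ0 : τ ≠ 0 := by
      rw [hτ]
      exact div_ne_zero (mul_ne_zero three_ne_zero hk0) h1
    rw [← hτ]
    refine ⟨y * τ, mul_ne_zero hy hτ0, ?_⟩
    obtain ⟨z, hz⟩ : ∃ z : ℚ, z = (τ - k - g.g1) / g.g0 := ⟨_, rfl⟩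
    rw [← hz]
    have hz1 : g.g0 * z = τ - k - g.g1 := by
      rw [hz]
      field_simp
    have h2 : g.g0 ^ 2 * g.b0 z 1 = g.g0 ^ 2 * (a * (y * τ) ^ 3) := by
      have e1 : g.g0 ^ 2 * g.b0 z 1 = (g.g0 * z + g.g1) ^ 3 + 3 * H * (g.g0 * z + g.g1) + J := by
        rw [hH, hJ]
        unfold b0
        ring
      have e2 : g.g0 * z + g.g1 = τ - k := by rw [hz1]; ring
      rw [e1, e2, hk2, hk3]
      have e3 : τ - 3 * k = τ * ρ := by linear_combination hτ1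
      have e4 : (τ - k) ^ 3 + 3 * (-k ^ 2) * (τ - k) + -2 * k ^ 3 = τ ^ 2 * (τ - 3 * k) := by ring
      rw [e4, e3, hρd]
      ring
    exact mul_left_cancel₀ (pow_ne_zero 2 h0) h2
  have hag : a * g.g0 ^ 2 ≠ 0 := mul_ne_zero ha (pow_ne_zero 2 h0)
  have hsub : ({y : ℚ | a * g.g0 ^ 2 * y ^ 3 = 1}).Finite := by
    apply Set.Subsingleton.finite
    intro x hx y hy
    have h1 : a * g.g0 ^ 2 * x ^ 3 = a * g.g0 ^ 2 * y ^ 3 := by
      rw [Set.mem_ofPred_eq] at hx hy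
      rw [hx, hy]
    exact cube_inj' (mul_left_cancel₀ hag h1)
  have hY : ((({0} : Set ℚ) ∪ {y : ℚ | a * g.g0 ^ 2 * y ^ 3 = 1})ᶜ).Infinite :=
    ((Set.finite_singleton (0 : ℚ)).union hsub).infinite_compl
  refine Set.infinite_of_injOn_mapsTo
    (f := fun y : ℚ => (3 * k / (1 - a * g.g0 ^ 2 * y ^ 3) - k - g.g1) / g.g0) ?_ ?_ hY
  · intro x hx y hy hxy
    simp only [Set.mem_compl_iff, Set.mem_union, Set.mem_singleton_iff, Set.mem_ofPred_eq,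
      not_or] at hx hy
    have h1 : 1 - a * g.g0 ^ 2 * x ^ 3 ≠ 0 := sub_ne_zero.2 (Ne.symm hx.2)
    have h2 : 1 - a * g.g0 ^ 2 * y ^ 3 ≠ 0 := sub_ne_zero.2 (Ne.symm hy.2)
    have h3 : 3 * k / (1 - a * g.g0 ^ 2 * x ^ 3) = 3 * k / (1 - a * g.g0 ^ 2 * y ^ 3) := by
      have h4 : (3 * k / (1 - a * g.g0 ^ 2 * x ^ 3) - k - g.g1) =
          (3 * k / (1 - a * g.g0 ^ 2 * y ^ 3) - k - g.g1) := (div_left_inj' h0).1 hxy
      linarith
    rw [div_eq_div_iff h1 h2] at h3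
    have h5 : 1 - a * g.g0 ^ 2 * y ^ 3 = 1 - a * g.g0 ^ 2 * x ^ 3 :=
      mul_left_cancel₀ (mul_ne_zero three_ne_zero hk0) h3
    have h6 : a * g.g0 ^ 2 * x ^ 3 = a * g.g0 ^ 2 * y ^ 3 := by linarith
    exact cube_inj' (mul_left_cancel₀ hag h6)
  · intro y hy
    simp only [Set.mem_compl_iff, Set.mem_union, Set.mem_singleton_iff, Set.mem_ofPred_eq,
      not_or] at hy
    exact key y hy.1 hy.2

private theorem exists_int (g : BC ℚ) : ∃ (N : ℤ) (G : BC ℤ), N ≠ 0 ∧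
    (∀ s t : ℤ, (G.b0 s t : ℚ) = (N : ℚ) ^ 3 * g.b0 s t) ∧ (G.g0 : ℚ) = (N : ℚ) ^ 3 * g.g0 ∧
    (G.D : ℚ) = ((N : ℚ) ^ 3) ^ 4 * g.D := by
  obtain ⟨N, hN⟩ : ∃ N : ℤ, N = g.g0.den * g.g1.den * g.g2.den * g.g3.den := ⟨_, rfl⟩
  have hN0 : N ≠ 0 := by
    rw [hN]
    have h0 : (g.g0.den : ℤ) ≠ 0 := by exact_mod_cast g.g0.den_ne_zero
    have h1 : (g.g1.den : ℤ) ≠ 0 := by exact_mod_cast g.g1.den_ne_zero
    have h2 : (g.g2.den : ℤ) ≠ 0 := by exact_mod_cast g.g2.den_ne_zero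
    have h3 : (g.g3.den : ℤ) ≠ 0 := by exact_mod_cast g.g3.den_ne_zero
    exact mul_ne_zero (mul_ne_zero (mul_ne_zero h0 h1) h2) h3
  have key : ∀ q : ℚ, (∃ M : ℤ, N = q.den * M) → ∃ k : ℤ, (k : ℚ) = (N : ℚ) ^ 3 * q := by
    rintro q ⟨M, hM⟩
    refine ⟨N ^ 2 * (M * q.num), ?_⟩
    have h1 := Rat.mul_den_eq_num q
    have h2 : (N : ℚ) = q.den * M := by
      rw [hM]
      push_cast
      rfl
    push_cast
    rw [← h1]
    linear_combination (-(N : ℚ) ^ 2 * q) * h2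
  obtain ⟨k0, e0⟩ := key g.g0 ⟨g.g1.den * g.g2.den * g.g3.den, by rw [hN]; ring⟩
  obtain ⟨k1, e1⟩ := key g.g1 ⟨g.g0.den * g.g2.den * g.g3.den, by rw [hN]; ring⟩
  obtain ⟨k2, e2⟩ := key g.g2 ⟨g.g0.den * g.g1.den * g.g3.den, by rw [hN]; ring⟩
  obtain ⟨k3, e3⟩ := key g.g3 ⟨g.g0.den * g.g1.den * g.g2.den, by rw [hN]; ring⟩
  refine ⟨N, ⟨k0, k1, k2, k3⟩, hN0, ?_, e0, ?_⟩
  · intro s t
    unfold b0
    push_cast
    rw [e0, e1, e2, e3]
    ring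
  · unfold D
    push_cast
    rw [e0, e1, e2, e3]
    ring

private theorem Pa_finite {g : BC ℚ} {G : BC ℤ} {N : ℤ} (hN : N ≠ 0)
    (hb : ∀ s t : ℤ, (G.b0 s t : ℚ) = (N : ℚ) ^ 3 * g.b0 s t) {a : ℚ} (h : (g.Aa a).Finite) :
    (G.Pa a).Finite := by
  have hNq : (N : ℚ) ≠ 0 := by exact_mod_cast hN
  have hfib : ∀ z : ℚ, {p : ℤ × ℤ | IsCoprime p.1 p.2 ∧ p.2 ≠ 0 ∧ (p.1 : ℚ) = z * p.2}.Finite := by
    intro z
    by_cases hne : ∃ p : ℤ × ℤ, IsCoprime p.1 p.2 ∧ p.2 ≠ 0 ∧ (p.1 : ℚ) = z * p.2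
    · obtain ⟨p, hp1, hp2, hp3⟩ := hne
      refine Set.Finite.subset (Set.toFinite {p, -p}) ?_
      rintro q ⟨hq1, hq2, hq3⟩
      have h1 : p.1 * q.2 = p.2 * q.1 := by
        have h2 : (p.1 : ℚ) * q.2 = p.2 * q.1 := by rw [hp3, hq3]; ring
        exact_mod_cast h2
      rcases QS.cop_pm hp1 hq1 h1 with h2 | h2
      · exact Or.inl h2
      · exact Or.inr h2
    · refine Set.Finite.subset Set.finite_empty ?_
      intro p hp
      exact hne ⟨p, hp⟩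
  have hfib0 : {p : ℤ × ℤ | IsCoprime p.1 p.2 ∧ p.2 = 0}.Finite := by
    refine Set.Finite.subset (Set.toFinite {((1, 0) : ℤ × ℤ), -(1, 0)}) ?_
    rintro q ⟨hq1, hq2⟩
    rcases QS.cop_pm (p := ((1, 0) : ℤ × ℤ)) isCoprime_one_left hq1 (by
      show (1 : ℤ) * q.2 = 0 * q.1
      rw [hq2]
      ring) with h2 | h2
    · exact Or.inl h2
    · exact Or.inr h2
  refine (hfib0.union (h.biUnion fun z _ => hfib z)).subset ?_
  rintro p ⟨hp, r, hr, hpr⟩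
  by_cases h0 : p.2 = 0
  · exact Or.inl ⟨hp, h0⟩
  · right
    have h0q : (p.2 : ℚ) ≠ 0 := by exact_mod_cast h0
    rw [Set.mem_iUnion₂]
    refine ⟨p.1 / p.2, ⟨r / (N * (p.2 : ℚ)), div_ne_zero hr (mul_ne_zero hNq h0q), ?_⟩, hp, h0, ?_⟩
    · have h1 := g.b0_scale (p.1 : ℚ) (p.2 : ℚ) (p.2 : ℚ)⁻¹
      rw [inv_mul_cancel₀ h0q] at h1
      rw [div_eq_inv_mul, h1]
      rw [hb] at hpr
      rw [div_pow, ← mul_div_assoc, ← hpr]
      field_simp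
    · rw [div_mul_cancel₀ _ h0q]

theorem classes (g : BC ℚ) (h0 : g.g0 ≠ 0)
    (hc : ¬ (g.g0 * g.g2 = g.g1 ^ 2 ∧ g.g0 ^ 2 * g.g3 = g.g1 ^ 3)) :
    ∃ E : Finset ℚ, (∀ e ∈ E, e ≠ 0) ∧
    ∀ a : ℚ, a ≠ 0 → ∀ σ τ r : ℚ, r ≠ 0 → g.b0 σ τ = a * r ^ 3 →
      (∃ e ∈ E, ∃ r : ℚ, r ≠ 0 ∧ a = e * r ^ 3) ∨ (g.Aa a).Infinite := by
  classical
  by_cases hD : g.D = 0
  · exact ⟨∅, by simp, fun a ha _ _ _ _ _ => Or.inr (g.degenerate h0 hD hc ha)⟩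
  · obtain ⟨N, G, hN, hb, hG0, hGD⟩ := g.exists_int
    have hNq : (N : ℚ) ≠ 0 := by exact_mod_cast hN
    have hG0' : G.g0 ≠ 0 := by
      intro h1
      rw [h1] at hG0
      exact (mul_ne_zero (pow_ne_zero 3 hNq) h0) (by rw [← hG0]; norm_num)
    have hGD' : G.D ≠ 0 := by
      intro h1
      rw [h1] at hGD
      exact (mul_ne_zero (pow_ne_zero 4 (pow_ne_zero 3 hNq)) hD) (by rw [← hGD]; norm_num)
    obtain ⟨B, hB⟩ := G.height_bound hG0' hGD'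
    refine ⟨((Finset.Icc (-B) B ×ˢ Finset.Icc (-B) B).image
      fun p : ℤ × ℤ => (G.b0 p.1 p.2 : ℚ)).filter (· ≠ 0), fun e he => (Finset.mem_filter.1 he).2, ?_⟩
    intro a ha σ τ r hr h
    by_cases hinf : (g.Aa a).Infinite
    · exact Or.inr hinf
    left
    have hfin := Pa_finite hN hb (Set.not_infinite.1 hinf)
    have hne : ¬ (σ = 0 ∧ τ = 0) := by
      rintro ⟨rfl, rfl⟩
      have h2 : a * r ^ 3 ≠ 0 := mul_ne_zero ha (pow_ne_zero 3 hr)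
      exact h2 (by rw [← h]; unfold b0; ring)
    obtain ⟨p, c, hp, hc', hσ, hτ⟩ := QS.exists_prim hne
    have hpv : (G.b0 p.1 p.2 : ℚ) = a * (N * r / c) ^ 3 := by
      rw [hb]
      rw [hσ, hτ, g.b0_scale] at h
      have h3 : g.b0 (p.1 : ℚ) (p.2 : ℚ) = a * r ^ 3 / c ^ 3 := by
        rw [eq_div_iff (pow_ne_zero 3 hc'), ← h]
        ring
      rw [h3]
      field_simp
    have hw : N * r / c ≠ 0 := div_ne_zero (mul_ne_zero hNq hr) hc'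
    have hpa : p ∈ G.Pa a := ⟨hp, _, hw, hpv⟩
    have hbd := hB a ha hfin p hpa
    have hb0 : (G.b0 p.1 p.2 : ℚ) ≠ 0 := by
      rw [hpv]
      exact mul_ne_zero ha (pow_ne_zero 3 hw)
    refine ⟨(G.b0 p.1 p.2 : ℚ), ?_, (N * r / c)⁻¹, inv_ne_zero hw, ?_⟩
    · rw [Finset.mem_filter]
      refine ⟨Finset.mem_image.2 ⟨p, ?_, rfl⟩, hb0⟩
      have i1 : p.1 ^ 2 ≤ B := by nlinarith [sq_nonneg p.2]
      have i2 : p.2 ^ 2 ≤ B := by nlinarith [sq_nonneg p.1]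
      have j1 : |p.1| ≤ B := by
        have h4 : |p.1| ≤ p.1 ^ 2 := by
          rw [← sq_abs]
          rcases eq_or_ne p.1 0 with h5 | h5
          · rw [h5]; simp
          · have := Int.one_le_abs h5
            nlinarith
        exact h4.trans i1
      have j2 : |p.2| ≤ B := by
        have h4 : |p.2| ≤ p.2 ^ 2 := by
          rw [← sq_abs]
          rcases eq_or_ne p.2 0 with h5 | h5
          · rw [h5]; simp
          · have := Int.one_le_abs h5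
            nlinarith
        exact h4.trans i2
      rw [Finset.mem_product, Finset.mem_Icc, Finset.mem_Icc]
      exact ⟨abs_le.1 j1, abs_le.1 j2⟩
    · rw [hpv, inv_pow, mul_assoc, mul_inv_cancel₀ (pow_ne_zero 3 hw), mul_one]

end BC

end Pool.Agent.CTW
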