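import Pool.Agent.CTW.Bas
import Pool.Agent.CTW.Bcd
import Pool.Agent.MZ.RatD

/-!
# CTW module BCE: forms which depend on two linear forms

`bin_coord`: `l = T p p · / F p`, a second rational form `T x₀ x₀ · - T x₀ x₀ p • l` for a rational `x₀` (if there is none then
`T x x v = 0` for all `x` and all `v` with `l v = 0`, so `F x = (l x)³ F p` is the cube of a real linear form).
`of_bin`: `S = ∅`: no pieces. Otherwise `p ∈ S`, `F p = y³`, `F (e + s • p) = qf y a2 a1 a0 s`. If `QA` is finite: `S` consists of the rational points with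
`F ≠ 0` of the kernel of `n` and of the hyperplanes `l = s n`, `s ∈ QA` (`F x = (n x)³ F (e + (l x / n x) • p)`, for `n x = 0`: `F x = (l x)³ F p`).
If `QA` is infinite: `exists_interval`, `o = e + ((u + v) / 2) • p` is an interior point of `Z`, `F o ≠ 0`.
-/

set_option autoImplicit false

open Set Topology Filter MvPolynomial
open Pool.Agent.MZ Pool.Agent.QS

namespace Pool.Agent.CTW

namespace Cb

variable {m : ℕ} {C : Cb m}

private theorem bce_expand (x v : V m) (t : ℝ) : C.F (x + t • v) = C.F x + 3 * t * C.T x x v +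
    3 * t ^ 2 * C.T x v v + t ^ 3 * C.F v := by
  have h := C.F_add x v 1 t
  rw [one_smul] at h
  rw [h]
  ring

private theorem bce_T {x v : V m} (h : ∀ t : ℝ, C.F (x + t • v) = C.F x) : C.T x x v = 0 := by
  have e1 := h 1
  have e2 := h (-1)
  have e3 := h 2
  rw [bce_expand] at e1 e2 e3
  linarith

/-- if `F` does not change in the directions of the kernel of `l` -/
private theorem bce_cube {l : V m →ₗ[ℝ] ℝ} {p : V m} (hp : l p = 1) {r : ℝ} (hr : C.F p = r ^ 3)
    (h : ∀ x v, l v = 0 → C.T x x v = 0) : C.Cube := by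
  have h1 : ∀ x, C.F x = (l x) ^ 3 * C.F p := by
    intro x
    have hv : l (x - l x • p) = 0 := by
      rw [map_sub, map_smul, hp, smul_eq_mul, mul_one, sub_self]
    have hd : ∀ t : ℝ, HasDerivAt (fun s : ℝ => C.F (l x • p + s • (x - l x • p))) 0 t := by
      intro t
      have hc : HasDerivAt (fun s : ℝ => l x • p + s • (x - l x • p)) (x - l x • p) t := by
        have h2 := ((hasDerivAt_id t).smul_const (x - l x • p)).const_add (l x • p)
        simpa using h2
      have h3 := C.hasDerivAt_comp hc hc hc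
      have h4 := h (l x • p + t • (x - l x • p)) _ hv
      have e1 : C.T (x - l x • p) (l x • p + t • (x - l x • p))
          (l x • p + t • (x - l x • p)) = 0 := by
        rw [C.s₁, C.s₂]
        exact h4
      have e2 : C.T (l x • p + t • (x - l x • p)) (x - l x • p)
          (l x • p + t • (x - l x • p)) = 0 := by
        rw [C.s₂]
        exact h4
      rw [e1, e2, h4, add_zero, add_zero] at h3
      exact h3
    have h5 := is_const_of_deriv_eq_zero (fun t => (hd t).differentiableAt)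
      (fun t => (hd t).deriv) 1 0
    have e4 : l x • p + (1 : ℝ) • (x - l x • p) = x := by
      rw [one_smul]
      abel
    have e5 : l x • p + (0 : ℝ) • (x - l x • p) = l x • p := by
      rw [zero_smul, add_zero]
    simp only [e4, e5] at h5
    rw [h5, F_smul]
  refine ⟨r • l, fun x => ?_⟩
  rw [h1, hr, LinearMap.smul_apply, smul_eq_mul, mul_pow, mul_comm]

theorem bin_coord (hb : C.Bin) (hns : ¬ C.Cube) {p : V m} (hp : p ∈ C.S) :
    ∃ (l n : V m →ₗ[ℝ] ℝ) (e : V m), (∀ x, IsRat x → IsQ (l x)) ∧ (∀ x, IsRat x → IsQ (n x)) ∧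
      IsRat e ∧ l p = 1 ∧ n p = 0 ∧ l e = 0 ∧ n e = 1 ∧
      ∀ x, C.F x = C.F (l x • p + n x • e) := by
  obtain ⟨hpr, r, hr, hr0, hFp⟩ := hp
  obtain ⟨a, b, hab⟩ := hb
  have key : ∀ v, a v = 0 → b v = 0 → ∀ x, C.T x x v = 0 := by
    intro v ha hb x
    refine bce_T fun t => ?_
    exact hab (t • v) (by rw [map_smul, ha, smul_zero]) (by rw [map_smul, hb, smul_zero]) x
  have hF0 : C.F p ≠ 0 := by
    rw [hFp]
    exact pow_ne_zero 3 hr0
  let l : V m →ₗ[ℝ] ℝ := (C.F p)⁻¹ • C.T p p
  have hl : ∀ x, l x = (C.F p)⁻¹ * C.T p p x := fun x => rfl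
  have hlp : l p = 1 := by
    rw [hl]
    exact inv_mul_cancel₀ hF0
  have hlQ : ∀ x, IsRat x → IsQ (l x) := by
    intro x hx
    rw [hl]
    exact (isQ_F hpr).inv.mul (C.rat _ _ _ hpr hpr hx)
  -- a second rational linear form
  obtain ⟨x₀, hx₀, v₀, hv₀⟩ : ∃ x₀, IsRat x₀ ∧ ∃ v, C.T x₀ x₀ v ≠ l v * C.T x₀ x₀ p := by
    by_contra hcon
    push Not at hcon
    apply hns
    refine bce_cube hlp hFp fun x v hv => ?_
    have h1 : IsClosed {x : V m | C.T x x v = 0} :=
      isClosed_eq (C.continuous_comp continuous_id continuous_id continuous_const)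
        continuous_const
    have h2 : {x : V m | IsRat x} ⊆ {x : V m | C.T x x v = 0} := by
      intro y hy
      show C.T y y v = 0
      rw [hcon y hy v, hv, zero_mul]
    have h3 := h1.closure_subset_iff.2 h2
    rw [dense_isRat.closure_eq] at h3
    exact h3 (mem_univ x)
  let n₀ : V m →ₗ[ℝ] ℝ := C.T x₀ x₀ - C.T x₀ x₀ p • l
  have hn₀ : ∀ x, n₀ x = C.T x₀ x₀ x - C.T x₀ x₀ p * l x := fun x => rfl
  have hn₀Q : ∀ x, IsRat x → IsQ (n₀ x) := by
    intro x hx
    rw [hn₀]
    exact (C.rat _ _ _ hx₀ hx₀ hx).sub ((C.rat _ _ _ hx₀ hx₀ hpr).mul (hlQ x hx))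
  have hn₀p : n₀ p = 0 := by
    rw [hn₀, hlp, mul_one, sub_self]
  obtain ⟨e₀, he₀, hne₀⟩ := exists_isRat_ne (lam := n₀) ⟨v₀, by
    rw [hn₀]
    intro h
    apply hv₀
    rw [mul_comm]
    linarith⟩
  have hlP : l (e₀ - l e₀ • p) = 0 := by
    rw [map_sub, map_smul, hlp, smul_eq_mul, mul_one, sub_self]
  have hnP : n₀ (e₀ - l e₀ • p) = n₀ e₀ := by
    rw [map_sub, map_smul, hn₀p, smul_zero, sub_zero]
  set e : V m := e₀ - l e₀ • p with he
  have her : IsRat e := he₀.sub (IsRat.smul (hlQ _ he₀) hpr)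
  have hne : n₀ e ≠ 0 := by
    rw [hnP]
    exact hne₀
  let n : V m →ₗ[ℝ] ℝ := (n₀ e)⁻¹ • n₀
  have hn : ∀ x, n x = (n₀ e)⁻¹ * n₀ x := fun x => rfl
  have hne1 : n e = 1 := by
    rw [hn]
    exact inv_mul_cancel₀ hne
  have hnp : n p = 0 := by
    rw [hn, hn₀p, mul_zero]
  have hnQ : ∀ x, IsRat x → IsQ (n x) := fun x hx => (hn₀Q e her).inv.mul (hn₀Q x hx)
  refine ⟨l, n, e, hlQ, hnQ, her, hlp, hnp, hlP, hne1, ?_⟩
  -- vectors in both kernels
  have hker : ∀ w, a w = 0 → b w = 0 → l w = 0 ∧ n w = 0 := by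
    intro w h1 h2
    have h3 : l w = 0 := by
      rw [hl, key w h1 h2 p, mul_zero]
    refine ⟨h3, ?_⟩
    rw [hn, hn₀ w, h3, key w h1 h2 x₀, mul_zero, sub_zero, mul_zero]
  have hD : a p * b e - a e * b p ≠ 0 := by
    intro hD
    have h1 : ∀ α β : ℝ, a (α • p + β • e) = 0 → b (α • p + β • e) = 0 → α = 0 ∧ β = 0 := by
      intro α β h1 h2
      obtain ⟨h3, h4⟩ := hker _ h1 h2
      rw [map_add, map_smul, map_smul, hlp, hlP, smul_eq_mul, smul_eq_mul, mul_one, mul_zero,
        add_zero] at h3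
      rw [map_add, map_smul, map_smul, hnp, hne1, smul_eq_mul, smul_eq_mul, mul_zero, mul_one,
        zero_add] at h4
      exact ⟨h3, h4⟩
    have h2 := h1 (b e) (-b p) (by
      rw [map_add, map_smul, map_smul, smul_eq_mul, smul_eq_mul]
      linarith) (by
      rw [map_add, map_smul, map_smul, smul_eq_mul, smul_eq_mul]
      ring)
    have h3 := h1 (a e) (-a p) (by
      rw [map_add, map_smul, map_smul, smul_eq_mul, smul_eq_mul]
      ring) (by
      rw [map_add, map_smul, map_smul, smul_eq_mul, smul_eq_mul]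
      linarith)
    have h4 := h1 1 0 (by
      rw [map_add, map_smul, map_smul, smul_eq_mul, smul_eq_mul, one_mul, zero_mul, add_zero]
      linarith [h3.2]) (by
      rw [map_add, map_smul, map_smul, smul_eq_mul, smul_eq_mul, one_mul, zero_mul, add_zero]
      linarith [h2.2])
    exact one_ne_zero h4.1
  intro x
  set v : V m := x - l x • p - n x • e with hv
  have hlv : l v = 0 := by
    rw [hv, map_sub, map_sub, map_smul, map_smul, hlp, hlP, smul_eq_mul, smul_eq_mul, mul_one,
      mul_zero, sub_self, sub_zero]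
  have hnv : n v = 0 := by
    rw [hv, map_sub, map_sub, map_smul, map_smul, hnp, hne1, smul_eq_mul, smul_eq_mul, mul_one,
      mul_zero, sub_zero, sub_self]
  set D := a p * b e - a e * b p with hDdef
  set α := (a v * b e - a e * b v) / D with hα
  set β := (a p * b v - a v * b p) / D with hβ
  have hα' : α * D = a v * b e - a e * b v := div_mul_cancel₀ _ hD
  have hβ' : β * D = a p * b v - a v * b p := div_mul_cancel₀ _ hD
  have haw : a (v - α • p - β • e) = 0 := by
    have h1 : D * a (v - α • p - β • e) = 0 := by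
      rw [map_sub, map_sub, map_smul, map_smul, smul_eq_mul, smul_eq_mul]
      have h2 : D * (a v - α * a p - β * a e) = D * a v - (α * D) * a p - (β * D) * a e := by ring
      rw [h2, hα', hβ', hDdef]
      ring
    exact (mul_eq_zero.1 h1).resolve_left hD
  have hbw : b (v - α • p - β • e) = 0 := by
    have h1 : D * b (v - α • p - β • e) = 0 := by
      rw [map_sub, map_sub, map_smul, map_smul, smul_eq_mul, smul_eq_mul]
      have h2 : D * (b v - α * b p - β * b e) = D * b v - (α * D) * b p - (β * D) * b e := by ring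
      rw [h2, hα', hβ', hDdef]
      ring
    exact (mul_eq_zero.1 h1).resolve_left hD
  obtain ⟨h1, h2⟩ := hker _ haw hbw
  have hα0 : α = 0 := by
    rw [map_sub, map_sub, map_smul, map_smul, hlp, hlP, hlv, smul_eq_mul, smul_eq_mul] at h1
    linarith
  have hβ0 : β = 0 := by
    rw [map_sub, map_sub, map_smul, map_smul, hnp, hne1, hnv, smul_eq_mul, smul_eq_mul] at h2
    linarith
  rw [hα0, hβ0, zero_smul, zero_smul, sub_zero, sub_zero] at haw hbw
  have h3 := hab v haw hbw (l x • p + n x • e)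
  have h4 : l x • p + n x • e + v = x := by
    rw [hv]
    abel
  rw [h4] at h3
  exact h3

private theorem bce_line {l n : V m →ₗ[ℝ] ℝ} {p e : V m}
    (hF : ∀ x, C.F x = C.F (l x • p + n x • e)) {x : V m} (hn : n x ≠ 0) :
    C.F x = n x ^ 3 * C.F (e + (l x / n x) • p) := by
  rw [hF x, ← F_smul]
  congr 1
  rw [smul_add, smul_smul, mul_div_cancel₀ _ hn, add_comm]

/-- the pieces when there are finitely many good ratios -/
private theorem bce_fin {l n : V m →ₗ[ℝ] ℝ} {p e : V m} (hl : ∀ x, IsRat x → IsQ (l x))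
    (hn : ∀ x, IsRat x → IsQ (n x)) (hF : ∀ x, C.F x = C.F (l x • p + n x • e)) {r : ℝ}
    (hr : IsQ r) (hFp : C.F p = r ^ 3) {A : Set ℝ} (hA : A.Finite)
    (hA1 : ∀ s ∈ A, ∃ Y : ℝ, IsQ Y ∧ Y ≠ 0 ∧ C.F (e + s • p) = Y ^ 3)
    (hA2 : ∀ s Y : ℝ, IsQ s → IsQ Y → Y ≠ 0 → C.F (e + s • p) = Y ^ 3 → s ∈ A) : C.Pieces := by
  have hfin : Finite ↥A := hA.to_subtype
  obtain ⟨k, ⟨E⟩⟩ := Finite.exists_equiv_fin (Option ↥A)
  let Y : Option ↥A → Set (V m) := fun o =>
    match o with
    | none => {x | IsRat x ∧ n x = 0}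
    | some s => {x | IsRat x ∧ l x = (s : ℝ) * n x}
  have hY : ∀ o : Option ↥A, ∀ x ∈ Y o, IsRat x := by
    intro o x hx
    cases o with
    | none => exact hx.1
    | some s => exact hx.1
  refine ⟨k, fun i => Y (E.symm i), fun i => hY _, ?_⟩
  ext x
  constructor
  · rintro ⟨hx, ρ, hρ, hρ0, hFx⟩
    refine ⟨hx, by rw [hFx]; exact pow_ne_zero 3 hρ0, ?_⟩
    by_cases hnx : n x = 0
    · refine ⟨E none, Submodule.subset_span ?_⟩
      show x ∈ Y (E.symm (E none))
      rw [E.symm_apply_apply]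
      exact ⟨hx, hnx⟩
    · have h1 := bce_line hF hnx
      have h2 : C.F (e + (l x / n x) • p) = (ρ / n x) ^ 3 := by
        rw [div_pow, ← hFx, h1, mul_comm (n x ^ 3), mul_div_assoc,
          div_self (pow_ne_zero _ hnx), mul_one]
      have h3 := hA2 _ _ ((hl x hx).div (hn x hx)) (hρ.div (hn x hx))
        (div_ne_zero hρ0 hnx) h2
      refine ⟨E (some ⟨_, h3⟩), Submodule.subset_span ?_⟩
      show x ∈ Y (E.symm (E (some ⟨_, h3⟩)))
      rw [E.symm_apply_apply]
      exact ⟨hx, (div_mul_cancel₀ _ hnx).symm⟩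
  · rintro ⟨hx, hFx, i, hi⟩
    refine ⟨hx, ?_⟩
    have hi' : x ∈ Submodule.span ℝ (Y (E.symm i)) := hi
    cases hE : E.symm i with
    | none =>
      rw [hE] at hi'
      have h1 : Submodule.span ℝ (Y none) ≤ LinearMap.ker n := by
        rw [Submodule.span_le]
        intro z hz
        exact hz.2
      have h2 : n x = 0 := h1 hi'
      have h3 : C.F x = (l x * r) ^ 3 := by
        rw [hF x, h2, zero_smul, add_zero, F_smul, hFp]
        ring
      refine ⟨l x * r, (hl x hx).mul hr, ?_, h3⟩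
      intro h4
      apply hFx
      rw [h3, h4]
      norm_num
    | some s =>
      rw [hE] at hi'
      have h1 : Submodule.span ℝ (Y (some s)) ≤ LinearMap.ker (l - (s : ℝ) • n) := by
        rw [Submodule.span_le]
        intro z hz
        have hz2 : l z = (s : ℝ) * n z := hz.2
        show (l - (s : ℝ) • n) z = 0
        rw [LinearMap.sub_apply, LinearMap.smul_apply, smul_eq_mul, hz2, sub_self]
      have h2 : (l - (s : ℝ) • n) x = 0 := h1 hi'
      rw [LinearMap.sub_apply, LinearMap.smul_apply, smul_eq_mul] at h2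
      have hnx : n x ≠ 0 := by
        intro h3
        apply hFx
        rw [h3, mul_zero, sub_zero] at h2
        rw [hF x, h2, h3, zero_smul, zero_smul, add_zero]
        have h4 := F_smul (C := C) 0 (0 : V m)
        rw [zero_smul] at h4
        rw [h4]
        norm_num
      have h3 : l x / n x = s := by
        rw [div_eq_iff hnx]
        linarith
      obtain ⟨Y', hY1, hY2, hY3⟩ := hA1 s s.2
      have h4 : C.F x = (n x * Y') ^ 3 := by
        rw [bce_line hF hnx, h3, hY3]
        ring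
      exact ⟨n x * Y', (hn x hx).mul hY1, mul_ne_zero hnx hY2, h4⟩

theorem of_bin (hb : C.Bin) (hns : ¬ C.Cube) : C.Pieces ∨ ∃ o, C.F o ≠ 0 ∧ C.Z ∈ 𝓝 o := by
  rcases C.S.eq_empty_or_nonempty with hS | ⟨p, hp⟩
  · left
    refine ⟨0, fun i => i.elim0, fun i => i.elim0, ?_⟩
    rw [hS]
    ext x
    simp only [mem_empty_iff_false, false_iff]
    rintro ⟨-, -, i, -⟩
    exact i.elim0
  obtain ⟨l, n, e, hl, hn, he, hlp, hnp, hle, hne, hF⟩ := bin_coord hb hns hp
  obtain ⟨hpr, r, ⟨y, rfl⟩, hr0, hFp⟩ := hp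
  have hy0 : y ≠ 0 := by exact_mod_cast hr0
  obtain ⟨a2, h2⟩ := (IsQ.natCast 3).mul (C.rat e p p he hpr hpr)
  obtain ⟨a1, h1⟩ := (IsQ.natCast 3).mul (C.rat e e p he he hpr)
  obtain ⟨a0, h0⟩ := isQ_F (C := C) he
  have hq : ∀ s : ℝ, C.F (e + s • p) = qf y a2 a1 a0 s := by
    intro s
    rw [bce_expand, hFp]
    unfold qf
    rw [← h2, ← h1, ← h0]
    push_cast
    ring
  by_cases hA : (QA y a2 a1 a0).Finite
  · left
    refine bce_fin hl hn hF ⟨y, rfl⟩ hFp hA ?_ ?_
    · rintro s ⟨q, Y, rfl, hY, hYq⟩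
      refine ⟨Y, ⟨Y, rfl⟩, by exact_mod_cast hY, ?_⟩
      rw [hq, hYq]
    · rintro s Y ⟨q, rfl⟩ ⟨Y', rfl⟩ hY hYq
      refine ⟨q, Y', rfl, by exact_mod_cast hY, ?_⟩
      rw [← hq, hYq]
  · right
    obtain ⟨u, v, huv, hI⟩ := exists_interval hy0 hA
    have hm : (u + v) / 2 ∈ Ioo u v := ⟨by linarith, by linarith⟩
    have hnc : Continuous n := LinearMap.continuous_of_finiteDimensional n
    have hlc : Continuous l := LinearMap.continuous_of_finiteDimensional l
    refine ⟨e + ((u + v) / 2) • p, by rw [hq]; exact (hI _ hm).1, ?_⟩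
    have hno : n (e + ((u + v) / 2) • p) = 1 := by
      rw [map_add, map_smul, hne, hnp, smul_zero, add_zero]
    have hlo : l (e + ((u + v) / 2) • p) = (u + v) / 2 := by
      rw [map_add, map_smul, hle, hlp, smul_eq_mul, mul_one, zero_add]
    have hev : ∀ᶠ x in 𝓝 (e + ((u + v) / 2) • p), n x ≠ 0 ∧ l x / n x ∈ Ioo u v := by
      have c1 : ContinuousAt (fun x => l x / n x) (e + ((u + v) / 2) • p) :=
        hlc.continuousAt.div hnc.continuousAt (by rw [hno]; exact one_ne_zero)
      have c2 := hnc.continuousAt.eventually_ne (x := e + ((u + v) / 2) • p)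
        (by rw [hno]; exact one_ne_zero : n (e + ((u + v) / 2) • p) ≠ 0)
      have c3 : Ioo u v ∈ 𝓝 (l (e + ((u + v) / 2) • p) / n (e + ((u + v) / 2) • p)) := by
        rw [hno, hlo, div_one]
        exact Ioo_mem_nhds hm.1 hm.2
      exact c2.and (c1.eventually c3)
    filter_upwards [hev] with x hx
    obtain ⟨hnx, hsx⟩ := hx
    have hcs := (hI _ hsx).2
    have hcx : x ∈ closure ({z : V m | n z ≠ 0} ∩ {z : V m | IsRat z}) := by
      have ho : IsOpen {z : V m | n z ≠ 0} := isOpen_ne_fun hnc continuous_const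
      exact dense_isRat.open_subset_closure_inter ho hnx
    have hG : Continuous fun z : V m × ℝ => z.1 + (z.2 * n z.1 - l z.1) • p :=
      continuous_fst.add (((continuous_snd.mul (hnc.comp continuous_fst)).sub
        (hlc.comp continuous_fst)).smul continuous_const)
    have h4 := map_mem_closure₂ (f := fun (z : V m) (s : ℝ) => z + (s * n z - l z) • p)
      (u := C.S) hG hcx hcs ?_
    · have h5 : x + (l x / n x * n x - l x) • p = x := by
        rw [div_mul_cancel₀ _ hnx, sub_self, zero_smul, add_zero]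
      simp only [h5] at h4
      exact h4
    · rintro z ⟨hz1, hz2⟩ _ ⟨q, Y, rfl, hY, hYq⟩
      have hz1' : n z ≠ 0 := hz1
      have hnz : n (z + ((q : ℝ) * n z - l z) • p) = n z := by
        rw [map_add, map_smul, hnp, smul_zero, add_zero]
      have hlz : l (z + ((q : ℝ) * n z - l z) • p) = q * n z := by
        rw [map_add, map_smul, hlp, smul_eq_mul, mul_one]
        ring
      refine ⟨hz2.add (IsRat.smul (((IsQ.cast q).mul (hn z hz2)).sub (hl z hz2)) hpr),
        n z * Y, (hn z hz2).mul (IsQ.cast Y),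
        mul_ne_zero hz1' (by exact_mod_cast hY), ?_⟩
      rw [bce_line hF (by rw [hnz]; exact hz1'), hnz, hlz, mul_div_cancel_right₀ _ hz1', hq, ← hYq]
      ring

end Cb

end Pool.Agent.CTW
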