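import Pool.Agent.CTW.Bce
import Pool.Agent.CTW.Bcc
import Pool.Agent.CTW.Pcb

/-!
# CTW module BCF: the twists of a cubic form which depends on two linear forms

ADAPT `bin_uni` (and `bqg_dense`) of QTW/Bqg.lean. PROOF. There is a rational `p₀` with `F p₀ = a₀ ≠ 0` (otherwise `F = 0` on the dense set of the rational
points and `F = 0` is a cube). `p₀ ∈ (C.tw a₀).S`, `bin_coord` for `C.tw a₀` (`bin_tw`, `cube_tw`): `F x = F (l x • p₀ + n x • e)`.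
`g (s, t) = F (s p₀ + t e)` is a rational binary cubic form with `g0 = a₀ ≠ 0`; it is not a cube (`hc` of `BC.classes`: otherwise
`a₀² F x = (a₀ l x + g1 n x)³` and `F` is the cube of a real linear form). By `BC.classes` we may assume that `Aa g a` is infinite. `of_bin` for `C.tw a`: if `S`
were a finite union of pieces then one of them would contain `z p₀ + e`, `z' p₀ + e` for some `z ≠ z'`, hence `p₀` and `e`, and `S` would be the set of
all rational points with `F ≠ 0`, which is dense.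
-/

set_option autoImplicit false

open Set Topology Filter MvPolynomial
open Pool.Agent.MZ Pool.Agent.QS

namespace Pool.Agent.CTW

namespace Cb

variable {m : ℕ} {C : Cb m}

private theorem bcf_dense {a : ℚ} (h : (C.tw a).S.Nonempty)
    (hS : ∀ x, IsRat x → C.F x ≠ 0 → x ∈ (C.tw a).S) :
    ∃ o, (C.tw a).F o ≠ 0 ∧ (C.tw a).Z ∈ 𝓝 o := by
  obtain ⟨o, ho⟩ := h
  have hne : (C.tw a).F o ≠ 0 := F_ne_of_S ho
  refine ⟨o, hne, ?_⟩
  have h1 : IsOpen {x : V m | (C.tw a).F x ≠ 0} :=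
    isOpen_ne_fun (C.tw a).continuous_F continuous_const
  refine Filter.mem_of_superset (h1.mem_nhds hne) ?_
  intro x hx
  have h2 := dense_isRat.open_subset_closure_inter h1 hx
  refine closure_mono ?_ h2
  rintro y ⟨hy1, hy2⟩
  refine hS y hy2 ?_
  intro h0
  apply hy1
  rw [tw_F, h0, mul_zero]

private theorem bcf_exists (hns : ¬ C.Cube) : ∃ p₀ : V m, IsRat p₀ ∧ C.F p₀ ≠ 0 := by
  by_contra hcon
  push Not at hcon
  apply hns
  refine ⟨0, fun x => ?_⟩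
  have h1 : IsClosed {x : V m | C.F x = 0} := isClosed_eq C.continuous_F continuous_const
  have h2 : (Set.univ : Set (V m)) ⊆ {x : V m | C.F x = 0} := by
    rw [← (dense_isRat (n := m)).closure_eq]
    exact closure_minimal (fun y hy => hcon y hy) h1
  have h3 : C.F x = 0 := h2 (mem_univ x)
  rw [h3]
  simp

theorem bin_uni (hb : C.Bin) (hns : ¬ C.Cube) : ∃ E : Finset ℚ, (∀ e ∈ E, e ≠ 0) ∧
    ∀ a : ℚ, a ≠ 0 → (∃ e ∈ E, ∃ r : ℚ, r ≠ 0 ∧ a = e * r ^ 3) ∨ (C.tw a).S = ∅ ∨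
      ∃ o, (C.tw a).F o ≠ 0 ∧ (C.tw a).Z ∈ 𝓝 o := by
  obtain ⟨p₀, hp, hFp⟩ := bcf_exists hns
  obtain ⟨a₀, hF⟩ := C.isQ_F hp
  have ha₀R : (a₀ : ℝ) ≠ 0 := by rw [← hF]; exact hFp
  have ha₀ : a₀ ≠ 0 := by exact_mod_cast ha₀R
  have hpS : p₀ ∈ (C.tw a₀).S :=
    (mem_S_tw ha₀).2 ⟨hp, 1, by simpa using IsQ.cast 1, one_ne_zero, by rw [hF]; ring⟩
  obtain ⟨l, n, e, hl, hn, he, hlp, hnp, hle, hne, hx⟩ :=
    bin_coord ((bin_tw ha₀).2 hb) (fun h => hns ((cube_tw ha₀).1 h)) hpS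
  have hFx : ∀ x, C.F x = C.F (l x • p₀ + n x • e) := by
    intro x
    have h1 := hx x
    rw [tw_F, tw_F] at h1
    exact mul_left_cancel₀ (inv_ne_zero ha₀R) h1
  obtain ⟨g1, h1⟩ := C.rat p₀ p₀ e hp hp he
  obtain ⟨g2, h2⟩ := C.rat p₀ e e hp he he
  obtain ⟨g3, h3⟩ := C.isQ_F he
  let g : BC ℚ := ⟨a₀, g1, g2, g3⟩
  have hg : ∀ s t : ℝ, C.F (s • p₀ + t • e) = a₀ * s ^ 3 + 3 * g1 * s ^ 2 * t +
      3 * g2 * s * t ^ 2 + g3 * t ^ 3 := by
    intro s t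
    rw [F_add, hF, h1, h2, h3]
    ring
  have hgq : ∀ s t : ℚ, C.F ((s : ℝ) • p₀ + (t : ℝ) • e) = (g.b0 s t : ℚ) := by
    intro s t
    rw [hg]
    unfold BC.b0
    push_cast
    ring
  have hc : ¬ (g.g0 * g.g2 = g.g1 ^ 2 ∧ g.g0 ^ 2 * g.g3 = g.g1 ^ 3) := by
    rintro ⟨c1, c2⟩
    have c1' : (a₀ : ℝ) * g2 = (g1 : ℝ) ^ 2 := by exact_mod_cast c1
    have c2' : (a₀ : ℝ) ^ 2 * g3 = (g1 : ℝ) ^ 3 := by exact_mod_cast c2
    apply hns
    refine ⟨(cr (((a₀ : ℝ) ^ 2)⁻¹)) • ((a₀ : ℝ) • l + (g1 : ℝ) • n), fun x => ?_⟩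
    simp only [LinearMap.smul_apply, LinearMap.add_apply, smul_eq_mul]
    rw [mul_pow, cr_pow, hFx, hg]
    have h4 : (a₀ : ℝ) ^ 2 ≠ 0 := pow_ne_zero 2 ha₀R
    rw [eq_comm, inv_mul_eq_div, div_eq_iff h4]
    linear_combination -(3 * (a₀ : ℝ) * l x * n x ^ 2 * c1') - n x ^ 3 * c2'
  obtain ⟨E, hE0, hE⟩ := g.classes ha₀ hc
  refine ⟨E, hE0, fun a ha => ?_⟩
  have haR : (a : ℝ) ≠ 0 := by exact_mod_cast ha
  rcases (C.tw a).S.eq_empty_or_nonempty with hS | hS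
  · exact Or.inr (Or.inl hS)
  have hSn := hS
  obtain ⟨z, hz⟩ := hS
  obtain ⟨hzr, r, ⟨r, rfl⟩, hr, hFz⟩ := (mem_S_tw ha).1 hz
  have hr0 : r ≠ 0 := by exact_mod_cast hr
  obtain ⟨σ, hσ⟩ := hl z hzr
  obtain ⟨τ, hτ⟩ := hn z hzr
  have hgz : g.b0 σ τ = a * r ^ 3 := by
    have h5 := hFx z
    rw [hσ, hτ, hgq, hFz] at h5
    exact_mod_cast h5.symm
  rcases hE a ha σ τ r hr0 hgz with h5 | hinf
  · exact Or.inl h5
  right; right
  have hnsa : ¬ (C.tw a).Cube := fun h => hns ((cube_tw ha).1 h)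
  rcases of_bin ((bin_tw ha).2 hb) hnsa with hP | hI
  · obtain ⟨k, Y, hYr, hY⟩ := hP
    have hmem : ∀ z ∈ g.Aa a, ((z : ℝ) • p₀ + (1 : ℝ) • e) ∈ (C.tw a).S := by
      rintro z ⟨r', hr', hz'⟩
      refine (mem_S_tw ha).2 ⟨?_, r', IsQ.cast r', by exact_mod_cast hr', ?_⟩
      · exact (IsRat.smul (IsQ.cast z) hp).add (by rw [one_smul]; exact he)
      · have h6 := hgq z 1
        rw [Rat.cast_one] at h6
        rw [h6, hz']
        push_cast
        rfl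
    have hidx : ∀ z : ℚ, ∃ i : Option (Fin k), z ∈ g.Aa a → ∃ i', i = some i' ∧
        ((z : ℝ) • p₀ + (1 : ℝ) • e) ∈ Submodule.span ℝ (Y i') := by
      intro z
      by_cases h6 : z ∈ g.Aa a
      · have h7 := hmem z h6
        rw [hY] at h7
        obtain ⟨-, -, i, hi⟩ := h7
        exact ⟨some i, fun _ => ⟨i, rfl, hi⟩⟩
      · exact ⟨none, fun h => absurd h h6⟩
    choose f hf using hidx
    obtain ⟨z₁, hz₁, z₂, hz₂, hne12, heq⟩ := hinf.exists_ne_map_eq_of_mapsTo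
      (f := f) (t := Set.univ) (fun _ _ => mem_univ _) Set.finite_univ
    obtain ⟨i, hi, hi1⟩ := hf z₁ hz₁
    obtain ⟨i', hi', hi2⟩ := hf z₂ hz₂
    have hii : i' = i := by
      rw [hi, hi'] at heq
      exact (Option.some.inj heq).symm
    rw [hii] at hi2
    have hsub := Submodule.sub_mem _ hi1 hi2
    have h8 : (z₁ : ℝ) - z₂ ≠ 0 := by
      rw [sub_ne_zero]
      exact_mod_cast hne12
    have hp1 : p₀ ∈ Submodule.span ℝ (Y i) := by
      have h9 : (z₁ : ℝ) • p₀ + (1 : ℝ) • e - ((z₂ : ℝ) • p₀ + (1 : ℝ) • e) =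
          ((z₁ : ℝ) - z₂) • p₀ := by
        rw [sub_smul]
        abel
      rw [h9] at hsub
      have h10 := Submodule.smul_mem _ ((z₁ : ℝ) - z₂)⁻¹ hsub
      rwa [smul_smul, inv_mul_cancel₀ h8, one_smul] at h10
    have he1 : e ∈ Submodule.span ℝ (Y i) := by
      have h9 := Submodule.sub_mem _ hi1 (Submodule.smul_mem _ (z₁ : ℝ) hp1)
      rwa [add_sub_cancel_left, one_smul] at h9
    refine bcf_dense hSn fun x hxr hx0 => ?_
    have h11 : l x • p₀ + n x • e ∈ (C.tw a).S := by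
      rw [hY]
      refine ⟨(IsRat.smul (hl x hxr) hp).add (IsRat.smul (hn x hxr) he), ?_, i, ?_⟩
      · rw [tw_F, ← hFx]
        exact mul_ne_zero (inv_ne_zero haR) hx0
      · exact Submodule.add_mem _ (Submodule.smul_mem _ _ hp1) (Submodule.smul_mem _ _ he1)
    obtain ⟨-, r', hr', hr'0, h12⟩ := (mem_S_tw ha).1 h11
    exact (mem_S_tw ha).2 ⟨hxr, r', hr', hr'0, by rw [hFx, h12]⟩
  · exact hI

end Cb

end Pool.Agent.CTW
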