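import Pool.Agent.CTW.Defs

/-!
# CTW module CR: the real cube root

PROOF. `cr t = sign t * |t| ^ (1/3)`. `cr_pow`: cases on the sign of `t`, `Real.rpow_natCast`, `Real.rpow_mul`. The map
`t ↦ t ^ 3` is strictly monotone (`Odd.strictMono_pow`), hence injective; `cr_cube`, `cr_mul`, .. by injectivity.
`continuous_cr`: `cr` is the inverse of the homeomorphism `t ↦ t ^ 3` (`StrictMono.orderIsoOfSurjective`,
`OrderIso.continuous`).
-/

set_option autoImplicit false

open Set Topology Filter MvPolynomial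
open Pool.Agent.MZ Pool.Agent.QS

namespace Pool.Agent.CTW

private lemma cube_mono : StrictMono (fun t : ℝ => t ^ 3) :=
  Odd.strictMono_pow (by decide)

theorem cube_inj {a b : ℝ} (h : a ^ 3 = b ^ 3) : a = b := cube_mono.injective h

theorem cr_pow (t : ℝ) : cr t ^ 3 = t := by
  have h : (|t| ^ ((1 : ℝ) / 3)) ^ 3 = |t| := by
    rw [← Real.rpow_natCast, ← Real.rpow_mul (abs_nonneg t)]
    norm_num
  unfold cr
  rw [mul_pow, h]
  rcases lt_trichotomy t 0 with ht | ht | ht
  · rw [sign_neg ht, abs_of_neg ht]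
    norm_num
  · rw [ht]
    simp
  · rw [sign_pos ht, abs_of_pos ht]
    norm_num

theorem cr_cube (t : ℝ) : cr (t ^ 3) = t := cube_inj (cr_pow _)

theorem cr_mul (a b : ℝ) : cr (a * b) = cr a * cr b :=
  cube_inj (by rw [cr_pow, mul_pow, cr_pow, cr_pow])

theorem cr_ne {t : ℝ} (h : t ≠ 0) : cr t ≠ 0 := by
  intro h0
  apply h
  rw [← cr_pow t, h0]
  norm_num

theorem cr_eq {a b : ℝ} (h : b ^ 3 = a) : cr a = b := by
  rw [← h, cr_cube]

theorem continuous_cr : Continuous cr := by
  have hs : Function.Surjective (fun t : ℝ => t ^ 3) := fun t => ⟨cr t, cr_pow t⟩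
  let e : ℝ ≃o ℝ := cube_mono.orderIsoOfSurjective _ hs
  have he : cr = e.symm := by
    funext t
    have h1 : e (cr t) = t := cr_pow t
    rw [← h1, e.symm_apply_apply, h1]
  rw [he]
  exact e.symm.continuous

end Pool.Agent.CTW
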