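import Pool.Agent.CTW.Bas

/-!
# CTW module CST: the tangent form is constant along new points

PROOF of `const_l`. Let `x₀ ∈ W`, `F (xp p x₀) ≠ 0` (`W` open; `F ≠ 0` on all `xp p x`, `x ∈ W`); take a ball `B` around `x₀` in `W`. For
`x ∈ B` and fixed `w` let `z s = xp p (x₀ + s (x - x₀))`, `s ∈ [0, 1]`. The derivative of
`φ s = (T z z w)³ / (F z)²` is `6 (T z z w)² cc z z' w / (F z)³ = 0` (`hasDerivAt_comp`; `z' = dxp p (..) (x - x₀)`, translate
`hasDerivAt_xp` to the parameter `s`). So `φ` is constant on `[0, 1]`: `(T z z w)³ (F z₀)² = (T z₀ z₀ w)³ (F z)²` with `z = xp p x`,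
`z₀ = xp p x₀`, for all `x ∈ B`, hence (polynomial functions of `x`, `polyR_eq_zero_of_open`, `polyR_comp`, `polyR_xp`) for all `x`.
Put `g₀ = G z₀`, `l w = T z₀ z₀ w / g₀²`. Then `(T z z w)³ = (l w)³ (F z)² = (l w (G z)²)³`, so `T z z w = l w (G z)²` (`cube_inj`),
and `w = z`: `F z = l z (G z)²`, so `G z = l z` if `F z ≠ 0`, and `T z z w = l w (l z)²`; for `F z = 0`: `(T z z w)³ = 0`, and
`l w (l z)² = 0`? use instead that `T z z w - l w (l z)²` is a polynomial function of `x` that vanishes where `F (xp p x) ≠ 0`, an open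
nonempty set (`polyR_eq_zero_of_open`).
-/

set_option autoImplicit false

open Set Topology Filter MvPolynomial
open Pool.Agent.MZ Pool.Agent.QS

namespace Pool.Agent.CTW

namespace Cb

variable {m : ℕ} {C : Cb m}

private theorem cst_deriv (p x₀ u : V m) (s : ℝ) :
    HasDerivAt (fun r : ℝ => C.xp p (x₀ + r • u)) (C.dxp p (x₀ + s • u) u) s := by
  have h := C.hasDerivAt_xp p (x₀ + s • u) u
  rw [← sub_self s] at h
  have h2 := h.comp_sub_const s s
  have h3 : (fun r : ℝ => C.xp p (x₀ + s • u + (r - s) • u)) =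
      fun r : ℝ => C.xp p (x₀ + r • u) := by
    funext r
    congr 1
    rw [sub_smul]
    abel
  rw [h3] at h2
  exact h2

private theorem cst_path {p x₀ u w : V m} (hF : ∀ s ∈ Icc (0 : ℝ) 1, C.F (C.xp p (x₀ + s • u)) ≠ 0)
    (hcc : ∀ s ∈ Icc (0 : ℝ) 1, C.cc (C.xp p (x₀ + s • u)) (C.dxp p (x₀ + s • u) u) w = 0) :
    ∀ s ∈ Icc (0 : ℝ) 1, (C.T (C.xp p (x₀ + s • u)) (C.xp p (x₀ + s • u)) w) ^ 3 /
        (C.F (C.xp p (x₀ + s • u))) ^ 2 =
      (C.T (C.xp p x₀) (C.xp p x₀) w) ^ 3 / (C.F (C.xp p x₀)) ^ 2 := by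
  have key : ∀ s ∈ Icc (0 : ℝ) 1, HasDerivAt (fun r : ℝ =>
      (C.T (C.xp p (x₀ + r • u)) (C.xp p (x₀ + r • u)) w) ^ 3 /
        (C.T (C.xp p (x₀ + r • u)) (C.xp p (x₀ + r • u)) (C.xp p (x₀ + r • u))) ^ 2) 0 s := by
    intro s hs
    have hz := cst_deriv (C := C) p x₀ u s
    have h1 := C.hasDerivAt_comp hz hz (hasDerivAt_const s w)
    have h2 := C.hasDerivAt_comp hz hz hz
    have hF0 := hF s hs
    have hc0 := hcc s hs
    set z : V m := C.xp p (x₀ + s • u) with hzdef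
    set z' : V m := C.dxp p (x₀ + s • u) u with hz'def
    have hF1 : (C.T z z z) ^ 2 ≠ 0 := pow_ne_zero 2 hF0
    have h3 := (h1.pow 3).div (h2.pow 2) hF1
    refine h3.congr_deriv ?_
    have e1 : C.T z' z w = C.T z z' w := C.s₁ _ _ _
    have e2 : C.T z' z z = C.T z z z' := by rw [C.s₁, C.s₂]
    have e3 : C.T z z' z = C.T z z z' := C.s₂ _ _ _
    have e4 : C.T z z (0 : V m) = 0 := map_zero _
    rw [e1, e2, e3, e4]
    unfold cc F at hc0
    rw [div_eq_zero_iff]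
    left
    simp only [Nat.cast_ofNat, Nat.add_one_sub_one, Pi.pow_apply]
    rw [← hzdef]
    linear_combination 6 * (C.T z z w) ^ 2 * (C.T z z z) * hc0
  have hc := constant_of_has_deriv_right_zero (a := (0 : ℝ)) (b := 1)
    (fun s hs => (key s hs).continuousAt.continuousWithinAt)
    (fun s hs => (key s (Ico_subset_Icc_self hs)).hasDerivWithinAt)
  intro s hs
  have h4 := hc s hs
  simp only [zero_smul, add_zero] at h4
  exact h4

theorem const_l {p : V m} {W : Set (V m)} (hW : IsOpen W) (hne : W.Nonempty)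
    (hF : ∀ x ∈ W, C.F (C.xp p x) ≠ 0)
    (hcc : ∀ x ∈ W, ∀ u w, C.cc (C.xp p x) (C.dxp p x u) w = 0) :
    ∃ l : V m →ₗ[ℝ] ℝ, ∀ x w, C.T (C.xp p x) (C.xp p x) w = (l (C.xp p x)) ^ 2 * l w := by
  obtain ⟨x₀, hx₀⟩ := hne
  obtain ⟨ε, hε, hball⟩ := Metric.isOpen_iff.1 hW x₀ hx₀
  set z₀ : V m := C.xp p x₀ with hz₀
  have hF₀ : C.F z₀ ≠ 0 := hF x₀ hx₀
  have hG₀ : C.G z₀ ≠ 0 := cr_ne hF₀
  have hG₀3 : (C.G z₀) ^ 3 = C.F z₀ := C.G_pow z₀
  let l : V m →ₗ[ℝ] ℝ := ((C.G z₀) ^ 2)⁻¹ • C.T z₀ z₀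
  have hl : ∀ w, l w * (C.G z₀) ^ 2 = C.T z₀ z₀ w := by
    intro w
    show ((C.G z₀) ^ 2)⁻¹ * C.T z₀ z₀ w * (C.G z₀) ^ 2 = _
    field_simp
  have hin : ∀ x ∈ Metric.ball x₀ ε, ∀ w,
      C.T (C.xp p x) (C.xp p x) w = (l (C.xp p x)) ^ 2 * l w := by
    intro x hx
    have hseg : ∀ s ∈ Icc (0 : ℝ) 1, x₀ + s • (x - x₀) ∈ W := by
      intro s hs
      apply hball
      rw [mem_ball_iff_norm, add_sub_cancel_left, norm_smul, Real.norm_eq_abs, abs_of_nonneg hs.1]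
      have h1 : ‖x - x₀‖ < ε := mem_ball_iff_norm.1 hx
      exact (mul_le_of_le_one_left (norm_nonneg _) hs.2).trans_lt h1
    have hx1 : x₀ + (1 : ℝ) • (x - x₀) = x := by rw [one_smul]; abel
    have hFx : C.F (C.xp p x) ≠ 0 := by
      have := hF _ (hseg 1 ⟨zero_le_one, le_rfl⟩)
      rwa [hx1] at this
    have hGx : C.G (C.xp p x) ≠ 0 := cr_ne hFx
    have hGx3 : (C.G (C.xp p x)) ^ 3 = C.F (C.xp p x) := C.G_pow _
    have main : ∀ w, C.T (C.xp p x) (C.xp p x) w = l w * (C.G (C.xp p x)) ^ 2 := by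
      intro w
      have h1 := cst_path (C := C) (p := p) (x₀ := x₀) (u := x - x₀) (w := w)
        (fun s hs => hF _ (hseg s hs)) (fun s hs => hcc _ (hseg s hs) _ _) 1
        ⟨zero_le_one, le_rfl⟩
      rw [hx1, div_eq_div_iff (pow_ne_zero 2 hFx) (pow_ne_zero 2 hF₀), ← hz₀, ← hl w, ← hG₀3,
        ← hGx3] at h1
      apply cube_inj
      have h2 : (C.G z₀) ^ 6 ≠ 0 := pow_ne_zero 6 hG₀
      apply mul_right_cancel₀ h2
      linear_combination h1
    have hlz : l (C.xp p x) = C.G (C.xp p x) := by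
      have h1 := main (C.xp p x)
      have h2 : C.T (C.xp p x) (C.xp p x) (C.xp p x) = (C.G (C.xp p x)) ^ 3 := hGx3.symm
      rw [h2] at h1
      have h3 : (C.G (C.xp p x)) ^ 2 ≠ 0 := pow_ne_zero 2 hGx
      apply mul_right_cancel₀ h3
      linear_combination -h1
    intro w
    rw [main w, hlz]
    ring
  refine ⟨l, fun x w => ?_⟩
  have hxp : ∀ i, PolyR m fun x => C.xp p x i := fun i => C.polyR_xp p i
  have hP : PolyR m fun x => C.T (C.xp p x) (C.xp p x) w -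
      (l (C.xp p x) * l (C.xp p x)) * l w := by
    have h1 : PolyR m fun x => l (C.xp p x) := polyR_comp (PolyR.lin l) hxp
    have h2 : PolyR m fun x => C.T (C.xp p x) (C.xp p x) w :=
      C.polyR_T (c := fun _ => w) hxp hxp (fun i => PolyR.const _)
    exact h2.sub ((h1.mul h1).mul (PolyR.const _))
  have h0 := polyR_eq_zero_of_open hP Metric.isOpen_ball ⟨x₀, Metric.mem_ball_self hε⟩
    (fun y hy => by
      rw [hin y hy w]
      ring) x
  linear_combination h0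

end Cb

end Pool.Agent.CTW
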