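import Pool.Agent.CTW.Bas

/-!
# CTW module DEC: `F = l³ + b² g`

PROOF. `A = F p`, `g = G p`, `lp w = T p p w / g²`, so `lp p = g`. For `z = xp p x`: `l z = G z` (`F z = T z z z = (l z)³`, `cube_inj`), and
`c4 p z = 0` says `A² F z = (T p p z)³ = (g² lp z)³`, so `F z = (lp z)³`, `l z = lp z`. Let `δ = l - lp`: `δ (xp p x) = 0` for all `x`, that is
`c4 p x * δ p = 3 A c3 p x * δ x` (*).
`δ p = 0` is impossible: then `c3 p x * δ x = 0` for all `x`, `c3 p` is not identically zero (`Good`), so `δ = 0`, `l = lp`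
(`polyR_mul_eq_zero`); for `z = xp p x`: `c3 p z = A T p z z - (T p p z)² = g³ (lp z)² g - (g² lp z)² = 0` (`T p z z = T z z p = (l z)² l p`), but
`c3 p z = 9 A² (c3 p x)³` (`c3_xp`): so `c3 p x = 0` for all `x`, contradiction.
So `δ p ≠ 0`, `b = δ / δ p`: `b p = 1` and `c4 p x = 3 A c3 p x b x` by (*).
Let `b z = 0` and `c3 p z ≠ 0`. Then `c4 p z = 0`, `xp p z = (-(3 A c3)) • z` (`xp_of_c4`), so `T z z w = (l z)² l w` for all `w`. By
`polyR_mul_eq_zero_ker` (the product of `c3 p` and `T z z w - (l z)² l w` vanishes on the kernel of `b`; `c3 p` does not: if `c3 p y ≠ 0` then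
`y₀ = y - b y • p` has `c3 p y₀ = c3 p y` by `c3_add`) this holds for all `z` with `b z = 0`. Let `R x y z = T x y z - l x l y l z`. `R z z w = 0` for
`z ∈ ker b`, so (polarisation) `R z z' w = 0` for `z, z' ∈ ker b`. Write `x = h + t p`, `t = b x`, `b h = 0`:
`F x - (l x)³ = R x x x = 3 t² R h p p + t³ R p p p = t² (3 R x p p - 2 t R p p p)`: `g x = 3 R x p p - 2 b x R p p p`, a linear form.
-/

set_option autoImplicit false

open Set Topology Filter MvPolynomial
open Pool.Agent.MZ Pool.Agent.QS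

namespace Pool.Agent.CTW

namespace Cb

variable {m : ℕ} {C : Cb m}

/-- a continuous function that vanishes where a nonzero polynomial function does not vanish -/
private theorem eq_zero_of_ne {f g : V m → ℝ} (hf : PolyR m f) (h : ∃ x, f x ≠ 0)
    (hg : Continuous g) (h0 : ∀ x, f x ≠ 0 → g x = 0) (x : V m) : g x = 0 := by
  have hd := hf.dense_ne h
  have hc : IsClosed {x | g x = 0} := isClosed_eq hg continuous_const
  have hsub : {x | f x ≠ 0} ⊆ {x | g x = 0} := h0
  exact hc.closure_subset_iff.2 hsub (hd x)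

private theorem T_line2 (a x w : V m) (s t : ℝ) : C.T (s • a + t • x) (s • a + t • x)
    w = s ^ 2 * C.T a a w + 2 * s * t * C.T a x w + t ^ 2 * C.T x x w := by
  simp only [map_add, map_smul, LinearMap.add_apply, LinearMap.smul_apply, smul_eq_mul]
  rw [C.s₁ x a w]
  ring

private theorem T_xp_xp (p x w : V m) : C.T (C.xp p x) (C.xp p x) w = C.c4 p x ^ 2 * C.T p p w -
    6 * C.F p * C.c4 p x * C.c3 p x * C.T p x w +
    9 * C.F p ^ 2 * C.c3 p x ^ 2 * C.T x x w := by
  have h : C.xp p x = C.c4 p x • p + (-(3 * C.F p * C.c3 p x)) • x := by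
    rw [xp, neg_smul, sub_eq_add_neg]
  rw [h, T_line2]
  ring

private theorem jj_add (p x : V m) (t : ℝ) : C.jj p (x + t • p) = C.jj p x := by
  unfold jj
  rw [c3_add, c4_add, map_add, map_smul, smul_eq_mul]
  unfold F
  ring

theorem exists_dec {p : V m} (hp : C.F p ≠ 0) (hg : C.Good p) {l : V m →ₗ[ℝ] ℝ}
    (hl : ∀ x w, C.T (C.xp p x) (C.xp p x) w = (l (C.xp p x)) ^ 2 * l w) :
    ∃ b g : V m →ₗ[ℝ] ℝ, b p = 1 ∧ (∀ x, C.c4 p x = 3 * C.F p * C.c3 p x * b x) ∧
      ∀ x, C.F x = (l x) ^ 3 + (b x) ^ 2 * g x := by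
  have h3 : ∃ x, C.c3 p x ≠ 0 := hg.imp fun x h => h.1
  have h4 : ∃ x, C.jj p x ≠ 0 := hg.imp fun x h => h.2
  set k := C.G p with hkdef
  have hk : k ^ 3 = C.F p := G_pow p
  have hk0 : k ≠ 0 := by
    intro h
    apply hp
    rw [← hk, h]
    ring
  have hlc : Continuous l := LinearMap.continuous_of_finiteDimensional l
  -- `l z = k jj`
  have hlz : ∀ x, l (C.xp p x) = k * C.jj p x := by
    intro x
    have e := hl x (C.xp p x)
    have e1 : C.F (C.xp p x) = (l (C.xp p x)) ^ 3 := by
      unfold F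
      rw [e]
      ring
    rw [F_xp, ← hk] at e1
    have e2 : (k * C.jj p x) ^ 3 = (l (C.xp p x)) ^ 3 := by rw [← e1]; ring
    exact ((Odd.strictMono_pow (by decide : Odd 3)).injective e2).symm
  -- the functional `b0`
  set b0 : V m →ₗ[ℝ] ℝ := k ^ 2 • l - C.T p p with hb0
  have hb0v : ∀ w, b0 w = k ^ 2 * l w - C.T p p w := fun w => rfl
  have hb0c : Continuous b0 := LinearMap.continuous_of_finiteDimensional b0
  -- `c4 b0(p) = 3 N c3 b0(x)`
  have hcb : ∀ x, C.c4 p x * b0 p - 3 * C.F p * C.c3 p x * b0 x = 0 := by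
    intro x
    have e1 : b0 (C.xp p x) = 0 := by
      rw [hb0v, hlz x, L_xp, ← hk]
      ring
    have e2 : b0 (C.xp p x) = C.c4 p x * b0 p - 3 * C.F p * C.c3 p x * b0 x := by
      unfold xp
      rw [map_sub, map_smul, map_smul, smul_eq_mul, smul_eq_mul]
    rw [← e2, e1]
  have hbp : b0 p ≠ 0 := by
    intro hp0
    -- then `b0 = 0`
    have hb00 : ∀ x, b0 x = 0 := by
      refine eq_zero_of_ne (polyR_c3 (C := C) p) h3 hb0c fun x hx => ?_
      have h1 := hcb x
      rw [hp0, mul_zero, zero_sub, neg_eq_zero] at h1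
      rcases mul_eq_zero.1 h1 with h2 | h2
      · exact absurd h2 (mul_ne_zero (mul_ne_zero (by norm_num) hp) hx)
      · exact h2
    -- on `ker L`: `c4 c3 = 0`
    have hker : ∀ u, C.T p p u = 0 → C.c4 p u * C.c3 p u ^ 2 = 0 := by
      intro u hu
      have e1 := hl u u
      have e2 : k ^ 2 * l u = C.T p p u := by
        have := hb00 u
        rw [hb0v] at this
        linarith
      rw [T_xp_xp, hu, mul_zero, zero_sub, hlz] at e1
      have e3 : (k * C.jj p u) ^ 2 * l u = 0 := by
        rw [mul_pow, mul_right_comm, e2, hu, zero_mul]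
      rw [e3] at e1
      have e4 : C.F p * C.T p u u = C.c3 p u := by
        unfold c3
        rw [hu]
        ring
      have e5 : C.F p ^ 2 * C.T u u u = C.c4 p u := by
        unfold c4
        rw [hu]
        unfold F
        ring
      have e6 : -(6 * C.F p * C.c4 p u * C.c3 p u * C.T p u u) +
          9 * C.F p ^ 2 * C.c3 p u ^ 2 * C.T u u u =
          3 * (C.c4 p u * C.c3 p u ^ 2) := by
        rw [← e4, ← e5]
        ring
      rw [e6] at e1
      linarith
    -- transfer to all `x`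
    have hall : ∀ x, C.c3 p x ^ 2 = 0 := by
      refine eq_zero_of_ne (polyR_jj (C := C) p) h4 ((polyR_c3 (C := C) p).continuous.pow 2)
        fun x hx => ?_
      have hu : C.T p p (x + (-(C.T p p x / C.F p)) • p) = 0 := by
        rw [map_add, map_smul, smul_eq_mul]
        have : C.T p p p = C.F p := rfl
        rw [this]
        field_simp
        ring
      have e1 := hker _ hu
      have e2 := jj_add (C := C) p x (-(C.T p p x / C.F p))
      have e3 : C.jj p (x + (-(C.T p p x / C.F p)) • p) =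
          C.c4 p (x + (-(C.T p p x / C.F p)) • p) := by
        unfold jj
        rw [hu, mul_zero, sub_zero]
      rw [e3] at e2
      rw [e2, c3_add] at e1
      exact (mul_eq_zero.1 e1).resolve_left hx
    obtain ⟨x1, hx1⟩ := h3
    exact hx1 (pow_eq_zero_iff (two_ne_zero) |>.1 (hall x1))
  -- the functional `b`
  set b : V m →ₗ[ℝ] ℝ := (b0 p)⁻¹ • b0 with hb
  have hbv : ∀ w, b w = (b0 p)⁻¹ * b0 w := fun w => rfl
  have hb1 : b p = 1 := by rw [hbv, inv_mul_cancel₀ hbp]
  have hbc : Continuous b := LinearMap.continuous_of_finiteDimensional b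
  have hc4b : ∀ x, C.c4 p x = 3 * C.F p * C.c3 p x * b x := by
    intro x
    have h1 := hcb x
    rw [hbv]
    field_simp
    linarith
  -- `T z z w = l z ^ 2 * l w` on `b = 0`
  have hzz : ∀ z, b z = 0 → C.c3 p z ≠ 0 → ∀ w, C.T z z w = l z ^ 2 * l w := by
    intro z hz hz3 w
    have e1 := hl z w
    have h0 : C.c4 p z = 0 := by rw [hc4b, hz, mul_zero]
    have hL : C.T p p z = k ^ 2 * l z := by
      have h1 : b0 z = 0 := by
        have h2 := hbv z
        rw [hz] at h2
        exact (mul_eq_zero.1 h2.symm).resolve_left (inv_ne_zero hbp)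
      rw [hb0v] at h1
      linarith
    have hjj : C.jj p z = -(3 * C.c3 p z * (k ^ 2 * l z)) := by
      unfold jj
      rw [h0, hL]
      ring
    rw [T_xp_xp, h0, hlz, hjj, ← hk] at e1
    have h5 : 9 * (k ^ 3) ^ 2 * C.c3 p z ^ 2 * (C.T z z w - l z ^ 2 * l w) = 0 := by
      linear_combination e1
    have h6 : 9 * (k ^ 3) ^ 2 * C.c3 p z ^ 2 ≠ 0 := by positivity
    have h7 := (mul_eq_zero.1 h5).resolve_left h6
    linarith
  have hzz' : ∀ z, b z = 0 → ∀ w, C.T z z w = l z ^ 2 * l w := by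
    intro z hz w
    have hcont : Continuous fun x : V m => C.T (x + (-b x) • p) (x + (-b x) • p) w -
        l (x + (-b x) • p) ^ 2 * l w := by
      have hpi : Continuous fun x : V m => x + (-b x) • p :=
        continuous_id.add (hbc.neg.smul continuous_const)
      exact (continuous_comp (C := C) hpi hpi continuous_const).sub
        (((hlc.comp hpi).pow 2).mul continuous_const)
    have h := eq_zero_of_ne (polyR_c3 (C := C) p) h3 hcont (fun x hx => by
      have hbz : b (x + (-b x) • p) = 0 := by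
        rw [map_add, map_smul, smul_eq_mul, hb1]
        ring
      have h3' : C.c3 p (x + (-b x) • p) ≠ 0 := by rwa [c3_add]
      have := hzz _ hbz h3' w
      simp only [this, sub_self]) z
    simp only [hz, neg_zero, zero_smul, add_zero] at h
    linarith
  refine ⟨b, (3 : ℝ) • C.T p p - (3 * l p ^ 2) • l + (2 * l p ^ 3 - 2 * C.F p) • b, hb1, hc4b,
    fun x => ?_⟩
  have hbz : b (x + (-b x) • p) = 0 := by
    rw [map_add, map_smul, smul_eq_mul, hb1]
    ring
  set z := x + (-b x) • p with hz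
  have hx : x = (1 : ℝ) • z + b x • p := by
    rw [hz]
    module
  have e1 : C.F x = C.T z z z + 3 * b x * C.T z z p + 3 * b x ^ 2 * C.T z p p +
      b x ^ 3 * C.F p := by
    have h := F_add (C := C) z p 1 (b x)
    rw [← hx] at h
    rw [h]
    unfold F
    ring
  have e2 : C.T z p p = C.T p p x - b x * C.F p := by
    have : C.F p = C.T p p p := rfl
    rw [this, C.s₁ z p p, C.s₂ p z p, hz, map_add, map_smul, smul_eq_mul]
    ring
  have e3 : l x = l z + b x * l p := by
    have h := congrArg l hx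
    rw [map_add, map_smul, map_smul, smul_eq_mul, smul_eq_mul, one_mul] at h
    exact h
  have e4 : ((3 : ℝ) • C.T p p - (3 * l p ^ 2) • l + (2 * l p ^ 3 - 2 * C.F p) • b) x =
      3 * C.T p p x - 3 * l p ^ 2 * l x + (2 * l p ^ 3 - 2 * C.F p) * b x := rfl
  rw [e1, hzz' z hbz z, hzz' z hbz p, e2, e4, e3]
  ring

end Cb

end Pool.Agent.CTW
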