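import Mathlib
import Pool.Agent.MZ.Basic
import Pool.Agent.MZ.Fc
import Pool.Agent.MZ.Compl
import Pool.Agent.QS.Uf
import Pool.Agent.QS.Zar

/-!
# Project CTW (problem MP_4d3b00_ag): cube values of cubic polynomials, definitions

`C : Cb m` is a symmetric trilinear form `T` on `ℝ^m` with rational coefficients, `F x = T x x x` its cubic form.
`S` is the set of the rational `x` such that `F x` is a nonzero rational cube, `Z` its closure in `ℝ^m`. The cubic twist
`C.tw a` has the form `F / a`.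

For `F p ≠ 0` put `L = T p p x`. `c3 p x = F p * T p x x - L ^ 2`, `c4 p x = F p ^ 2 * F x - L ^ 3`, and
`F p ^ 2 * F (a p + b x) = (a F p + b L) ^ 3 + b ^ 2 (3 a F p * c3 p x + b * c4 p x)`. The point
`xp p x = c4 p x • p - (3 F p c3 p x) • x` satisfies `F (xp p x) = F p * (jj p x) ^ 3`, `jj p x = c4 p x - 3 c3 p x L`.
`cc z v w = F z * T z v w - T z z v * T z z w` is (up to a factor) the second derivative of `F ^ (1/3)` at `z`.
`cr` is the real cube root, `G x = cr (F x)`, and `mg x y = nA • x - nB • y` the third point of the line through `x` and `y`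
on the cubic `F = w ^ 3` (sheet `w = G`).
-/

set_option autoImplicit false

open Set Topology Filter MvPolynomial
open Pool.Agent.MZ Pool.Agent.QS

namespace Pool.Agent.CTW

/-- a symmetric trilinear form on `ℝ^m` with rational coefficients -/
structure Cb (m : ℕ) where
  /-- the form -/
  T : V m →ₗ[ℝ] V m →ₗ[ℝ] V m →ₗ[ℝ] ℝ
  s₁ : ∀ x y z, T x y z = T y x z
  s₂ : ∀ x y z, T x y z = T x z y
  rat : ∀ x y z, IsRat x → IsRat y → IsRat z → IsQ (T x y z)

/-- the real cube root -/
noncomputable def cr (t : ℝ) : ℝ := SignType.sign t * |t| ^ ((1 : ℝ) / 3)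

namespace Cb

variable {m : ℕ} (C : Cb m)

/-- the cubic form -/
def F (x : V m) : ℝ := C.T x x x

/-- the rational points at which `F` is a nonzero rational cube -/
def S : Set (V m) := {x | IsRat x ∧ ∃ r : ℝ, IsQ r ∧ r ≠ 0 ∧ C.F x = r ^ 3}

/-- the closure of `S` -/
def Z : Set (V m) := closure C.S

/-- quadratic coefficient -/
def c3 (p x : V m) : ℝ := C.F p * C.T p x x - (C.T p p x) ^ 2

/-- cubic coefficient -/
def c4 (p x : V m) : ℝ := (C.F p) ^ 2 * C.F x - (C.T p p x) ^ 3

/-- the cube root of `F (xp p x) / F p` -/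
def jj (p x : V m) : ℝ := C.c4 p x - 3 * C.c3 p x * C.T p p x

/-- the third point of the tangent line at `p` in direction `x` -/
def xp (p x : V m) : V m := C.c4 p x • p - (3 * C.F p * C.c3 p x) • x

/-- the derivative of `x ↦ xp p x` at `x` in direction `u` -/
def dxp (p x u : V m) : V m :=
  (3 * (C.F p) ^ 2 * C.T x x u - 3 * (C.T p p x) ^ 2 * C.T p p u) • p -
    (3 * C.F p * (2 * (C.F p * C.T p x u - C.T p p x * C.T p p u))) • x -
    (3 * C.F p * C.c3 p x) • u

/-- the form `F z T z v w - T z z v T z z w` -/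
def cc (z v w : V m) : ℝ := C.F z * C.T z v w - C.T z z v * C.T z z w

/-- the real cube root of `F` -/
noncomputable def G (x : V m) : ℝ := cr (C.F x)

/-- first coefficient of the third point -/
noncomputable def nA (x y : V m) : ℝ := C.T x y y - C.G x * (C.G y) ^ 2

/-- second coefficient of the third point -/
noncomputable def nB (x y : V m) : ℝ := C.T x x y - (C.G x) ^ 2 * C.G y

/-- the third point of the line through `x` and `y` -/
noncomputable def mg (x y : V m) : V m := C.nA x y • x - C.nB x y • y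

/-- `Z` has no interior points with `F ≠ 0` -/
def Thin : Prop := ∀ x, C.F x ≠ 0 → ¬ C.Z ∈ 𝓝 x

/-- `Z` is a neighbourhood of each of its points with `F ≠ 0` -/
def Opn : Prop := ∀ x ∈ C.Z, C.F x ≠ 0 → C.Z ∈ 𝓝 x

/-- `S` consists of the rational points with `F ≠ 0` of finitely many rational linear subspaces -/
def Pieces : Prop := ∃ (k : ℕ) (Y : Fin k → Set (V m)), (∀ i, ∀ x ∈ Y i, IsRat x) ∧
  C.S = {x | IsRat x ∧ C.F x ≠ 0 ∧ ∃ i, x ∈ Submodule.span ℝ (Y i)}

/-- `F` depends on two linear forms only -/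
def Bin : Prop := ∃ a b : V m →ₗ[ℝ] ℝ, ∀ v, a v = 0 → b v = 0 → ∀ x, C.F (x + v) = C.F x

/-- the point `p` gives new points -/
def Good (p : V m) : Prop := ∃ x, C.c3 p x ≠ 0 ∧ C.jj p x ≠ 0

/-- `F` is the cube of a real linear form -/
def Cube : Prop := ∃ l : V m →ₗ[ℝ] ℝ, ∀ x, C.F x = (l x) ^ 3

/-- the cubic twist: the form `F / a` -/
noncomputable def tw (a : ℚ) : Cb m where
  T := ((a : ℝ)⁻¹) • C.T
  s₁ x y z := by
    simp only [LinearMap.smul_apply, smul_eq_mul]
    rw [C.s₁]
  s₂ x y z := by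
    simp only [LinearMap.smul_apply, smul_eq_mul]
    rw [C.s₂]
  rat x y z hx hy hz := by
    simp only [LinearMap.smul_apply, smul_eq_mul]
    exact (IsQ.cast a).inv.mul (C.rat x y z hx hy hz)

/-- a set of points with `F ≠ 0` and with cubic secants -/
def Sec (B : Set (V m)) : Prop :=
  (∀ a ∈ B, C.F a ≠ 0) ∧ ∀ a ∈ B, ∀ b ∈ B, C.c3 a b = 0 ∧ C.c4 a b = 0

end Cb

end Pool.Agent.CTW
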