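import Pool.Agent.CTW.Bas
import Pool.Agent.CTW.Pair

/-!
# CTW module DGA: diagonal cubic forms

PROOFS. `good_dg`: `F p ≠ 0` (`F_ne_of_S` or hypothesis). `c3 p` is not identically zero: put `y = d p³`. `c3 p e_k = d_k p_k (F p - y_k)`, the same for `l`;
if both vanish then `F p = y_k = y_l` and `c3 p (e_k + e_l) = - 2 d_k d_l p_k² p_l² ≠ 0`. `jj p` is not identically zero: otherwise `F x = 0` whenever
`T p p x = 0` (`type2`). If `p_j = 0`: `x = e_j`. Otherwise (`p_j ≠ 0`) put `A = d_k p_k²`, `B = d_l p_l²`, `E = d_j p_j²`, `x = (s / A) e_k + (t / B) e_l - ((s + t) / E) e_j`: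
`T p p x = 0`, so `(d_k / A³) s³ + (d_l / B³) t³ = (d_j / E³) (s + t)³`; `(s,t) = (1,0), (0,1), (1,1)` give `2 = 8`. So the product is not identically
zero (`polyR_mul_eq_zero`, QS/Uf.lean; `polyR_c3`, `polyR_jj`).
`not_bin`: let `a`, `b` be the two forms. There is a nonzero `v = α e_k + β e_l + γ e_j` with `a v = b v = 0` (two equations, three unknowns: cross
product, or `a = 0` on two of them ..; e.g. `LinearMap.exists_ne_zero..` / dimension), so `F (x + v) = F x`; `x = t e_k`, `t = 1, -1`, `0`: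
`d_k ((t + α)³ - t³) + d_l β³ + d_j γ³ = 0`, sum of `t = 1` and `t = -1` minus twice `t = 0`: `6 d_k α = 0`. So `α = β = γ = 0`.
`bin_two`: `a x = x k`, `b x = x l`. `not_cube`: `F = (l ·)³`, `α = l e_k`, `β = l e_l`: `(α ± β)³ = α³ ± β³`, so `α β (α + β) = 0`, `α β (α - β) = 0`.
-/

set_option autoImplicit false

open Set Topology Filter MvPolynomial
open Pool.Agent.MZ Pool.Agent.QS

namespace Pool.Agent.CTW

variable {n : ℕ}

/-- the trilinear form with the diagonal `d` -/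
noncomputable def dgT (d : Fin n → ℚ) : V n →ₗ[ℝ] V n →ₗ[ℝ] V n →ₗ[ℝ] ℝ :=
  ∑ k, (d k : ℝ) • (LinearMap.proj k : V n →ₗ[ℝ] ℝ).smulRight
    ((LinearMap.proj k : V n →ₗ[ℝ] ℝ).smulRight (LinearMap.proj k : V n →ₗ[ℝ] ℝ))

theorem dgT_apply (d : Fin n → ℚ) (x y z : V n) :
    dgT d x y z = ∑ k, (d k : ℝ) * (x k * y k * z k) := by
  unfold dgT
  rw [LinearMap.sum_apply, LinearMap.sum_apply, LinearMap.sum_apply]
  refine Finset.sum_congr rfl fun k _ => ?_
  simp only [LinearMap.smul_apply, LinearMap.smulRight_apply, LinearMap.proj_apply, smul_eq_mul]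
  ring

/-- the diagonal cubic form -/
noncomputable def dg (d : Fin n → ℚ) : Cb n where
  T := dgT d
  s₁ x y z := by
    rw [dgT_apply, dgT_apply]
    exact Finset.sum_congr rfl fun k _ => by ring
  s₂ x y z := by
    rw [dgT_apply, dgT_apply]
    exact Finset.sum_congr rfl fun k _ => by ring
  rat := by
    rintro _ _ _ ⟨x, rfl⟩ ⟨y, rfl⟩ ⟨z, rfl⟩
    rw [dgT_apply]
    refine ⟨∑ k, d k * (x k * y k * z k), ?_⟩
    push_cast
    rfl

variable {d : Fin n → ℚ}

theorem dg_T (x y z : V n) : (dg d).T x y z = ∑ k, (d k : ℝ) * (x k * y k * z k) :=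
  dgT_apply d x y z

theorem dg_F (x : V n) : (dg d).F x = ∑ k, (d k : ℝ) * x k ^ 3 := by
  show (dg d).T x x x = _
  rw [dg_T]
  exact Finset.sum_congr rfl fun k _ => by ring

private theorem dga_sum3 (g : Fin n → ℝ → ℝ) (h0 : ∀ i, g i 0 = 0) {k l j : Fin n} (hkl : k ≠ l)
    (hkj : k ≠ j) (hlj : l ≠ j) (s t u : ℝ) :
    ∑ i, g i ((Pi.single k s + Pi.single l t + Pi.single j u : V n) i) =
      g k s + g l t + g j u := by
  have e : ∀ i, g i ((Pi.single k s + Pi.single l t + Pi.single j u : V n) i) =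
      (if i = k then g k s else 0) + (if i = l then g l t else 0) +
        (if i = j then g j u else 0) := by
    intro i
    by_cases h1 : i = k
    · subst h1
      simp [hkl, hkj]
    · by_cases h2 : i = l
      · subst h2
        simp [h1, hlj]
      · by_cases h3 : i = j
        · subst h3
          simp [h1, h2]
        · simp [h1, h2, h3, h0]
  rw [Finset.sum_congr rfl fun i _ => e i, Finset.sum_add_distrib, Finset.sum_add_distrib]
  simp

private theorem dga_F3 {k l j : Fin n} (hkl : k ≠ l) (hkj : k ≠ j) (hlj : l ≠ j) (s t u : ℝ) :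
    (dg d).F (Pi.single k s + Pi.single l t + Pi.single j u) =
      (d k : ℝ) * s ^ 3 + (d l : ℝ) * t ^ 3 + (d j : ℝ) * u ^ 3 := by
  rw [dg_F]
  exact dga_sum3 (fun i y => (d i : ℝ) * y ^ 3) (fun i => by ring) hkl hkj hlj s t u

private theorem dga_L3 (p : V n) {k l j : Fin n} (hkl : k ≠ l) (hkj : k ≠ j) (hlj : l ≠ j)
    (s t u : ℝ) : (dg d).T p p (Pi.single k s + Pi.single l t + Pi.single j u) =
      (d k : ℝ) * p k ^ 2 * s + (d l : ℝ) * p l ^ 2 * t + (d j : ℝ) * p j ^ 2 * u := by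
  rw [dg_T]
  refine (dga_sum3 (fun i y => (d i : ℝ) * (p i * p i * y)) (fun i => by ring) hkl hkj hlj
    s t u).trans ?_
  ring

private theorem dga_M3 (p : V n) {k l j : Fin n} (hkl : k ≠ l) (hkj : k ≠ j) (hlj : l ≠ j)
    (s t u : ℝ) : (dg d).T p (Pi.single k s + Pi.single l t + Pi.single j u)
      (Pi.single k s + Pi.single l t + Pi.single j u) =
      (d k : ℝ) * p k * s ^ 2 + (d l : ℝ) * p l * t ^ 2 + (d j : ℝ) * p j * u ^ 2 := by
  rw [dg_T]
  refine (dga_sum3 (fun i y => (d i : ℝ) * (p i * y * y)) (fun i => by ring) hkl hkj hlj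
    s t u).trans ?_
  ring

theorem good_dg {p : V n} (hp : (dg d).F p ≠ 0) {k l j : Fin n} (hkl : k ≠ l) (hkj : k ≠ j) (hlj : l ≠ j)
    (hk : d k ≠ 0) (hl : d l ≠ 0) (hj : d j ≠ 0) (hpk : p k ≠ 0) (hpl : p l ≠ 0) :
    (dg d).Good p := by
  have hk' : (d k : ℝ) ≠ 0 := by exact_mod_cast hk
  have hl' : (d l : ℝ) ≠ 0 := by exact_mod_cast hl
  have hj' : (d j : ℝ) ≠ 0 := by exact_mod_cast hj
  by_contra hc
  have h1 : ∀ x, (dg d).c3 p x * (dg d).jj p x = 0 := by
    intro x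
    by_contra h2
    exact hc ⟨x, left_ne_zero_of_mul h2, right_ne_zero_of_mul h2⟩
  rcases polyR_mul_eq_zero (Cb.polyR_c3 p) (Cb.polyR_jj p) h1 with h2 | h2
  · have c : ∀ s t : ℝ, (dg d).F p * ((d k : ℝ) * p k * s ^ 2 + (d l : ℝ) * p l * t ^ 2) -
        ((d k : ℝ) * p k ^ 2 * s + (d l : ℝ) * p l ^ 2 * t) ^ 2 = 0 := by
      intro s t
      have h3 := h2 (Pi.single k s + Pi.single l t + Pi.single j 0)
      unfold Cb.c3 at h3
      rw [dga_M3 p hkl hkj hlj, dga_L3 p hkl hkj hlj] at h3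
      linear_combination h3
    have c1 := c 1 0
    have c2 := c 0 1
    have c3 := c 1 1
    have h4 : (d k : ℝ) * p k ^ 2 * ((d l : ℝ) * p l ^ 2) = 0 := by
      linear_combination (-1 / 2) * c3 + (1 / 2) * c1 + (1 / 2) * c2
    have h5 : (d k : ℝ) * p k ^ 2 ≠ 0 := mul_ne_zero hk' (pow_ne_zero 2 hpk)
    have h6 : (d l : ℝ) * p l ^ 2 ≠ 0 := mul_ne_zero hl' (pow_ne_zero 2 hpl)
    exact mul_ne_zero h5 h6 h4
  · have key : ∀ s t u : ℝ, (d k : ℝ) * p k ^ 2 * s + (d l : ℝ) * p l ^ 2 * t +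
        (d j : ℝ) * p j ^ 2 * u = 0 →
        (d k : ℝ) * s ^ 3 + (d l : ℝ) * t ^ 3 + (d j : ℝ) * u ^ 3 = 0 := by
      intro s t u h3
      have h4 := Cb.type2 hp h2 (x := Pi.single k s + Pi.single l t + Pi.single j u)
        (by rw [dga_L3 p hkl hkj hlj]; exact h3)
      rwa [dga_F3 hkl hkj hlj] at h4
    by_cases hpj : p j = 0
    · have h3 := key 0 0 1 (by rw [hpj]; ring)
      apply hj'
      linear_combination h3
    · have hA : (d k : ℝ) * p k ^ 2 ≠ 0 := mul_ne_zero hk' (pow_ne_zero 2 hpk)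
      have hB : (d l : ℝ) * p l ^ 2 ≠ 0 := mul_ne_zero hl' (pow_ne_zero 2 hpl)
      have hE : (d j : ℝ) * p j ^ 2 ≠ 0 := mul_ne_zero hj' (pow_ne_zero 2 hpj)
      set A := (d k : ℝ) * p k ^ 2
      set B := (d l : ℝ) * p l ^ 2
      set E := (d j : ℝ) * p j ^ 2
      have k1 := key (1 / A) 0 (-(1 / E)) (by field_simp; ring)
      have k2 := key 0 (1 / B) (-(1 / E)) (by field_simp; ring)
      have k3 := key (1 / A) (1 / B) (-(2 / E)) (by field_simp; ring)
      have h5 : (d j : ℝ) * (1 / E) ^ 3 = 0 := by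
        have e : (2 / E) = 2 * (1 / E) := by ring
        rw [e] at k3
        linear_combination (-1 / 6) * k3 + (1 / 6) * k1 + (1 / 6) * k2
      exact mul_ne_zero hj' (pow_ne_zero 3 (one_div_ne_zero hE)) h5

theorem not_bin {k l j : Fin n} (hkl : k ≠ l) (hkj : k ≠ j) (hlj : l ≠ j)
    (hk : d k ≠ 0) (hl : d l ≠ 0) (hj : d j ≠ 0) : ¬ (dg d).Bin := by
  have hk' : (d k : ℝ) ≠ 0 := by exact_mod_cast hk
  have hl' : (d l : ℝ) ≠ 0 := by exact_mod_cast hl
  have hj' : (d j : ℝ) ≠ 0 := by exact_mod_cast hj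
  rintro ⟨a, b, hab⟩
  -- the three-dimensional space
  let g : (Fin 3 → ℝ) →ₗ[ℝ] V n :=
    (LinearMap.single ℝ (fun _ : Fin n => ℝ) k).comp (LinearMap.proj 0) +
      (LinearMap.single ℝ (fun _ : Fin n => ℝ) l).comp (LinearMap.proj 1) +
      (LinearMap.single ℝ (fun _ : Fin n => ℝ) j).comp (LinearMap.proj 2)
  have hg : ∀ w, g w = Pi.single k (w 0) + Pi.single l (w 1) + Pi.single j (w 2) := fun w => rfl
  have hker : LinearMap.ker ((a.comp g).prod (b.comp g)) ≠ ⊥ := by
    apply LinearMap.ker_ne_bot_of_finrank_lt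
    rw [Module.finrank_prod, Module.finrank_self, Module.finrank_fin_fun]
    norm_num
  obtain ⟨w, hw, hw0⟩ := (Submodule.ne_bot_iff _).1 hker
  rw [LinearMap.mem_ker] at hw
  have h1 := hab (g w) (congrArg Prod.fst hw) (congrArg Prod.snd hw)
  have key : ∀ s t u : ℝ, (d k : ℝ) * (s + w 0) ^ 3 + (d l : ℝ) * (t + w 1) ^ 3 +
      (d j : ℝ) * (u + w 2) ^ 3 = (d k : ℝ) * s ^ 3 + (d l : ℝ) * t ^ 3 + (d j : ℝ) * u ^ 3 := by
    intro s t u
    have h2 := h1 (Pi.single k s + Pi.single l t + Pi.single j u)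
    have e : (Pi.single k s + Pi.single l t + Pi.single j u : V n) + g w =
        Pi.single k (s + w 0) + Pi.single l (t + w 1) + Pi.single j (u + w 2) := by
      rw [hg, Pi.single_add, Pi.single_add, Pi.single_add]
      abel
    rw [e, dga_F3 hkl hkj hlj, dga_F3 hkl hkj hlj] at h2
    exact h2
  have z0 := key 0 0 0
  have h0 : w 0 = 0 := by
    have h2 : (d k : ℝ) * w 0 = 0 := by
      linear_combination (1 / 6) * key 1 0 0 + (1 / 6) * key (-1) 0 0 - (1 / 3) * z0
    exact (mul_eq_zero.1 h2).resolve_left hk'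
  have h1' : w 1 = 0 := by
    have h2 : (d l : ℝ) * w 1 = 0 := by
      linear_combination (1 / 6) * key 0 1 0 + (1 / 6) * key 0 (-1) 0 - (1 / 3) * z0
    exact (mul_eq_zero.1 h2).resolve_left hl'
  have h2' : w 2 = 0 := by
    have h2 : (d j : ℝ) * w 2 = 0 := by
      linear_combination (1 / 6) * key 0 0 1 + (1 / 6) * key 0 0 (-1) - (1 / 3) * z0
    exact (mul_eq_zero.1 h2).resolve_left hj'
  apply hw0
  funext i
  fin_cases i
  · exact h0
  · exact h1'
  · exact h2'

theorem bin_two {k l : Fin n} (h2 : ∀ j, d j ≠ 0 → j = k ∨ j = l) : (dg d).Bin := by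
  refine ⟨LinearMap.proj k, LinearMap.proj l, fun v hk hl x => ?_⟩
  rw [dg_F, dg_F]
  refine Finset.sum_congr rfl fun i _ => ?_
  by_cases hd : d i = 0
  · rw [hd]
    push_cast
    ring
  · have hv : v i = 0 := by
      rcases h2 i hd with rfl | rfl
      · exact hk
      · exact hl
    rw [Pi.add_apply, hv, add_zero]

private theorem dga_sum2 (g : Fin n → ℝ → ℝ) (h0 : ∀ i, g i 0 = 0) {k l : Fin n} (hkl : k ≠ l)
    (s t : ℝ) :
    ∑ i, g i ((Pi.single k s + Pi.single l t : V n) i) = g k s + g l t := by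
  have e : ∀ i, g i ((Pi.single k s + Pi.single l t : V n) i) =
      (if i = k then g k s else 0) + (if i = l then g l t else 0) := by
    intro i
    by_cases h1 : i = k
    · subst h1
      simp [hkl]
    · by_cases h2 : i = l
      · subst h2
        simp [h1]
      · simp [h1, h2, h0]
  rw [Finset.sum_congr rfl fun i _ => e i, Finset.sum_add_distrib]
  simp

theorem not_cube {k l : Fin n} (hkl : k ≠ l) (hk : d k ≠ 0) (hl : d l ≠ 0) : ¬ (dg d).Cube := by
  have hk' : (d k : ℝ) ≠ 0 := by exact_mod_cast hk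
  have hl' : (d l : ℝ) ≠ 0 := by exact_mod_cast hl
  rintro ⟨f, hf⟩
  have key : ∀ s t : ℝ, (d k : ℝ) * s ^ 3 + (d l : ℝ) * t ^ 3 =
      (s * f (Pi.single k 1) + t * f (Pi.single l 1)) ^ 3 := by
    intro s t
    have h1 := hf (Pi.single k s + Pi.single l t)
    have h2 : (dg d).F (Pi.single k s + Pi.single l t) =
        (d k : ℝ) * s ^ 3 + (d l : ℝ) * t ^ 3 := by
      rw [dg_F]
      exact dga_sum2 (fun i y => (d i : ℝ) * y ^ 3) (fun i => by ring) hkl s t
    have h3 : ∀ (i : Fin n) (c : ℝ), f (Pi.single i c) = c * f (Pi.single i 1) := by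
      intro i c
      have : (Pi.single i c : V n) = c • Pi.single i 1 := by
        rw [← Pi.single_smul, smul_eq_mul, mul_one]
      rw [this, map_smul, smul_eq_mul]
    rw [h2, map_add, h3, h3 l t] at h1
    exact h1
  set α := f (Pi.single k 1)
  set β := f (Pi.single l 1)
  have k1 := key 1 0
  have k2 := key 0 1
  have k3 := key 1 1
  have k4 := key 1 (-1)
  have hα : α ≠ 0 := by
    intro h
    apply hk'
    rw [h] at k1
    linear_combination k1
  have hβ : β ≠ 0 := by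
    intro h
    apply hl'
    rw [h] at k2
    linear_combination k2
  have h5 : α * β * (α + β) = 0 := by
    linear_combination (-1 / 3) * k3 + (1 / 3) * k1 + (1 / 3) * k2
  have h6 : α * β * (α - β) = 0 := by
    linear_combination (1 / 3) * k4 - (1 / 3) * k1 + (1 / 3) * k2
  have h7 := (mul_eq_zero.1 h5).resolve_left (mul_ne_zero hα hβ)
  have h8 := (mul_eq_zero.1 h6).resolve_left (mul_ne_zero hα hβ)
  apply hα
  linear_combination (1 / 2) * h7 + (1 / 2) * h8

end Pool.Agent.CTW
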