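import Pool.Agent.CTW.Clo

/-!
# CTW module SPR: interior points spread

PROOF of `no_open`. Let `F y ≠ 0`, `W` open, nonempty. If `F` is not a cube then there is `x ∈ W` with `nA x y ≠ 0`, `nB x y ≠ 0`, `G (mg x y) ≠ 0`:
otherwise, as these are continuous functions of `x`, one of them vanishes on a nonempty open subset `W'` of `W` (if `nA ≠ 0` somewhere, shrink
to an open set where it is not zero, ..). By cubing we get an identity of polynomial functions on `W'`, hence everywhere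
(`polyR_eq_zero_of_open`): (a) `nA = 0`: `(T x y y)³ = F x (F y)²`; (b) `nB = 0`: `(T x x y)³ = (F x)² F y`; (c) `nA G x = nB G y`, i.e.
`T x y y G x = T x x y G y`: `(T x y y)³ F x = (T x x y)³ F y`. In each case put `x = y + s v` (`s` arbitrary), `A = F y`, `X = T y y v`, `Y = T y v v`,
`D = F v`: `T x y y = A + s X`, `T x x y = A + 2 s X + s² Y`, `F x = A + 3 s X + 3 s² Y + s³ D`; compare the coefficients of the powers of `s` (use
`s = 1, -1, 2, -2, 3, -3` and linear combinations, or a polynomial identity) to get `c4 y v = A² D - X³ = 0`: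
(a) directly: `(A + s X)³ = A² (A + 3 s X + 3 s² Y + s³ D)`: `s³`: `X³ = A² D`.
(b) `s²`: `A Y = X²`; `s³`: `8 X³ - 6 A X Y = 2 A² D`, so `X³ = A² D`.
(c) `s³`: `A² D = 3 A X Y - 2 X³`; `s⁴`: `3 A² X D + 9 A X² Y + 3 X⁴ = 3 A² Y² + 12 A X² Y`, so `3 (X² - A Y)² = 0`, `A Y = X²`, `A² D = X³`.
So `c4 y v = 0` for all `v` and `F` is a cube (`cube_of_c4`).

PROOF of `opn_of_int`. Let `o` be an interior point of `Z` with `F o ≠ 0` and `y ∈ Z`, `F y ≠ 0`. Take `x` in the interior of `Z` with the three properties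
and `u = mg x y`: `u ∈ Z` (`mg_mem`), `G u ≠ 0`. The map `M ξ = mg ξ u` is continuous. `M y = mg y u = - mg u y`..: use `mg_swap`, `mg_mg`:
`mg x u = - (nB x y)³ • y`, `mg y u = mg y (mg x y) = mg y (mg y x)` (`mg_swap`, `mg_neg_right`) `= -(nB y x)³ • x = -(nA x y)³ • x`
(`nB y x = T y y x - (G y)² G x = nA x y`). For `η` near `y`: `ξ = mg η u` is near `-(nA x y)³ • x`, so `(-(nA x y)³)⁻¹ • ξ` is near `x` and in `Z`
(interior), so `ξ ∈ Z`. `mg ξ u = mg (mg η u) u = - mg u (mg η u) = - mg u (mg u η) = (nB u η)³ • η` (`mg_swap`, `mg_neg_right`, `mg_mg`); for `η = y`: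
`nB u y = -(nA x y)² nB x y ≠ 0` (`nB_mg`), so `nB u η ≠ 0` near `y`, and `G (mg ξ u) = (nB u η)³ G η ≠ 0`; `mg_mem` gives `(nB u η)³ • η ∈ Z`, so `η ∈ Z`.
-/

set_option autoImplicit false

open Set Topology Filter MvPolynomial
open Pool.Agent.MZ Pool.Agent.QS

namespace Pool.Agent.CTW

namespace Cb

variable {m : ℕ} {C : Cb m}


private theorem spr_a {A X Y D : ℝ}
    (h : ∀ s : ℝ, (A + s * X) ^ 3 = (A + 3 * s * X + 3 * s ^ 2 * Y + s ^ 3 * D) * A ^ 2) :
    A ^ 2 * D - X ^ 3 = 0 := by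
  have h0 := h 0
  have h1 := h 1
  have h2 := h 2
  have h3 := h (-1)
  linear_combination (-(1 / 6 : ℝ)) * h2 + (1 / 2 : ℝ) * h1 - (1 / 2 : ℝ) * h0 + (1 / 6 : ℝ) * h3

private theorem spr_b {A X Y D : ℝ} (hA : A ≠ 0)
    (h : ∀ s : ℝ, (A + 2 * s * X + s ^ 2 * Y) ^ 3 =
      (A + 3 * s * X + 3 * s ^ 2 * Y + s ^ 3 * D) ^ 2 * A) :
    A ^ 2 * D - X ^ 3 = 0 := by
  have h0 := h 0
  have h1 := h 1
  have h2 := h (-1)
  have h3 := h 2
  have h4 := h (-2)
  have h5 := h 3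
  have h6 := h (-3)
  have e2 : A * (X ^ 2 - A * Y) = 0 := by
    linear_combination (1 / 3 : ℝ) * ((-49 / 36 : ℝ) * h0 + (3 / 4 : ℝ) * h1 + (3 / 4 : ℝ) * h2
      - (3 / 40 : ℝ) * h3 - (3 / 40 : ℝ) * h4 + (1 / 180 : ℝ) * h5 + (1 / 180 : ℝ) * h6)
  have e3 : 8 * X ^ 3 - 6 * A * X * Y - 2 * A ^ 2 * D = 0 := by
    linear_combination (-13 / 48 : ℝ) * h1 + (13 / 48 : ℝ) * h2
      + (1 / 6 : ℝ) * h3 - (1 / 6 : ℝ) * h4 - (1 / 48 : ℝ) * h5 + (1 / 48 : ℝ) * h6
  have e4 : X ^ 2 - A * Y = 0 := (mul_eq_zero.1 e2).resolve_left hA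
  linear_combination (-(1 / 2 : ℝ)) * e3 + 3 * X * e4

private theorem spr_c {A X Y D : ℝ} (hA : A ≠ 0)
    (h : ∀ s : ℝ, (A + s * X) ^ 3 * (A + 3 * s * X + 3 * s ^ 2 * Y + s ^ 3 * D) =
      (A + 2 * s * X + s ^ 2 * Y) ^ 3 * A) :
    A ^ 2 * D - X ^ 3 = 0 := by
  have h0 := h 0
  have h1 := h 1
  have h2 := h (-1)
  have h3 := h 2
  have h4 := h (-2)
  have h5 := h 3
  have h6 := h (-3)
  have e3 : A * (A ^ 2 * D - 3 * A * X * Y + 2 * X ^ 3) = 0 := by
    linear_combination (-13 / 48 : ℝ) * h1 + (13 / 48 : ℝ) * h2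
      + (1 / 6 : ℝ) * h3 - (1 / 6 : ℝ) * h4 - (1 / 48 : ℝ) * h5 + (1 / 48 : ℝ) * h6
  have e5 : A ^ 2 * D - 3 * A * X * Y + 2 * X ^ 3 = 0 := (mul_eq_zero.1 e3).resolve_left hA
  have e4 : 3 * A ^ 2 * X * D + 9 * A * X ^ 2 * Y + 3 * X ^ 4 - 3 * A ^ 2 * Y ^ 2
      - 12 * A * X ^ 2 * Y = 0 := by
    linear_combination (7 / 18 : ℝ) * h0 - (13 / 48 : ℝ) * h1 - (13 / 48 : ℝ) * h2
      + (1 / 12 : ℝ) * h3 + (1 / 12 : ℝ) * h4 - (1 / 144 : ℝ) * h5 - (1 / 144 : ℝ) * h6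
  have e6 : (X ^ 2 - A * Y) ^ 2 = 0 := by
    linear_combination (-(1 / 3 : ℝ)) * e4 + X * e5
  have e7 : X ^ 2 - A * Y = 0 := by
    simpa using e6
  linear_combination e5 - 3 * X * e7


private theorem spr_lin (x y : V m) : C.T y y x = C.T x y y := by
  rw [C.s₂, C.s₁]

private theorem spr_exp (y v : V m) (s : ℝ) :
    C.T (y + s • v) y y = C.F y + s * C.T y y v ∧
    C.T (y + s • v) (y + s • v) y = C.F y + 2 * s * C.T y y v + s ^ 2 * C.T y v v ∧
    C.F (y + s • v) = C.F y + 3 * s * C.T y y v + 3 * s ^ 2 * C.T y v v + s ^ 3 * C.F v := by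
  have h1 : C.T v y y = C.T y y v := by rw [C.s₁, C.s₂]
  have h2 : C.T y v y = C.T y y v := C.s₂ _ _ _
  have h3 : C.T v v y = C.T y v v := by rw [C.s₂, C.s₁]
  have h4 : C.T v y v = C.T y v v := C.s₁ _ _ _
  refine ⟨?_, ?_, ?_⟩
  · simp only [map_add, map_smul, LinearMap.add_apply, LinearMap.smul_apply, smul_eq_mul, h1, F]
  · simp only [map_add, map_smul, LinearMap.add_apply, LinearMap.smul_apply, smul_eq_mul, h1, h2,
      h3, F]
    ring
  · simp only [map_add, map_smul, LinearMap.add_apply, LinearMap.smul_apply, smul_eq_mul, h1, h2,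
      h3, h4, F]
    ring

theorem exists_gen (hc : ¬ C.Cube) {y : V m} (hy : C.F y ≠ 0) {W : Set (V m)} (hW : IsOpen W) (hne : W.Nonempty) :
    ∃ x ∈ W, C.nA x y ≠ 0 ∧ C.nB x y ≠ 0 ∧ C.G (C.mg x y) ≠ 0 := by
  have hp1 : PolyR m fun x => C.T x y y := by
    have h := PolyR.lin (C.T y y)
    refine (show (fun x => C.T x y y) = fun x => C.T y y x from ?_) ▸ h
    funext x
    exact (spr_lin x y).symm
  have hp2 : PolyR m fun x => C.T x x y := by
    refine polyR_T (C := C) (a := fun x => x) (b := fun x => x) (c := fun _ => y)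
      (fun i => PolyR.coord i) (fun i => PolyR.coord i) fun i => PolyR.const _
  have hpF : PolyR m fun x => C.F x := polyR_F
  have cube : ∀ {f : V m → ℝ}, PolyR m f → PolyR m fun x => f x ^ 3 := by
    intro f hf
    have h := (hf.mul hf).mul hf
    refine (show (fun x => f x ^ 3) = fun x => f x * f x * f x from ?_) ▸ h
    funext x
    ring
  set P1 : V m → ℝ := fun x => (C.T x y y) ^ 3 - C.F x * (C.F y) ^ 2 with hP1
  set P2 : V m → ℝ := fun x => (C.T x x y) ^ 3 - C.F x * C.F x * C.F y with hP2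
  set P3 : V m → ℝ := fun x => (C.T x y y) ^ 3 * C.F x - (C.T x x y) ^ 3 * C.F y with hP3
  have hq1 : PolyR m P1 := (cube hp1).sub (hpF.mul (PolyR.const _))
  have hq2 : PolyR m P2 := (cube hp2).sub ((hpF.mul hpF).mul (PolyR.const _))
  have hq3 : PolyR m P3 := ((cube hp1).mul hpF).sub ((cube hp2).mul (PolyR.const _))
  have hn1 : ∃ x, P1 x ≠ 0 := by
    by_contra hcon
    push Not at hcon
    refine hc (cube_of_c4 hy fun v => ?_)
    refine spr_a (A := C.F y) (X := C.T y y v) (Y := C.T y v v) (D := C.F v) fun s => ?_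
    obtain ⟨e1, -, e3⟩ := spr_exp (C := C) y v s
    have h := hcon (y + s • v)
    rw [hP1] at h
    simp only [e1, e3] at h
    linear_combination h
  have hn2 : ∃ x, P2 x ≠ 0 := by
    by_contra hcon
    push Not at hcon
    refine hc (cube_of_c4 hy fun v => ?_)
    refine spr_b (A := C.F y) (X := C.T y y v) (Y := C.T y v v) (D := C.F v) hy fun s => ?_
    obtain ⟨-, e2, e3⟩ := spr_exp (C := C) y v s
    have h := hcon (y + s • v)
    rw [hP2] at h
    simp only [e2, e3] at h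
    linear_combination h
  have hn3 : ∃ x, P3 x ≠ 0 := by
    by_contra hcon
    push Not at hcon
    refine hc (cube_of_c4 hy fun v => ?_)
    refine spr_c (A := C.F y) (X := C.T y y v) (Y := C.T y v v) (D := C.F v) hy fun s => ?_
    obtain ⟨e1, e2, e3⟩ := spr_exp (C := C) y v s
    have h := hcon (y + s • v)
    rw [hP3] at h
    simp only [e1, e2, e3] at h
    linear_combination h
  have hprod : ∃ x ∈ W, P1 x * P2 x * P3 x ≠ 0 := by
    by_contra hcon
    push Not at hcon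
    have h0 := polyR_eq_zero_of_open ((hq1.mul hq2).mul hq3) hW hne hcon
    rcases polyR_mul_eq_zero (hq1.mul hq2) hq3 h0 with h1 | h1
    · rcases polyR_mul_eq_zero hq1 hq2 h1 with h2 | h2
      · obtain ⟨x, hx⟩ := hn1
        exact hx (h2 x)
      · obtain ⟨x, hx⟩ := hn2
        exact hx (h2 x)
    · obtain ⟨x, hx⟩ := hn3
      exact hx (h1 x)
  obtain ⟨x, hxW, hx⟩ := hprod
  have hx12 := left_ne_zero_of_mul hx
  have hx1 := left_ne_zero_of_mul hx12
  have hx2 := right_ne_zero_of_mul hx12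
  have hx3 := right_ne_zero_of_mul hx
  refine ⟨x, hxW, fun h => hx1 ?_, fun h => hx2 ?_, fun h => hx3 ?_⟩
  · rw [hP1]
    have h1 : C.T x y y = C.G x * (C.G y) ^ 2 := sub_eq_zero.1 h
    show (C.T x y y) ^ 3 - C.F x * (C.F y) ^ 2 = 0
    rw [h1, ← G_pow x, ← G_pow y]
    ring
  · rw [hP2]
    have h1 : C.T x x y = (C.G x) ^ 2 * C.G y := sub_eq_zero.1 h
    show (C.T x x y) ^ 3 - C.F x * C.F x * C.F y = 0
    rw [h1, ← G_pow x, ← G_pow y]
    ring
  · rw [hP3]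
    rw [G_mg] at h
    have h1 : C.T x y y * C.G x = C.T x x y * C.G y := by
      unfold nA nB at h
      linear_combination h
    show (C.T x y y) ^ 3 * C.F x - (C.T x x y) ^ 3 * C.F y = 0
    have h2 : (C.T x y y * C.G x) ^ 3 = (C.T x x y * C.G y) ^ 3 := by rw [h1]
    rw [← G_pow x, ← G_pow y]
    linear_combination h2

theorem opn_of_int (hc : ¬ C.Cube) {o : V m} (ho : C.F o ≠ 0) (hZ : C.Z ∈ 𝓝 o) : C.Opn := by
  intro y hyZ hy
  obtain ⟨x, hxW, hA, hB, hG⟩ := exists_gen hc hy (isOpen_interior (s := C.Z))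
    ⟨o, mem_interior_iff_mem_nhds.2 hZ⟩
  have hxZ : x ∈ C.Z := interior_subset hxW
  set u := C.mg x y with hu
  have huZ : u ∈ C.Z := mg_mem hxZ hyZ hG
  have hk : -(C.nA x y) ^ 3 ≠ 0 := neg_ne_zero.2 (pow_ne_zero 3 hA)
  have hnBA : C.nB y x = C.nA x y := by
    unfold nB nA
    rw [spr_lin]
    ring
  have hyu : C.mg y u = (-(C.nA x y) ^ 3) • x := by
    rw [hu, ← neg_neg (C.mg x y), ← mg_swap, mg_neg_right, mg_mg, hnBA]
  -- continuity
  have hc1 : Continuous fun η : V m => C.mg η u :=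
    continuous_mg.comp (continuous_id.prodMk continuous_const)
  have hc2 : Continuous fun η : V m => (-(C.nA x y) ^ 3)⁻¹ • C.mg η u := by
    have h := (continuous_const (y := (-(C.nA x y) ^ 3)⁻¹)).smul hc1
    exact h
  have hx0 : (-(C.nA x y) ^ 3)⁻¹ • C.mg y u = x := by
    rw [hyu, smul_smul, inv_mul_cancel₀ hk, one_smul]
  have he1 : ∀ᶠ η in 𝓝 y, (-(C.nA x y) ^ 3)⁻¹ • C.mg η u ∈ C.Z := by
    have h1 : Tendsto (fun η : V m => (-(C.nA x y) ^ 3)⁻¹ • C.mg η u) (𝓝 y) (𝓝 x) := by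
      have h2 := hc2.tendsto y
      rwa [hx0] at h2
    exact h1 (mem_interior_iff_mem_nhds.1 hxW)
  have hc3 : Continuous fun η : V m => C.nB u η := by
    unfold nB
    exact (continuous_comp continuous_const continuous_const continuous_id).sub
      (continuous_const.mul continuous_G)
  have hB0 : C.nB u y ≠ 0 := by
    rw [hu, nB_mg]
    exact mul_ne_zero (neg_ne_zero.2 (pow_ne_zero 2 hA)) hB
  have he2 : ∀ᶠ η in 𝓝 y, C.nB u η ≠ 0 := hc3.continuousAt.eventually_ne hB0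
  have he3 : ∀ᶠ η in 𝓝 y, C.F η ≠ 0 := continuous_F.continuousAt.eventually_ne hy
  filter_upwards [he1, he2, he3] with η h1 h2 h3
  have hξ : C.mg η u ∈ C.Z := mem_Z_of_smul (inv_ne_zero hk) h1
  have h4 : C.mg (C.mg η u) u = (C.nB u η) ^ 3 • η := by
    have e1 : C.mg (C.mg η u) u = - C.mg u (C.mg η u) := mg_swap _ _
    have e2 : C.mg η u = - C.mg u η := mg_swap _ _
    rw [e1, e2, mg_neg_right, mg_mg, neg_smul, neg_neg]
  have hGη : C.G η ≠ 0 := by
    intro h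
    apply h3
    rw [← G_pow, h]
    norm_num
  have h5 : C.G (C.mg (C.mg η u) u) ≠ 0 := by
    rw [h4, G_smul]
    exact mul_ne_zero (pow_ne_zero 3 h2) hGη
  have h6 := mg_mem hξ huZ h5
  rw [h4] at h6
  exact mem_Z_of_smul (pow_ne_zero 3 h2) h6

end Cb

end Pool.Agent.CTW
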