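import Pool.Agent.CTW.Dga
import Pool.Agent.CTW.Bce
import Pool.Agent.CTW.Spr

/-!
# CTW module DGB: from `Opn` to all points

PROOF of `univ_of_opn`. `{x | 0 < F x}` is preconnected: it is the image of the convex set of the `y` with `0 < ∑ over the active k of y k` (`d k ≠ 0`) under the
continuous map `y ↦ (k ↦ if d k = 0 then y k else cr (y k / d k))` (preimage of `x`: `y k = d k x k ^ 3`, and `x k` for inactive `k`); the same set for `F < 0`
is its image under `x ↦ -x`. By `Opn` the sets `interior Z` and `Zᶜ` are open, disjoint and cover `{F ≠ 0}`; `p ∈ Z`, and `-p ∈ Z` (`Z_smul`). So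
`{F ≠ 0} ⊆ Z` (`isPreconnected_iff_subset_of_disjoint` or `IsPreconnected.subset_of_..`), and `{F ≠ 0}` is dense (`F p ≠ 0`: `PolyR.dense_ne`, QS/Uf or MZ/Compl),
`Z` is closed.
PROOF of `univ_of_pieces`. `d` has the two active coordinates `k`, `l`. `x, x' ∈ S` with `x k x' l ≠ x' k x l` in the same span `Submodule.span ℝ (Y i)`. For a rational `z`
with `F z ≠ 0` there are rational `α`, `β` with `(α x + β x') k = z k`, `(..) l = z l` (Cramer), `F (α x + β x') = F z ≠ 0`, the point is in the span and
rational, so in `S`: `F z` is a nonzero rational cube, `z ∈ S`. So `S` contains all rational points with `F ≠ 0`, a dense set.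
-/

set_option autoImplicit false

open Set Topology Filter MvPolynomial
open Pool.Agent.MZ Pool.Agent.QS

namespace Pool.Agent.CTW

variable {n : ℕ} {d : Fin n → ℚ}

/-- the parametrisation of `F > 0` and of `F < 0` -/
private noncomputable def par (d : Fin n → ℚ) (y : V n) : V n :=
  fun k => if d k = 0 then y k else cr (y k / (d k : ℝ))

private noncomputable def lin (d : Fin n → ℚ) : V n →ₗ[ℝ] ℝ :=
  ∑ k, if d k = 0 then 0 else (LinearMap.proj k : V n →ₗ[ℝ] ℝ)

private theorem lin_apply (y : V n) : lin d y = ∑ k, if d k = 0 then 0 else y k := by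
  unfold lin
  rw [LinearMap.sum_apply]
  refine Finset.sum_congr rfl fun k _ => ?_
  by_cases hk : d k = 0
  · simp [hk]
  · simp [hk]

private theorem continuous_par : Continuous (par d) := by
  refine continuous_pi fun k => ?_
  unfold par
  by_cases hk : d k = 0
  · simp only [if_pos hk]
    exact continuous_apply k
  · simp only [if_neg hk]
    exact continuous_cr.comp ((continuous_apply k).div_const _)

private theorem F_par (y : V n) : (dg d).F (par d y) = lin d y := by
  rw [dg_F, lin_apply]
  refine Finset.sum_congr rfl fun k _ => ?_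
  unfold par
  by_cases hk : d k = 0
  · simp [hk]
  · have h0 : (d k : ℝ) ≠ 0 := by exact_mod_cast hk
    simp only [if_neg hk]
    rw [cr_pow]
    field_simp

private theorem par_surj (x : V n) : ∃ y, par d y = x := by
  refine ⟨fun k => if d k = 0 then x k else (d k : ℝ) * x k ^ 3, ?_⟩
  funext k
  unfold par
  by_cases hk : d k = 0
  · simp [hk]
  · have h0 : (d k : ℝ) ≠ 0 := by exact_mod_cast hk
    simp only [if_neg hk]
    rw [mul_div_cancel_left₀ _ h0, cr_cube]

private theorem preconn_pos : IsPreconnected {x : V n | 0 < (dg d).F x} := by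
  have h1 : IsPreconnected {y : V n | 0 < lin d y} :=
    (convex_halfSpace_gt (lin d).isLinear 0).isPreconnected
  have h2 := h1.image (par d) continuous_par.continuousOn
  have e : par d '' {y : V n | 0 < lin d y} = {x : V n | 0 < (dg d).F x} := by
    ext x
    constructor
    · rintro ⟨y, hy, rfl⟩
      show 0 < (dg d).F (par d y)
      rw [F_par]
      exact hy
    · intro hx
      obtain ⟨y, rfl⟩ := par_surj (d := d) x
      refine ⟨y, ?_, rfl⟩
      show 0 < lin d y
      rw [← F_par]
      exact hx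
  rw [← e]
  exact h2

private theorem preconn_neg : IsPreconnected {x : V n | (dg d).F x < 0} := by
  have h1 : IsPreconnected {y : V n | lin d y < 0} :=
    (convex_halfSpace_lt (lin d).isLinear 0).isPreconnected
  have h2 := h1.image (par d) continuous_par.continuousOn
  have e : par d '' {y : V n | lin d y < 0} = {x : V n | (dg d).F x < 0} := by
    ext x
    constructor
    · rintro ⟨y, hy, rfl⟩
      show (dg d).F (par d y) < 0
      rw [F_par]
      exact hy
    · intro hx
      obtain ⟨y, rfl⟩ := par_surj (d := d) x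
      refine ⟨y, ?_, rfl⟩
      show lin d y < 0
      rw [← F_par]
      exact hx
  rw [← e]
  exact h2

private theorem sub_of_opn (h : (dg d).Opn) {A : Set (V n)} (hA : IsPreconnected A)
    (hF : ∀ x ∈ A, (dg d).F x ≠ 0) {p : V n} (hp : p ∈ (dg d).Z) (hpA : p ∈ A) : A ⊆ (dg d).Z := by
  have hcl : IsClosed (dg d).Z := isClosed_closure
  have h1 : A ⊆ interior (dg d).Z := by
    refine hA.subset_left_of_subset_union isOpen_interior hcl.isOpen_compl ?_ ?_ ?_
    · exact disjoint_compl_right.mono_left interior_subset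
    · intro x hx
      by_cases hxZ : x ∈ (dg d).Z
      · exact Or.inl (mem_interior_iff_mem_nhds.2 (h x hxZ (hF x hx)))
      · exact Or.inr hxZ
    · exact ⟨p, hpA, mem_interior_iff_mem_nhds.2 (h p hp (hF p hpA))⟩
  exact h1.trans interior_subset

private theorem univ_of_ne {p : V n} (h0 : (dg d).F p ≠ 0)
    (h : ∀ x, (dg d).F x ≠ 0 → x ∈ (dg d).Z) : (dg d).Z = univ := by
  have hd : Dense {x : V n | (dg d).F x ≠ 0} := (Cb.polyR_F (C := dg d)).dense_ne ⟨p, h0⟩
  have hcl : IsClosed (dg d).Z := isClosed_closure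
  have h1 : closure {x : V n | (dg d).F x ≠ 0} ⊆ (dg d).Z := hcl.closure_subset_iff.2 fun x hx => h x hx
  rw [hd.closure_eq] at h1
  exact univ_subset_iff.1 h1

theorem univ_of_opn (h : (dg d).Opn) {p : V n} (hp : p ∈ (dg d).Z) (h0 : (dg d).F p ≠ 0) :
    (dg d).Z = univ := by
  have hn : (dg d).F (-p) = - (dg d).F p := by
    have := (dg d).F_smul (-1) p
    rw [neg_one_smul] at this
    rw [this]
    ring
  have hnZ : -p ∈ (dg d).Z := by
    have := Cb.Z_smul hp (t := -1) (by norm_num)
    rwa [neg_one_smul] at this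
  have key : ∀ q r : V n, q ∈ (dg d).Z → r ∈ (dg d).Z → 0 < (dg d).F q → (dg d).F r < 0 →
      (dg d).Z = univ := by
    intro q r hq hr hq0 hr0
    refine univ_of_ne h0 fun x hx => ?_
    rcases lt_or_gt_of_ne hx with h1 | h1
    · exact sub_of_opn h preconn_neg (fun x hx => ne_of_lt hx) hr hr0 h1
    · exact sub_of_opn h preconn_pos (fun x hx => ne_of_gt hx) hq hq0 h1
  rcases lt_or_gt_of_ne h0 with h1 | h1
  · exact key (-p) p hnZ hp (by rw [hn]; linarith) h1
  · exact key p (-p) hp hnZ h1 (by rw [hn]; linarith)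

private theorem F_two {k l : Fin n} (h2 : ∀ j, d j ≠ 0 → j = k ∨ j = l) {w z : V n}
    (hk : w k = z k) (hl : w l = z l) : (dg d).F w = (dg d).F z := by
  rw [dg_F, dg_F]
  refine Finset.sum_congr rfl fun j _ => ?_
  by_cases hj : d j = 0
  · simp [hj]
  · rcases h2 j hj with rfl | rfl
    · rw [hk]
    · rw [hl]

theorem univ_of_pieces {k l : Fin n} (h2 : ∀ j, d j ≠ 0 → j = k ∨ j = l) {N : ℕ}
    {Y : Fin N → Set (V n)}
    (hS : (dg d).S = {x | IsRat x ∧ (dg d).F x ≠ 0 ∧ ∃ i, x ∈ Submodule.span ℝ (Y i)}) {i : Fin N}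
    {x x' : V n} (hx1 : x ∈ (dg d).S) (hx2 : x' ∈ (dg d).S) (hi : x ∈ Submodule.span ℝ (Y i))
    (hi' : x' ∈ Submodule.span ℝ (Y i)) (hne : x k * x' l ≠ x' k * x l) : (dg d).Z = univ := by
  have hr : IsRat x := hx1.1
  have hr' : IsRat x' := hx2.1
  have hD : x k * x' l - x' k * x l ≠ 0 := sub_ne_zero.2 hne
  -- every rational point with `F ≠ 0` is in `S`
  have hmain : ∀ z : V n, IsRat z → (dg d).F z ≠ 0 → z ∈ (dg d).S := by
    intro z hz hz0
    have hDq : IsQ (x k * x' l - x' k * x l) :=
      ((isRat_iff.1 hr k).mul (isRat_iff.1 hr' l)).sub ((isRat_iff.1 hr' k).mul (isRat_iff.1 hr l))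
    have ha : IsQ ((z k * x' l - x' k * z l) / (x k * x' l - x' k * x l)) :=
      (((isRat_iff.1 hz k).mul (isRat_iff.1 hr' l)).sub
        ((isRat_iff.1 hr' k).mul (isRat_iff.1 hz l))).div hDq
    have hb : IsQ ((x k * z l - z k * x l) / (x k * x' l - x' k * x l)) :=
      (((isRat_iff.1 hr k).mul (isRat_iff.1 hz l)).sub
        ((isRat_iff.1 hz k).mul (isRat_iff.1 hr l))).div hDq
    set α : ℝ := (z k * x' l - x' k * z l) / (x k * x' l - x' k * x l) with hα
    set β : ℝ := (x k * z l - z k * x l) / (x k * x' l - x' k * x l) with hβ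
    have hwr : IsRat (α • x + β • x') := (IsRat.smul ha hr).add (IsRat.smul hb hr')
    have hwk : (α • x + β • x') k = z k := by
      simp only [Pi.add_apply, Pi.smul_apply, smul_eq_mul]
      rw [hα, hβ, div_mul_eq_mul_div, div_mul_eq_mul_div, ← add_div, div_eq_iff hD]
      ring
    have hwl : (α • x + β • x') l = z l := by
      simp only [Pi.add_apply, Pi.smul_apply, smul_eq_mul]
      rw [hα, hβ, div_mul_eq_mul_div, div_mul_eq_mul_div, ← add_div, div_eq_iff hD]
      ring
    have hwF : (dg d).F (α • x + β • x') = (dg d).F z := F_two h2 hwk hwl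
    have hwS : α • x + β • x' ∈ (dg d).S := by
      rw [hS]
      refine ⟨hwr, by rw [hwF]; exact hz0, i, ?_⟩
      exact Submodule.add_mem _ (Submodule.smul_mem _ _ hi) (Submodule.smul_mem _ _ hi')
    obtain ⟨-, r, h3, h4, h5⟩ := hwS
    exact ⟨hz, r, h3, h4, by rw [← hwF, h5]⟩
  refine univ_of_ne (Cb.F_ne_of_S hx1) fun z hz => ?_
  have ho : IsOpen {y : V n | (dg d).F y ≠ 0} := isOpen_ne_fun Cb.continuous_F continuous_const
  have h6 : z ∈ closure ({y : V n | (dg d).F y ≠ 0} ∩ {y : V n | IsRat y}) :=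
    dense_isRat.open_subset_closure_inter ho hz
  exact closure_mono (fun y hy => hmain y hy.2 hy.1) h6

end Pool.Agent.CTW
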