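import Pool.Agent.CTW.Flin
import Pool.Agent.CTW.Pair

/-!
# CTW module T2: if all new points are of type 2 then the tangent form is constant along new points

HYPOTHESIS: `jj (xp p x) y = 0` for all `x`, `y`, and `F (xp p x₀) ≠ 0` for some `x₀`.
PROOF. Let `z₀ = xp p x₀`, `e = z₀`. If `F z ≠ 0`, `z = xp p x`, then `F` vanishes on the kernel of `L_z = T z z ·` (`type2`), so
`L_z e ≠ 0` (`F e ≠ 0`) and `b_x = L_z / L_z e` belongs to the finite set of `finite_lin`. The identity `T z z y = T z z e * b y`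
is polynomial in `x`; if it failed for every `b` of the finite set (for some `x` and `y`), there would be one `x` with `F z ≠ 0` at
which it fails for all `b`. So there is `b` with `T z z y = T z z e * b y` for all `x`, `y`. For `F z ≠ 0` `pair2` for `p := z`,
`p' := z₀` gives `c4 z z₀ = 0`: `F(z)² F(z₀) = (T z z z₀)³`, and `F z = T z z e * b z`, so `T z z e = F z₀ (b z)²`; this is a
polynomial identity, too (`polyR_eq_zero_of_open`). Put `l = G z₀ • b`.
-/

set_option autoImplicit false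

open Set Topology Filter MvPolynomial
open Pool.Agent.MZ Pool.Agent.QS

namespace Pool.Agent.CTW

namespace Cb

variable {m : ℕ} {C : Cb m}

/-- one linear form for all new points -/
private theorem t2_form {p : V m} {e : V m} (he : C.F e ≠ 0) {x₀ : V m} (hx : C.F (C.xp p x₀) ≠ 0)
    (hj : ∀ x y, C.jj (C.xp p x) y = 0) :
    ∃ b : V m →ₗ[ℝ] ℝ, b e = 1 ∧ ∀ x y, C.T (C.xp p x) (C.xp p x) y =
      C.T (C.xp p x) (C.xp p x) e * b y := by
  have hfin := C.finite_lin he
  have hN : ∀ (b : V m →ₗ[ℝ] ℝ) (y : V m), PolyR m fun x =>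
      C.T (C.xp p x) (C.xp p x) y - C.T (C.xp p x) (C.xp p x) e * b y := by
    intro b y
    have hP := fun i => C.polyR_xp p i
    have hc : ∀ u : V m, ∀ i, PolyR m fun _ : V m => u i := fun u i => PolyR.const _
    exact (polyR_T hP hP (hc y)).sub ((polyR_T hP hP (hc e)).mul (PolyR.const _))
  by_contra hcon
  have hcon2 : ∀ b : V m →ₗ[ℝ] ℝ, b e = 1 → ∃ x y, C.T (C.xp p x) (C.xp p x) y -
      C.T (C.xp p x) (C.xp p x) e * b y ≠ 0 := by
    intro b hb
    by_contra h
    push Not at h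
    exact hcon ⟨b, hb, fun x y => sub_eq_zero.1 (h x y)⟩
  choose! x₁ y₁ h1 using hcon2
  have hd : Dense (⋂ b ∈ {b : V m →ₗ[ℝ] ℝ | b e = 1 ∧ ∀ x, b x = 0 → C.F x = 0},
      {x | C.T (C.xp p x) (C.xp p x) (y₁ b) - C.T (C.xp p x) (C.xp p x) e * b (y₁ b) ≠ 0}) := by
    refine dense_biInter_of_isOpen (fun b _ => ?_) hfin.countable (fun b hb => ?_)
    · exact isOpen_ne_fun (hN b (y₁ b)).continuous continuous_const
    · exact (hN b (y₁ b)).dense_ne ⟨x₁ b, h1 b hb.1⟩
  have hWo : IsOpen {x | C.F (C.xp p x) ≠ 0} :=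
    isOpen_ne_fun (C.polyR_F.continuous.comp (continuous_pi fun i => (C.polyR_xp p i).continuous))
      continuous_const
  obtain ⟨x, hxW, hxd⟩ := hd.inter_open_nonempty _ hWo ⟨x₀, hx⟩
  have hL : C.T (C.xp p x) (C.xp p x) e ≠ 0 := fun h0 => he (type2 hxW (hj x) h0)
  have hb : (C.T (C.xp p x) (C.xp p x) e)⁻¹ • C.T (C.xp p x) (C.xp p x) ∈
      {b : V m →ₗ[ℝ] ℝ | b e = 1 ∧ ∀ x, b x = 0 → C.F x = 0} := by
    refine ⟨?_, fun y hy => ?_⟩
    · rw [LinearMap.smul_apply, smul_eq_mul, inv_mul_cancel₀ hL]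
    · rw [LinearMap.smul_apply, smul_eq_mul, mul_eq_zero] at hy
      rcases hy with hy | hy
      · exact absurd hy (inv_ne_zero hL)
      · exact type2 hxW (hj x) hy
  apply mem_iInter₂.1 hxd _ hb
  rw [LinearMap.smul_apply, smul_eq_mul, mul_inv_cancel_left₀ hL, sub_self]

theorem const_l2 {p x₀ : V m} (hx : C.F (C.xp p x₀) ≠ 0) (hj : ∀ x y, C.jj (C.xp p x) y = 0) :
    ∃ l : V m →ₗ[ℝ] ℝ, ∀ x w, C.T (C.xp p x) (C.xp p x) w = (l (C.xp p x)) ^ 2 * l w := by
  obtain ⟨e, he⟩ : ∃ e, C.xp p x₀ = e := ⟨_, rfl⟩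
  have heF : C.F e ≠ 0 := he ▸ hx
  obtain ⟨b, hb1, hb2⟩ := t2_form heF hx hj
  have key : ∀ x, C.F (C.xp p x) ≠ 0 →
      C.T (C.xp p x) (C.xp p x) e - C.F e * (b (C.xp p x) * b (C.xp p x)) = 0 := by
    intro x hxF
    have h1 : ∀ y, C.T e e y = C.F e * b y := by
      intro y
      have h := hb2 x₀ y
      rw [he] at h
      exact h
    have h2 := (pair2 (p := C.xp p x) (p' := e) hxF heF (hb2 x) h1 (hj x e)).1
    have h3 : C.F (C.xp p x) = C.T (C.xp p x) (C.xp p x) e * b (C.xp p x) := hb2 x (C.xp p x)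
    obtain ⟨k, hk⟩ : ∃ k, C.T (C.xp p x) (C.xp p x) e = k := ⟨_, rfl⟩
    have hk0 : k ≠ 0 := by
      rintro rfl
      rw [hk, zero_mul] at h3
      exact hxF h3
    unfold c4 at h2
    rw [h3, hk] at h2
    rw [hk]
    have h4 : k ^ 2 * (k - C.F e * (b (C.xp p x) * b (C.xp p x))) = 0 := by
      linear_combination -h2
    rcases mul_eq_zero.1 h4 with h5 | h5
    · exact absurd h5 (pow_ne_zero 2 hk0)
    · exact h5
  have hWo : IsOpen {x | C.F (C.xp p x) ≠ 0} :=
    isOpen_ne_fun (C.polyR_F.continuous.comp (continuous_pi fun i => (C.polyR_xp p i).continuous))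
      continuous_const
  have hP := fun i => C.polyR_xp p i
  have hlin : PolyR m fun x => b (C.xp p x) := polyR_comp (PolyR.lin b) hP
  have hpol : PolyR m fun x => C.T (C.xp p x) (C.xp p x) e -
      C.F e * (b (C.xp p x) * b (C.xp p x)) :=
    (polyR_T hP hP (fun i => PolyR.const (e i))).sub ((PolyR.const _).mul (hlin.mul hlin))
  have hall := polyR_eq_zero_of_open hpol hWo ⟨x₀, hx⟩ key
  refine ⟨C.G e • b, fun x w => ?_⟩
  have h1 := hall x
  have h2 := G_pow (C := C) e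
  rw [hb2 x w, LinearMap.smul_apply, LinearMap.smul_apply, smul_eq_mul, smul_eq_mul]
  linear_combination (b w) * h1 - (b (C.xp p x)) ^ 2 * b w * h2

end Cb

end Pool.Agent.CTW
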