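import Pool.Agent.CTW.Ran
import Pool.Agent.CTW.Cst
import Pool.Agent.CTW.T2

/-!
# CTW module ELL: thin sets and good points

PROOF. `p` is good, so there is `x₁` with `jj p x₁ ≠ 0`, `F (xp p x₁) = F p (jj)³ ≠ 0`. Cases.
(a) `jj (xp p x) y = 0` for all `x`, `y`: `const_l2`.
(b) `c3 (xp p x) y = 0` for all `x`, `y`: then `cc (xp p x) u w = 0` for all `u`, `w` (polarisation:
`c3 z (u + w) = c3 z u + 2 cc z u w + c3 z w`), `const_l` with `W = {x | jj p x ≠ 0}`.
(c) otherwise there are `x₂, y₂` with `jj (xp p x₂) y₂ ≠ 0` and `x₃, y₃` with `c3 (xp p x₃) y₃ ≠ 0`. Let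
`W = {x | jj p x ≠ 0, jj (xp p x) y₂ ≠ 0, c3 (xp p x) y₃ ≠ 0}`: open, and nonempty since none of the three polynomial functions vanishes
identically (`polyR_mul_eq_zero`, `polyR_comp`, `polyR_jj'`, `polyR_c3'`, `polyR_xp`). For `x ∈ W` the point `z = xp p x` is good: the product
`c3 z y * jj z y` is not identically zero (`polyR_mul_eq_zero`). So `cc_dxp` applies and `const_l` with this `W`.
-/

set_option autoImplicit false

open Set Topology Filter MvPolynomial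
open Pool.Agent.MZ Pool.Agent.QS

namespace Pool.Agent.CTW

namespace Cb

variable {m : ℕ} {C : Cb m}

theorem exists_l (hT : C.Thin) {p : V m} (hp : C.F p ≠ 0) (hpZ : p ∈ C.Z) (hg : C.Good p) :
    ∃ l : V m →ₗ[ℝ] ℝ, ∀ x w, C.T (C.xp p x) (C.xp p x) w = (l (C.xp p x)) ^ 2 * l w := by
  obtain ⟨x₁, -, hj1⟩ := hg
  have hFx : ∀ x, C.jj p x ≠ 0 → C.F (C.xp p x) ≠ 0 := fun x hx => by
    rw [F_xp]
    exact mul_ne_zero hp (pow_ne_zero _ hx)
  have hc1 : Continuous fun x => C.jj p x := (polyR_jj (C := C) p).continuous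
  by_cases ha : ∀ x y, C.jj (C.xp p x) y = 0
  · exact const_l2 (hFx x₁ hj1) ha
  by_cases hb : ∀ x y, C.c3 (C.xp p x) y = 0
  · refine const_l (W := {x | C.jj p x ≠ 0}) (isOpen_ne_fun hc1 continuous_const) ⟨x₁, hj1⟩
      (fun x hx => hFx x hx) ?_
    intro x _ u w
    have key : ∀ z : V m, (∀ y, C.c3 z y = 0) → ∀ u w, C.cc z u w = 0 := by
      intro z hz u w
      have h1 := cc_c3 (C := C) z (u + w)
      rw [cc_add_left, cc_add_right, cc_add_right, cc_c3, cc_c3, cc_symm z w u, hz, hz, hz] at h1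
      linarith
    exact key _ (hb x) _ _
  push Not at ha hb
  obtain ⟨x₂, y₂, h2⟩ := ha
  obtain ⟨x₃, y₃, h3⟩ := hb
  have hp2 : PolyR m fun x => C.jj (C.xp p x) y₂ :=
    polyR_comp (polyR_jj' (C := C) y₂) (fun i => polyR_xp p i)
  have hp3 : PolyR m fun x => C.c3 (C.xp p x) y₃ :=
    polyR_comp (polyR_c3' (C := C) y₃) (fun i => polyR_xp p i)
  have hne : ∃ x, C.jj p x ≠ 0 ∧ C.jj (C.xp p x) y₂ ≠ 0 ∧ C.c3 (C.xp p x) y₃ ≠ 0 := by
    by_contra hcon
    push Not at hcon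
    have h4 : ∀ x, C.jj p x * (C.jj (C.xp p x) y₂ * C.c3 (C.xp p x) y₃) = 0 := by
      intro x
      by_cases a1 : C.jj p x = 0
      · rw [a1, zero_mul]
      by_cases a2 : C.jj (C.xp p x) y₂ = 0
      · rw [a2, zero_mul, mul_zero]
      · rw [hcon x a1 a2, mul_zero, mul_zero]
    rcases polyR_mul_eq_zero (polyR_jj p) (hp2.mul hp3) h4 with h5 | h5
    · exact hj1 (h5 x₁)
    rcases polyR_mul_eq_zero hp2 hp3 h5 with h6 | h6
    · exact h2 (h6 x₂)
    · exact h3 (h6 x₃)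
  refine const_l (W := {x | C.jj p x ≠ 0 ∧ C.jj (C.xp p x) y₂ ≠ 0 ∧ C.c3 (C.xp p x) y₃ ≠ 0})
    ((isOpen_ne_fun hc1 continuous_const).inter
      ((isOpen_ne_fun hp2.continuous continuous_const).inter
        (isOpen_ne_fun hp3.continuous continuous_const))) hne
    (fun x hx => hFx x hx.1) ?_
  rintro x ⟨hx1, hx2, hx3⟩ u w
  have hgood : C.Good (C.xp p x) := by
    by_contra hcon
    unfold Good at hcon
    push Not at hcon
    have h4 : ∀ y, C.c3 (C.xp p x) y * C.jj (C.xp p x) y = 0 := by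
      intro y
      by_cases a1 : C.c3 (C.xp p x) y = 0
      · rw [a1, zero_mul]
      · rw [hcon y a1, mul_zero]
    rcases polyR_mul_eq_zero (polyR_c3 (C := C) (C.xp p x)) (polyR_jj (C := C) (C.xp p x)) h4 with h5 | h5
    · exact hx3 (h5 y₃)
    · exact hx2 (h5 y₂)
  exact cc_dxp hT hp hpZ hx1 hgood u w

end Cb

end Pool.Agent.CTW
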