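import Pool.Agent.CTW.Swp

/-!
# CTW module FN: the last case

PROOF. Suppose not `Bin`. The three linear forms `l, b, g` are linearly independent: otherwise one of them vanishes on the common
kernel of the other two, and `F x = (l x)³ + (b x)² g x` does not change if a vector of the common kernel of two forms is added. So
there are `e₁, e₂, e₃` with values `(1,0,0)`, `(0,1,0)`, `(0,0,1)`.
Polarise: `3 T x x y = 3 (l x)² l y + (b x)² g y + 2 b x g x b y`, and `T x y z` similarly.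
1. `z = e₁ + e₃ ∈ Z`: `b z = 0`. The points `h` with `b h = 0, c3 p h ≠ 0, F h ≠ 0` are in `Z` (`mem_of_c4` at `p`), and `z` is a limit of
such points `z + t y`, `b y = 0`, `c3 p y ≠ 0` (`c3 p (z + t y)` is a quadratic polynomial in `t`).
2. `y_s = e₁ + (1 + s) e₂`, `s ≠ -1`, is in `Z` (`mem_of_c4` at `z`).
3. `sweep` for the curve `c s = y_s`, velocity `e₂`, `w = e₁ + e₂ - 9 e₃`.
-/

set_option autoImplicit false

open Set Topology Filter MvPolynomial
open Pool.Agent.MZ Pool.Agent.QS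

namespace Pool.Agent.CTW

namespace Cb

variable {m : ℕ} {C : Cb m}

theorem fn_T (C : Cb m) {l b g : V m →ₗ[ℝ] ℝ} (hF : ∀ x, C.F x = (l x) ^ 3 + (b x) ^ 2 * g x) (x y : V m) :
    C.T x x y = (l x) ^ 2 * l y + ((b x) ^ 2 * g y + 2 * b x * b y * g x) / 3 := by
  have h1 := C.F_add x y 1 1
  have h2 := C.F_add x y 1 (-1)
  rw [hF, hF x, hF y] at h1 h2
  simp only [map_add, map_smul, smul_eq_mul] at h1 h2
  linarith

theorem fn_T3 (C : Cb m) {l b g : V m →ₗ[ℝ] ℝ} (hF : ∀ x, C.F x = (l x) ^ 3 + (b x) ^ 2 * g x) (x y z : V m) :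
    C.T x y z = l x * l y * l z + (b x * b y * g z + b x * g y * b z + g x * b y * b z) / 3 := by
  have h1 : C.T (x + y) (x + y) z = C.T x x z + 2 * C.T x y z + C.T y y z := by
    simp only [map_add, LinearMap.add_apply]
    rw [C.s₁ y x z]
    ring
  rw [fn_T C hF, fn_T C hF x, fn_T C hF y] at h1
  simp only [map_add] at h1
  linarith

theorem fn_T2 (C : Cb m) {l b g : V m →ₗ[ℝ] ℝ} (hF : ∀ x, C.F x = (l x) ^ 3 + (b x) ^ 2 * g x) (x y : V m) :
    C.T x y y = (l y) ^ 2 * l x + ((b y) ^ 2 * g x + 2 * b x * b y * g y) / 3 := by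
  rw [fn_T3 C hF]
  ring

/-- A quadratic polynomial with leading coefficient `≠ 0` is not zero near `0`, except at `0`. -/
theorem fn_quad {a b c : ℝ} (ha : a ≠ 0) : ∀ᶠ t in 𝓝[≠] (0 : ℝ), c + b * t + a * t ^ 2 ≠ 0 := by
  set P : Polynomial ℝ := Polynomial.C a * Polynomial.X ^ 2 + Polynomial.C b * Polynomial.X + Polynomial.C c with hP
  have hP0 : P ≠ 0 := by
    intro h
    have h1 : P.coeff 2 = a := by
      rw [hP]
      simp [Polynomial.coeff_X, Polynomial.coeff_C]
    rw [h, Polynomial.coeff_zero] at h1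
    exact ha h1.symm
  have hfin : {t : ℝ | P.IsRoot t}.Finite := Polynomial.finite_setOfPred_isRoot hP0
  have h1 : ({t : ℝ | P.IsRoot t} \ {0})ᶜ ∈ 𝓝 (0 : ℝ) :=
    (hfin.subset Set.sdiff_subset).isClosed.isOpen_compl.mem_nhds (by simp)
  rw [eventually_nhdsWithin_iff]
  filter_upwards [h1] with t ht ht0 h
  apply ht
  refine ⟨?_, ht0⟩
  show P.eval t = 0
  rw [hP]
  simp only [Polynomial.eval_add, Polynomial.eval_mul, Polynomial.eval_C, Polynomial.eval_pow, Polynomial.eval_X]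
  linarith

theorem bin_of_dec (hT : C.Thin) {p : V m} (hp : C.F p ≠ 0) (hpZ : p ∈ C.Z) (hg : C.Good p)
    {l b g : V m →ₗ[ℝ] ℝ} (hb : b p = 1) (hc : ∀ x, C.c4 p x = 3 * C.F p * C.c3 p x * b x)
    (hF : ∀ x, C.F x = (l x) ^ 3 + (b x) ^ 2 * g x) : C.Bin := by
  by_contra hB
  -- the dual basis
  have hx3 : ∃ e, l e = 0 ∧ b e = 0 ∧ g e = 1 := by
    by_contra hcon
    push Not at hcon
    apply hB
    refine ⟨l, b, fun v h1 h2 x => ?_⟩
    have h3 : g v = 0 := by
      by_contra h3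
      refine hcon ((g v)⁻¹ • v) ?_ ?_ ?_
      · rw [map_smul, h1, smul_zero]
      · rw [map_smul, h2, smul_zero]
      · rw [map_smul, smul_eq_mul, inv_mul_cancel₀ h3]
    rw [hF, hF x]
    simp only [map_add, h1, h2, h3, add_zero]
  have hx2 : ∃ e, l e = 0 ∧ g e = 0 ∧ b e = 1 := by
    by_contra hcon
    push Not at hcon
    apply hB
    refine ⟨l, g, fun v h1 h2 x => ?_⟩
    have h3 : b v = 0 := by
      by_contra h3
      refine hcon ((b v)⁻¹ • v) ?_ ?_ ?_
      · rw [map_smul, h1, smul_zero]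
      · rw [map_smul, h2, smul_zero]
      · rw [map_smul, smul_eq_mul, inv_mul_cancel₀ h3]
    rw [hF, hF x]
    simp only [map_add, h1, h2, h3, add_zero]
  have hx1 : ∃ e, b e = 0 ∧ g e = 0 ∧ l e = 1 := by
    by_contra hcon
    push Not at hcon
    apply hB
    refine ⟨b, g, fun v h1 h2 x => ?_⟩
    have h3 : l v = 0 := by
      by_contra h3
      refine hcon ((l v)⁻¹ • v) ?_ ?_ ?_
      · rw [map_smul, h1, smul_zero]
      · rw [map_smul, h2, smul_zero]
      · rw [map_smul, smul_eq_mul, inv_mul_cancel₀ h3]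
    rw [hF, hF x]
    simp only [map_add, h1, h2, h3, add_zero]
  obtain ⟨e₁, b1, g1, l1⟩ := hx1
  obtain ⟨e₂, l2, g2, b2⟩ := hx2
  obtain ⟨e₃, l3, b3, g3⟩ := hx3
  -- the first point
  set z : V m := e₁ + e₃ with hz
  have zl : l z = 1 := by rw [hz, map_add, l1, l3, add_zero]
  have zb : b z = 0 := by rw [hz, map_add, b1, b3, add_zero]
  have zg : g z = 1 := by rw [hz, map_add, g1, g3, zero_add]
  have zF : C.F z = 1 := by rw [hF, zl, zb, zg]; norm_num
  have hzZ : z ∈ C.Z := by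
    obtain ⟨x, hx, _⟩ := hg
    set y : V m := x + (-(b x)) • p with hy
    have yb : b y = 0 := by
      rw [hy, map_add, map_smul, hb, smul_eq_mul]
      ring
    have yc : C.c3 p y ≠ 0 := by
      rw [hy, c3_add]
      exact hx
    have hq : ∀ t : ℝ, C.c3 p (z + t • y) = C.c3 p z +
        (2 * C.F p * C.T p z y - 2 * C.T p p z * C.T p p y) * t + C.c3 p y * t ^ 2 := by
      intro t
      unfold c3
      simp only [map_add, map_smul, LinearMap.add_apply, LinearMap.smul_apply, smul_eq_mul]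
      rw [C.s₂ p y z]
      ring
    have h1 : ∀ᶠ t in 𝓝[≠] (0 : ℝ), C.c3 p (z + t • y) ≠ 0 := by
      have := fn_quad (a := C.c3 p y) (b := 2 * C.F p * C.T p z y - 2 * C.T p p z * C.T p p y)
        (c := C.c3 p z) yc
      filter_upwards [this] with t ht
      rw [hq]
      exact ht
    have hcont : Continuous fun t : ℝ => z + t • y :=
      continuous_const.add (continuous_id.smul continuous_const)
    have h2 : ∀ᶠ t in 𝓝[≠] (0 : ℝ), C.F (z + t • y) ≠ 0 := by
      have h3 : ContinuousAt (fun t : ℝ => C.F (z + t • y)) 0 := (continuous_F.comp hcont).continuousAt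
      have h4 : (fun t : ℝ => C.F (z + t • y)) 0 ≠ 0 := by
        simp only [zero_smul, add_zero]
        rw [zF]
        exact one_ne_zero
      exact (h3.eventually_ne h4).filter_mono nhdsWithin_le_nhds
    have h5 : ∀ᶠ t in 𝓝[≠] (0 : ℝ), z + t • y ∈ C.Z := by
      filter_upwards [h1, h2] with t h1 h2
      refine mem_of_c4 hp hpZ ?_ h1 h2
      rw [hc, map_add, map_smul, zb, yb]
      simp
    have h6 : Tendsto (fun t : ℝ => z + t • y) (𝓝[≠] (0 : ℝ)) (𝓝 z) := by
      have := (hcont.tendsto 0).mono_left (nhdsWithin_le_nhds (s := {0}ᶜ))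
      simpa using this
    have h7 := mem_closure_of_tendsto h6 h5
    rwa [show closure C.Z = C.Z from isClosed_closure.closure_eq] at h7
  -- the second points
  have hyl : ∀ s : ℝ, l (e₁ + (1 + s) • e₂) = 1 := fun s => by
    rw [map_add, map_smul, l1, l2, smul_zero, add_zero]
  have hyb : ∀ s : ℝ, b (e₁ + (1 + s) • e₂) = 1 + s := fun s => by
    rw [map_add, map_smul, b1, b2, smul_eq_mul]
    ring
  have hyg : ∀ s : ℝ, g (e₁ + (1 + s) • e₂) = 0 := fun s => by
    rw [map_add, map_smul, g1, g2, smul_zero, add_zero]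
  have hyF : ∀ s : ℝ, C.F (e₁ + (1 + s) • e₂) = 1 := fun s => by
    rw [hF, hyl, hyb, hyg]
    ring
  have hyZ : ∀ s : ℝ, 1 + s ≠ 0 → e₁ + (1 + s) • e₂ ∈ C.Z := by
    intro s hs
    refine mem_of_c4 (p := z) (by rw [zF]; exact one_ne_zero) hzZ ?_ ?_ (by rw [hyF]; exact one_ne_zero)
    · unfold c4
      rw [zF, hyF, fn_T C hF, zl, zb, zg, hyl, hyb, hyg]
      ring
    · unfold c3
      rw [zF, fn_T C hF, fn_T2 C hF, zl, zb, zg, hyl, hyb, hyg]
      have h1 : (1 : ℝ) * (1 ^ 2 * 1 + ((1 + s) ^ 2 * 1 + 2 * 0 * (1 + s) * 0) / 3) -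
          (1 ^ 2 * 1 + (0 ^ 2 * 0 + 2 * 0 * (1 + s) * 1) / 3) ^ 2 = (1 + s) ^ 2 / 3 := by ring
      rw [h1]
      positivity
  -- sweeping
  set w : V m := e₁ + e₂ + (-9 : ℝ) • e₃ with hw
  have wl : l w = 1 := by
    rw [hw, map_add, map_add, map_smul, l1, l2, l3, smul_zero]
    ring
  have wb : b w = 1 := by
    rw [hw, map_add, map_add, map_smul, b1, b2, b3, smul_zero]
    ring
  have wg : g w = -9 := by
    rw [hw, map_add, map_add, map_smul, g1, g2, g3, smul_eq_mul]
    ring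
  have wF : C.F w = -8 := by
    rw [hF, wl, wb, wg]
    norm_num
  have hcc : Continuous fun s : ℝ => e₁ + (1 + s) • e₂ :=
    continuous_const.add ((continuous_const.add continuous_id).smul continuous_const)
  have hd : HasDerivAt (fun s : ℝ => e₁ + (1 + s) • e₂) e₂ 0 := by
    have h1 := (((hasDerivAt_id (0 : ℝ)).const_add 1).smul_const e₂).const_add e₁
    simpa using h1
  have hZ : ∀ᶠ s in 𝓝 (0 : ℝ), e₁ + (1 + s) • e₂ ∈ C.Z := by
    have h1 : ∀ᶠ s in 𝓝 (0 : ℝ), 1 + s ≠ 0 := by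
      have h2 : ContinuousAt (fun s : ℝ => 1 + s) 0 := by fun_prop
      exact h2.eventually_ne (by norm_num)
    filter_upwards [h1] with s hs
    exact hyZ s hs
  have hF0 : C.F w ≠ 0 := by
    rw [wF]
    norm_num
  refine hT w hF0 (sweep hcc hd hZ ?_ hF0 ?_ ?_ ?_)
  · rw [hyF]
    exact one_ne_zero
  · unfold c4
    rw [hyF, wF, fn_T C hF, hyl, hyb, hyg, wl, wb, wg]
    norm_num
  · unfold c3
    rw [hyF, fn_T2 C hF, fn_T C hF, hyl, hyb, hyg, wl, wb, wg]
    norm_num
  · unfold cc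
    rw [hyF, fn_T3 C hF, fn_T C hF, fn_T C hF, hyl, hyb, hyg, wl, wb, wg, l2, b2, g2]
    norm_num

end Cb

end Pool.Agent.CTW
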