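import Mathlib

/-!
# CTW module PHI: the tangent process on `a + b + c = 0`, `t = a / b`

`phi t = - t ((t + 2) / (2 t + 1))³`.
PROOF with the 2-adic norm `N`. (A) `N t < 1`: `N (phi t) = N t * N (t + 2)³ < N t` (`2 t + 1` is a unit, `N (t + 2) ≤ 1/2`).
(B) `N t > 1`: `N (t + 2) = N t` and `N (2 t + 1) ≤ max (N t / 2) 1 < N t`, so `N (phi t) > N t`.
(C) `N t = 1`: `phi t + 1 = - (t - 1)³ (t + 1) / (2 t + 1)³`, `N (2 t + 1) = 1`, `N (t - 1) ≤ 1/2`: `N (phi t + 1) < N (t + 1)`, so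
`N (phi t) = 1`. In each case the case is preserved and a norm (`N t`, `N t`, `N (t + 1)`) is strictly monotone: the orbit is
injective. `phi_good`: `phi t ≠ 0, -1` by algebra (`t (t + 2)³ - (2 t + 1)³ = (t - 1)³ (t + 1)`), `phi t ≠ 1, -2, -1/2` by the norms.
-/

set_option autoImplicit false

namespace Pool.Agent.CTW

/-- the tangent map -/
def phi (t : ℚ) : ℚ := -t * ((t + 2) / (2 * t + 1)) ^ 3

/-- `t` is not the ratio of a special point -/
def Gd (t : ℚ) : Prop := t ≠ 0 ∧ t ≠ -1 ∧ t ≠ 1 ∧ t ≠ -2 ∧ 2 * t + 1 ≠ 0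

/-- the 2-adic norm of a rational number -/
private noncomputable def nn (t : ℚ) : ℝ := ‖(t : ℚ_[2])‖

private theorem nn_mul (a b : ℚ) : nn (a * b) = nn a * nn b := by
  unfold nn; push_cast; exact norm_mul _ _

private theorem nn_div (a b : ℚ) : nn (a / b) = nn a / nn b := by
  unfold nn; push_cast; exact norm_div _ _

private theorem nn_pow (a : ℚ) (n : ℕ) : nn (a ^ n) = nn a ^ n := by
  unfold nn; push_cast; exact norm_pow _ _

private theorem nn_neg (a : ℚ) : nn (-a) = nn a := by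
  unfold nn; push_cast; exact norm_neg _

private theorem nn_nonneg (a : ℚ) : 0 ≤ nn a := norm_nonneg _

private theorem nn_pos {a : ℚ} (h : a ≠ 0) : 0 < nn a := by
  unfold nn
  rw [norm_pos_iff]
  exact_mod_cast h

private theorem nn_two : nn 2 = 1 / 2 := by
  unfold nn
  have h : ‖((2 : ℕ) : ℚ_[2])‖ = ((2 : ℕ) : ℝ)⁻¹ := Padic.norm_p
  push_cast at h ⊢
  rw [h]
  norm_num

private theorem nn_one : nn 1 = 1 := by
  unfold nn; push_cast; exact norm_one

private theorem nn_add (a b : ℚ) : nn (a + b) ≤ max (nn a) (nn b) := by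
  unfold nn; push_cast; exact Padic.nonarchimedean _ _

private theorem nn_add_eq {a b : ℚ} (h : nn b < nn a) : nn (a + b) = nn a := by
  unfold nn at *
  push_cast
  rw [Padic.add_eq_max_of_ne h.ne', max_eq_left h.le]

private theorem nn_int (m : ℤ) : nn m ≤ 1 := by
  unfold nn
  push_cast
  exact Padic.norm_int_le_one m

private theorem nn_odd (m : ℤ) (h : ¬ (2 : ℤ) ∣ m) : nn m = 1 := by
  refine le_antisymm (nn_int m) ?_
  by_contra hlt
  push Not at hlt
  apply h
  have h1 : ‖((m : ℤ) : ℚ_[2])‖ < 1 := by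
    unfold nn at hlt
    push_cast at hlt
    exact hlt
  exact_mod_cast Padic.norm_intCast_lt_one_iff.1 h1

private theorem nn_tri (t : ℚ) (ht : t ≠ 0) : (∃ s : ℚ, nn s ≤ 1 ∧ t = 2 * s) ∨
    (∃ s : ℚ, nn s ≤ 1 ∧ t⁻¹ = 2 * s) ∨ (∃ s : ℚ, nn s ≤ 1 ∧ t = 1 + 2 * s) := by
  have hn : t.num ≠ 0 := Rat.num_ne_zero.2 ht
  have hd : (t.den : ℤ) ≠ 0 := by exact_mod_cast t.den_ne_zero
  have hdQ : ((t.den : ℤ) : ℚ) ≠ 0 := by exact_mod_cast hd
  have hnQ : (t.num : ℚ) ≠ 0 := by exact_mod_cast hn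
  have hq : t = (t.num : ℚ) / ((t.den : ℤ) : ℚ) := by
    have := Rat.num_div_den t
    push_cast
    exact this.symm
  have key : ∀ a b : ℤ, ¬ (2 : ℤ) ∣ b → nn ((a : ℚ) / b) ≤ 1 := by
    intro a b hb
    rw [nn_div, nn_odd b hb, div_one]
    exact nn_int a
  by_cases h1 : (2 : ℤ) ∣ t.num
  · by_cases h2 : (2 : ℤ) ∣ (t.den : ℤ)
    · exfalso
      have h3 := t.reduced
      have h4 : 2 ∣ t.num.natAbs := by
        have := Int.natAbs_dvd_natAbs.2 h1
        simpa using this
      have h5 : 2 ∣ t.den := by exact_mod_cast h2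
      have := Nat.dvd_gcd h4 h5
      rw [h3] at this
      omega
    · left
      obtain ⟨c, hc⟩ := h1
      refine ⟨(c : ℚ) / (t.den : ℤ), key c _ h2, ?_⟩
      nth_rewrite 1 [hq]
      rw [hc]
      push_cast
      ring
  · by_cases h2 : (2 : ℤ) ∣ (t.den : ℤ)
    · right; left
      obtain ⟨c, hc⟩ := h2
      refine ⟨(c : ℚ) / t.num, key c _ h1, ?_⟩
      nth_rewrite 1 [hq]
      rw [hc, inv_div]
      push_cast
      ring
    · right; right
      obtain ⟨c, hc⟩ : (2 : ℤ) ∣ t.num - t.den := by omega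
      refine ⟨(c : ℚ) / (t.den : ℤ), key c _ h2, ?_⟩
      nth_rewrite 1 [hq]
      have h3 : t.num = t.den + 2 * c := by omega
      rw [h3]
      push_cast at hdQ ⊢
      field_simp

private theorem nn_two_mul {s : ℚ} (h : nn s ≤ 1) : nn (2 * s) ≤ 1 / 2 := by
  rw [nn_mul, nn_two]
  linarith

/-- `N (1 + 2 s) = 1` -/
private theorem nn_unit {s : ℚ} (h : nn s ≤ 1) : nn (1 + 2 * s) = 1 := by
  have h1 := nn_two_mul h
  rw [nn_add_eq (by rw [nn_one]; linarith), nn_one]

private theorem nn_lt {t : ℚ} (h : nn t < 1) : nn t ≤ 1 / 2 := by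
  by_cases ht : t = 0
  · subst ht
    unfold nn
    push_cast
    rw [norm_zero]
    norm_num
  rcases nn_tri t ht with ⟨s, hs, rfl⟩ | ⟨s, hs, hi⟩ | ⟨s, hs, rfl⟩
  · exact nn_two_mul hs
  · exfalso
    have h1 := nn_two_mul hs
    rw [← hi] at h1
    have h2 : nn t * nn t⁻¹ = 1 := by rw [← nn_mul, mul_inv_cancel₀ ht, nn_one]
    have := nn_pos ht
    nlinarith [nn_nonneg t⁻¹]
  · exfalso
    rw [nn_unit hs] at h
    exact lt_irrefl _ h

private theorem nn_gt {t : ℚ} (h : 1 < nn t) : 2 ≤ nn t := by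
  have ht : t ≠ 0 := by
    rintro rfl
    unfold nn at h
    push_cast at h
    rw [norm_zero] at h
    linarith
  rcases nn_tri t ht with ⟨s, hs, rfl⟩ | ⟨s, hs, hi⟩ | ⟨s, hs, rfl⟩
  · exfalso
    have := nn_two_mul hs
    linarith
  · have h1 := nn_two_mul hs
    rw [← hi] at h1
    have h2 : nn t * nn t⁻¹ = 1 := by rw [← nn_mul, mul_inv_cancel₀ ht, nn_one]
    have := nn_pos ht
    nlinarith [nn_nonneg t⁻¹]
  · exfalso
    rw [nn_unit hs] at h
    exact lt_irrefl _ h

private theorem nn_eq {t : ℚ} (h : nn t = 1) : nn (t - 1) ≤ 1 / 2 ∧ nn (t + 1) ≤ 1 / 2 := by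
  have ht : t ≠ 0 := by
    rintro rfl
    unfold nn at h
    push_cast at h
    rw [norm_zero] at h
    exact zero_ne_one h
  rcases nn_tri t ht with ⟨s, hs, rfl⟩ | ⟨s, hs, hi⟩ | ⟨s, hs, rfl⟩
  · exfalso
    have := nn_two_mul hs
    linarith
  · exfalso
    have h1 := nn_two_mul hs
    rw [← hi] at h1
    have h2 : nn t * nn t⁻¹ = 1 := by rw [← nn_mul, mul_inv_cancel₀ ht, nn_one]
    rw [h, one_mul] at h2
    linarith
  · have e1 : 1 + 2 * s - 1 = 2 * s := by ring
    have e2 : 1 + 2 * s + 1 = 2 * s + 2 := by ring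
    rw [e1, e2]
    refine ⟨nn_two_mul hs, (nn_add _ _).trans (max_le (nn_two_mul hs) ?_)⟩
    rw [nn_two]

private theorem phi_nn (t : ℚ) : nn (phi t) = nn t * (nn (t + 2) / nn (2 * t + 1)) ^ 3 := by
  unfold phi
  rw [nn_mul, nn_neg, nn_pow, nn_div]

/-- case A -/
private theorem caseA {t : ℚ} (h : nn t < 1) (h0 : t ≠ 0) :
    nn (phi t) < nn t ∧ nn (phi t) ≤ 1 / 16 := by
  have h1 := nn_lt h
  have h2 : nn (2 * t + 1) = 1 := by
    rw [add_comm]
    exact nn_unit h.le
  have h3 : nn (t + 2) ≤ 1 / 2 := (nn_add _ _).trans (max_le h1 (by rw [nn_two]))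
  rw [phi_nn, h2, div_one]
  have h4 : nn (t + 2) ^ 3 ≤ 1 / 8 := by
    have := pow_le_pow_left₀ (nn_nonneg _) h3 3
    linarith
  have h5 := nn_pos h0
  constructor
  · nlinarith
  · have h6 : 0 ≤ nn (t + 2) ^ 3 := pow_nonneg (nn_nonneg _) 3
    nlinarith

/-- case B -/
private theorem caseB {t : ℚ} (h : 1 < nn t) (h5 : 2 * t + 1 ≠ 0) : nn t < nn (phi t) := by
  have h1 : nn (t + 2) = nn t := nn_add_eq (by rw [nn_two]; linarith)
  have h2 : nn (2 * t + 1) < nn t := by
    refine (nn_add _ _).trans_lt (max_lt ?_ (by rw [nn_one]; exact h))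
    rw [nn_mul, nn_two]
    linarith
  have h3 := nn_pos h5
  rw [phi_nn, h1]
  have h4 : 1 < nn t / nn (2 * t + 1) := by rwa [one_lt_div h3]
  have h6 : 1 < (nn t / nn (2 * t + 1)) ^ 3 := one_lt_pow₀ h4 (by norm_num)
  nlinarith

private theorem phi_add {t : ℚ} (h5 : 2 * t + 1 ≠ 0) :
    phi t + 1 = -((t - 1) ^ 3 * (t + 1) / (2 * t + 1) ^ 3) := by
  unfold phi
  rw [div_pow, ← neg_div, eq_div_iff (pow_ne_zero 3 h5), add_mul, mul_assoc,
    div_mul_cancel₀ _ (pow_ne_zero 3 h5)]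
  ring

/-- case C -/
private theorem caseC {t : ℚ} (h : nn t = 1) (h1 : t ≠ -1) (h5 : 2 * t + 1 ≠ 0) :
    nn (phi t + 1) < nn (t + 1) ∧ nn (phi t) = 1 := by
  obtain ⟨e1, e2⟩ := nn_eq h
  have h2 : nn (2 * t + 1) = 1 := by
    rw [add_comm]
    exact nn_unit h.le
  have h3 : t + 1 ≠ 0 := fun h0 => h1 (by linarith)
  have h4 := nn_pos h3
  have h6 : nn (phi t + 1) < nn (t + 1) := by
    rw [phi_add h5, nn_neg, nn_div, nn_pow, h2, one_pow, div_one, nn_mul, nn_pow]
    have h7 : nn (t - 1) ^ 3 ≤ 1 / 8 := by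
      have := pow_le_pow_left₀ (nn_nonneg _) e1 3
      linarith
    nlinarith
  refine ⟨h6, ?_⟩
  have h8 : phi t = -1 + (phi t + 1) := by ring
  rw [h8, nn_add_eq, nn_neg, nn_one]
  rw [nn_neg, nn_one]
  linarith

theorem phi_good {t : ℚ} (h : Gd t) : Gd (phi t) := by
  obtain ⟨h0, h1, h2, h3, h4⟩ := h
  have h5 : t + 2 ≠ 0 := fun h => h3 (by linarith)
  have h6 : phi t ≠ 0 := by
    unfold phi
    exact mul_ne_zero (neg_ne_zero.2 h0) (pow_ne_zero _ (div_ne_zero h5 h4))
  have h7 : phi t ≠ -1 := by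
    intro h
    have e : phi t + 1 = 0 := by rw [h]; norm_num
    rw [phi_add h4, neg_eq_zero, div_eq_zero_iff] at e
    rcases e with e | e
    · rcases mul_eq_zero.1 e with e | e
      · have := pow_eq_zero_iff (by norm_num) |>.1 e
        exact h2 (by linarith)
      · exact h1 (by linarith)
    · exact h4 (pow_eq_zero_iff (by norm_num) |>.1 e)
  -- the norm of `phi t`
  have tri : (nn t < 1 ∧ nn (phi t) ≤ 1 / 16) ∨ (1 < nn t ∧ 2 < nn (phi t)) ∨
      (nn (phi t) = 1 ∧ nn (phi t + 1) < 1 / 2) := by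
    rcases lt_trichotomy (nn t) 1 with h | h | h
    · exact Or.inl ⟨h, (caseA h h0).2⟩
    · right; right
      have := caseC h h1 h4
      exact ⟨this.2, this.1.trans_le (nn_eq h).2⟩
    · right; left
      exact ⟨h, (nn_gt h).trans_lt (caseB h h4)⟩
  refine ⟨h6, h7, ?_, ?_, ?_⟩
  · intro h
    rw [h] at tri
    have e1 : nn 1 = 1 := nn_one
    have e2 : nn (1 + 1) = 1 / 2 := by
      have : (1 : ℚ) + 1 = 2 := by norm_num
      rw [this, nn_two]
    rw [e1, e2] at tri
    rcases tri with ⟨_, h⟩ | ⟨_, h⟩ | ⟨_, h⟩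
    · linarith
    · linarith
    · linarith
  · intro h
    rw [h] at tri
    have e1 : nn (-2) = 1 / 2 := by rw [nn_neg, nn_two]
    rw [e1] at tri
    rcases tri with ⟨_, h⟩ | ⟨_, h⟩ | ⟨h, _⟩
    · linarith
    · linarith
    · linarith
  · intro h
    have e0 : phi t = -(1 / 2) := by linarith
    rw [e0] at tri
    have e1 : nn (-(1 / 2)) = 2 := by rw [nn_neg, nn_div, nn_one, nn_two]; norm_num
    rw [e1] at tri
    rcases tri with ⟨_, h⟩ | ⟨_, h⟩ | ⟨h, _⟩
    · linarith
    · linarith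
    · linarith

private theorem phi_iter_good {t : ℚ} (h : Gd t) (n : ℕ) : Gd (phi^[n] t) := by
  induction n with
  | zero => exact h
  | succ n ih =>
    rw [Function.iterate_succ_apply']
    exact phi_good ih

theorem phi_inj {t : ℚ} (h : Gd t) : Function.Injective fun n : ℕ => phi^[n] t := by
  have hg := phi_iter_good h
  rcases lt_trichotomy (nn t) 1 with h1 | h1 | h1
  · have h2 : ∀ n, nn (phi^[n] t) < 1 := by
      intro n
      induction n with
      | zero => exact h1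
      | succ n ih =>
        rw [Function.iterate_succ_apply']
        exact (caseA ih (hg n).1).1.trans ih
    have h3 : StrictAnti fun n => nn (phi^[n] t) := by
      refine strictAnti_nat_of_succ_lt fun n => ?_
      show nn (phi^[n + 1] t) < nn (phi^[n] t)
      rw [Function.iterate_succ_apply']
      exact (caseA (h2 n) (hg n).1).1
    intro m n hmn
    exact h3.injective (congrArg nn hmn)
  · have h2 : ∀ n, nn (phi^[n] t) = 1 := by
      intro n
      induction n with
      | zero => exact h1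
      | succ n ih =>
        rw [Function.iterate_succ_apply']
        exact (caseC ih (hg n).2.1 (hg n).2.2.2.2).2
    have h3 : StrictAnti fun n => nn (phi^[n] t + 1) := by
      refine strictAnti_nat_of_succ_lt fun n => ?_
      show nn (phi^[n + 1] t + 1) < nn (phi^[n] t + 1)
      rw [Function.iterate_succ_apply']
      exact (caseC (h2 n) (hg n).2.1 (hg n).2.2.2.2).1
    intro m n hmn
    exact h3.injective (congrArg (fun x => nn (x + 1)) hmn)
  · have h2 : ∀ n, 1 < nn (phi^[n] t) := by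
      intro n
      induction n with
      | zero => exact h1
      | succ n ih =>
        rw [Function.iterate_succ_apply']
        exact ih.trans (caseB ih (hg n).2.2.2.2)
    have h3 : StrictMono fun n => nn (phi^[n] t) := by
      refine strictMono_nat_of_lt_succ fun n => ?_
      show nn (phi^[n] t) < nn (phi^[n + 1] t)
      rw [Function.iterate_succ_apply']
      exact caseB (h2 n) (hg n).2.2.2.2
    intro m n hmn
    exact h3.injective (congrArg nn hmn)

end Pool.Agent.CTW
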