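import Pool.Agent.CTW.Dgb
import Pool.Agent.CTW.Phi
import Pool.Agent.CTW.Ell
import Pool.Agent.CTW.Dec
import Pool.Agent.CTW.Fn

/-!
# CTW module DGC: one general rational point gives a dense set

PROOF of `univ_three`. `p ∈ S` is good (`good_dg`), `¬ Bin` (`not_bin`), so not `Thin` (`exists_l`, `exists_dec`, `bin_of_dec`), so there is an interior point and
`Opn` (`opn_of_int`, `not_cube`); `univ_of_opn`.
PROOF of `step`. `a = d_k q_k³`, `b = d_l q_l³`, `c = - r³ = - (a + b)`; `q' k = q k (b - c)`, `q' l = q l (c - a)`, `q' j = 0` otherwise, `r' = r (a - b) ≠ 0`: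
`a (b - c)³ + b (c - a)³ + c (a - b)³ = 0`. The ratio is `a (a + 2 b)³ / (b (- 2 a - b)³) = phi (a / b)`.
PROOF of `univ_two`. By induction (`phi_good`) there are `q_n` with ratio `phi^[n] t`, all in `S`, with different ratios (`phi_inj`), so with different
`q k / q l`. `of_bin` (`bin_two`, `not_cube`): an interior point with `F ≠ 0`: `opn_of_int`, `univ_of_opn`. `Pieces`: infinitely many points, finitely many spans:
two of them with different ratio in the same span (pigeonhole, `Finite.exists_ne_map_eq_of_infinite`), `univ_of_pieces`.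
-/

set_option autoImplicit false

open Set Topology Filter MvPolynomial
open Pool.Agent.MZ Pool.Agent.QS

namespace Pool.Agent.CTW

variable {n : ℕ} {d : Fin n → ℚ}

theorem univ_three {p : V n} (hp : p ∈ (dg d).S) {k l j : Fin n} (hkl : k ≠ l) (hkj : k ≠ j)
    (hlj : l ≠ j) (hk : d k ≠ 0) (hl : d l ≠ 0) (hj : d j ≠ 0) (hpk : p k ≠ 0) (hpl : p l ≠ 0) :
    (dg d).Z = univ := by
  have hF : (dg d).F p ≠ 0 := Cb.F_ne_of_S hp
  have hpZ : p ∈ (dg d).Z := subset_closure hp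
  have hg : (dg d).Good p := good_dg hF hkl hkj hlj hk hl hj hpk hpl
  have hnt : ¬ (dg d).Thin := by
    intro hT
    obtain ⟨l', hl'⟩ := Cb.exists_l hT hF hpZ hg
    obtain ⟨b, g, hb, hc, hF'⟩ := Cb.exists_dec hF hg hl'
    exact not_bin hkl hkj hlj hk hl hj (Cb.bin_of_dec hT hF hpZ hg hb hc hF')
  unfold Cb.Thin at hnt
  push Not at hnt
  obtain ⟨o, ho, hZ⟩ := hnt
  exact univ_of_opn (Cb.opn_of_int (not_cube hkl hk hl) ho hZ) hpZ hF

/-- the value of the form at a rational point, if there are only two active coordinates -/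
private theorem dgc_F {k l : Fin n} (hkl : k ≠ l) (h2 : ∀ j, d j ≠ 0 → j = k ∨ j = l)
    (q : Fin n → ℚ) :
    (dg d).F (rv q) = ((d k * q k ^ 3 + d l * q l ^ 3 : ℚ) : ℝ) := by
  rw [dg_F]
  have h : ∑ j, (d j : ℝ) * rv q j ^ 3 = ∑ j ∈ {k, l}, (d j : ℝ) * rv q j ^ 3 := by
    symm
    refine Finset.sum_subset (Finset.subset_univ _) fun j _ hj => ?_
    have hj0 : d j = 0 := by
      by_contra hne
      apply hj
      rcases h2 j hne with rfl | rfl
      · simp
      · simp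
    rw [hj0, Rat.cast_zero, zero_mul]
  rw [h, Finset.sum_pair hkl]
  unfold rv
  push_cast
  rfl

theorem step {k l : Fin n} (hkl : k ≠ l) (h2 : ∀ j, d j ≠ 0 → j = k ∨ j = l) (hk : d k ≠ 0)
    (hl : d l ≠ 0) {q : Fin n → ℚ} (hq : rv q ∈ (dg d).S) (hqk : q k ≠ 0) (hql : q l ≠ 0)
    (hg : Gd (d k * q k ^ 3 / (d l * q l ^ 3))) : ∃ q' : Fin n → ℚ, rv q' ∈ (dg d).S ∧
      q' k ≠ 0 ∧ q' l ≠ 0 ∧
      d k * q' k ^ 3 / (d l * q' l ^ 3) = phi (d k * q k ^ 3 / (d l * q l ^ 3)) := by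
  set a : ℚ := d k * q k ^ 3 with ha
  set b : ℚ := d l * q l ^ 3 with hb
  have hb0 : b ≠ 0 := mul_ne_zero hl (pow_ne_zero 3 hql)
  have ha0 : a ≠ 0 := mul_ne_zero hk (pow_ne_zero 3 hqk)
  obtain ⟨-, -, g1, g2, g3⟩ := hg
  have hab : a - b ≠ 0 := by
    intro h
    apply g1
    rw [sub_eq_zero.1 h, div_self hb0]
  have hab2 : a + 2 * b ≠ 0 := by
    intro h
    apply g2
    rw [div_eq_iff hb0]
    linarith
  have hab3 : 2 * a + b ≠ 0 := by
    intro h
    apply g3
    field_simp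
    linarith
  obtain ⟨-, r, ⟨s, rfl⟩, hr0, hFr⟩ := hq
  rw [dgc_F hkl h2] at hFr
  have hs : a + b = s ^ 3 := by
    rw [← ha, ← hb] at hFr
    exact_mod_cast hFr
  have hs0 : s ≠ 0 := by
    intro h
    apply hr0
    rw [h, Rat.cast_zero]
  refine ⟨fun j => if j = k then q k * (a + 2 * b) else if j = l then q l * (-(2 * a + b)) else 0,
    ⟨⟨_, rfl⟩, ((s * (a - b) : ℚ) : ℝ), ⟨_, rfl⟩, ?_, ?_⟩, ?_, ?_, ?_⟩
  · exact_mod_cast mul_ne_zero hs0 hab
  · rw [dgc_F hkl h2, if_pos rfl, if_neg hkl.symm, if_pos rfl]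
    have e : d k * (q k * (a + 2 * b)) ^ 3 + d l * (q l * (-(2 * a + b))) ^ 3 =
        (s * (a - b)) ^ 3 := by
      have e1 : d k * (q k * (a + 2 * b)) ^ 3 + d l * (q l * (-(2 * a + b))) ^ 3 =
          a * (a + 2 * b) ^ 3 - b * (2 * a + b) ^ 3 := by
        rw [ha, hb]
        ring
      rw [e1, mul_pow, ← hs]
      ring
    exact_mod_cast e
  · show (if k = k then q k * (a + 2 * b) else if k = l then q l * (-(2 * a + b)) else 0) ≠ 0
    rw [if_pos rfl]
    exact mul_ne_zero hqk hab2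
  · show (if l = k then q k * (a + 2 * b) else if l = l then q l * (-(2 * a + b)) else 0) ≠ 0
    rw [if_neg hkl.symm, if_pos rfl]
    exact mul_ne_zero hql (neg_ne_zero.2 hab3)
  · show d k * (if k = k then q k * (a + 2 * b) else if k = l then q l * (-(2 * a + b)) else 0) ^ 3
      / (d l * (if l = k then q k * (a + 2 * b) else if l = l then q l * (-(2 * a + b)) else 0) ^ 3)
      = phi (a / b)
    rw [if_pos rfl, if_neg hkl.symm, if_pos rfl]
    have e1 : d k * (q k * (a + 2 * b)) ^ 3 = a * (a + 2 * b) ^ 3 := by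
      rw [ha]
      ring
    have e2 : d l * (q l * (-(2 * a + b))) ^ 3 = -(b * (2 * a + b) ^ 3) := by
      rw [hb]
      ring
    rw [e1, e2]
    unfold phi
    have e3 : a / b + 2 = (a + 2 * b) / b := by field_simp
    have e4 : 2 * (a / b) + 1 = (2 * a + b) / b := by field_simp
    rw [e3, e4, div_div_div_cancel_right₀ hb0]
    field_simp

theorem univ_two {k l : Fin n} (hkl : k ≠ l) (h2 : ∀ j, d j ≠ 0 → j = k ∨ j = l) (hk : d k ≠ 0)
    (hl : d l ≠ 0) {q : Fin n → ℚ} (hq : rv q ∈ (dg d).S) (hqk : q k ≠ 0) (hql : q l ≠ 0)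
    (hg : Gd (d k * q k ^ 3 / (d l * q l ^ 3))) : (dg d).Z = univ := by
  have hgood : ∀ m : ℕ, Gd (phi^[m] (d k * q k ^ 3 / (d l * q l ^ 3))) := by
    intro m
    induction m with
    | zero => exact hg
    | succ m ih =>
      rw [Function.iterate_succ_apply']
      exact phi_good ih
  have hpt : ∀ m : ℕ, ∃ q' : Fin n → ℚ, rv q' ∈ (dg d).S ∧ q' k ≠ 0 ∧ q' l ≠ 0 ∧
      d k * q' k ^ 3 / (d l * q' l ^ 3) = phi^[m] (d k * q k ^ 3 / (d l * q l ^ 3)) := by
    intro m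
    induction m with
    | zero => exact ⟨q, hq, hqk, hql, rfl⟩
    | succ m ih =>
      obtain ⟨q1, h1, h3, h4, h5⟩ := ih
      have hg1 : Gd (d k * q1 k ^ 3 / (d l * q1 l ^ 3)) := by
        rw [h5]
        exact hgood m
      obtain ⟨q', h1', h3', h4', h5'⟩ := step hkl h2 hk hl h1 h3 h4 hg1
      refine ⟨q', h1', h3', h4', ?_⟩
      rw [h5', h5, Function.iterate_succ_apply']
  have hZ : rv q ∈ (dg d).Z := subset_closure hq
  have hF : (dg d).F (rv q) ≠ 0 := Cb.F_ne_of_S hq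
  rcases Cb.of_bin (bin_two h2) (not_cube hkl hk hl) with hP | ⟨o, ho, hoZ⟩
  · obtain ⟨N, Y, -, hS⟩ := hP
    choose Q hQ1 hQ2 hQ3 hQ4 using hpt
    have hsp : ∀ m, ∃ i, rv (Q m) ∈ Submodule.span ℝ (Y i) := by
      intro m
      have h := hQ1 m
      rw [hS] at h
      exact h.2.2
    choose i hi using hsp
    obtain ⟨m, m', hmm, him⟩ := Finite.exists_ne_map_eq_of_infinite i
    refine univ_of_pieces (k := k) (l := l) h2 hS (hQ1 m) (hQ1 m') (hi m) (him ▸ hi m') ?_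
    intro hcon
    have hcon' : Q m k * Q m' l = Q m' k * Q m l := by
      have h : ((Q m k : ℝ)) * (Q m' l : ℝ) = (Q m' k : ℝ) * (Q m l : ℝ) := hcon
      exact_mod_cast h
    apply hmm
    apply phi_inj hg
    show phi^[m] _ = phi^[m'] _
    rw [← hQ4 m, ← hQ4 m']
    rw [div_eq_div_iff (mul_ne_zero hl (pow_ne_zero 3 (hQ3 m)))
      (mul_ne_zero hl (pow_ne_zero 3 (hQ3 m')))]
    have e : (Q m k * Q m' l) ^ 3 = (Q m' k * Q m l) ^ 3 := by rw [hcon']
    linear_combination (d k * d l) * e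
  · exact univ_of_opn (Cb.opn_of_int (not_cube hkl hk hl) ho hoZ) hZ hF

end Pool.Agent.CTW
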