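import Pool.Agent.CTW.Bce
import Pool.Agent.CTW.Bcf
import Pool.Agent.CTW.Ell
import Pool.Agent.CTW.Dec
import Pool.Agent.CTW.Fn
import Pool.Agent.CTW.Spr
import Pool.Agent.CTW.Pcb

/-!
# CTW module DICH: the dichotomy and the uniform dichotomy

PROOF of `dich`. `Cube`, `F x = (l x)³`: if `S = ∅`: `k = 0`. Otherwise `p ∈ S`, `F p = r³`, `l p = r` (`cube_inj`) and `T p p x = (l p)² l x` (compare the
coefficients of `F (p + s x)`), so `l x` is rational for rational `x` and `S` is the set of the rational `x` with `F x ≠ 0`: one piece `Y = {x | IsRat x}`.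
Not `Cube`, `Bin`: `of_bin`, `opn_of_int`. Not `Cube`, not `Bin`: if not `Thin`: `opn_of_int`. If `Thin`: no `p ∈ S` is good (`exists_l`, `exists_dec`,
`bin_of_dec`), so `pieces_of_bad`.
PROOF of `uni`. If `F x = 0` for all rational `x`: `E = ∅`, `S = ∅`. Otherwise let `F p₀ = a₀ ≠ 0`, `p₀` rational. `Cube`: `E = {a₀}`: if `z ∈ (C.tw a).S`,
`F z = a r³` and `l z / l p₀ = T p₀ p₀ z / F p₀ = q` is rational, `F z = a₀ q³`, so `a = a₀ (q / r)³`. Not `Cube`, `Bin`: `bin_uni`, `opn_of_int`. Otherwise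
`bad_classes`: outside finitely many classes every `p ∈ (C.tw a).S` is good, and if `(C.tw a).S ≠ ∅` and not `Opn` then `Thin` (`opn_of_int`) and
`exists_l`, `exists_dec`, `bin_of_dec` give `Bin`. As QTW/Uni.lean.
-/

set_option autoImplicit false

open Set Topology Filter MvPolynomial
open Pool.Agent.MZ Pool.Agent.QS

namespace Pool.Agent.CTW

namespace Cb

variable {m : ℕ} (C : Cb m)

variable {C} in
private theorem dich_T {l : V m →ₗ[ℝ] ℝ} (hl : ∀ x, C.F x = (l x) ^ 3) (p x : V m) :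
    C.T p p x = (l p) ^ 2 * l x := by
  have e1 := C.F_add p x 1 1
  have e2 := C.F_add p x 1 (-1)
  rw [hl, map_add, map_smul, map_smul, smul_eq_mul, smul_eq_mul, hl p, hl x] at e1 e2
  linarith

variable {C} in
private theorem dich_bin (hT : C.Thin) {z : V m} (hz : z ∈ C.S) (hg : C.Good z) : C.Bin := by
  have hF := F_ne_of_S hz
  have hZ : z ∈ C.Z := subset_closure hz
  obtain ⟨l, hl⟩ := exists_l hT hF hZ hg
  obtain ⟨b, g, hb, hc, hd⟩ := exists_dec hF hg hl
  exact bin_of_dec hT hF hZ hg hb hc hd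

theorem dich : C.Pieces ∨ C.Opn := by
  rcases C.S.eq_empty_or_nonempty with hS | ⟨p, hp⟩
  · left
    refine ⟨0, fun i => i.elim0, fun i => i.elim0, ?_⟩
    rw [hS]
    ext x
    simp only [mem_empty_iff_false, false_iff]
    rintro ⟨-, -, i, -⟩
    exact i.elim0
  by_cases hc : C.Cube
  · left
    obtain ⟨l, hl⟩ := hc
    obtain ⟨hpr, r, hr, hr0, hFp⟩ := hp
    have hlp : l p = r := cube_inj (by rw [← hl, hFp])
    have hlQ : ∀ x, IsRat x → IsQ (l x) := by
      intro x hx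
      have h1 := dich_T hl p x
      rw [hlp] at h1
      have h2 : l x = C.T p p x / r ^ 2 := by
        rw [h1, mul_div_cancel_left₀ _ (pow_ne_zero 2 hr0)]
      rw [h2]
      exact (C.rat _ _ _ hpr hpr hx).div (hr.pow 2)
    refine ⟨1, fun _ => {x | IsRat x}, fun _ x hx => hx, ?_⟩
    ext x
    constructor
    · intro hx
      exact ⟨hx.1, F_ne_of_S hx, 0, Submodule.subset_span hx.1⟩
    · rintro ⟨hx, hF, -⟩
      refine ⟨hx, l x, hlQ x hx, ?_, hl x⟩
      intro h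
      apply hF
      rw [hl, h]
      norm_num
  by_cases hb : C.Bin
  · rcases of_bin hb hc with h | ⟨o, h1, h2⟩
    · exact Or.inl h
    · exact Or.inr (opn_of_int hc h1 h2)
  by_cases hT : C.Thin
  · exact Or.inl (pieces_of_bad fun z hz hg => hb (dich_bin hT hz hg))
  · right
    unfold Thin at hT
    push Not at hT
    obtain ⟨o, h1, h2⟩ := hT
    exact opn_of_int hc h1 h2

theorem uni : ∃ E : Finset ℚ, (∀ e ∈ E, e ≠ 0) ∧
    ∀ a : ℚ, a ≠ 0 → (∃ e ∈ E, ∃ r : ℚ, r ≠ 0 ∧ a = e * r ^ 3) ∨ (C.tw a).S = ∅ ∨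
      (C.tw a).Opn := by
  by_cases h0 : ∀ x, IsRat x → C.F x = 0
  · refine ⟨∅, fun e he => absurd he (Finset.notMem_empty e), fun a ha => Or.inr (Or.inl ?_)⟩
    rw [eq_empty_iff_forall_notMem]
    intro x hx
    obtain ⟨hxr, r, -, hr, hF⟩ := (mem_S_tw ha).1 hx
    rw [h0 x hxr] at hF
    have haR : (a : ℝ) ≠ 0 := by exact_mod_cast ha
    exact mul_ne_zero haR (pow_ne_zero 3 hr) hF.symm
  push Not at h0
  obtain ⟨p₀, hp, hp0⟩ := h0
  obtain ⟨a₀, hF⟩ := isQ_F (C := C) hp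
  have ha₀ : a₀ ≠ 0 := by
    rintro rfl
    apply hp0
    rw [hF]
    norm_num
  by_cases hc : C.Cube
  · obtain ⟨l, hl⟩ := hc
    refine ⟨{a₀}, fun e he => by rw [Finset.mem_singleton.1 he]; exact ha₀, fun a ha => ?_⟩
    rcases (C.tw a).S.eq_empty_or_nonempty with hS | ⟨z, hz⟩
    · exact Or.inr (Or.inl hS)
    left
    obtain ⟨hzr, r, ⟨r', rfl⟩, hr, hFz⟩ := (mem_S_tw ha).1 hz
    obtain ⟨q, hq⟩ := (C.rat _ _ _ hp hp hzr).div (isQ_F (C := C) hp)
    have hr' : r' ≠ 0 := by exact_mod_cast hr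
    have hl0 : l p₀ ≠ 0 := by
      intro h
      apply hp0
      rw [hl, h]
      norm_num
    have h1 : l z = q * l p₀ := by
      rw [← hq, dich_T hl p₀ z, hl p₀]
      field_simp
    have h2 : (a : ℝ) * (r' : ℝ) ^ 3 = (a₀ : ℝ) * (q : ℝ) ^ 3 := by
      rw [← hFz, hl z, h1, ← hF, hl p₀]
      ring
    have h3 : a * r' ^ 3 = a₀ * q ^ 3 := by exact_mod_cast h2
    have hq0 : q ≠ 0 := by
      rintro rfl
      rw [zero_pow three_ne_zero, mul_zero] at h3
      exact mul_ne_zero ha (pow_ne_zero 3 hr') h3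
    refine ⟨a₀, Finset.mem_singleton_self _, q / r', div_ne_zero hq0 hr', ?_⟩
    rw [div_pow, mul_div_assoc', ← h3, mul_div_cancel_right₀ _ (pow_ne_zero 3 hr')]
  by_cases hb : C.Bin
  · obtain ⟨E, hE0, hE⟩ := bin_uni hb hc
    refine ⟨E, hE0, fun a ha => ?_⟩
    rcases hE a ha with h | h | ⟨o, h1, h2⟩
    · exact Or.inl h
    · exact Or.inr (Or.inl h)
    · exact Or.inr (Or.inr (opn_of_int (fun h => hc ((cube_tw ha).1 h)) h1 h2))
  · obtain ⟨E, hE0, hE⟩ := bad_classes C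
    refine ⟨E, hE0, fun a ha => ?_⟩
    rcases hE a ha with h | hgood
    · exact Or.inl h
    rcases (C.tw a).S.eq_empty_or_nonempty with hS | ⟨z, hz⟩
    · exact Or.inr (Or.inl hS)
    right; right
    by_contra hop
    have hT : (C.tw a).Thin := fun x hx hZ =>
      hop (opn_of_int (fun h => hc ((cube_tw ha).1 h)) hx hZ)
    exact hb ((bin_tw ha).1 (dich_bin hT hz (hgood z hz)))

end Cb

end Pool.Agent.CTW
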