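import Pool.Agent.CTW.Bas
import Pool.Agent.QS.TyII

/-!
# CTW module FLIN: linear factors

PROOF of `finite_lin`: as `Pool.Agent.QS.Qrt.finite_lin` (QS/TyII.lean): `b` is determined by its values
`b (Pi.single i 1)`; `x - b x • e` is in the kernel of `b`, so `F (x - b x • e) = 0`, and for each `x` the set of the `s` with
`F (x - s • e) = 0` is finite (a polynomial of degree 3 in `s` with leading coefficient `- F e ≠ 0`).
-/

set_option autoImplicit false

open Set Topology Filter MvPolynomial
open Pool.Agent.MZ Pool.Agent.QS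

namespace Pool.Agent.CTW

namespace Cb

variable {m : ℕ} (C : Cb m)

private theorem fl_expand (C : Cb m) (x e : V m) (s : ℝ) :
    C.F (x - s • e) = C.F x - 3 * C.T x x e * s + 3 * C.T x e e * s ^ 2 - C.F e * s ^ 3 := by
  have a1 : C.T x e x = C.T x x e := C.s₂ x e x
  have a2 : C.T e x x = C.T x x e := by rw [C.s₁ e x x, a1]
  have b1 : C.T e x e = C.T x e e := C.s₁ e x e
  have b2 : C.T e e x = C.T x e e := by rw [C.s₂ e e x, b1]
  have hx : x - s • e = x + (-s) • e := by rw [neg_smul, sub_eq_add_neg]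
  rw [hx]
  unfold F
  simp only [map_add, map_smul, LinearMap.add_apply, LinearMap.smul_apply, smul_eq_mul]
  rw [a1, a2, b1, b2]
  ring

private theorem fl_coeff (c0 c1 c2 c3 : ℝ) :
    (Polynomial.C c0 - Polynomial.C c1 * Polynomial.X + Polynomial.C c2 * Polynomial.X ^ 2 -
      Polynomial.C c3 * Polynomial.X ^ 3).coeff 3 = - c3 := by
  simp only [Polynomial.coeff_sub, Polynomial.coeff_add, Polynomial.coeff_C_mul,
    Polynomial.coeff_X_pow, Polynomial.coeff_C, Polynomial.coeff_X]
  norm_num

private theorem fl_fin (C : Cb m) {e : V m} (he : C.F e ≠ 0) (x : V m) :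
    {s : ℝ | C.F (x - s • e) = 0}.Finite := by
  set P : Polynomial ℝ := Polynomial.C (C.F x) - Polynomial.C (3 * C.T x x e) * Polynomial.X +
    Polynomial.C (3 * C.T x e e) * Polynomial.X ^ 2 -
    Polynomial.C (C.F e) * Polynomial.X ^ 3 with hP
  have hP0 : P ≠ 0 := by
    intro h0
    apply he
    have h1 : P.coeff 3 = - C.F e := by
      rw [hP]
      exact fl_coeff _ _ _ _
    rw [h0, Polynomial.coeff_zero] at h1
    linarith
  refine (Polynomial.finite_setOfPred_isRoot hP0).subset ?_
  intro s hs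
  show P.eval s = 0
  have h1 : C.F (x - s • e) = 0 := hs
  rw [fl_expand] at h1
  rw [hP]
  simp only [Polynomial.eval_add, Polynomial.eval_sub, Polynomial.eval_mul, Polynomial.eval_C,
    Polynomial.eval_X, Polynomial.eval_pow]
  exact h1

theorem finite_lin {e : V m} (he : C.F e ≠ 0) :
    {b : V m →ₗ[ℝ] ℝ | b e = 1 ∧ ∀ x, b x = 0 → C.F x = 0}.Finite := by
  have hfin : (Set.pi Set.univ fun i : Fin m =>
      {s : ℝ | C.F ((Pi.single i 1 : V m) - s • e) = 0}).Finite :=
    Set.Finite.pi' (fun i => fl_fin C he (Pi.single i 1)) |>.subset (by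
      intro f hf i
      exact hf i (Set.mem_univ i))
  refine Set.Finite.of_injOn (f := fun b : V m →ₗ[ℝ] ℝ => fun i : Fin m => b (Pi.single i 1)) ?_ ?_ hfin
  · rintro b ⟨hb1, hb2⟩ i _
    show C.F ((Pi.single i 1 : V m) - (b (Pi.single i 1)) • e) = 0
    apply hb2
    rw [map_sub, map_smul, hb1, smul_eq_mul, mul_one, sub_self]
  · intro b _ b' _ hbb
    apply LinearMap.pi_ext'
    intro i
    apply LinearMap.ext_ring
    have h1 := congrFun hbb i
    simpa using h1

end Cb

end Pool.Agent.CTW
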