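import Pool.Agent.CTW.HcD
import Pool.Agent.CTW.Dgc

/-!
# CTW module HCA: dichotomy for the rational points of diagonal cubic cones

PROOF of `dich_cone`. Let `v ∈ RQ d` be not special, `B` the set of the `k` with `y_k ≠ 0`. `∑ y_k = 0`, so `|B| ≠ 1`; if `B = {k, l}` then `y` is
proportional to `e_k - e_l`; so there are three different `k, l, j ∈ B`. Let `d' = - d / d_j` with `d'_j = 0`; `F' = ∑_{i ≠ j} (- d_i / d_j) x_i³`, `F' v = v_j³ ≠ 0`, `v ∈ S`.
If there is a fourth active index `i`: `univ_three` for `k, l, i`. Otherwise `univ_two`: the ratio `t = y_k / y_l` is `Gd`: `t ≠ 0`; `t = -1` gives `y_j = 0`; `t = 1`, `-2`,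
`-1/2` give `y` proportional to `(1, 1, -2)` up to order. So `Z = univ` for `F'`. Let `w ∈ WR d`: `F' w = w_j³`. The map `x ↦ Function.update x j (cr (F' x))` is
continuous, maps `w` to `w` and `S` into `RQ d`, so `w ∈ closure (RQ d)`.
-/

set_option autoImplicit false

open Set Topology Filter MvPolynomial
open Pool.Agent.MZ Pool.Agent.QS

namespace Pool.Agent.CTW

variable {n : ℕ}

/-- the diagonal form solved for the term `j` -/
private def dp (d : Fin n → ℚ) (j : Fin n) (i : Fin n) : ℚ := if i = j then 0 else -d i / d j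

private theorem dp_F {d : Fin n → ℚ} {j : Fin n} (hj : d j ≠ 0) (x : V n) :
    (dg (dp d j)).F x = x j ^ 3 - (∑ k, (d k : ℝ) * x k ^ 3) / d j := by
  have hj' : (d j : ℝ) ≠ 0 := by exact_mod_cast hj
  have h : ∀ k, ((dp d j k : ℚ) : ℝ) * x k ^ 3 =
      (if k = j then x k ^ 3 else 0) - ((d k : ℝ) * x k ^ 3) / d j := by
    intro k
    unfold dp
    split_ifs with hk
    · subst hk
      push_cast
      field_simp
      ring
    · push_cast
      ring
  rw [dg_F, Finset.sum_congr rfl fun k _ => h k, Finset.sum_sub_distrib, Finset.sum_ite_eq',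
    Finset.sum_div, if_pos (Finset.mem_univ j)]

private theorem dp_F_update {d : Fin n → ℚ} {j : Fin n} (x : V n) (c : ℝ) :
    (dg (dp d j)).F (Function.update x j c) = (dg (dp d j)).F x := by
  rw [dg_F, dg_F]
  refine Finset.sum_congr rfl fun k _ => ?_
  by_cases hk : k = j
  · subst hk
    simp [dp]
  · rw [Function.update_of_ne hk]

private theorem cone_of_univ {d : Fin n → ℚ} {j : Fin n} (hj : d j ≠ 0)
    (h : (dg (dp d j)).Z = univ) : closure (RQ d) = WR d := by
  have hj' : (d j : ℝ) ≠ 0 := by exact_mod_cast hj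
  have hcl : IsClosed (WR d) := by
    refine isClosed_eq ?_ continuous_const
    exact continuous_finsetSum _ fun k _ => continuous_const.mul ((continuous_apply k).pow 3)
  refine Subset.antisymm (closure_minimal (fun v hv => hv.2) hcl) ?_
  intro w hw
  have hcont : Continuous fun x : V n => Function.update x j (cr ((dg (dp d j)).F x)) :=
    continuous_id.update j (continuous_cr.comp Cb.continuous_F)
  have hmaps : MapsTo (fun x : V n => Function.update x j (cr ((dg (dp d j)).F x)))
      (dg (dp d j)).S (RQ d) := by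
    intro x hx
    obtain ⟨hxr, r, hr, hr0, hF⟩ := hx
    have e : cr ((dg (dp d j)).F x) = r := cr_eq hF.symm
    have h1 := dp_F (x := Function.update x j (cr ((dg (dp d j)).F x))) hj
    rw [dp_F_update, Function.update_self, cr_pow] at h1
    refine ⟨?_, ?_⟩
    · rw [isRat_iff] at hxr ⊢
      intro i
      by_cases hi : i = j
      · subst hi
        simp only [Function.update_self]
        rw [e]
        exact hr
      · simp only [Function.update_of_ne hi]
        exact hxr i
    · have h2 : (∑ k, (d k : ℝ) * (Function.update x j (cr ((dg (dp d j)).F x)) k) ^ 3) / d j = 0 := by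
        linarith
      rcases div_eq_zero_iff.1 h2 with h3 | h3
      · exact h3
      · exact absurd h3 hj'
  have hwF : (dg (dp d j)).F w = w j ^ 3 := by
    rw [dp_F hj, show (∑ k, (d k : ℝ) * w k ^ 3) = 0 from hw]
    ring
  have hww : Function.update w j (cr ((dg (dp d j)).F w)) = w := by
    rw [hwF, cr_cube, Function.update_eq_self]
  have hwZ : w ∈ closure (dg (dp d j)).S := by
    have h1 : w ∈ (dg (dp d j)).Z := by
      rw [h]
      exact mem_univ w
    exact h1
  have h3 := map_mem_closure hcont hwZ hmaps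
  rw [hww] at h3
  exact h3

private theorem ent0 : ent 0 = 0 := by simp [ent]

private theorem ent1 : ent 1 = 1 := by simp [ent]

private theorem ent2 : ent 2 = -1 := by simp [ent]

private theorem ent3 : ent 3 = -2 := by simp [ent]

/-- a direction supported on three indices -/
private theorem par_three {y : Fin n → ℝ} {k l j : Fin n}
    (h0 : ∀ i, i ≠ k → i ≠ l → i ≠ j → y i = 0) {a b c : Fin 4} {t : ℝ} (hk : y k = t * ent a)
    (hl : y l = t * ent b) (hj : y j = t * ent c) (ha : ent a ≠ 0) :
    ∃ π : Fin n → Fin 4, (∃ k, ent (π k) ≠ 0) ∧ Par π y := by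
  refine ⟨fun i => if i = k then a else if i = l then b else if i = j then c else 0, ⟨k, ?_⟩, ?_⟩
  · simpa using ha
  · have key : ∀ i, y i = t * ent (if i = k then a else if i = l then b else if i = j then c else 0) := by
      intro i
      split_ifs with h1 h2 h3
      · rw [h1, hk]
      · rw [h2, hl]
      · rw [h3, hj]
      · rw [h0 i h1 h2 h3, ent0, mul_zero]
    intro p q
    simp only
    rw [key p, key q]
    ring

theorem dich_cone (d : Fin n → ℚ) : closure (RQ d) = WR d ∨
    ∀ v ∈ RQ d, ∃ π : Fin n → Fin 4, (∃ k, ent (π k) ≠ 0) ∧ Par π (yv d v) := by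
  by_cases hall : ∀ v ∈ RQ d, ∃ π : Fin n → Fin 4, (∃ k, ent (π k) ≠ 0) ∧ Par π (yv d v)
  · exact Or.inr hall
  left
  push Not at hall
  obtain ⟨v, hv, hno⟩ := hall
  have hno' : ¬ ∃ π : Fin n → Fin 4, (∃ k, ent (π k) ≠ 0) ∧ Par π (yv d v) := by
    rintro ⟨π, h1, h2⟩
    exact hno π h1 h2
  clear hno
  have hsum : ∑ k, yv d v k = 0 := hv.2
  -- the case of no terms
  by_cases hn : n = 0
  · subst hn
    ext w
    have : w = v := Subsingleton.elim _ _
    rw [this]
    exact ⟨fun _ => hv.2, fun _ => subset_closure hv⟩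
  -- a first active index
  have hk : ∃ k, yv d v k ≠ 0 := by
    by_contra h
    push Not at h
    apply hno'
    refine ⟨fun _ => 1, ⟨⟨0, Nat.pos_of_ne_zero hn⟩, ?_⟩, ?_⟩
    · rw [ent1]; norm_num
    · intro k l
      rw [h k, h l]
  obtain ⟨k, hk⟩ := hk
  have hl : ∃ l, l ≠ k ∧ yv d v l ≠ 0 := by
    by_contra h
    push Not at h
    apply hk
    rw [Finset.sum_eq_single k (fun b _ hb => h b hb) (fun h => absurd (Finset.mem_univ k) h)]
      at hsum
    exact hsum
  obtain ⟨l, hlk, hl⟩ := hl
  have hsplit : ∑ i, yv d v i = yv d v k + yv d v l +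
      ∑ i ∈ (Finset.univ.erase k).erase l, yv d v i := by
    rw [← Finset.add_sum_erase _ _ (Finset.mem_univ k),
      ← Finset.add_sum_erase _ _ (Finset.mem_erase.2 ⟨hlk, Finset.mem_univ l⟩)]
    ring
  have hj : ∃ j, j ≠ k ∧ j ≠ l ∧ yv d v j ≠ 0 := by
    by_contra h
    push Not at h
    apply hno'
    have h0 : ∑ i ∈ (Finset.univ.erase k).erase l, yv d v i = 0 := by
      refine Finset.sum_eq_zero fun i hi => ?_
      rw [Finset.mem_erase, Finset.mem_erase] at hi
      exact h i hi.2.1 hi.1
    rw [hsum, h0] at hsplit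
    have key : ∀ i, yv d v i = yv d v k * ent (if i = k then 1 else if i = l then 2 else 0) := by
      intro i
      split_ifs with h1 h2
      · rw [h1, ent1, mul_one]
      · rw [h2, ent2]; linarith
      · rw [h i h1 h2, ent0, mul_zero]
    refine ⟨fun i => if i = k then 1 else if i = l then 2 else 0, ⟨k, ?_⟩, ?_⟩
    · simp [ent1]
    · intro p q
      simp only
      rw [key p, key q]
      ring
  obtain ⟨j, hjk, hjl, hj⟩ := hj
  have act : ∀ i, yv d v i ≠ 0 → d i ≠ 0 ∧ v i ≠ 0 := by
    intro i hi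
    constructor
    · intro h
      apply hi
      rw [yv, h]; simp
    · intro h
      apply hi
      rw [yv, h]; simp
  obtain ⟨hdk, hvk⟩ := act k hk
  obtain ⟨hdl, hvl⟩ := act l hl
  obtain ⟨hdj, hvj⟩ := act j hj
  have hdp : ∀ i, i ≠ j → d i ≠ 0 → dp d j i ≠ 0 := by
    intro i hi h
    rw [dp, if_neg hi]
    exact div_ne_zero (neg_ne_zero.2 h) hdj
  have hvF : (dg (dp d j)).F v = v j ^ 3 := by
    rw [dp_F hdj, show (∑ k, (d k : ℝ) * v k ^ 3) = 0 from hv.2]
    ring
  have hvS : v ∈ (dg (dp d j)).S := by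
    refine ⟨hv.1, v j, ?_, hvj, hvF⟩
    exact (isRat_iff.1 hv.1) j
  apply cone_of_univ hdj
  by_cases h4 : ∃ i, i ≠ k ∧ i ≠ l ∧ i ≠ j ∧ d i ≠ 0
  · obtain ⟨i, hik, hil, hij, hdi⟩ := h4
    exact univ_three hvS hlk.symm hik.symm hil.symm (hdp k hjk.symm hdk) (hdp l hjl.symm hdl)
      (hdp i hij hdi) hvk hvl
  push Not at h4
  have h0 : ∀ i, i ≠ k → i ≠ l → i ≠ j → yv d v i = 0 := by
    intro i h1 h2 h3
    rw [yv, h4 i h1 h2 h3]; simp
  have hsum3 : yv d v k + yv d v l + yv d v j = 0 := by
    have h1 : ∑ i ∈ (Finset.univ.erase k).erase l, yv d v i = yv d v j := by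
      refine Finset.sum_eq_single j (fun b hb hbj => ?_) (fun h => ?_)
      · rw [Finset.mem_erase, Finset.mem_erase] at hb
        exact h0 b hb.2.1 hb.1 hbj
      · exact absurd (Finset.mem_erase.2 ⟨hjl, Finset.mem_erase.2 ⟨hjk, Finset.mem_univ j⟩⟩) h
    rw [hsum, h1] at hsplit
    linarith
  obtain ⟨q, hq⟩ := hv.1
  subst hq
  have hyq : ∀ i, yv d (rv q) i = ((d i * q i ^ 3 : ℚ) : ℝ) := by
    intro i
    simp [yv, rv]
  have hqk : q k ≠ 0 := fun h => hvk (by simp [rv, h])
  have hql : q l ≠ 0 := fun h => hvl (by simp [rv, h])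
  obtain ⟨a, ha⟩ : ∃ a, d k * q k ^ 3 = a := ⟨_, rfl⟩
  obtain ⟨b, hb⟩ : ∃ b, d l * q l ^ 3 = b := ⟨_, rfl⟩
  obtain ⟨c, hc⟩ : ∃ c, d j * q j ^ 3 = c := ⟨_, rfl⟩
  have ha' : yv d (rv q) k = (a : ℝ) := by rw [hyq, ha]
  have hb' : yv d (rv q) l = (b : ℝ) := by rw [hyq, hb]
  have hc' : yv d (rv q) j = (c : ℝ) := by rw [hyq, hc]
  have ha0 : a ≠ 0 := by
    rintro rfl
    exact hk (by rw [ha']; simp)
  have hb0 : b ≠ 0 := by
    rintro rfl
    exact hl (by rw [hb']; simp)
  have hc0 : c ≠ 0 := by
    rintro rfl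
    exact hj (by rw [hc']; simp)
  have habc : a + b + c = 0 := by
    rw [ha', hb', hc'] at hsum3
    exact_mod_cast hsum3
  have hratio : dp d j k * q k ^ 3 / (dp d j l * q l ^ 3) = a / b := by
    rw [dp, dp, if_neg hjk.symm, if_neg hjl.symm, ← ha, ← hb]
    field_simp
  have hGd : Gd (a / b) := by
    refine ⟨div_ne_zero ha0 hb0, ?_, ?_, ?_, ?_⟩
    · intro h
      rw [div_eq_iff hb0] at h
      apply hc0
      linarith
    · intro h
      rw [div_eq_iff hb0, one_mul] at h
      apply hno'
      refine par_three h0 (a := 1) (b := 1) (c := 3) (t := (a : ℝ)) ?_ ?_ ?_ ?_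
      · rw [ha', ent1, mul_one]
      · rw [hb', ent1, mul_one, h]
      · rw [hc', ent3]
        have : c = a * (-2) := by linarith
        rw [this]; push_cast; ring
      · rw [ent1]; norm_num
    · intro h
      rw [div_eq_iff hb0] at h
      apply hno'
      refine par_three h0 (a := 3) (b := 1) (c := 1) (t := (b : ℝ)) ?_ ?_ ?_ ?_
      · rw [ha', ent3, h]; push_cast; ring
      · rw [hb', ent1, mul_one]
      · rw [hc', ent1, mul_one]
        have : c = b := by linarith
        rw [this]
      · rw [ent3]; norm_num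
    · intro h
      have h' : b = -2 * a := by
        field_simp at h
        linarith
      apply hno'
      refine par_three h0 (a := 1) (b := 3) (c := 1) (t := (a : ℝ)) ?_ ?_ ?_ ?_
      · rw [ha', ent1, mul_one]
      · rw [hb', ent3, h']; push_cast; ring
      · rw [hc', ent1, mul_one]
        have : c = a := by linarith
        rw [this]
      · rw [ent1]; norm_num
  refine univ_two (k := k) (l := l) hlk.symm ?_ (hdp k hjk.symm hdk) (hdp l hjl.symm hdl) hvS hqk
    hql ?_
  · intro i hi
    by_contra h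
    push Not at h
    have hij : i ≠ j := by
      rintro rfl
      apply hi
      rw [dp, if_pos rfl]
    apply hi
    rw [dp, if_neg hij, h4 i h.1 h.2 hij]
    simp
  · rw [hratio]
    exact hGd

end Pool.Agent.CTW
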