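import Pool.Agent.CTW.HcD

/-!
# CTW module HCB: closure of the rational points in the special case, and slices

PROOF of `closure_spec`. `⊆`: the right side is closed (finite union of closed sets) and contains `RQ d`: for `v ∈ RQ d` special with direction `π` and `yv d v ≠ 0`,
`π` is available. `⊇`: `yv d v = 0`: `v_k = 0` for `d_k ≠ 0`; approximate the other coordinates. `π` available by `v⁰`: `yv d v⁰ = μ⁰ π` with `μ⁰ ≠ 0`,
`yv d v = μ π`, `v_k = cr (μ / μ⁰) v⁰_k` for `d_k ≠ 0`: approximate `cr (μ / μ⁰)` and the inactive coordinates by rational numbers.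
`slice`: `hx 1 v ∈ closure (RQ d)` iff `v` is in the closure of the rational `w` with `hx 1 w ∈ RQ d` (divide by the first coordinate, as
`mem_closure_SQ` in CTW/Aff.lean).
-/

set_option autoImplicit false

open Set Topology Filter MvPolynomial
open Pool.Agent.MZ Pool.Agent.QS

namespace Pool.Agent.CTW

variable {n : ℕ}

private theorem hcb_dense : Dense {s : ℝ | IsQ s} := by
  have h : {s : ℝ | IsQ s} = range ((↑) : ℚ → ℝ) := by
    ext s
    constructor
    · rintro ⟨r, rfl⟩
      exact ⟨r, rfl⟩
    · rintro ⟨r, rfl⟩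
      exact ⟨r, rfl⟩
  rw [h]
  exact Rat.denseRange_cast

/-- points which are a real multiple of a rational zero in the active coordinates -/
private theorem hcb_mem (d : Fin n → ℚ) {v₀ : V n} (h₀ : v₀ ∈ RQ d) (t : ℝ) (v : V n)
    (h : ∀ k, d k ≠ 0 → v k = t * v₀ k) : v ∈ closure (RQ d) := by
  classical
  set f : ℝ → V n → V n := fun s w k => if d k = 0 then w k else s * v₀ k with hf
  have hc : Continuous (Function.uncurry f) := by
    refine continuous_pi fun k => ?_
    by_cases hk : d k = 0
    · have e : (fun z : ℝ × V n => Function.uncurry f z k) = fun z => z.2 k := by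
        funext z
        simp [hf, Function.uncurry, hk]
      rw [e]
      exact (continuous_apply k).comp continuous_snd
    · have e : (fun z : ℝ × V n => Function.uncurry f z k) = fun z => z.1 * v₀ k := by
        funext z
        simp [hf, Function.uncurry, hk]
      rw [e]
      exact continuous_fst.mul continuous_const
  have hv : f t v = v := by
    funext k
    by_cases hk : d k = 0
    · simp [hf, hk]
    · simp [hf, hk, h k hk]
  rw [← hv]
  refine map_mem_closure₂ hc (hcb_dense t) (dense_isRat v) ?_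
  intro s hs w hw
  have hs : IsQ s := hs
  have hw : IsRat w := hw
  refine ⟨?_, ?_⟩
  · rw [isRat_iff] at hw ⊢
    intro k
    by_cases hk : d k = 0
    · simp only [hf, hk, if_true]
      exact hw k
    · simp only [hf, hk, if_false]
      exact hs.mul (isRat_iff.1 h₀.1 k)
  · have e : ∀ k, (d k : ℝ) * f s w k ^ 3 = s ^ 3 * ((d k : ℝ) * v₀ k ^ 3) := by
      intro k
      by_cases hk : d k = 0
      · simp [hk]
      · simp only [hf, hk, if_false]
        ring
    rw [Finset.sum_congr rfl fun k _ => e k, ← Finset.mul_sum, h₀.2, mul_zero]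

private theorem hcb_cont (d : Fin n → ℚ) (k : Fin n) : Continuous fun v : V n => yv d v k :=
  continuous_const.mul ((continuous_apply k).pow 3)

theorem closure_spec (d : Fin n → ℚ) (h : ∀ v ∈ RQ d, ∃ π : Fin n → Fin 4,
    (∃ k, ent (π k) ≠ 0) ∧ Par π (yv d v)) :
    closure (RQ d) = {v | yv d v = 0 ∨ ∃ π, Av d π ∧ Par π (yv d v)} := by
  apply Subset.antisymm
  · have hcl : IsClosed {v : V n | yv d v = 0 ∨ ∃ π, Av d π ∧ Par π (yv d v)} := by
      have e : {v : V n | yv d v = 0 ∨ ∃ π, Av d π ∧ Par π (yv d v)} =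
          {v : V n | yv d v = 0} ∪ ⋃ π : Fin n → Fin 4, {v : V n | Av d π ∧ Par π (yv d v)} := by
        ext v
        simp only [mem_union, mem_iUnion, mem_ofPred_eq]
      rw [e]
      refine IsClosed.union ?_ (isClosed_iUnion_of_finite fun π => ?_)
      · exact isClosed_eq (continuous_pi fun k => hcb_cont d k) continuous_const
      · by_cases hA : Av d π
        · have e2 : {v : V n | Av d π ∧ Par π (yv d v)} =
              ⋂ k, ⋂ l, {v : V n | ent (π l) * yv d v k = ent (π k) * yv d v l} := by
            ext v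
            simp only [mem_iInter, mem_ofPred_eq, Par, hA, true_and]
          rw [e2]
          exact isClosed_iInter fun k => isClosed_iInter fun l =>
            isClosed_eq (continuous_const.mul (hcb_cont d k)) (continuous_const.mul (hcb_cont d l))
        · have e2 : {v : V n | Av d π ∧ Par π (yv d v)} = ∅ := by
            ext v
            simp [hA]
          rw [e2]
          exact isClosed_empty
    refine closure_minimal ?_ hcl
    intro v hv
    obtain ⟨π, h1, h2⟩ := h v hv
    by_cases h0 : yv d v = 0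
    · exact Or.inl h0
    · exact Or.inr ⟨π, ⟨v, hv, h0, h1, h2⟩, h2⟩
  · rintro v (h0 | ⟨π, ⟨v₀, h1, h2, ⟨k₀, h3⟩, h4⟩, h5⟩)
    · refine hcb_mem d (v₀ := 0) ⟨IsRat.zero, by simp⟩ 0 v fun k hk => ?_
      have h1 := congrFun h0 k
      simp only [yv, Pi.zero_apply, mul_eq_zero, pow_eq_zero_iff, ne_eq, OfNat.ofNat_ne_zero,
        not_false_eq_true] at h1
      rcases h1 with h1 | h1
      · exact absurd (by exact_mod_cast h1) hk
      · rw [h1, zero_mul]
    · -- the factors
      have f1 : ∀ k, yv d v₀ k = yv d v₀ k₀ / ent (π k₀) * ent (π k) := by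
        intro k
        have := h4 k k₀
        field_simp
        linarith
      have f2 : ∀ k, yv d v k = yv d v k₀ / ent (π k₀) * ent (π k) := by
        intro k
        have := h5 k k₀
        field_simp
        linarith
      set μ₀ := yv d v₀ k₀ / ent (π k₀) with hμ₀
      set μ := yv d v k₀ / ent (π k₀) with hμ
      have hμ0 : μ₀ ≠ 0 := by
        intro h0
        apply h2
        funext k
        rw [f1 k, h0, zero_mul]
        rfl
      refine hcb_mem d h1 (cr (μ / μ₀)) v fun k hk => ?_
      have hk' : (d k : ℝ) ≠ 0 := by exact_mod_cast hk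
      apply cube_inj
      rw [mul_pow, cr_pow]
      have g1 := f1 k
      have g2 := f2 k
      simp only [yv] at g1 g2
      have g3 : (d k : ℝ) * v k ^ 3 = (d k : ℝ) * (μ / μ₀ * v₀ k ^ 3) := by
        rw [g2]
        have : (d k : ℝ) * (μ / μ₀ * v₀ k ^ 3) = μ / μ₀ * ((d k : ℝ) * v₀ k ^ 3) := by ring
        rw [this, g1]
        field_simp
      exact mul_left_cancel₀ hk' g3

theorem slice (d : Fin (n + 1) → ℚ) (v : V n) :
    v ∈ closure {w : V n | hx 1 w ∈ RQ d} ↔ hx 1 v ∈ closure (RQ d) := by
  constructor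
  · intro h
    exact map_mem_closure (continuous_hx 1) h fun z hz => hz
  · intro h
    have h0 : (hx 1 v : V (n + 1)) 0 = 1 := rfl
    have ho : IsOpen {w : V (n + 1) | w 0 ≠ 0} :=
      isOpen_ne_fun (continuous_apply 0) continuous_const
    have h1 : hx 1 v ∈ closure ({w : V (n + 1) | w 0 ≠ 0} ∩ RQ d) :=
      ho.inter_closure ⟨by show (hx 1 v : V (n + 1)) 0 ≠ 0; rw [h0]; exact one_ne_zero, h⟩
    have hc : ContinuousAt (fun w : V (n + 1) => fun i : Fin n => w i.succ / w 0) (hx 1 v) := by
      refine continuousAt_pi.2 fun i => ?_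
      refine ContinuousAt.div (continuous_apply i.succ).continuousAt
        (continuous_apply (0 : Fin (n + 1))).continuousAt ?_
      rw [h0]
      exact one_ne_zero
    have h2 := mem_closure_image hc h1
    have h3 : (fun i : Fin n => (hx 1 v : V (n + 1)) i.succ / (hx 1 v : V (n + 1)) 0) = v := by
      funext i
      rw [h0, div_one]
      rfl
    rw [h3] at h2
    refine closure_mono ?_ h2
    rintro _ ⟨w, ⟨hw0, hw⟩, rfl⟩
    have hw0 : w 0 ≠ 0 := hw0
    have h4 : hx 1 (fun i : Fin n => w i.succ / w 0) = (w 0)⁻¹ • w := by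
      funext i
      refine Fin.cases ?_ (fun i => ?_) i
      · show (1 : ℝ) = (w 0)⁻¹ * w 0
        rw [inv_mul_cancel₀ hw0]
      · show w i.succ / w 0 = (w 0)⁻¹ * w i.succ
        rw [div_eq_inv_mul]
    show hx 1 (fun i : Fin n => w i.succ / w 0) ∈ RQ d
    rw [h4]
    refine ⟨IsRat.smul (isRat_iff.1 hw.1 0).inv hw.1, ?_⟩
    have h5 : ∀ k, (d k : ℝ) * ((w 0)⁻¹ • w) k ^ 3 = ((w 0)⁻¹) ^ 3 * ((d k : ℝ) * w k ^ 3) := by
      intro k
      rw [Pi.smul_apply, smul_eq_mul]
      ring
    rw [Finset.sum_congr rfl fun k _ => h5 k, ← Finset.mul_sum, hw.2, mul_zero]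

end Pool.Agent.CTW
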