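import Pool.Agent.CTW.Bas

/-!
# CTW module HCD: definitions for the diagonal cubic cones

`RQ d` is the set of the rational zeros of `∑ d_k v_k³`, `WR d` the set of the real zeros, `yv d v = (d_k v_k³)_k`. `Par π y`: `y` is proportional to `π`. The
special directions are the vectors `π` with entries `0, 1, -1, -2`.
-/

set_option autoImplicit false

open Set Topology Filter MvPolynomial
open Pool.Agent.MZ Pool.Agent.QS

namespace Pool.Agent.CTW

variable {n : ℕ}

/-- rational zeros of the diagonal form -/
def RQ (d : Fin n → ℚ) : Set (V n) := {v | IsRat v ∧ ∑ k, (d k : ℝ) * v k ^ 3 = 0}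

/-- real zeros of the diagonal form -/
def WR (d : Fin n → ℚ) : Set (V n) := {v | ∑ k, (d k : ℝ) * v k ^ 3 = 0}

/-- entries of the special directions -/
def ent (i : Fin 4) : ℝ := if i = 0 then 0 else if i = 1 then 1 else if i = 2 then -1 else -2

/-- `y` is proportional to the special direction `π` -/
def Par (π : Fin n → Fin 4) (y : Fin n → ℝ) : Prop := ∀ k l, ent (π l) * y k = ent (π k) * y l

/-- the terms -/
def yv (d : Fin n → ℚ) (v : V n) (k : Fin n) : ℝ := (d k : ℝ) * v k ^ 3

/-- the special direction `π` is the direction of a rational zero -/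
def Av (d : Fin n → ℚ) (π : Fin n → Fin 4) : Prop :=
  ∃ v ∈ RQ d, yv d v ≠ 0 ∧ (∃ k, ent (π k) ≠ 0) ∧ Par π (yv d v)

end Pool.Agent.CTW
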