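import Pool.Agent.CTW.Glu
import Pool.Agent.CTW.HcA
import Pool.Agent.CTW.HcB

/-!
# CTW module QE: rational points on bundles of diagonal cubic hypersurfaces

`X`: `∑_{k : e k = q} c k ∏_i f_i(x_i)^(al k i) u_k³ = c' q ∏_i f_i(x_i)^(be q i)`, with polynomials `f_i` of degree at most 3 in disjoint sets of
variables and arbitrary rational `c k`, `c' q`. This module: the points with all `f_i(x_i) ≠ 0`.
-/

set_option autoImplicit false

open Set Topology Filter MvPolynomial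

namespace Pool.Agent.CTW

open Pool.Agent.MZ Pool.Agent.QS Pool.Agent.QTW

variable {r s g : ℕ} {N : Fin r → ℕ}

/-- the data of a cubic bundle -/
structure Qb (r s g : ℕ) (N : Fin r → ℕ) where
  f : ∀ i, MvPolynomial (Fin (N i)) ℚ
  deg : ∀ i, (f i).totalDegree ≤ 3
  e : Fin s → Fin g
  c : Fin s → ℚ
  c' : Fin g → ℚ
  al : Fin s → Fin r → ℕ
  be : Fin g → Fin r → ℕ

namespace Qb

variable (B : Qb r s g N)

/-- value of `f i` at the point with blocks `x` -/
noncomputable def F (x : (Σ i, Fin (N i)) → ℝ) (i : Fin r) : ℝ := aeval (blk x i) (B.f i)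

/-- the terms of the equation `q` -/
noncomputable def tm (x : (Σ i, Fin (N i)) → ℝ) (u : Fin s → ℝ) (q : Fin g) :
    Fin (s + 1) → ℝ :=
  Fin.cons (-((B.c' q : ℝ) * ∏ i, B.F x i ^ B.be q i))
    (fun k => if B.e k = q then (B.c k : ℝ) * (∏ i, B.F x i ^ B.al k i) * u k ^ 3 else 0)

/-- the equations -/
def Eq (x : (Σ i, Fin (N i)) → ℝ) (u : Fin s → ℝ) : Prop := ∀ q, ∑ k, B.tm x u q k = 0

/-- the rational points with all `f i` not zero -/
def XQ : Set ((Σ i, Fin (N i)) ⊕ Fin s → ℝ) :=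
  {z | (fun p => z (Sum.inl p)) ∈ Om B.f ∧
    B.Eq (fun p => z (Sum.inl p)) (fun k => z (Sum.inr k)) ∧
    ∃ y : (Σ i, Fin (N i)) ⊕ Fin s → ℚ, z = fun p => (y p : ℝ)}

/-- the diagonal forms of the class `a` -/
def dd (a : Fin r → ℚ) (q : Fin g) : Fin (s + 1) → ℚ :=
  Fin.cons (-(B.c' q * ∏ i, a i ^ B.be q i))
    (fun k => if B.e k = q then B.c k * ∏ i, a i ^ B.al k i else 0)

/-- the type of the class `a` -/
def ty (a : Fin r → ℚ) (q : Fin g) : Prop × Set (Fin (s + 1) → Fin 4) :=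
  (closure (RQ (B.dd a q)) = WR (B.dd a q), {π | Av (B.dd a q) π})

/-- the condition on the fibres given by the type `τ` -/
def Pt (τ : Fin g → Prop × Set (Fin (s + 1) → Fin 4)) (x : (Σ i, Fin (N i)) → ℝ)
    (u : Fin s → ℝ) : Prop :=
  ∀ q, (τ q).1 ∨ B.tm x u q = 0 ∨ ∃ π ∈ (τ q).2, Par π (B.tm x u q)

theorem continuous_F (i : Fin r) : Continuous fun x => B.F x i :=
  (PolyR.of_aeval (B.f i)).continuous.comp (continuous_blk i)

theorem continuous_tm (q : Fin g) (k : Fin (s + 1)) :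
    Continuous fun z : (Σ i, Fin (N i)) ⊕ Fin s → ℝ =>
      B.tm (fun p => z (Sum.inl p)) (fun k => z (Sum.inr k)) q k := by
  have hF : ∀ i, Continuous fun z : (Σ i, Fin (N i)) ⊕ Fin s → ℝ =>
      B.F (fun p => z (Sum.inl p)) i := fun i =>
    (B.continuous_F i).comp (continuous_pi fun p => continuous_apply _)
  refine Fin.cases ?_ (fun k => ?_) k
  · show Continuous fun z : (Σ i, Fin (N i)) ⊕ Fin s → ℝ =>
      -((B.c' q : ℝ) * ∏ i, B.F (fun p => z (Sum.inl p)) i ^ B.be q i)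
    exact (continuous_const.mul (continuous_finsetProd _ fun i _ => (hF i).pow _)).neg
  · show Continuous fun z : (Σ i, Fin (N i)) ⊕ Fin s → ℝ => if B.e k = q then
      (B.c k : ℝ) * (∏ i, B.F (fun p => z (Sum.inl p)) i ^ B.al k i) * z (Sum.inr k) ^ 3 else 0
    split_ifs
    · exact (continuous_const.mul (continuous_finsetProd _ fun i _ => (hF i).pow _)).mul
        ((continuous_apply _).pow 3)
    · exact continuous_const

theorem eq_closed : IsClosed {z : (Σ i, Fin (N i)) ⊕ Fin s → ℝ |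
    B.Eq (fun p => z (Sum.inl p)) fun k => z (Sum.inr k)} := by
  have h : {z : (Σ i, Fin (N i)) ⊕ Fin s → ℝ |
      B.Eq (fun p => z (Sum.inl p)) fun k => z (Sum.inr k)} = ⋂ q, {z | ∑ k,
      B.tm (fun p => z (Sum.inl p)) (fun k => z (Sum.inr k)) q k = 0} := by
    ext z
    simp only [Eq, mem_ofPred_eq, mem_iInter]
  rw [h]
  exact isClosed_iInter fun q => isClosed_eq
    (continuous_finsetSum _ fun k _ => B.continuous_tm q k) continuous_const

theorem pt_eq (τ : Fin g → Prop × Set (Fin (s + 1) → Fin 4)) :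
    {z : (Σ i, Fin (N i)) ⊕ Fin s → ℝ |
      B.Pt τ (fun p => z (Sum.inl p)) fun k => z (Sum.inr k)} =
    ⋂ q, ({z | (τ q).1} ∪ ((⋂ k, {z | B.tm (fun p => z (Sum.inl p))
        (fun k => z (Sum.inr k)) q k = 0}) ∪
      ⋃ π : (τ q).2, ⋂ k, ⋂ l, {z |
        ent (π.1 l) * B.tm (fun p => z (Sum.inl p)) (fun k => z (Sum.inr k)) q k -
        ent (π.1 k) * B.tm (fun p => z (Sum.inl p)) (fun k => z (Sum.inr k)) q l = 0})) := by
  ext z
  simp only [Pt, Par, mem_ofPred_eq, mem_iInter, mem_union, mem_iUnion, sub_eq_zero, funext_iff,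
    Pi.zero_apply, Subtype.exists, exists_prop]

theorem pt_closed (τ : Fin g → Prop × Set (Fin (s + 1) → Fin 4)) :
    IsClosed {z : (Σ i, Fin (N i)) ⊕ Fin s → ℝ |
      B.Pt τ (fun p => z (Sum.inl p)) fun k => z (Sum.inr k)} := by
  rw [B.pt_eq τ]
  refine isClosed_iInter fun q => ?_
  refine IsClosed.union ?_ (IsClosed.union ?_ ?_)
  · exact isClosed_const
  · exact isClosed_iInter fun k => isClosed_eq (B.continuous_tm q k) continuous_const
  · refine isClosed_iUnion_of_finite fun π => isClosed_iInter fun k => isClosed_iInter fun l => ?_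
    exact isClosed_eq ((continuous_const.mul (B.continuous_tm q k)).sub
      (continuous_const.mul (B.continuous_tm q l))) continuous_const

/-- classes for which the fibres have rational points -/
def Dg : Set (Fin r → ℚ) :=
  {a | (∀ i, a i ≠ 0) ∧ ∃ p : Fin s → ℚ, ∀ q, hx 1 (rv p) ∈ RQ (B.dd a q)}

/-- the terms over a point with the values `a` -/
theorem tm_val {a : Fin r → ℚ} {x : (Σ i, Fin (N i)) → ℝ} (h : ∀ i, B.F x i = a i)
    (u : Fin s → ℝ) (q : Fin g) : B.tm x u q = yv (B.dd a q) (hx 1 u) := by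
  funext k
  refine Fin.cases ?_ (fun k => ?_) k
  · show -((B.c' q : ℝ) * ∏ i, B.F x i ^ B.be q i) =
      ((-(B.c' q * ∏ i, a i ^ B.be q i) : ℚ) : ℝ) * (1 : ℝ) ^ 3
    simp only [h]
    push_cast
    ring
  · show (if B.e k = q then (B.c k : ℝ) * (∏ i, B.F x i ^ B.al k i) * u k ^ 3 else 0) =
      ((if B.e k = q then B.c k * ∏ i, a i ^ B.al k i else 0 : ℚ) : ℝ) * u k ^ 3
    split_ifs
    · simp only [h]
      push_cast
      ring
    · push_cast
      ring

/-- the base point of a rational point is in a good class, and the fibre is as the type says -/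
theorem XQ_base {z : (Σ i, Fin (N i)) ⊕ Fin s → ℝ} (hz : z ∈ B.XQ) :
    ∃ a ∈ B.Dg, (fun p => z (Sum.inl p)) ∈ TT B.f a ∧
      B.Pt (B.ty a) (fun p => z (Sum.inl p)) fun k => z (Sum.inr k) := by
  obtain ⟨h1, h2, y, rfl⟩ := hz
  have hF : ∀ i, B.F (fun p => (y (Sum.inl p) : ℝ)) i =
      ((eval (fun j => y (Sum.inl ⟨i, j⟩)) (B.f i) : ℚ) : ℝ) := by
    intro i
    have : blk (fun p => (y (Sum.inl p) : ℝ)) i = rv fun j => y (Sum.inl ⟨i, j⟩) := rfl
    rw [F, this, aeval_rv]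
  have h0 : ∀ i, eval (fun j => y (Sum.inl ⟨i, j⟩)) (B.f i) ≠ 0 := by
    intro i h
    apply h1 i
    show B.F (fun p => (y (Sum.inl p) : ℝ)) i = 0
    rw [hF, h, Rat.cast_zero]
  have hR : ∀ q, hx 1 (rv fun k => y (Sum.inr k)) ∈
      RQ (B.dd (fun i => eval (fun j => y (Sum.inl ⟨i, j⟩)) (B.f i)) q) := by
    intro q
    refine ⟨isRat_hx.2 ⟨⟨1, by rw [Rat.cast_one]⟩, ⟨_, rfl⟩⟩, ?_⟩
    have h3 := h2 q
    rw [B.tm_val hF] at h3
    exact h3
  refine ⟨fun i => eval (fun j => y (Sum.inl ⟨i, j⟩)) (B.f i), ⟨h0, fun k => y (Sum.inr k), hR⟩,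
    fun i => ⟨1, fun j => y (Sum.inl ⟨i, j⟩), one_ne_zero, by ring, rfl⟩, fun q => ?_⟩
  rw [B.tm_val hF]
  by_cases hy0 : yv (B.dd (fun i => eval (fun j => y (Sum.inl ⟨i, j⟩)) (B.f i)) q)
      (hx 1 fun k => ((y (Sum.inr k) : ℚ) : ℝ)) = 0
  · exact Or.inr (Or.inl hy0)
  rcases dich_cone (B.dd (fun i => eval (fun j => y (Sum.inl ⟨i, j⟩)) (B.f i)) q) with h | h
  · exact Or.inl h
  · obtain ⟨π, hπ, hP⟩ := h _ (hR q)
    exact Or.inr (Or.inr ⟨π, ⟨_, hR q, hy0, hπ, hP⟩, hP⟩)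

/-- scaling factors -/
noncomputable def rho (a : Fin r → ℚ) (x : (Σ i, Fin (N i)) → ℝ) (i : Fin r) : ℝ :=
  cr (B.F x i / a i)

noncomputable def mu (a : Fin r → ℚ) (x : (Σ i, Fin (N i)) → ℝ) (k : Fin s) : ℝ :=
  (∏ i, B.rho a x i ^ B.be (B.e k) i) / ∏ i, B.rho a x i ^ B.al k i

variable {B}

/-- the terms after scaling -/
theorem scale {a : Fin r → ℚ} {x : (Σ i, Fin (N i)) → ℝ}
    (h0 : ∀ i, B.rho a x i ≠ 0) (hF : ∀ i, B.F x i = a i * B.rho a x i ^ 3) (v : Fin s → ℝ)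
    (q : Fin g) : B.tm x (fun k => v k * B.mu a x k) q =
      fun k => (∏ i, B.rho a x i ^ B.be q i) ^ 3 * yv (B.dd a q) (hx 1 v) k := by
  have hP : ∀ t : Fin r → ℕ, ∏ i, B.F x i ^ t i =
      ((∏ i, a i ^ t i : ℚ) : ℝ) * (∏ i, B.rho a x i ^ t i) ^ 3 := by
    intro t
    rw [← Finset.prod_pow]
    push_cast
    rw [← Finset.prod_mul_distrib]
    refine Finset.prod_congr rfl fun i _ => ?_
    rw [hF i, mul_pow]
    ring
  have hne : ∀ (k : Fin s), ∏ i, B.rho a x i ^ B.al k i ≠ 0 := fun k =>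
    Finset.prod_ne_zero_iff.2 fun i _ => pow_ne_zero _ (h0 i)
  funext k
  refine Fin.cases ?_ (fun k => ?_) k
  · show -((B.c' q : ℝ) * ∏ i, B.F x i ^ B.be q i) = (∏ i, B.rho a x i ^ B.be q i) ^ 3 *
      (((-(B.c' q * ∏ i, a i ^ B.be q i) : ℚ) : ℝ) * (1 : ℝ) ^ 3)
    rw [hP]
    push_cast
    ring
  · show (if B.e k = q then (B.c k : ℝ) * (∏ i, B.F x i ^ B.al k i) * (v k * B.mu a x k) ^ 3
      else 0) = (∏ i, B.rho a x i ^ B.be q i) ^ 3 *
      (((if B.e k = q then B.c k * ∏ i, a i ^ B.al k i else 0 : ℚ) : ℝ) * v k ^ 3)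
    split_ifs with hk
    · rw [hP, mu, hk]
      have h1 := hne k
      push_cast
      field_simp
    · push_cast
      ring

theorem rho_F {a : Fin r → ℚ} (ha : ∀ i, a i ≠ 0) (x : (Σ i, Fin (N i)) → ℝ) (i : Fin r) :
    B.F x i = a i * B.rho a x i ^ 3 := by
  have ha' : (a i : ℝ) ≠ 0 := by exact_mod_cast ha i
  unfold rho
  rw [cr_pow]
  field_simp

theorem rho_ne {a : Fin r → ℚ} (ha : ∀ i, a i ≠ 0) {x : (Σ i, Fin (N i)) → ℝ}
    (hx1 : x ∈ Om B.f) (i : Fin r) : B.rho a x i ≠ 0 := by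
  have ha' : (a i : ℝ) ≠ 0 := by exact_mod_cast ha i
  exact cr_ne (div_ne_zero (hx1 i) ha')

/-- real points over `AT` of a good class are limits of rational points -/
theorem lift {a : Fin r → ℚ} (ha : a ∈ B.Dg) {x : (Σ i, Fin (N i)) → ℝ} (hx1 : x ∈ AT B.f a)
    {u : Fin s → ℝ} (hu : B.Eq x u) (hP : B.Pt (B.ty a) x u) : Sum.elim x u ∈ closure B.XQ := by
  obtain ⟨ha0, -⟩ := ha
  have hxO := AT_sub_Om B.f a hx1
  have hr0 := rho_ne ha0 hxO
  have hmu : ∀ k, B.mu a x k ≠ 0 := fun k =>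
    div_ne_zero (Finset.prod_ne_zero_iff.2 fun i _ => pow_ne_zero _ (hr0 i))
      (Finset.prod_ne_zero_iff.2 fun i _ => pow_ne_zero _ (hr0 i))
  obtain ⟨v, hv⟩ : ∃ v : Fin s → ℝ, v = fun k => u k / B.mu a x k := ⟨_, rfl⟩
  have huv : u = fun k => v k * B.mu a x k := by
    funext k
    rw [hv]
    show u k = u k / B.mu a x k * B.mu a x k
    rw [div_mul_cancel₀ _ (hmu k)]
  have hm' : ∀ q, (∏ i, B.rho a x i ^ B.be q i) ^ 3 ≠ 0 := fun q =>
    pow_ne_zero 3 (Finset.prod_ne_zero_iff.2 fun i _ => pow_ne_zero _ (hr0 i))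
  have hsc : ∀ q, B.tm x u q =
      fun k => (∏ i, B.rho a x i ^ B.be q i) ^ 3 * yv (B.dd a q) (hx 1 v) k := by
    intro q
    rw [huv]
    exact scale hr0 (rho_F ha0 x) v q
  -- the point of the fibre is a limit of rational points of each equation
  have hvc : ∀ q, v ∈ closure {w : Fin s → ℝ | hx 1 w ∈ RQ (B.dd a q)} := by
    intro q
    refine (slice (B.dd a q) v).2 ?_
    have hW : hx 1 v ∈ WR (B.dd a q) := by
      have h1 := hu q
      rw [hsc q, ← Finset.mul_sum] at h1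
      exact (mul_eq_zero.1 h1).resolve_left (hm' q)
    rcases dich_cone (B.dd a q) with h | h
    · rw [h]
      exact hW
    · rw [closure_spec _ h]
      rcases hP q with h1 | h1 | ⟨π, h1, h2⟩
      · have h2 : closure (RQ (B.dd a q)) = WR (B.dd a q) := h1
        rw [← h2, closure_spec _ h] at hW
        exact hW
      · left
        funext k
        have h2 := congrFun h1 k
        rw [hsc q] at h2
        exact (mul_eq_zero.1 h2).resolve_left (hm' q)
      · right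
        refine ⟨π, h1, fun k l => ?_⟩
        have h3 := h2 k l
        rw [hsc q] at h3
        refine mul_left_cancel₀ (hm' q) ?_
        linear_combination h3
  have hvc2 : v ∈ closure {w : Fin s → ℝ | IsRat w ∧ ∀ q, hx 1 w ∈ RQ (B.dd a q)} := by
    have h1 : (fun _ : Fin g => v) ∈ closure (Set.pi univ fun q =>
        {w : Fin s → ℝ | hx 1 w ∈ RQ (B.dd a q)}) := by
      rw [closure_pi_set]
      intro q _
      exact hvc q
    have hc : Continuous fun W : Fin g → (Fin s → ℝ) => (fun k => W (B.e k) k : Fin s → ℝ) :=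
      continuous_pi fun k => (continuous_apply k).comp (continuous_apply (B.e k))
    refine map_mem_closure hc h1 ?_
    intro W hW
    have hWr : ∀ q, IsRat (W q) := fun q => (isRat_hx.1 (hW q (mem_univ q)).1).2
    have hWr2 : IsRat (fun k => W (B.e k) k) := by
      refine isRat_iff.2 fun k => ?_
      exact isRat_iff.1 (hWr (B.e k)) k
    refine ⟨hWr2, fun q => ⟨isRat_hx.2 ⟨⟨1, by rw [Rat.cast_one]⟩, hWr2⟩, ?_⟩⟩
    rw [← (hW q (mem_univ q)).2, Fin.sum_univ_succ, Fin.sum_univ_succ]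
    congr 1
    refine Finset.sum_congr rfl fun k _ => ?_
    show ((if B.e k = q then B.c k * ∏ i, a i ^ B.al k i else 0 : ℚ) : ℝ) * W (B.e k) k ^ 3 =
      ((if B.e k = q then B.c k * ∏ i, a i ^ B.al k i else 0 : ℚ) : ℝ) * W q k ^ 3
    split_ifs with hk
    · rw [hk]
    · push_cast
      ring
  have hxc : x ∈ closure (TT B.f a) := AT_sub_closure B.f a hx1
  -- the scaling map
  let Φ : ((Σ i, Fin (N i)) → ℝ) × (Fin s → ℝ) → ((Σ i, Fin (N i)) ⊕ Fin s → ℝ) :=
    fun w => Sum.elim w.1 fun k => w.2 k * B.mu a w.1 k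
  have hrc : ∀ i, Continuous fun y : (Σ i, Fin (N i)) → ℝ => B.rho a y i := fun i =>
    continuous_cr.comp ((B.continuous_F i).div_const _)
  have hmc : ∀ k, ContinuousAt (fun y : (Σ i, Fin (N i)) → ℝ => B.mu a y k) x := by
    intro k
    refine ContinuousAt.div ?_ ?_ (Finset.prod_ne_zero_iff.2 fun i _ => pow_ne_zero _ (hr0 i))
    · exact (continuous_finsetProd _ fun i _ => (hrc i).pow _).continuousAt
    · exact (continuous_finsetProd _ fun i _ => (hrc i).pow _).continuousAt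
  have hΦ : ContinuousAt Φ (x, v) := by
    refine continuousAt_pi.2 fun q => ?_
    rcases q with q | k
    · exact ((continuous_apply q).comp continuous_fst).continuousAt
    · exact ((continuous_apply k).comp continuous_snd).continuousAt.mul
        (ContinuousAt.comp (f := fun w : ((Σ i, Fin (N i)) → ℝ) × (Fin s → ℝ) => w.1)
          (g := fun y => B.mu a y k) (x := (x, v)) (hmc k) continuous_fst.continuousAt)
  have hcl : (x, v) ∈ closure (TT B.f a ×ˢ {w : Fin s → ℝ | IsRat w ∧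
      ∀ q, hx 1 w ∈ RQ (B.dd a q)}) := by
    rw [closure_prod_eq]
    exact ⟨hxc, hvc2⟩
  have h2 := mem_closure_image hΦ hcl
  have h3 : Φ (x, v) = Sum.elim x u := by
    show Sum.elim x (fun k => v k * B.mu a x k) = Sum.elim x u
    rw [← huv]
  rw [h3] at h2
  refine closure_mono ?_ h2
  rintro _ ⟨⟨y, w⟩, ⟨hy, hw1, hw2⟩, rfl⟩
  have hy' : y ∈ AT B.f a := fun i => sqa_sub (B.f i) (ha0 i) (hy i)
  have hyO := AT_sub_Om B.f a hy'
  have hyr := rho_ne ha0 hyO
  refine ⟨hyO, ?_, ?_⟩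
  · intro q
    show ∑ k, B.tm y (fun k => w k * B.mu a y k) q k = 0
    rw [scale hyr (rho_F ha0 y) w q, ← Finset.mul_sum]
    have h4 := (hw2 q).2
    have h5 : ∑ k, yv (B.dd a q) (hx 1 w) k = 0 := h4
    rw [h5, mul_zero]
  · -- rationality
    have hyQ : ∀ p : (Σ i, Fin (N i)), IsQ (y p) := by
      rintro ⟨i, j⟩
      obtain ⟨t, q, -, -, h⟩ := hy i
      exact ⟨q j, congrFun h j⟩
    have hrQ : ∀ i, IsQ (B.rho a y i) := by
      intro i
      obtain ⟨t, q, ht, h, hb⟩ := hy i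
      refine ⟨t, ?_⟩
      have ha' : (a i : ℝ) ≠ 0 := by exact_mod_cast ha0 i
      unfold rho F
      rw [hb, aeval_rv, h]
      push_cast
      rw [mul_div_cancel_left₀ _ ha', cr_cube]
    have hpQ : ∀ t : Fin r → ℕ, IsQ (∏ i, B.rho a y i ^ t i) := by
      intro t
      choose c hc using hrQ
      exact ⟨∏ i, c i ^ t i, by push_cast; simp only [hc]⟩
    have hwQ : ∀ k, IsQ (w k) := isRat_iff.1 hw1
    have hall : ∀ p, IsQ (Φ (y, w) p) := by
      rintro (p | k)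
      · exact hyQ p
      · exact IsQ.mul (hwQ k) ((hpQ _).div (hpQ _))
    choose c hc using hall
    exact ⟨c, funext hc⟩

variable (B)

/-- the closure of the rational points over the complement of the zeros of the `f i` -/
theorem closure_XQ : ∃ (κ : (Fin g → Prop × Set (Fin (s + 1) → Fin 4)) → Type)
    (_ : ∀ τ, Finite (κ τ)) (d : ∀ τ, κ τ → (Fin r → ℚ)), (∀ τ j, ∀ i, d τ j i ≠ 0) ∧
    {z | z ∈ closure B.XQ ∧ (fun p => z (Sum.inl p)) ∈ Om B.f} =
      {z | B.Eq (fun p => z (Sum.inl p)) fun k => z (Sum.inr k)} ∩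
        ⋃ τ, ({z | B.Pt τ (fun p => z (Sum.inl p)) fun k => z (Sum.inr k)} ∩
          ⋃ j, {z | (fun p => z (Sum.inl p)) ∈ AT B.f (d τ j)}) := by
  have h := fun τ : Fin g → Prop × Set (Fin (s + 1) → Fin 4) =>
    closure_union B.deg {a | a ∈ B.Dg ∧ B.ty a = τ} (fun a ha => ha.1.1)
  choose κ hκ d hd he using h
  refine ⟨κ, hκ, d, fun τ j => (hd τ j).1.1, Subset.antisymm ?_ ?_⟩
  · rintro z ⟨hz, hO⟩
    have hc : Continuous fun z : (Σ i, Fin (N i)) ⊕ Fin s → ℝ =>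
        (fun p => z (Sum.inl p) : (Σ i, Fin (N i)) → ℝ) :=
      continuous_pi fun p => continuous_apply _
    refine ⟨closure_minimal (fun w hw => hw.2.1) B.eq_closed hz, ?_⟩
    have h1 : B.XQ ⊆ ⋃ τ, {z | (fun p => z (Sum.inl p)) ∈
        (⋃ a ∈ {a | a ∈ B.Dg ∧ B.ty a = τ}, TT B.f a) ∧
        B.Pt τ (fun p => z (Sum.inl p)) fun k => z (Sum.inr k)} := by
      intro w hw
      obtain ⟨a, ha, h2, h3⟩ := B.XQ_base hw
      exact mem_iUnion.2 ⟨B.ty a, mem_iUnion₂.2 ⟨a, ⟨ha, rfl⟩, h2⟩, h3⟩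
    have h2 := closure_mono h1 hz
    rw [closure_iUnion_of_finite] at h2
    obtain ⟨τ, h3⟩ := mem_iUnion.1 h2
    refine mem_iUnion.2 ⟨τ, closure_minimal (fun w hw => hw.2) (B.pt_closed τ) h3, ?_⟩
    have h4 : (fun p => z (Sum.inl p)) ∈ closure (⋃ a ∈ {a | a ∈ B.Dg ∧ B.ty a = τ}, TT B.f a) :=
      map_mem_closure hc h3 fun w hw => hw.1
    have h5 : (fun p => z (Sum.inl p)) ∈ {x | x ∈ closure (⋃ a ∈ {a | a ∈ B.Dg ∧ B.ty a = τ},
        TT B.f a) ∧ x ∈ Om B.f} := ⟨h4, hO⟩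
    rw [he τ] at h5
    obtain ⟨j, hj⟩ := mem_iUnion.1 h5
    exact mem_iUnion.2 ⟨j, hj⟩
  · rintro z ⟨hz, hA⟩
    obtain ⟨τ, hP, hA⟩ := mem_iUnion.1 hA
    obtain ⟨j, hj⟩ := mem_iUnion.1 hA
    refine ⟨?_, AT_sub_Om _ _ hj⟩
    have hty := (hd τ j).2
    have h1 := lift (hd τ j).1 hj hz (by rw [hty]; exact hP)
    have h2 : Sum.elim (fun p => z (Sum.inl p)) (fun k => z (Sum.inr k)) = z := by
      funext p
      rcases p with p | k <;> rfl
    rwa [h2] at h1

/-- the terms are polynomial -/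
theorem tm_poly (q : Fin g) (k : Fin (s + 1)) :
    ∃ P : MvPolynomial ((Σ i, Fin (N i)) ⊕ Fin s) ℝ, ∀ z,
      eval z P = B.tm (fun p => z (Sum.inl p)) (fun k => z (Sum.inr k)) q k := by
  let Fp : Fin r → MvPolynomial ((Σ i, Fin (N i)) ⊕ Fin s) ℝ := fun i =>
    map (algebraMap ℚ ℝ) (rename (fun j => Sum.inl ⟨i, j⟩) (B.f i))
  have hFp : ∀ i z, eval z (Fp i) = B.F (fun p => z (Sum.inl p)) i := by
    intro i z
    show eval z (map (algebraMap ℚ ℝ) (rename (fun j => Sum.inl ⟨i, j⟩) (B.f i))) = _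
    rw [eval_map, eval₂_rename]
    rfl
  refine Fin.cases ?_ (fun k => ?_) k
  · refine ⟨-(C (B.c' q : ℝ) * ∏ i, Fp i ^ B.be q i), fun z => ?_⟩
    show _ = -((B.c' q : ℝ) * ∏ i, B.F (fun p => z (Sum.inl p)) i ^ B.be q i)
    rw [map_neg, map_mul, map_prod, eval_C]
    simp only [map_pow, hFp]
  · by_cases h : B.e k = q
    · refine ⟨C (B.c k : ℝ) * (∏ i, Fp i ^ B.al k i) * (X (Sum.inr k)) ^ 3, fun z => ?_⟩
      show _ = if B.e k = q then (B.c k : ℝ) *
        (∏ i, B.F (fun p => z (Sum.inl p)) i ^ B.al k i) * z (Sum.inr k) ^ 3 else 0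
      rw [if_pos h, map_mul, map_mul, map_prod, map_pow, eval_C, eval_X]
      simp only [map_pow, hFp]
    · refine ⟨0, fun z => ?_⟩
      show _ = if B.e k = q then (B.c k : ℝ) *
        (∏ i, B.F (fun p => z (Sum.inl p)) i ^ B.al k i) * z (Sum.inr k) ^ 3 else 0
      rw [if_neg h, map_zero]

theorem eq_sc : SC {z : (Σ i, Fin (N i)) ⊕ Fin s → ℝ |
    B.Eq (fun p => z (Sum.inl p)) fun k => z (Sum.inr k)} := by
  choose P hP using B.tm_poly
  have hE : {z : (Σ i, Fin (N i)) ⊕ Fin s → ℝ |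
      B.Eq (fun p => z (Sum.inl p)) fun k => z (Sum.inr k)} =
      ⋂ q, {z | eval z (∑ k, P q k) = 0} := by
    ext z
    simp only [Eq, mem_ofPred_eq, mem_iInter, map_sum, hP]
  rw [hE]
  exact SC.iInter fun q => (Bsa.zero _).sc.toSC

theorem pt_sc (τ : Fin g → Prop × Set (Fin (s + 1) → Fin 4)) :
    SC {z : (Σ i, Fin (N i)) ⊕ Fin s → ℝ |
      B.Pt τ (fun p => z (Sum.inl p)) fun k => z (Sum.inr k)} := by
  choose P hP using B.tm_poly
  rw [B.pt_eq τ]
  refine SC.iInter fun q => SC.union ?_ (SC.union ?_ ?_)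
  · by_cases h : (τ q).1
    · convert (Bsa.univ (σ := (Σ i, Fin (N i)) ⊕ Fin s)).sc.toSC using 1
      ext z
      simp [h]
    · convert SC.empty (σ := (Σ i, Fin (N i)) ⊕ Fin s) using 1
      ext z
      simp [h]
  · refine SC.iInter fun k => ?_
    have := (Bsa.zero (P q k)).sc.toSC
    simpa only [hP] using this
  · refine SC.iUnion fun π => SC.iInter fun k => SC.iInter fun l => ?_
    have := (Bsa.zero (C (ent (π.1 l)) * P q k - C (ent (π.1 k)) * P q l)).sc.toSC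
    simpa only [map_sub, map_mul, eval_C, hP] using this

/-- the closure of the set of the rational points with all `f i` not zero -/
theorem fc_main : FC (closure B.XQ) := by
  obtain ⟨κ, hκ, d, hd, he⟩ := B.closure_XQ
  have h1 : SC {z | z ∈ closure B.XQ ∧ (fun p => z (Sum.inl p)) ∈ Om B.f} := by
    rw [he]
    refine B.eq_sc.inter (SC.iUnion fun τ => (B.pt_sc τ).inter ?_)
    have := hκ τ
    refine SC.iUnion fun j => ?_
    have := (AT_SC B.deg (hd τ j)).preimage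
      (fun p : (Σ i, Fin (N i)) => (X (Sum.inl p) : MvPolynomial ((Σ i, Fin (N i)) ⊕ Fin s) ℝ))
    simpa only [eval_X] using this
  refine h1.fc.sandwich (fun z hz => hz.1) ?_
  refine closure_mono ?_
  intro z hz
  exact ⟨subset_closure hz, hz.1⟩

end Qb

end Pool.Agent.CTW
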