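import Pool.Agent.CTW.Qe
import Pool.Agent.MZ.Main

/-!
# CTW module QF: all rational points of the cubic bundles

The points with `f_i = 0` exactly for `i ∈ I` form a product of sets of rational zeros of the `f_i`, `i ∈ I`, and of the set of the rational points with
nonzero values of a bundle of the same kind (some coefficients are replaced by zero); so the closure of the set of all rational points is a finite
union of connected sets.
-/

set_option autoImplicit false

open Set Topology Filter MvPolynomial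

namespace Pool.Agent.CTW

open Pool.Agent.MZ Pool.Agent.QS Pool.Agent.QTW

theorem fc_pi {ι : Type} [Finite ι] {X : ι → Type} [∀ i, TopologicalSpace (X i)]
    {S : ∀ i, Set (X i)} (h : ∀ i, FC (S i)) : FC {w : ∀ i, X i | ∀ i, w i ∈ S i} := by
  choose k D hD hS using h
  have e : {w : ∀ i, X i | ∀ i, w i ∈ S i} =
      ⋃ j : (∀ i, Fin (k i)), Set.pi univ fun i => D i (j i) := by
    ext w
    simp only [mem_ofPred_eq, mem_iUnion, mem_univ_pi]
    constructor
    · intro hw
      have h1 : ∀ i, ∃ j, w i ∈ D i j := by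
        intro i
        have h2 := hw i
        rw [hS i] at h2
        exact mem_iUnion.1 h2
      choose j hj using h1
      exact ⟨j, hj⟩
    · rintro ⟨j, hj⟩ i
      rw [hS i]
      exact mem_iUnion.2 ⟨j i, hj i⟩
  rw [e]
  exact FC.iUnion fun j => FC.of_preconnected (isPreconnected_univ_pi fun i => hD i (j i))

variable {r s g : ℕ} {N : Fin r → ℕ}

namespace Qb

variable (B : Qb r s g N)

/-- all rational points -/
def XA : Set ((Σ i, Fin (N i)) ⊕ Fin s → ℝ) :=
  {z | B.Eq (fun p => z (Sum.inl p)) (fun k => z (Sum.inr k)) ∧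
    ∃ y : (Σ i, Fin (N i)) ⊕ Fin s → ℚ, z = fun p => (y p : ℝ)}

/-- the rational points with `f i = 0` exactly for `i ∈ I` -/
def St (I : Finset (Fin r)) : Set ((Σ i, Fin (N i)) ⊕ Fin s → ℝ) :=
  {z | z ∈ B.XA ∧ ∀ i, B.F (fun p => z (Sum.inl p)) i = 0 ↔ i ∈ I}

open Classical in
/-- the bundle over the other factors -/
noncomputable def red (I : Finset (Fin r)) : Qb r s g N where
  f i := if i ∈ I then 1 else B.f i
  deg i := by
    by_cases h : i ∈ I
    · rw [if_pos h]
      simp
    · rw [if_neg h]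
      exact B.deg i
  e := B.e
  c k := if ∃ i ∈ I, B.al k i ≠ 0 then 0 else B.c k
  c' q := if ∃ i ∈ I, B.be q i ≠ 0 then 0 else B.c' q
  al := B.al
  be := B.be

open Classical in
/-- insert zeros of the `f i`, `i ∈ I` -/
noncomputable def ins (I : Finset (Fin r))
    (a : ((Σ i, Fin (N i)) ⊕ Fin s → ℝ) × (∀ i, Fin (N i) → ℝ)) :
    (Σ i, Fin (N i)) ⊕ Fin s → ℝ :=
  Sum.elim (fun p => if p.1 ∈ I then a.2 p.1 p.2 else a.1 (Sum.inl p))
    (fun q => a.1 (Sum.inr q))

theorem continuous_ins (I : Finset (Fin r)) :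
    Continuous (ins (N := N) (s := s) I) := by
  refine continuous_pi fun p => ?_
  rcases p with p | q
  · by_cases h : p.1 ∈ I
    · have e : (fun a => ins (N := N) (s := s) I a (Sum.inl p)) = fun a => a.2 p.1 p.2 := by
        funext a
        show (if p.1 ∈ I then a.2 p.1 p.2 else a.1 (Sum.inl p)) = _
        rw [if_pos h]
      rw [e]
      exact (continuous_apply p.2).comp ((continuous_apply p.1).comp continuous_snd)
    · have e : (fun a => ins (N := N) (s := s) I a (Sum.inl p)) = fun a => a.1 (Sum.inl p) := by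
        funext a
        show (if p.1 ∈ I then a.2 p.1 p.2 else a.1 (Sum.inl p)) = _
        rw [if_neg h]
      rw [e]
      exact (continuous_apply _).comp continuous_fst
  · have e : (fun a => ins (N := N) (s := s) I a (Sum.inr q)) = fun a => a.1 (Sum.inr q) := rfl
    rw [e]
    exact (continuous_apply _).comp continuous_fst

open Classical in
/-- the sets of rational zeros -/
noncomputable def Wz (I : Finset (Fin r)) (i : Fin r) : Set (Fin (N i) → ℝ) :=
  if i ∈ I then QZ (B.f i) else {0}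

theorem fc_Wz (I : Finset (Fin r)) (i : Fin r) : FC (closure (B.Wz I i)) := by
  unfold Wz
  by_cases h : i ∈ I
  · rw [if_pos h]
    exact MZ.fc_main _ _ (B.deg i)
  · rw [if_neg h]
    exact (FC.of_finite (Set.finite_singleton _)).closure

/-- values of the other `f i` -/
private theorem red_F {I : Finset (Fin r)} {i : Fin r} (h : i ∉ I)
    (x : (Σ i, Fin (N i)) → ℝ) : (B.red I).F x i = B.F x i := by
  show (aeval (blk x i) (if i ∈ I then (1 : MvPolynomial (Fin (N i)) ℚ) else B.f i) : ℝ) = _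
  rw [if_neg h]
  rfl

private theorem red_F1 {I : Finset (Fin r)} {i : Fin r} (h : i ∈ I)
    (x : (Σ i, Fin (N i)) → ℝ) : (B.red I).F x i = 1 := by
  show (aeval (blk x i) (if i ∈ I then (1 : MvPolynomial (Fin (N i)) ℚ) else B.f i) : ℝ) = _
  rw [if_pos h, map_one]

/-- the coefficients over the other factors -/
private theorem red_prod {I : Finset (Fin r)} {x x' : (Σ i, Fin (N i)) → ℝ}
    (hx1 : ∀ i, i ∉ I → blk x i = blk x' i) (h0 : ∀ i ∈ I, B.F x' i = 0) (t : Fin r → ℕ)
    (c : ℚ) : (c : ℝ) * ∏ i, B.F x' i ^ t i =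
      (((open Classical in if ∃ i ∈ I, t i ≠ 0 then 0 else c) : ℚ) : ℝ) *
        ∏ i, (B.red I).F x i ^ t i := by
  classical
  by_cases h : ∃ i ∈ I, t i ≠ 0
  · rw [if_pos h, Rat.cast_zero, zero_mul]
    obtain ⟨i, hi, hb⟩ := h
    have h1 : ∏ i, B.F x' i ^ t i = 0 := by
      refine Finset.prod_eq_zero (Finset.mem_univ i) ?_
      rw [h0 i hi]
      exact zero_pow hb
    rw [h1, mul_zero]
  · rw [if_neg h]
    congr 1
    refine Finset.prod_congr rfl fun i _ => ?_
    by_cases hi : i ∈ I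
    · have h4 : t i = 0 := by
        by_contra hne
        exact h ⟨i, hi, hne⟩
      rw [h4, pow_zero, pow_zero]
    · rw [B.red_F hi]
      unfold F
      rw [hx1 i hi]

/-- the terms over the other factors -/
private theorem red_tm {I : Finset (Fin r)} {x x' : (Σ i, Fin (N i)) → ℝ}
    (hx1 : ∀ i, i ∉ I → blk x i = blk x' i) (h0 : ∀ i ∈ I, B.F x' i = 0) (u : Fin s → ℝ)
    (q : Fin g) : B.tm x' u q = (B.red I).tm x u q := by
  funext k
  refine Fin.cases ?_ (fun k => ?_) k
  · show -((B.c' q : ℝ) * ∏ i, B.F x' i ^ B.be q i) =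
      -(((B.red I).c' q : ℝ) * ∏ i, (B.red I).F x i ^ B.be q i)
    rw [B.red_prod hx1 h0 (B.be q) (B.c' q)]
    rfl
  · show (if B.e k = q then (B.c k : ℝ) * (∏ i, B.F x' i ^ B.al k i) * u k ^ 3 else 0) =
      if B.e k = q then ((B.red I).c k : ℝ) * (∏ i, (B.red I).F x i ^ B.al k i) * u k ^ 3 else 0
    rw [B.red_prod hx1 h0 (B.al k) (B.c k)]
    rfl

private theorem red_om {I : Finset (Fin r)} {x : (Σ i, Fin (N i)) → ℝ} :
    x ∈ Om (B.red I).f ↔ ∀ i, i ∉ I → B.F x i ≠ 0 := by
  constructor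
  · intro h i hi
    rw [← B.red_F hi]
    exact h i
  · intro h i
    show (B.red I).F x i ≠ 0
    by_cases hi : i ∈ I
    · rw [B.red_F1 hi]
      exact one_ne_zero
    · rw [B.red_F hi]
      exact h i hi

private theorem ins_blk {I : Finset (Fin r)}
    (a : ((Σ i, Fin (N i)) ⊕ Fin s → ℝ) × (∀ i, Fin (N i) → ℝ)) (i : Fin r) :
    blk (fun p => ins I a (Sum.inl p)) i =
      if i ∈ I then a.2 i else blk (fun p => a.1 (Sum.inl p)) i := by
  funext j
  by_cases h : i ∈ I
  · rw [if_pos h]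
    show (if i ∈ I then a.2 i j else a.1 (Sum.inl ⟨i, j⟩)) = _
    rw [if_pos h]
  · rw [if_neg h]
    show (if i ∈ I then a.2 i j else a.1 (Sum.inl ⟨i, j⟩)) = _
    rw [if_neg h]
    rfl

theorem ins_mem {I : Finset (Fin r)}
    {a : ((Σ i, Fin (N i)) ⊕ Fin s → ℝ) × (∀ i, Fin (N i) → ℝ)} (h1 : a.1 ∈ (B.red I).XQ)
    (h2 : ∀ i, a.2 i ∈ B.Wz I i) : ins I a ∈ B.St I := by
  obtain ⟨ho, he, y, hy⟩ := h1
  have hz : ∀ i ∈ I, ∃ q : Fin (N i) → ℚ, eval q (B.f i) = 0 ∧ a.2 i = rv q := by
    intro i hi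
    have h3 := h2 i
    unfold Wz at h3
    rw [if_pos hi] at h3
    exact h3
  have hF0 : ∀ i ∈ I, B.F (fun p => ins I a (Sum.inl p)) i = 0 := by
    intro i hi
    obtain ⟨q, hq, hq2⟩ := hz i hi
    unfold F
    rw [ins_blk, if_pos hi, hq2, aeval_rv, hq, Rat.cast_zero]
  have hFn : ∀ i, i ∉ I → B.F (fun p => ins I a (Sum.inl p)) i ≠ 0 := by
    intro i hi
    have h3 := (B.red_om (I := I)).1 ho i hi
    unfold F at h3 ⊢
    rw [ins_blk, if_neg hi]
    exact h3
  refine ⟨⟨?_, ?_⟩, fun i => ⟨fun h => by_contra fun hi => hFn i hi h, hF0 i⟩⟩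
  · intro q
    have h3 := he q
    rw [← B.red_tm (I := I) (x := fun p => a.1 (Sum.inl p)) (x' := fun p => ins I a (Sum.inl p))
      (fun i hi => by rw [ins_blk, if_neg hi]) hF0] at h3
    exact h3
  · have hall : ∀ p, IsQ (ins I a p) := by
      rintro (p | q)
      · show IsQ (if p.1 ∈ I then a.2 p.1 p.2 else a.1 (Sum.inl p))
        split_ifs with h
        · obtain ⟨q, -, hq2⟩ := hz p.1 h
          rw [hq2]
          exact ⟨q p.2, rfl⟩
        · rw [hy]
          exact ⟨y (Sum.inl p), rfl⟩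
      · show IsQ (a.1 (Sum.inr q))
        rw [hy]
        exact ⟨y (Sum.inr q), rfl⟩
    choose c hc using hall
    exact ⟨c, funext hc⟩

theorem st_sub {I : Finset (Fin r)} {z : (Σ i, Fin (N i)) ⊕ Fin s → ℝ} (hz : z ∈ B.St I) :
    ∃ a : ((Σ i, Fin (N i)) ⊕ Fin s → ℝ) × (∀ i, Fin (N i) → ℝ), a.1 ∈ (B.red I).XQ ∧
      (∀ i, a.2 i ∈ B.Wz I i) ∧ ins I a = z := by
  classical
  obtain ⟨⟨he, y, hy⟩, h0⟩ := hz
  have hF0 : ∀ i ∈ I, B.F (fun p => z (Sum.inl p)) i = 0 := fun i hi => (h0 i).2 hi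
  refine ⟨⟨z, fun i => if i ∈ I then blk (fun p => z (Sum.inl p)) i else 0⟩,
    ⟨?_, ?_, y, hy⟩, ?_, ?_⟩
  · refine (B.red_om (I := I)).2 fun i hi h => ?_
    exact hi ((h0 i).1 h)
  · intro q
    have h3 := he q
    rw [B.red_tm (I := I) (x := fun p => z (Sum.inl p)) (fun _ _ => rfl) hF0] at h3
    exact h3
  · intro i
    show (if i ∈ I then blk (fun p => z (Sum.inl p)) i else 0) ∈ B.Wz I i
    unfold Wz
    by_cases hi : i ∈ I
    · rw [if_pos hi, if_pos hi]
      refine ⟨fun j => y (Sum.inl ⟨i, j⟩), ?_, ?_⟩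
      · have h4 := hF0 i hi
        have h5 : blk (fun p => z (Sum.inl p)) i = rv fun j => y (Sum.inl ⟨i, j⟩) := by
          rw [hy]
          rfl
        unfold F at h4
        rw [h5, aeval_rv] at h4
        exact_mod_cast h4
      · rw [hy]
        rfl
    · rw [if_neg hi, if_neg hi]
      rfl
  · funext p
    rcases p with ⟨i, j⟩ | q
    · show (if i ∈ I then (if i ∈ I then blk (fun p => z (Sum.inl p)) i else 0) j
        else z (Sum.inl ⟨i, j⟩)) = z (Sum.inl ⟨i, j⟩)
      split_ifs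
      · rfl
      · rfl
    · rfl

theorem fc_St (I : Finset (Fin r)) : FC (closure (B.St I)) := by
  have h1 : FC (ins (N := N) (s := s) I '' (closure (B.red I).XQ ×ˢ
      {w : ∀ i, Fin (N i) → ℝ | ∀ i, w i ∈ closure (B.Wz I i)})) :=
    ((B.red I).fc_main.prod (fc_pi (B.fc_Wz I))).image (continuous_ins I).continuousOn
  refine h1.sandwich ?_ ?_
  · rintro _ ⟨⟨z, w⟩, ⟨hz, hw⟩, rfl⟩
    have h2 : (z, w) ∈ closure ((B.red I).XQ ×ˢ
        {w : ∀ i, Fin (N i) → ℝ | ∀ i, w i ∈ B.Wz I i}) := by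
      rw [closure_prod_eq]
      refine ⟨hz, ?_⟩
      have h3 : w ∈ closure (Set.pi univ fun i => B.Wz I i) := by
        rw [closure_pi_set]
        intro i _
        exact hw i
      refine closure_mono ?_ h3
      intro v hv i
      exact hv i (mem_univ i)
    refine map_mem_closure (continuous_ins I) h2 ?_
    rintro ⟨z', w'⟩ ⟨hz', hw'⟩
    exact B.ins_mem hz' hw'
  · refine closure_mono ?_
    intro z hz
    obtain ⟨a, h2, h3, h4⟩ := B.st_sub hz
    exact ⟨a, ⟨subset_closure h2, fun i => subset_closure (h3 i)⟩, h4⟩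

/-- the closure of the set of all rational points -/
theorem fc_all : FC (closure B.XA) := by
  classical
  have e : B.XA = ⋃ I : Finset (Fin r), B.St I := by
    ext z
    rw [mem_iUnion]
    constructor
    · intro hz
      refine ⟨Finset.univ.filter fun i => B.F (fun p => z (Sum.inl p)) i = 0, hz, fun i => ?_⟩
      simp
    · rintro ⟨I, hz⟩
      exact hz.1
  rw [e, closure_iUnion_of_finite]
  exact FC.iUnion fun I => B.fc_St I

end Qb

end Pool.Agent.CTW
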