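import Pool.Agent.CTW.Qf

/-!
# CTW module QG: arbitrary cubic forms instead of cubes

`Y`: `∑_{k : e k = q} ∏ i, f i (x i) ^ al k i * F k (u k) = c' q * ∏ i, f i (x i) ^ be q i` with cubic forms `F k` is the image of the
system `∑ ∏ f^al * F k (u k) * v k ^ 3 = c' * ∏ f^be` under `(x, u, v) ↦ (x, v u)`.
-/

set_option autoImplicit false

open Set Topology Filter MvPolynomial

namespace Pool.Agent.CTW

open Pool.Agent.MZ

theorem fc_closure_image {X Y : Type*} [TopologicalSpace X] [TopologicalSpace Y] {S : Set X}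
    (h : FC (closure S)) {φ : X → Y} (hφ : Continuous φ) : FC (closure (φ '' S)) :=
  (h.image hφ.continuousOn).sandwich (image_closure_subset_closure_image hφ)
    (closure_mono (image_mono subset_closure))

theorem eval_smul_form {n : ℕ} {P : MvPolynomial (Fin n) ℚ} (hP : P.IsHomogeneous 3)
    (w : Fin n → ℚ) (t : ℚ) : eval (fun j => t * w j) P = eval w P * t ^ 3 := by
  rw [eval_eq, eval_eq, Finset.sum_mul]
  refine Finset.sum_congr rfl fun d hd => ?_
  have h1 : ∑ i ∈ d.support, d i = 3 := by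
    have h2 := hP (mem_support_iff.1 hd)
    rw [Finsupp.weight_apply] at h2
    simpa [Finsupp.sum] using h2
  simp_rw [mul_pow]
  rw [Finset.prod_mul_distrib, Finset.prod_pow_eq_pow_sum, h1]
  ring

/-- the landed theorem, index set `Fin r` -/
theorem fc_fin {r s g : ℕ} (N : Fin r → ℕ) (f : ∀ i, MvPolynomial (Fin (N i)) ℚ)
    (hf : ∀ i, (f i).totalDegree ≤ 3) (e : Fin s → Fin g) (c : Fin s → ℚ) (c' : Fin g → ℚ)
    (al : Fin s → Fin r → ℕ) (be : Fin g → Fin r → ℕ) :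
    FC (closure {z : (Σ i, Fin (N i)) ⊕ Fin s → ℝ |
      ∃ (x : ∀ i, Fin (N i) → ℚ) (u : Fin s → ℚ),
        (∀ q, ∑ k with e k = q, c k * (∏ i, eval (x i) (f i) ^ al k i) * u k ^ 3 =
          c' q * ∏ i, eval (x i) (f i) ^ be q i) ∧
        z = Sum.elim (fun p => (x p.1 p.2 : ℝ)) (fun k => (u k : ℝ))}) := by
  let B : Pool.Agent.CTW.Qb r s g N := ⟨f, hf, e, c, c', al, be⟩
  have hF : ∀ (y : (Σ i, Fin (N i)) ⊕ Fin s → ℚ) (i : Fin r),
      B.F (fun p => (y (Sum.inl p) : ℝ)) i =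
        ((eval (fun j => y (Sum.inl ⟨i, j⟩)) (f i) : ℚ) : ℝ) := by
    intro y i
    exact Pool.Agent.MZ.aeval_rv (f i) fun j => y (Sum.inl ⟨i, j⟩)
  have hE : ∀ (y : (Σ i, Fin (N i)) ⊕ Fin s → ℚ),
      B.Eq (fun p => (y (Sum.inl p) : ℝ)) (fun k => (y (Sum.inr k) : ℝ)) ↔
      ∀ q, ∑ k with e k = q, c k * (∏ i, eval (fun j => y (Sum.inl ⟨i, j⟩)) (f i) ^ al k i) *
        y (Sum.inr k) ^ 3 = c' q * ∏ i, eval (fun j => y (Sum.inl ⟨i, j⟩)) (f i) ^ be q i := by
    intro y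
    refine forall_congr' fun q => ?_
    rw [Finset.sum_filter, ← (Rat.cast_injective (α := ℝ)).eq_iff, Fin.sum_univ_succ]
    have h0 : B.tm (fun p => (y (Sum.inl p) : ℝ)) (fun k => (y (Sum.inr k) : ℝ)) q 0 =
        -((c' q * ∏ i, eval (fun j => y (Sum.inl ⟨i, j⟩)) (f i) ^ be q i : ℚ) : ℝ) := by
      show -((c' q : ℝ) * ∏ i, B.F (fun p => (y (Sum.inl p) : ℝ)) i ^ be q i) = _
      simp only [hF]
      push_cast
      rfl
    have h1 : ∀ k : Fin s, B.tm (fun p => (y (Sum.inl p) : ℝ)) (fun k => (y (Sum.inr k) : ℝ)) q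
        k.succ = (((if e k = q then c k *
          (∏ i, eval (fun j => y (Sum.inl ⟨i, j⟩)) (f i) ^ al k i) * y (Sum.inr k) ^ 3
          else 0) : ℚ) : ℝ) := by
      intro k
      show (if e k = q then (c k : ℝ) * (∏ i, B.F (fun p => (y (Sum.inl p) : ℝ)) i ^ al k i) *
        (y (Sum.inr k) : ℝ) ^ 3 else 0) = _
      split_ifs
      · simp only [hF]
        push_cast
        rfl
      · push_cast
        rfl
    rw [h0]
    simp only [h1]
    rw [← Rat.cast_sum]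
    constructor
    · intro h
      linarith
    · intro h
      linarith
  have hA : {z : (Σ i, Fin (N i)) ⊕ Fin s → ℝ |
      ∃ (x : ∀ i, Fin (N i) → ℚ) (u : Fin s → ℚ),
        (∀ q, ∑ k with e k = q, c k * (∏ i, eval (x i) (f i) ^ al k i) * u k ^ 3 =
          c' q * ∏ i, eval (x i) (f i) ^ be q i) ∧
        z = Sum.elim (fun p => (x p.1 p.2 : ℝ)) (fun k => (u k : ℝ))} = B.XA := by
    ext z
    constructor
    · rintro ⟨x, u, h2, rfl⟩
      have hy0 : (Sum.elim (fun p : (Σ i, Fin (N i)) => (x p.1 p.2 : ℝ)) (fun k => (u k : ℝ)) :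
          (Σ i, Fin (N i)) ⊕ Fin s → ℝ) =
          fun p => ((Sum.elim (fun p : (Σ i, Fin (N i)) => x p.1 p.2) u :
            (Σ i, Fin (N i)) ⊕ Fin s → ℚ) p : ℝ) := by
        funext p
        rcases p with p | k <;> rfl
      rw [hy0]
      exact ⟨(hE _).2 h2, _, rfl⟩
    · rintro ⟨h2, y, rfl⟩
      refine ⟨fun i j => y (Sum.inl ⟨i, j⟩), fun k => y (Sum.inr k), (hE y).1 h2, ?_⟩
      funext p
      rcases p with p | k <;> rfl
  rw [hA]
  exact B.fc_all

/-- any finite index set -/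
theorem fc_fintype {ι : Type} [Fintype ι] {s g : ℕ} (N : ι → ℕ)
    (f : ∀ i, MvPolynomial (Fin (N i)) ℚ)
    (hf : ∀ i, (f i).totalDegree ≤ 3) (e : Fin s → Fin g) (c : Fin s → ℚ) (c' : Fin g → ℚ)
    (al : Fin s → ι → ℕ) (be : Fin g → ι → ℕ) :
    FC (closure {z : (Σ i, Fin (N i)) ⊕ Fin s → ℝ |
      ∃ (x : ∀ i, Fin (N i) → ℚ) (u : Fin s → ℚ),
        (∀ q, ∑ k with e k = q, c k * (∏ i, eval (x i) (f i) ^ al k i) * u k ^ 3 =
          c' q * ∏ i, eval (x i) (f i) ^ be q i) ∧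
        z = Sum.elim (fun p => (x p.1 p.2 : ℝ)) (fun k => (u k : ℝ))}) := by
  obtain ⟨n, ⟨ε⟩⟩ : ∃ n, Nonempty (Fin n ≃ ι) := ⟨_, ⟨(Fintype.equivFin ι).symm⟩⟩
  have h := fc_fin (fun j => N (ε j)) (fun j => f (ε j)) (fun j => hf (ε j)) e c c'
    (fun k j => al k (ε j)) (fun q j => be q (ε j))
  let ψ : ((Σ j, Fin (N (ε j))) ⊕ Fin s → ℝ) → ((Σ i, Fin (N i)) ⊕ Fin s → ℝ) := fun z =>
    Sum.elim (fun p => z (Sum.inl ((Equiv.sigmaCongrLeft (β := fun i => Fin (N i)) ε).symm p)))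
      (fun k => z (Sum.inr k))
  have hψ : Continuous ψ := by
    refine continuous_pi ?_
    rintro (p | k)
    · exact continuous_apply _
    · exact continuous_apply _
  have hψ2 : ∀ (x : ∀ i, Fin (N i) → ℚ) (u : Fin s → ℚ),
      ψ (Sum.elim (fun p => (x (ε p.1) p.2 : ℝ)) (fun k => (u k : ℝ))) =
        Sum.elim (fun p => (x p.1 p.2 : ℝ)) (fun k => (u k : ℝ)) := by
    intro x u
    funext p
    rcases p with p | k
    · obtain ⟨p', rfl⟩ := (Equiv.sigmaCongrLeft (β := fun i => Fin (N i)) ε).surjective p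
      show (Sum.elim (fun p => (x (ε p.1) p.2 : ℝ)) (fun k => (u k : ℝ)) :
        (Σ j, Fin (N (ε j))) ⊕ Fin s → ℝ) (Sum.inl ((Equiv.sigmaCongrLeft
          (β := fun i => Fin (N i)) ε).symm ((Equiv.sigmaCongrLeft
          (β := fun i => Fin (N i)) ε) p'))) = _
      rw [Equiv.symm_apply_apply]
      rfl
    · rfl
  have hp : ∀ (x : ∀ i, Fin (N i) → ℚ) (b : ι → ℕ), ∏ j, eval (x (ε j)) (f (ε j)) ^ b (ε j) =
      ∏ i, eval (x i) (f i) ^ b i := fun x b =>
    Equiv.prod_comp ε fun i => eval (x i) (f i) ^ b i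
  have key := fc_closure_image h hψ
  convert key using 2
  ext z
  constructor
  · rintro ⟨x, u, h1, rfl⟩
    refine ⟨Sum.elim (fun p => (x (ε p.1) p.2 : ℝ)) (fun k => (u k : ℝ)),
      ⟨fun j => x (ε j), u, ?_, rfl⟩, hψ2 x u⟩
    intro q
    rw [hp x (be q), ← h1 q]
    refine Finset.sum_congr rfl fun k _ => ?_
    rw [hp x (al k)]
  · rintro ⟨_, ⟨x, u, h1, rfl⟩, rfl⟩
    obtain ⟨x', rfl⟩ : ∃ x' : ∀ i, Fin (N i) → ℚ, x = fun j => x' (ε j) :=
      ⟨Equiv.piCongrLeft (fun i => Fin (N i) → ℚ) ε x, by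
        funext j
        exact (Equiv.piCongrLeft_apply_apply (fun i => Fin (N i) → ℚ) ε x j).symm⟩
    refine ⟨x', u, ?_, hψ2 x' u⟩
    intro q
    have h2 := h1 q
    rw [hp x' (be q)] at h2
    rw [← h2]
    refine Finset.sum_congr rfl fun k _ => ?_
    rw [hp x' (al k)]

/-- arbitrary cubic forms -/
theorem fc_forms {r s g : ℕ} (N : Fin r → ℕ) (f : ∀ i, MvPolynomial (Fin (N i)) ℚ)
    (hf : ∀ i, (f i).totalDegree ≤ 3) (M : Fin s → ℕ) (F : ∀ k, MvPolynomial (Fin (M k)) ℚ)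
    (hF : ∀ k, (F k).IsHomogeneous 3) (e : Fin s → Fin g) (c' : Fin g → ℚ)
    (al : Fin s → Fin r → ℕ) (be : Fin g → Fin r → ℕ) :
    FC (closure {z : (Σ i, Fin (N i)) ⊕ (Σ k, Fin (M k)) → ℝ |
      ∃ (x : ∀ i, Fin (N i) → ℚ) (u : ∀ k, Fin (M k) → ℚ),
        (∀ q, ∑ k with e k = q, (∏ i, eval (x i) (f i) ^ al k i) * eval (u k) (F k) =
          c' q * ∏ i, eval (x i) (f i) ^ be q i) ∧
        z = Sum.elim (fun p => (x p.1 p.2 : ℝ)) (fun p => (u p.1 p.2 : ℝ))}) := by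
  classical
  let N' : Fin r ⊕ Fin s → ℕ := Sum.elim N M
  let f' : ∀ i : Fin r ⊕ Fin s, MvPolynomial (Fin (N' i)) ℚ := fun i =>
    match i with
    | Sum.inl i => f i
    | Sum.inr k => F k
  have hf' : ∀ i, (f' i).totalDegree ≤ 3 := by
    rintro (i | k)
    · exact hf i
    · exact (hF k).totalDegree_le
  have h := fc_fintype N' f' hf' e (fun _ => 1) c'
    (fun k => Sum.elim (al k) fun k' => if k' = k then 1 else 0)
    (fun q => Sum.elim (be q) fun _ => 0)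
  let φ : ((Σ i, Fin (N' i)) ⊕ Fin s → ℝ) → ((Σ i, Fin (N i)) ⊕ (Σ k, Fin (M k)) → ℝ) := fun z =>
    Sum.elim (fun p => z (Sum.inl ⟨Sum.inl p.1, p.2⟩))
      (fun p => z (Sum.inr p.1) * z (Sum.inl ⟨Sum.inr p.1, p.2⟩))
  have hφ : Continuous φ := by
    refine continuous_pi ?_
    rintro (p | p)
    · exact continuous_apply _
    · exact (continuous_apply _).mul (continuous_apply _)
  have hsc : ∀ (k : Fin s) (w : Fin (M k) → ℚ) (t : ℚ),
      eval (fun j => t * w j) (F k) = eval w (F k) * t ^ 3 := by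
    intro k w t
    exact eval_smul_form (hF k) w t
  have hprod : ∀ (x : ∀ i, Fin (N' i) → ℚ) (k : Fin s),
      ∏ i, eval (x i) (f' i) ^ (Sum.elim (al k) (fun k' => if k' = k then 1 else 0) :
        Fin r ⊕ Fin s → ℕ) i =
      (∏ i, eval (x (Sum.inl i)) (f i) ^ al k i) * eval (x (Sum.inr k)) (F k) := by
    intro x k
    rw [Fintype.prod_sum_type]
    congr 1
    rw [Finset.prod_eq_single k]
    · show eval (x (Sum.inr k)) (F k) ^ (if k = k then 1 else 0) = _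
      rw [if_pos rfl, pow_one]
    · intro k' _ hk
      show eval (x (Sum.inr k')) (F k') ^ (if k' = k then 1 else 0) = _
      rw [if_neg hk, pow_zero]
    · intro hk
      exact absurd (Finset.mem_univ k) hk
  have hprod2 : ∀ (x : ∀ i, Fin (N' i) → ℚ) (q : Fin g),
      ∏ i, eval (x i) (f' i) ^ (Sum.elim (be q) (fun _ => 0) : Fin r ⊕ Fin s → ℕ) i =
      ∏ i, eval (x (Sum.inl i)) (f i) ^ be q i := by
    intro x q
    rw [Fintype.prod_sum_type]
    have h1 : ∏ k : Fin s, eval (x (Sum.inr k)) (f' (Sum.inr k)) ^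
        (Sum.elim (be q) (fun _ => 0) : Fin r ⊕ Fin s → ℕ) (Sum.inr k) = 1 :=
      Finset.prod_eq_one fun k _ => pow_zero _
    rw [h1, mul_one]
    rfl
  have key := fc_closure_image h hφ
  convert key using 2
  ext z
  constructor
  · rintro ⟨x, u, h1, rfl⟩
    let x' : ∀ i : Fin r ⊕ Fin s, Fin (N' i) → ℚ := fun i =>
      match i with
      | Sum.inl i => x i
      | Sum.inr k => u k
    refine ⟨_, ⟨x', fun _ => 1, ?_, rfl⟩, ?_⟩
    · intro q
      rw [hprod2 x' q]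
      have h2 := h1 q
      refine Eq.trans ?_ h2
      refine Finset.sum_congr rfl fun k _ => ?_
      rw [hprod x' k, one_pow, mul_one, one_mul]
      rfl
    · funext p
      rcases p with p | p
      · rfl
      · show ((1 : ℚ) : ℝ) * (u p.1 p.2 : ℝ) = (u p.1 p.2 : ℝ)
        rw [Rat.cast_one, one_mul]
  · rintro ⟨_, ⟨x, v, h1, rfl⟩, rfl⟩
    refine ⟨fun i => x (Sum.inl i), fun k j => v k * x (Sum.inr k) j, ?_, ?_⟩
    · intro q
      have h2 := h1 q
      rw [hprod2 x q] at h2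
      refine Eq.trans ?_ h2
      refine Finset.sum_congr rfl fun k _ => ?_
      rw [hprod x k, one_mul, mul_assoc]
      exact congrArg _ (hsc k (x (Sum.inr k)) (v k))
    · funext p
      rcases p with p | p
      · rfl
      · show (v p.1 : ℝ) * (x (Sum.inr p.1) p.2 : ℝ) = ((v p.1 * x (Sum.inr p.1) p.2 : ℚ) : ℝ)
        push_cast
        rfl

end Pool.Agent.CTW
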