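import Pool.Agent.CTW.Swp

/-!
# CTW module RAN: if `Z` is thin then `cc` vanishes along new points

PROOF of `cc_of_thin`. Let `z = xp p x`, `jj p x ≠ 0` (so `F z ≠ 0`, `z ∈ Z`), `c4 z w = 0`, `c3 z w ≠ 0`, `F w ≠ 0`. The curve
`c s = xp p (x + s • u)` is continuous, `jj p (x + s u) ≠ 0` near `0`, so `c s ∈ Z` (`xp_mem`), its velocity is `dxp p x u`
(`hasDerivAt_xp`). If `cc z (dxp p x u) w ≠ 0` then `sweep` makes `w` an interior point: contradiction to `Thin`.

PROOF of `cc_dxp`. Let `z = xp p x` be good. Suppose `cc z (dxp p x u) w ≠ 0` for some `w`, and let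
`b w' = cc z (dxp p x u) w'` (a linear form, `b ≠ 0`; build it as `F z • T z v - T z z v • T z z`, or use
`cc_add_right`, `cc_smul_right`). For all `x'`: `c3 z x' * (jj z x' * b (xp z x')) = 0`: if `c3 z x' ≠ 0` and `jj z x' ≠ 0` then
`w' = xp z x'` has `c4 z w' = 0` (`c4_xp`), `c3 z w' ≠ 0` (`c3_xp`, `F z ≠ 0`), `F w' ≠ 0` (`F_xp`), so `b w' = 0` by
`cc_of_thin`. All factors are polynomial functions of `x'`; `z` is good, so `c3 z`, `jj z` are not identically zero
(`polyR_mul_eq_zero` twice, in QS/Uf.lean) and `b (xp z x') = 0` for all `x'`. But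
`b (xp z x') = c4 z x' * b z - 3 F z c3 z x' * b x'` and `b z = cc z v z = 0` (`cc_self'`), so `c3 z x' * b x' = 0` for all `x'`, so `b = 0`.
-/

set_option autoImplicit false

open Set Topology Filter MvPolynomial
open Pool.Agent.MZ Pool.Agent.QS

namespace Pool.Agent.CTW

namespace Cb

variable {m : ℕ} {C : Cb m}

theorem ran_line (x u : V m) : Continuous fun s : ℝ => x + s • u :=
  continuous_const.add (continuous_id.smul continuous_const)

theorem ran_pair (p x u : V m) : Continuous fun s : ℝ => ((p, x + s • u) : V m × V m) :=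
  continuous_const.prodMk (ran_line x u)

theorem ran_cont (p x u : V m) : Continuous ((fun z : V m × V m => C.xp z.1 z.2) ∘
    fun s : ℝ => ((p, x + s • u) : V m × V m)) :=
  Continuous.comp continuous_xp (ran_pair p x u)

theorem ran_cont2 (p x u : V m) : Continuous fun s : ℝ => C.xp p (x + s • u) := by
  have := ran_cont (C := C) p x u
  unfold Function.comp at this
  exact this

theorem ran_j (p x u : V m) : Continuous fun s : ℝ => C.jj p (x + s • u) :=
  (polyR_jj p).continuous.comp (ran_line x u)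

theorem ran_aux {w : V m} (hw : C.F w ≠ 0) {c : ℝ → V m} {v z : V m} (h1 : Continuous c)
    (h2 : HasDerivAt c v 0) (h0 : c 0 = z) (h3 : ∀ᶠ s in 𝓝 (0 : ℝ), c s ∈ C.Z) (h4 : C.F z ≠ 0)
    (h5 : C.c4 z w = 0) (h6 : C.c3 z w ≠ 0) (h7 : C.cc z v w ≠ 0) : C.Z ∈ 𝓝 w := by
  subst h0
  exact sweep h1 h2 h3 h4 hw h5 h6 h7

theorem cc_of_thin (hT : C.Thin) {p : V m} (hp : C.F p ≠ 0) (hpZ : p ∈ C.Z) {x : V m} (hj : C.jj p x ≠ 0)
    {w : V m} (h4 : C.c4 (C.xp p x) w = 0) (h3 : C.c3 (C.xp p x) w ≠ 0) (hw : C.F w ≠ 0) (u : V m) :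
    C.cc (C.xp p x) (C.dxp p x u) w = 0 := by
  by_contra hcc
  have e0 : C.xp p (x + (0 : ℝ) • u) = C.xp p x := by rw [zero_smul, add_zero]
  have hc := ran_cont2 (C := C) p x u
  have hjc := ran_j (C := C) p x u
  have hZ : ∀ᶠ s in 𝓝 (0 : ℝ), C.xp p (x + s • u) ∈ C.Z := by
    have h1 : ∀ᶠ s in 𝓝 (0 : ℝ), C.jj p (x + s • u) ≠ 0 := by
      apply hjc.continuousAt.eventually_ne
      rw [zero_smul, add_zero]
      exact hj
    filter_upwards [h1] with s hs
    exact xp_mem hpZ hs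
  have hF : C.F (C.xp p x) ≠ 0 := by
    rw [F_xp]
    exact mul_ne_zero hp (pow_ne_zero _ hj)
  exact hT w hw (ran_aux hw hc (hasDerivAt_xp p x u) e0 hZ hF h4 h3 hcc)

theorem cc_dxp (hT : C.Thin) {p : V m} (hp : C.F p ≠ 0) (hpZ : p ∈ C.Z) {x : V m} (hj : C.jj p x ≠ 0)
    (hg : C.Good (C.xp p x)) (u w : V m) : C.cc (C.xp p x) (C.dxp p x u) w = 0 := by
  have hF : C.F (C.xp p x) ≠ 0 := by
    rw [F_xp]
    exact mul_ne_zero hp (pow_ne_zero _ hj)
  have hran := fun (w' : V m) h4 h3 hw => cc_of_thin (w := w') hT hp hpZ hj h4 h3 hw u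
  generalize C.dxp p x u = v at hran ⊢
  generalize C.xp p x = z at hF hran hg ⊢
  obtain ⟨x₀, hx3, hxj⟩ := hg
  have hprod : ∀ x', C.c3 z x' * (C.jj z x' * (C.c3 z x' * C.cc z v x')) = 0 := by
    intro x'
    by_cases h3 : C.c3 z x' = 0
    · rw [h3, zero_mul]
    by_cases hj' : C.jj z x' = 0
    · rw [hj', zero_mul, mul_zero]
    have h1 := hran (C.xp z x') (c4_xp z x') (by
      rw [c3_xp]
      exact mul_ne_zero (mul_ne_zero (by norm_num) (pow_ne_zero _ hF)) (pow_ne_zero _ h3)) (by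
      rw [F_xp]
      exact mul_ne_zero hF (pow_ne_zero _ hj'))
    have e1 : C.xp z x' = C.c4 z x' • z + (-(3 * C.F z * C.c3 z x')) • x' := by
      rw [xp, neg_smul, sub_eq_add_neg]
    rw [e1, cc_add_right, cc_smul_right, cc_smul_right, cc_self', mul_zero, zero_add] at h1
    have h2 : C.c3 z x' * C.cc z v x' = 0 := by
      have h5 : (3 * C.F z) * (C.c3 z x' * C.cc z v x') = 0 := by linarith
      exact (mul_eq_zero.1 h5).resolve_left (mul_ne_zero (by norm_num) hF)
    rw [h2, mul_zero, mul_zero]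
  have hcc : PolyR m fun x' => C.cc z v x' := by
    have hz : ∀ i, PolyR m fun _ => z i := fun i => PolyR.const _
    have hv : ∀ i, PolyR m fun _ => v i := fun i => PolyR.const _
    have hx : ∀ i, PolyR m fun x => x i := fun i => PolyR.coord i
    exact ((PolyR.const (m := m) (C.F z)).mul (polyR_T hz hv hx)).sub
      ((PolyR.const (m := m) (C.T z z v)).mul (polyR_T hz hz hx))
  rcases polyR_mul_eq_zero (polyR_c3 z) ((polyR_jj z).mul ((polyR_c3 z).mul hcc)) hprod with h | h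
  · exact absurd (h x₀) hx3
  rcases polyR_mul_eq_zero (polyR_jj z) ((polyR_c3 z).mul hcc) h with h | h
  · exact absurd (h x₀) hxj
  rcases polyR_mul_eq_zero (polyR_c3 z) hcc h with h | h
  · exact absurd (h x₀) hx3
  exact h w

end Cb

end Pool.Agent.CTW
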