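import Pool.Agent.CTW.Clo

/-!
# CTW module SWP: sweeping

PROOF of `sweep`. Put `z = z₀ = c 0`, `h s w' = c4 (c s) w' = F(c s)² F(w') - T(c s, c s, w')³`. The derivative of `s ↦ h s w` at
`0` is `6 F z T z z v F w - 6 (T z z w)² T z v w` (`hasDerivAt_comp`); with `F(z)² F(w) = T(z,z,w)³` this is
`- 6 (T z z w)² / F z * cc z v w ≠ 0` (`T z z w ≠ 0` since `F w ≠ 0`). So `h s w` changes sign at `s = 0`: there are `s₁ < 0 < s₂` as small as
we like with `h s₁ w`, `h s₂ w` of opposite signs (and `c s ∈ Z` for `s ∈ [s₁, s₂]`, `c3 (c s) w' ≠ 0` for `s` there and `w'` near `w`).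
By continuity the signs are the same for `w'` near `w`, so by the intermediate value theorem (`c` is continuous near `0`)
there is `s` with `h s w' = 0`; `mem_of_c4` gives `w' ∈ Z` (also `F (c s) ≠ 0`, `F w' ≠ 0` for `s`, `w'` near).
-/

set_option autoImplicit false

open Set Topology Filter MvPolynomial
open Pool.Agent.MZ Pool.Agent.QS

namespace Pool.Agent.CTW

/-- a function with a simple zero at `0` changes sign there -/
private theorem swp_sign {h : ℝ → ℝ} {D : ℝ} (hd : HasDerivAt h D 0) (h0 : h 0 = 0) (hD : D ≠ 0)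
    {ε : ℝ} (hε : 0 < ε) :
    ∃ s₁ s₂ : ℝ, -ε < s₁ ∧ s₁ < 0 ∧ 0 < s₂ ∧ s₂ < ε ∧ h s₁ * h s₂ < 0 := by
  have h1 := hasDerivAt_iff_tendsto_slope.1 hd
  have h2 : Tendsto (fun s => slope h 0 s * D) (𝓝[≠] 0) (𝓝 (D * D)) := h1.mul_const D
  have h3 : 0 < D * D := mul_self_pos.2 hD
  have h4 := h2.eventually (eventually_gt_nhds h3)
  rw [eventually_nhdsWithin_iff, Metric.eventually_nhds_iff] at h4
  obtain ⟨δ, hδ, h5⟩ := h4
  have key : ∀ s : ℝ, s ≠ 0 → |s| < δ → 0 < s⁻¹ * h s * D := by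
    intro s hs hsδ
    have h6 := h5 (y := s) (by rwa [Real.dist_eq, sub_zero]) hs
    rw [slope_def_field, h0, sub_zero, sub_zero] at h6
    have e : s⁻¹ * h s * D = h s / s * D := by ring
    rw [e]
    exact h6
  set s := min δ ε / 2 with hs
  have hm : 0 < min δ ε := lt_min hδ hε
  have hs0 : 0 < s := by positivity
  have hsδ : s < δ := by
    have := min_le_left δ ε
    linarith
  have hsε : s < ε := by
    have := min_le_right δ ε
    linarith
  refine ⟨-s, s, by linarith, by linarith, hs0, hsε, ?_⟩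
  have h6 := key s hs0.ne' (by rw [abs_of_pos hs0]; exact hsδ)
  have h7 := key (-s) (by linarith : -s < 0).ne (by rw [abs_neg, abs_of_pos hs0]; exact hsδ)
  have h8 : 0 < (s⁻¹ * h s * D) * ((-s)⁻¹ * h (-s) * D) := mul_pos h6 h7
  have e : (s⁻¹ * h s * D) * ((-s)⁻¹ * h (-s) * D) = -((s⁻¹ * D) ^ 2 * (h (-s) * h s)) := by
    rw [inv_neg]
    ring
  rw [e] at h8
  have h9 : 0 < (s⁻¹ * D) ^ 2 := by positivity
  by_contra h10
  have h11 : 0 ≤ h (-s) * h s := not_lt.1 h10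
  have := mul_nonneg h9.le h11
  linarith

namespace Cb

variable {m : ℕ} {C : Cb m}

private theorem swp_c4 {X : Type*} [TopologicalSpace X] {a b : X → V m} (ha : Continuous a)
    (hb : Continuous b) : Continuous fun x => C.c4 (a x) (b x) :=
  (((continuous_comp ha ha ha).pow 2).mul (continuous_comp hb hb hb)).sub
    ((continuous_comp ha ha hb).pow 3)

private theorem swp_c3 {X : Type*} [TopologicalSpace X] {a b : X → V m} (ha : Continuous a)
    (hb : Continuous b) : Continuous fun x => C.c3 (a x) (b x) :=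
  ((continuous_comp ha ha ha).mul (continuous_comp ha hb hb)).sub
    ((continuous_comp ha ha hb).pow 2)

private theorem swp_F {X : Type*} [TopologicalSpace X] {a : X → V m} (ha : Continuous a) :
    Continuous fun x => C.F (a x) := continuous_comp ha ha ha

/-- the derivative of `s ↦ c4 (c s) w` at `0` does not vanish -/
private theorem swp_der {c : ℝ → V m} {v : V m} (hd : HasDerivAt c v 0) (h0 : C.F (c 0) ≠ 0)
    {w : V m} (hw : C.F w ≠ 0) (h4 : C.c4 (c 0) w = 0) (hcc : C.cc (c 0) v w ≠ 0) :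
    ∃ D : ℝ, D ≠ 0 ∧ HasDerivAt (fun s => C.c4 (c s) w) D 0 := by
  have hdF : HasDerivAt (fun s => C.T (c s) (c s) (c s))
      (C.T v (c 0) (c 0) + C.T (c 0) v (c 0) + C.T (c 0) (c 0) v) 0 := hasDerivAt_comp hd hd hd
  have hdL : HasDerivAt (fun s => C.T (c s) (c s) w)
      (C.T v (c 0) w + C.T (c 0) v w + C.T (c 0) (c 0) 0) 0 :=
    hasDerivAt_comp (c := fun _ => w) hd hd (hasDerivAt_const 0 w)
  have hdh := ((hdF.pow 2).mul_const (C.F w)).sub (hdL.pow 3)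
  refine ⟨_, ?_, hdh⟩
  intro hD
  apply hcc
  have hL3 : (C.T (c 0) (c 0) w) ^ 3 = (C.F (c 0)) ^ 2 * C.F w := by
    have h5 := h4
    unfold c4 at h5
    linarith
  have hL : C.T (c 0) (c 0) w ≠ 0 := by
    intro h5
    rw [h5] at hL3
    exact mul_ne_zero (pow_ne_zero 2 h0) hw (by rw [← hL3]; norm_num)
  have e1 : C.T v (c 0) (c 0) = C.T (c 0) (c 0) v := by rw [C.s₁ v (c 0) (c 0), C.s₂ (c 0) v (c 0)]
  have e2 : C.T (c 0) v (c 0) = C.T (c 0) (c 0) v := C.s₂ _ _ _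
  have e3 : C.T v (c 0) w = C.T (c 0) v w := C.s₁ _ _ _
  have e4 : C.T (c 0) (c 0) 0 = 0 := map_zero _
  rw [e1, e2, e3, e4] at hD
  unfold cc F at *
  set Fz := C.T (c 0) (c 0) (c 0)
  set Lw := C.T (c 0) (c 0) w
  set Lv := C.T (c 0) (c 0) v
  set B := C.T (c 0) v w
  set Fw := C.T w w w
  have h6 : -(6 * Lw ^ 2) * (Fz * B - Lv * Lw) = 0 := by
    have h7 : Fz * (6 * Fz * Lv * Fw - 6 * Lw ^ 2 * B) = 0 := by
      have h8 : 6 * Fz * Lv * Fw - 6 * Lw ^ 2 * B = 0 := by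
        have h9 := hD
        norm_num at h9
        linarith
      rw [h8, mul_zero]
    have h10 : Fz * (6 * Fz * Lv * Fw - 6 * Lw ^ 2 * B) =
        6 * Lv * (Fz ^ 2 * Fw) - 6 * Lw ^ 2 * (Fz * B) := by ring
    rw [h10, ← hL3] at h7
    linarith
  rcases mul_eq_zero.1 h6 with h7 | h7
  · exfalso
    apply hL
    have : Lw ^ 2 = 0 := by linarith
    exact pow_eq_zero_iff (two_ne_zero) |>.1 this
  · exact h7

theorem sweep {c : ℝ → V m} (hc : Continuous c) {v : V m} (hd : HasDerivAt c v 0)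
    (hZ : ∀ᶠ s in 𝓝 (0 : ℝ), c s ∈ C.Z) (h0 : C.F (c 0) ≠ 0) {w : V m} (hw : C.F w ≠ 0)
    (h4 : C.c4 (c 0) w = 0) (h3 : C.c3 (c 0) w ≠ 0) (hcc : C.cc (c 0) v w ≠ 0) : C.Z ∈ 𝓝 w := by
  obtain ⟨D, hD, hdh⟩ := swp_der hd h0 hw h4 hcc
  -- the good parameters
  have hc1 : Continuous fun z : ℝ × V m => c z.1 := hc.comp continuous_fst
  have g3 : ∀ᶠ z : ℝ × V m in 𝓝 (0, w), C.c3 (c z.1) z.2 ≠ 0 :=
    (swp_c3 (C := C) hc1 continuous_snd).continuousAt.eventually_ne h3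
  have g1 : ∀ᶠ z : ℝ × V m in 𝓝 (0, w), C.F (c z.1) ≠ 0 :=
    (swp_F (C := C) hc1).continuousAt.eventually_ne h0
  have g2 : ∀ᶠ z : ℝ × V m in 𝓝 (0, w), C.F z.2 ≠ 0 :=
    (swp_F (C := C) continuous_snd).continuousAt.eventually_ne hw
  have g4 : ∀ᶠ z : ℝ × V m in 𝓝 (0, w), c z.1 ∈ C.Z :=
    (continuous_fst.tendsto (0, w)).eventually hZ
  have g := (g1.and g2).and (g3.and g4)
  rw [nhds_prod_eq] at g
  obtain ⟨P, hP, Q, hQ, hPQ⟩ := Filter.eventually_prod_iff.1 g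
  obtain ⟨ε, hε, hPε⟩ := Metric.eventually_nhds_iff.1 hP
  obtain ⟨s₁, s₂, hs1, hs1', hs2', hs2, hneg⟩ := swp_sign hdh h4 hD hε
  -- the sign change for the points near `w`
  have hc4 : ∀ s : ℝ, Continuous fun w' : V m => C.c4 (c s) w' := fun s =>
    swp_c4 (C := C) continuous_const continuous_id
  have hneg' : ∀ᶠ w' : V m in 𝓝 w, C.c4 (c s₁) w' * C.c4 (c s₂) w' < 0 :=
    (((hc4 s₁).mul (hc4 s₂)).tendsto w).eventually (eventually_lt_nhds hneg)
  filter_upwards [hneg', hQ] with w' hw1 hw2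
  have hcs : Continuous fun s : ℝ => C.c4 (c s) w' := swp_c4 (C := C) hc continuous_const
  have hiv := intermediate_value_uIcc (a := s₁) (b := s₂) hcs.continuousOn
  have h00 : (0 : ℝ) ∈ uIcc (C.c4 (c s₁) w') (C.c4 (c s₂) w') := by
    rw [Set.mem_uIcc]
    rcases mul_neg_iff.1 hw1 with ⟨ha, hb⟩ | ⟨ha, hb⟩
    · exact Or.inr ⟨hb.le, ha.le⟩
    · exact Or.inl ⟨ha.le, hb.le⟩
  obtain ⟨s, hs, hs0⟩ := hiv h00
  rw [Set.uIcc_of_le (by linarith)] at hs
  have hPs : P s := by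
    apply hPε
    rw [Real.dist_eq, sub_zero, abs_lt]
    exact ⟨by linarith [hs.1], by linarith [hs.2]⟩
  have hg := hPQ hPs hw2
  exact mem_of_c4 hg.1.1 hg.2.2 hs0 hg.2.1 hg.1.2

end Cb

end Pool.Agent.CTW
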